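import Pool.Agent.helper58.CRO.Defs

/-!
# MP_5bf3c3_gt, block A: flows, Hamiltonian flows, the Kazdan type inequality

Paper proof of the whole theorem: Pool/Agent/helper58/CRO/PROOF.md (sections 0 and 1 here).
Every `XX_stmt` is one row `cro:XX`; its complete proof is in its docstring. Rows use other rows only
as hypotheses.
-/

open scoped Manifold ContDiff Topology ENNReal
open MeasureTheory Set

noncomputable section

namespace Pool.Agent.CRO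

/-! ## Flows of vector fields -/

/-- `Φ` is the complete flow of the vector field `f`. -/
structure IsFlow {F : Type} [NormedAddCommGroup F] [NormedSpace ℝ F] (f : F → F)
    (Φ : ℝ → F → F) : Prop where
  zero : ∀ x, Φ 0 x = x
  ode : ∀ x t, HasDerivAt (fun s => Φ s x) (f (Φ t x)) t
  add : ∀ s t x, Φ (s + t) x = Φ s (Φ t x)
  cont : Continuous fun q : ℝ × F => Φ q.1 q.2

/-- A flow which is differentiable in the initial condition, with the variational equation. -/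
structure IsC1Flow {F : Type} [NormedAddCommGroup F] [NormedSpace ℝ F] (f : F → F)
    (Φ : ℝ → F → F) : Prop extends IsFlow f Φ where
  diff : ∀ t x, DifferentiableAt ℝ (Φ t) x
  var : ∀ x t, HasDerivAt (fun s => fderiv ℝ (Φ s) x)
    ((fderiv ℝ f (Φ t x)).comp (fderiv ℝ (Φ t) x)) t
  dcont : Continuous fun q : ℝ × F => fderiv ℝ (Φ q.1) q.2

/-- FLX (medium). Existence of the flow. Proof: `f` is bounded by some `C` and globally Lipschitz
(compactly supported `C^1`, so its derivative is bounded; F finite dimensional). For every `x` and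
`T > 0` Picard-Lindelof (`IsPicardLindelof` with `t0 = 0`, `tmin = -T`, `tmax = T`, radius
`a = C T + 1`, `r = 0`: the only condition is `C T ≤ a`) gives a solution on `[-T, T]`; solutions on
different intervals agree (`ODE_solution_unique`), so there is a solution `t ↦ Φ t x` on `ℝ`. Group
law: both sides solve the equation in `s` with the same value at `s = 0`. Joint continuity:
`‖Φ t x - Φ t y‖ ≤ exp(K |t|) ‖x - y‖` (Gronwall, `dist_le_of_trajectories_ODE`; for negative times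
use `t ↦ Φ (-t) x`, a solution for `-f`) and continuity in `t`. -/
def FLX_stmt : Prop :=
  ∀ (F : Type) [NormedAddCommGroup F] [NormedSpace ℝ F] [FiniteDimensional ℝ F] (f : F → F),
    ContDiff ℝ 1 f → HasCompactSupport f → ∃ Φ : ℝ → F → F, IsFlow f Φ

/-- LIN (medium). Linear equations have global solutions. Proof: let `K ≥ ‖A t‖` on
`[-T, T]` and `τ = 1/(2K+1)`. For every `t0 ∈ [-T, T]` and every `Y0` Picard-Lindelof on
`[t0 - τ, t0 + τ] ∩ [-T,T]` with radius `a = ‖Y0‖ + 1` (bound of the right-hand side `K (‖Y0‖ + a)`,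
and `τ K (2 a) ≤ a`) gives a solution; finitely many steps reach `±T` (glue with uniqueness).
Alternatively: Picard iteration / the Dyson series, or a fixed point in `C([-T,T])` with a weighted
norm. Then let `T → ∞` using uniqueness. -/
def LIN_stmt : Prop :=
  ∀ (F : Type) [NormedAddCommGroup F] [NormedSpace ℝ F] [FiniteDimensional ℝ F]
    (A : ℝ → F →L[ℝ] F), Continuous A →
    ∃ Y : ℝ → F →L[ℝ] F, Y 0 = ContinuousLinearMap.id ℝ F ∧
      ∀ t, HasDerivAt Y ((A t).comp (Y t)) t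

/-- DIF (medium). Differentiability of the flow. Proof: `D f` is bounded by `K` and Lipschitz with
constant `L` (compactly supported `C^2`). Let `h` be small, `z(t) = Φ t (x+h) - Φ t x - Y(t) h`. Then
`z(0) = 0` and `z' = f(Φ t (x+h)) - f(Φ t x) - Df(Φ t x) Y h = Df(Φ t x) z + ρ(t)` with
`‖ρ(t)‖ ≤ L ‖Φ t (x+h) - Φ t x‖^2 ≤ L exp(2K|t|) ‖h‖^2` (Taylor with Lipschitz derivative and
Gronwall). Gronwall again: `‖z(t)‖ ≤ C(t) ‖h‖^2`. -/
def DIF_stmt : Prop :=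
  ∀ (F : Type) [NormedAddCommGroup F] [NormedSpace ℝ F] [FiniteDimensional ℝ F] (f : F → F)
    (Φ : ℝ → F → F), ContDiff ℝ 2 f → HasCompactSupport f → IsFlow f Φ →
    ∀ (x : F) (Y : ℝ → F →L[ℝ] F), Y 0 = ContinuousLinearMap.id ℝ F →
      (∀ t, HasDerivAt Y ((fderiv ℝ f (Φ t x)).comp (Y t)) t) →
      ∀ t, HasFDerivAt (Φ t) (Y t) x

/-- DCT (medium). Joint continuity of the derivative of the flow. Proof: write
`Y(t,x) = fderiv (Φ t) x`, `A_x(t) = fderiv f (Φ t x)` (jointly continuous, bounded by `K`). For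
`x' → x` the difference `Z = Y(.,x') - Y(.,x)` satisfies `Z(0) = 0` and
`Z' = A_{x'} Z + (A_{x'} - A_x) Y(.,x)`; on `[-T,T]` we have `‖Y(t,x)‖ ≤ exp(KT)` and
`sup_{|t| ≤ T} ‖A_{x'}(t) - A_x(t)‖ → 0` (uniform continuity on compacts), so Gronwall gives
`sup_{|t| ≤ T} ‖Z(t)‖ → 0`. With continuity in `t` this is joint continuity. -/
def DCT_stmt : Prop :=
  ∀ (F : Type) [NormedAddCommGroup F] [NormedSpace ℝ F] [FiniteDimensional ℝ F] (f : F → F)
    (Φ : ℝ → F → F), ContDiff ℝ 2 f → HasCompactSupport f → IsFlow f Φ →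
    (∀ x t, HasDerivAt (fun s => fderiv ℝ (Φ s) x)
      ((fderiv ℝ f (Φ t x)).comp (fderiv ℝ (Φ t) x)) t) →
    Continuous fun q : ℝ × F => fderiv ℝ (Φ q.1) q.2

/-- CFL (short). From FLX, LIN, DIF, DCT: the `C^1` flow of a compactly supported `C^2` vector
field. (`LIN` with `A t = fderiv f (Φ t x)`, which is continuous.) -/
def CFL_stmt : Prop :=
  ∀ (F : Type) [NormedAddCommGroup F] [NormedSpace ℝ F] [FiniteDimensional ℝ F] (f : F → F),
    ContDiff ℝ 2 f → HasCompactSupport f → ∃ Φ : ℝ → F → F, IsC1Flow f Φ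

/-! ## Hamiltonian flows on `R^n × R^n` -/

/-- Phase space. -/
abbrev PS (n : ℕ) := En n × En n

/-- The Hamiltonian vector field `(∂H/∂p, -∂H/∂x)` of `H`. -/
def hvf {n : ℕ} (H : PS n → ℝ) (z : PS n) : PS n :=
  ((InnerProductSpace.toDual ℝ (En n)).symm
      ((fderiv ℝ H z).comp (ContinuousLinearMap.inr ℝ (En n) (En n))),
    -(InnerProductSpace.toDual ℝ (En n)).symm
      ((fderiv ℝ H z).comp (ContinuousLinearMap.inl ℝ (En n) (En n))))

/-- The symplectic form `⟨v.1, w.2⟩ - ⟨v.2, w.1⟩`. -/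
def symp {n : ℕ} (v w : PS n) : ℝ := inner ℝ v.1 w.2 - inner ℝ v.2 w.1

/-- The complete Hamiltonian flow of `H`. -/
structure IsHFlow {n : ℕ} (H : PS n → ℝ) (Φ : ℝ → PS n → PS n) : Prop
    extends IsC1Flow (hvf H) Φ where
  symp_eq : ∀ t z v w, symp (fderiv ℝ (Φ t) z v) (fderiv ℝ (Φ t) z w) = symp v w
  mp : ∀ t, MeasurePreserving (Φ t) (volume : Measure (PS n)) (volume : Measure (PS n))

/-- HVC (short). The Hamiltonian vector field of a smooth compactly supported function is smooth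
with compact support (outside the support of `H` the derivative vanishes). -/
def HVC_stmt : Prop :=
  ∀ (n : ℕ) (H : PS n → ℝ), ContDiff ℝ ∞ H → HasCompactSupport H →
    ContDiff ℝ ∞ (hvf H) ∧ HasCompactSupport (hvf H)

/-- HES (short-medium). The derivative of a Hamiltonian vector field is infinitesimally symplectic:
`symp (D X v) w + symp v (D X w) = 0`, since `symp (D X v) w = D²H(v, w)` and `D²H` is symmetric. -/
def HES_stmt : Prop :=
  ∀ (n : ℕ) (H : PS n → ℝ), ContDiff ℝ ∞ H → ∀ z v w : PS n,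
    symp (fderiv ℝ (hvf H) z v) w + symp v (fderiv ℝ (hvf H) z w) = 0

/-- SMP (short). From HES: the flow is symplectic. Proof: `d/dt symp (Y v) (Y w) =
symp (DX Y v) (Y w) + symp (Y v) (DX Y w) = 0` for `Y = fderiv (Φ t) z`, and `Y = id` at `t = 0`
(`Φ 0 = id`). -/
def SMP_stmt : Prop :=
  ∀ (n : ℕ) (H : PS n → ℝ) (Φ : ℝ → PS n → PS n), ContDiff ℝ ∞ H → IsC1Flow (hvf H) Φ →
    ∀ t z v w, symp (fderiv ℝ (Φ t) z v) (fderiv ℝ (Φ t) z w) = symp v w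

/-- DT1 (short). A linear map preserving `symp` has determinant `±1`: with `J (x, p) = (p, -x)`,
`symp v w = ⟨v, J w⟩` for the `L²` inner product of the pair, so `L^T J L = J` and `det L ^ 2 = 1`
(in a basis: `Matrix.det`; `det J ≠ 0`). -/
def DT1_stmt : Prop :=
  ∀ (n : ℕ) (L : PS n →L[ℝ] PS n), (∀ v w, symp (L v) (L w) = symp v w) → |L.det| = 1

/-- MPR (short). A differentiable bijection (`Φ t`, with inverse `Φ (-t)`) with
`|det D| = 1` everywhere preserves Lebesgue measure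
(`MeasureTheory.lintegral_image_eq_lintegral_abs_det_fderiv_mul`,
`MeasureTheory.addHaar_image_eq...`). -/
def MPR_stmt : Prop :=
  ∀ (n : ℕ) (f : PS n → PS n) (Φ : ℝ → PS n → PS n), IsC1Flow f Φ →
    (∀ t z, |(fderiv ℝ (Φ t) z).det| = 1) →
    ∀ t, MeasurePreserving (Φ t) (volume : Measure (PS n)) (volume : Measure (PS n))

/-- HFL (short). From CFL, HVC, SMP, DT1, MPR: existence of the Hamiltonian flow. -/
def HFL_stmt : Prop :=
  ∀ (n : ℕ) (H : PS n → ℝ), ContDiff ℝ ∞ H → HasCompactSupport H →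
    ∃ Φ : ℝ → PS n → PS n, IsHFlow H Φ

/-! ## Reduction of order and the inequality (1.1) -/

/-- The block `∂x(t)/∂p(0)` of the derivative of `Φ t` at `z`. -/
def BB {n : ℕ} (Φ : ℝ → PS n → PS n) (t : ℝ) (z : PS n) : En n →L[ℝ] En n :=
  (ContinuousLinearMap.fst ℝ (En n) (En n)).comp
    ((fderiv ℝ (Φ t) z).comp (ContinuousLinearMap.inr ℝ (En n) (En n)))

/-- The Hessian block `H_pp` at `z` (the derivative of `∂H/∂p` in the direction of `p`). -/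
def Hpp {n : ℕ} (H : PS n → ℝ) (z : PS n) : En n →L[ℝ] En n :=
  (ContinuousLinearMap.fst ℝ (En n) (En n)).comp
    ((fderiv ℝ (hvf H) z).comp (ContinuousLinearMap.inr ℝ (En n) (En n)))

/-- RED (medium). Reduction of order (d'Alembert) for a linear Hamiltonian system. Let
`F(r) ξ = (Y r (0,ξ)).1`, `P(r) ξ = (Y r (0,ξ)).2`, and let `v` be a vector with `Y s v = (0, η)`,
`(x(r), p(r)) = Y r v`. Proof: (1) `symp (Y r (0,ξ)) (Y r (0,ξ')) = 0` gives `F^T P = P^T F`, hence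
(F invertible, inverse `Fi`) `P Fi = Fi^T P^T`. (2) `symp (Y r (0,ξ)) (Y r v)` does not depend on `r`:
`F(r)^T p(r) - P(r)^T x(r) = F(s)^T η =: c`. (3) With `Ap = A_pp`-block `App(r) ξ = (A r (0,ξ)).1` and
the block `C(r) ξ = (A r (ξ,0)).1`: `F' = C F + App P`, `x' = C x + App p`, so
`(Fi x)' = - Fi F' Fi x + Fi x' = Fi App (p - P Fi x) = Fi App (p - Fi^T P^T x) = Fi App Fi^T c`.
(4) Integrate from `s` (where `x = 0`) to `t`. -/
def RED_stmt : Prop :=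
  ∀ (n : ℕ) (A Y : ℝ → PS n →L[ℝ] PS n) (s t : ℝ) (Fi : ℝ → En n →L[ℝ] En n),
    Continuous A → (∀ r v w, symp (A r v) w + symp v (A r w) = 0) →
    (∀ r, HasDerivAt Y ((A r).comp (Y r)) r) → (∀ r v w, symp (Y r v) (Y r w) = symp v w) →
    s ≤ t →
    (∀ r ∈ Icc s t, ∀ ξ, Fi r (Y r (0, ξ)).1 = ξ ∧ (Y r (0, Fi r ξ)).1 = ξ) →
    ∀ (v : PS n) (η : En n), Y s v = (0, η) →
      (Y t v).1 = (Y t (0, ∫ r in s..t, Fi r (A r (0, ContinuousLinearMap.adjoint (Fi r)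
        (ContinuousLinearMap.adjoint ((ContinuousLinearMap.fst ℝ (En n) (En n)).comp
          ((Y s).comp (ContinuousLinearMap.inr ℝ (En n) (En n)))) η))).1)).1

/-- A positive definite symmetric operator. -/
def PosDefOp {n : ℕ} (A : En n →L[ℝ] En n) : Prop :=
  (∀ v w, inner ℝ (A v) w = inner ℝ v (A w)) ∧ ∀ v, v ≠ 0 → 0 < inner ℝ (A v) v

/-- MKT (short-medium). `n (det A det B)^{1/n} ≤ tr (A B)` for positive definite `A, B`
(AM-GM for the eigenvalues of the positive definite `A^{1/2} B A^{1/2}`, which has the same trace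
as `A B` and determinant `det A det B`), with equality for `B = (det A)^{1/n} A^{-1}`. Here: the
consequence used. For positive definite `S` there is a positive definite `B` with `det B = 1`
and `tr (S B) = n (det S)^{1/n}` (namely `B = (det S)^{1/n} S^{-1}`), and
`n (det A)^{1/n} ≤ tr (A B)` for all positive definite `A`. -/
def MKT_stmt : Prop :=
  ∀ (n : ℕ), 1 ≤ n → ∀ S : En n →L[ℝ] En n, PosDefOp S →
    ∃ B : En n →L[ℝ] En n,
      (n : ℝ) * (S.det) ^ ((1 : ℝ) / n) = LinearMap.trace ℝ (En n) ((S.comp B : En n →L[ℝ] En n) :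
        En n →ₗ[ℝ] En n) ∧
      ∀ A : En n →L[ℝ] En n, PosDefOp A →
        (n : ℝ) * (A.det) ^ ((1 : ℝ) / n) ≤
          LinearMap.trace ℝ (En n) ((A.comp B : En n →L[ℝ] En n) : En n →ₗ[ℝ] En n)

/-- MNK (short-medium). From MKT: Minkowski's determinant inequality in integral form.
Proof: `S = ∫ M` is positive definite; take `B` of MKT for `S`; then
`n (det S)^{1/n} = tr (S B) = ∫ tr (M(r) B) dr ≥ ∫ n (det M(r))^{1/n} dr`
(`A ↦ tr (A B)` is continuous linear). -/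
def MNK_stmt : Prop :=
  ∀ (n : ℕ), 1 ≤ n → ∀ (s t : ℝ) (Q : ℝ → En n →L[ℝ] En n), s < t → ContinuousOn Q (Icc s t) →
    (∀ r ∈ Icc s t, PosDefOp (Q r)) →
    ∫ r in s..t, (Q r).det ^ ((1 : ℝ) / n) ≤ (∫ r in s..t, Q r).det ^ ((1 : ℝ) / n)

/-- KZP (medium-long). From RED, MNK, HES: inequality (1.1). Let `z0 = Φ (-a-k) z`,
`F(u) = BB Φ (u+a+k) z0`, invertible for `u ∈ [-a,a]`, and
`ψ(u) = (|det F(u)| / sqrt (det Hpp(Φ u z)))^{1/n}`: continuous and positive. For `-a ≤ s < t ≤ a`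
apply RED with `Y r = fderiv (Φ (r+a+k)) z0`, `A r = fderiv (hvf H) (Φ (r+a+k) z0)`
(`Φ (r+a+k) z0 = Φ r z`), `Fi r` the inverse of `F r`. Chain rule: `fderiv (Φ (t+a+k)) z0 =
fderiv (Φ (t-s)) (Φ s z) ∘ fderiv (Φ (s+a+k)) z0`, and `fderiv (Φ (s+a+k)) z0` is onto (it has the
inverse `fderiv (Φ (-s-a-k)) (Φ s z)`), so for every `η` there is `v` with `Y s v = (0, η)` and
`Y t v = fderiv (Φ (t-s)) (Φ s z) (0, η)`. Hence `BB Φ (t-s) (Φ s z) = F(t) ∘ S ∘ F(s)^T`,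
`S = ∫_s^t Q`, `Q(r) = Fi(r) Hpp(Φ r z) Fi(r)^T` positive definite and continuous,
`det Q(r) = det Hpp / (det F)^2`, so `(det Q(r))^{1/n} = ψ(r)^{-2}`. MNK:
`|det BB| = |det F(t)| |det F(s)| det S ≥ |det F(t)| |det F(s)| (∫ ψ^{-2})^n`; divide by
`sqrt (det Hpp(Φ s z) det Hpp(Φ t z))` and take `n`-th roots. -/
def KZP_stmt : Prop :=
  ∀ (n : ℕ), 1 ≤ n → ∀ (H : PS n → ℝ) (Φ : ℝ → PS n → PS n), ContDiff ℝ ∞ H → IsHFlow H Φ →
    ∀ (z : PS n) (a k : ℝ), 0 < a → 0 < k →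
    (∀ u ∈ Icc (-a) a, PosDefOp (Hpp H (Φ u z))) →
    (∀ u ∈ Icc (-a) a, (BB Φ (u + a + k) (Φ (-a - k) z)).det ≠ 0) →
    ∃ ψ : ℝ → ℝ, ContinuousOn ψ (Icc (-a) a) ∧ (∀ u ∈ Icc (-a) a, 0 < ψ u) ∧
      ∀ s t, -a ≤ s → s < t → t ≤ a →
        ψ s * ψ t * (∫ r in s..t, (ψ r ^ 2)⁻¹) ≤
          (|(BB Φ (t - s) (Φ s z)).det| /
            Real.sqrt ((Hpp H (Φ s z)).det * (Hpp H (Φ t z)).det)) ^ ((1 : ℝ) / n)

/-! ## Lemma 1 of PROOF.md -/

/-- LGF (short). The pointwise inequality. Proof: `B = sqrt(α² - 1/cos² ζ)`, sign `ε = sign (q-p)`;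
`c₁ = α + ε B`, `c₂ = α - ε B`: positive with product `1/cos² ζ`. Add
`log p ≤ c₁ p - 1 - log c₁` and `log q ≤ c₂ q - 1 - log c₂` (from `log y ≤ y - 1`), halve. -/
def LGF_stmt : Prop :=
  ∀ (p q ζ α : ℝ), 0 < p → 0 < q → |ζ| < Real.pi / 2 → 1 / Real.cos ζ ≤ α →
    (1 / 2) * Real.log (p * q) ≤ (α / 2) * (p + q) -
      (1 / 2) * Real.sqrt (α ^ 2 - (1 / Real.cos ζ) ^ 2) * |q - p| - 1 + Real.log (Real.cos ζ)

/-- LGG (short-medium). `∫_0^Z sqrt(sec² Z - sec² z) dz = (π/2)(sec Z - 1)`. Proof: with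
`α = sec Z` the function `Γ(z) = α arcsin(sin z / sin Z) - arcsin(tan z / tan Z)` is continuous on
`[0,Z]`, with derivative `α cos z / sqrt(sin² Z - sin² z) - sec² z / sqrt(tan² Z - tan² z)` on
`[0,Z)`. With `B = sqrt(sec² Z - sec² z) = sqrt(tan² Z - tan² z)` and
`sin² Z - sin² z = cos² z cos² Z B²` this is `α²/B - sec² z/B = B`.
`Γ(0) = 0`, `Γ(Z) = (π/2)(α - 1)`. -/
def LGG_stmt : Prop :=
  ∀ Z : ℝ, 0 < Z → Z < Real.pi / 2 →
    ∫ z in (0 : ℝ)..Z, Real.sqrt ((1 / Real.cos Z) ^ 2 - (1 / Real.cos z) ^ 2) =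
      Real.pi / 2 * (1 / Real.cos Z - 1)

/-- LGV (short-medium). From LGG: the variation bound. `f(z) = sqrt(α² - sec² z)` with
`α = sec Z` is continuous, even, `0 ≤ f ≤ α` on `[-Z,Z]`; `Γ(z) = ∫_0^z f` is odd, nondecreasing,
`α`-Lipschitz there and `2 Γ(Z) = π (α - 1)`. For every subinterval
`∫_x^y f(ζ)|ζ'| ≥ |Γ(ζ(y)) - Γ(ζ(x))|` (chain rule). Let `|ζ(s0)| = Z`. If `ζ(s0) = Z`, then
`∫_0^L ≥ 2Γ(Z) - Γ(ζ(0)) - Γ(ζ(L)) ≥ 2 Γ(Z)` since `ζ(L) = -κ - ζ(0) ≤ -ζ(0)`. If `ζ(s0) = -Z`: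
`∫_0^L ≥ 2 Γ(Z) + Γ(ζ(0)) + Γ(ζ(L)) = 2Γ(Z) - (Γ(ζ(0)+κ) - Γ(ζ(0))) ≥ 2Γ(Z) - α κ`
(`Γ(ζ(L)) = -Γ(-ζ(L)) = -Γ(ζ(0)+κ)`). (For `Z = 0` the claim is `0 ≤ κ`, as then `ζ = 0`.) -/
def LGV_stmt : Prop :=
  ∀ (L Z κ : ℝ) (ζ ζ' : ℝ → ℝ), 0 < L → 0 ≤ Z → Z < Real.pi / 2 → 0 ≤ κ →
    Continuous ζ' → (∀ s, HasDerivAt ζ (ζ' s) s) →
    (∀ s ∈ Icc 0 L, |ζ s| ≤ Z) → (∃ s ∈ Icc 0 L, |ζ s| = Z) → ζ 0 + ζ L = -κ →
    Real.pi * (1 / Real.cos Z - 1) - 1 / Real.cos Z * κ ≤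
      ∫ s in (0 : ℝ)..L, Real.sqrt ((1 / Real.cos Z) ^ 2 - (1 / Real.cos (ζ s)) ^ 2) * |ζ' s|

/-- LGC (medium). From LGF, LGV: the log inequality (Lemma 1 of PROOF.md) for continuous `m`.
Proof. Scaling: replacing `m(t)` by `m(t T/π)` reduces to `T = π` (both sides scale: with
`t = T s/π` the quotient is `(T/π) ×` the quotient of the rescaled function). `T = π`:
`y(t) = ∫_0^t m`, `θ = arctan y`, `θ' = m/(1+y²) > 0` continuous, `p(s) = θ'(s)`,
`q(s) = θ'(s+π/2)`, `b(s) = θ(s+π/2) - θ(s) ∈ (0,π)`, `ζ = b - π/2`, `ζ' = q - p`, `|ζ| < π/2`.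
`y(s+π/2) - y(s) = sin b(s) / (cos θ(s) cos θ(s+π/2))` and `m = θ'/cos² θ`, so the quotient is
`sin b / sqrt(p q) = cos ζ / sqrt(p q)`. Let `Z = max_{[0,π/2]} |ζ| < π/2`, `α = sec Z`. LGF
integrated over `[0, π/2]`: `∫ (1/2) log(pq) ≤ (α/2) Π - (1/2) ∫ f(ζ)|ζ'| - π/2 + ∫ log cos ζ`,
`Π = ∫_0^{π/2} (p+q) = θ(π) - θ(0) ≤ π` (even `< π/2 + ...`; only `≤ π` is used),
`ζ(0) + ζ(π/2) = Π - π = -κ`. LGV: `∫ f(ζ)|ζ'| ≥ π(α-1) - α(π-Π) = αΠ - π`. So
`∫ (log cos ζ - (1/2) log(pq)) ≥ 0`. -/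
def LGC_stmt : Prop :=
  ∀ (T : ℝ) (m : ℝ → ℝ), 0 < T → Continuous m → (∀ t, 0 < m t) →
    T / 2 * Real.log (T / Real.pi) ≤
      ∫ t in (0 : ℝ)..(T / 2),
        Real.log ((∫ s in t..(t + T / 2), m s) / Real.sqrt (m t * m (t + T / 2)))

/-- SIG (short-medium). The half-mass map. `τ(u) = ∫_{-a}^u w` is a strictly increasing `C^1`
function with `τ(0) = T/2`, `τ(a) = T` (w is even). `σ(u) = τ^{-1}(τ(u) + T/2)`. -/
def SIG_stmt : Prop :=
  ∀ (a : ℝ) (w : ℝ → ℝ), 0 < a → Continuous w → (∀ u, 0 < w u) → (∀ u, w (-u) = w u) →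
    ∃ σ : ℝ → ℝ, Continuous σ ∧ ∀ u ∈ Icc (-a) 0, σ u ∈ Icc 0 a ∧ u < σ u ∧
      ∫ r in (-a)..u, w r = ∫ r in (0 : ℝ)..(σ u), w r

/-- KZW (medium). From LGC: the weighted inequality (1.2). Proof: `τ(u) = ∫_{-a}^u w`, an
increasing `C^1` bijection `[-a,a] → [0,T]`, inverse `U`, `U' = 1/w(U)`. `m(t) = 1/(w(U t) ψ(U t)²)`
(extended continuously and positively outside `[0,T]`). Then
`∫_{t}^{t+T/2} m = ∫_{U t}^{U(t+T/2)} ψ^{-2}` and `U(t+T/2) = σ(U t)`, and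
`1/sqrt(m(t) m(t+T/2)) = ψ ψ sqrt(w w)`. LGC says that the average over `t ∈ [0,T/2]` of `log Q(t)`
is at least `log(T/π)`, `Q(t) = ψ(U)ψ(σU) (∫ψ^{-2}) sqrt(w w)`. By Jensen (exp is convex)
the average of `Q^n = exp(n log Q)` is at least `(T/π)^n`. Substitute `t = τ(u)`, `dt = w du`. -/
def KZW_stmt : Prop :=
  ∀ (n : ℕ) (a T : ℝ) (w σ ψ : ℝ → ℝ), 0 < a → Continuous w → (∀ u, 0 < w u) →
    Continuous σ → (∀ u ∈ Icc (-a) 0, σ u ∈ Icc 0 a ∧ u < σ u ∧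
      ∫ r in (-a)..u, w r = ∫ r in (0 : ℝ)..(σ u), w r) →
    T = ∫ r in (-a)..a, w r → ∫ r in (-a)..0, w r = T / 2 →
    ContinuousOn ψ (Icc (-a) a) → (∀ u ∈ Icc (-a) a, 0 < ψ u) →
    T / 2 * (T / Real.pi) ^ n ≤ ∫ u in (-a)..0, w u *
      (ψ u * ψ (σ u) * (∫ r in u..(σ u), (ψ r ^ 2)⁻¹) * Real.sqrt (w u * w (σ u))) ^ n

end Pool.Agent.CRO
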