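import Pool.Agent.helper58.CRO.SpecD

/-!
# MP_5bf3c3_gt, block E: the round sphere, upper bound for `c_n^*`, the limit

Every `XX_stmt` is one row `cro:XX`; its complete proof is in its docstring.
-/

open scoped Manifold ContDiff Topology ENNReal
open MeasureTheory Set Bundle Filter

noncomputable section

namespace Pool.Agent.CRO

/-- The unit sphere `S^n` in `R^{n+1}`. -/
abbrev Sn (n : ℕ) := Metric.sphere (0 : En (n + 1)) 1

/-- `g` is the round metric: the metric induced by the inclusion in `R^{n+1}`. -/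
def IsRound {n : ℕ} (g : RMetric n (Sn n)) : Prop :=
  ∀ (x : Sn n) (v w : TangentSpace (𝓡 n) x), g.inner x v w =
    (inner ℝ (mfderiv (𝓡 n) 𝓘(ℝ, En (n + 1)) (fun y : Sn n => (y : En (n + 1))) x v : En (n + 1))
      (mfderiv (𝓡 n) 𝓘(ℝ, En (n + 1)) (fun y : Sn n => (y : En (n + 1))) x w : En (n + 1)) : ℝ)

/-- SPG (medium). The round metric exists. `inner x` is the pull-back of the inner product by the
injective linear map `mfderiv coe x` (`mfderiv_coe_sphere_injective` /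
`injective_mvfderiv_subtypeVal_sphere`); von Neumann boundedness: a positive definite form on a
finite dimensional space is bounded below by a multiple of the norm squared; smoothness: in
trivialisations `inner x` is `v, w ↦ ⟨D v, D w⟩` with `D = D(coe ∘ chart⁻¹)` smooth
(`contMDiff_coe_sphere`, `ContMDiff.contMDiff_tangentMap`, or `contMDiffAt_section` and
`hom_trivializationAt_apply` as for Mathlib's `riemannianMetricVectorSpace`). -/
def SPG_stmt : Prop := ∀ n : ℕ, ∃ g : RMetric n (Sn n), IsRound g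

/-- SPF (short-medium). In a chart `e` put `f = coe ∘ e.symm`. Then `f` is smooth on `e.target`,
`‖f y‖ = 1`, and `coef g e y v w = ⟨Df(y) v, Df(y) w⟩` (chain rule). -/
def SPF_stmt : Prop :=
  ∀ (n : ℕ) (g : RMetric n (Sn n)), IsRound g →
    ∀ e ∈ IsManifold.maximalAtlas (𝓡 n) ∞ (Sn n),
      ContDiffOn ℝ ∞ (fun y : En n => ((e.symm y : Sn n) : En (n + 1))) e.target ∧
      ∀ y ∈ e.target, ∀ v w : En n, coef g e y v w =
        inner ℝ (fderiv ℝ (fun y : En n => ((e.symm y : Sn n) : En (n + 1))) y v)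
          (fderiv ℝ (fun y : En n => ((e.symm y : Sn n) : En (n + 1))) y w)

/-- SCS (medium). `y ↦ cos ‖y‖` and `y ↦ sinc ‖y‖` are smooth. Proof: `cos (√s)` and
`sin (√s)/√s` are restrictions of entire functions `Σ (-1)^k s^k/(2k)!`, `Σ (-1)^k s^k/(2k+1)!` of
`s = ‖y‖²` (power series with infinite radius: smooth; `Real.hasSum_cos`, `Real.hasSum_sin`).
Alternative: `s ↦ cosh (sqrt (-s))`; or induction with `C(s) = Σ ..` and `C' = -S/2`, etc. -/
def SCS_stmt : Prop :=
  ∀ n : ℕ, ContDiff ℝ ∞ (fun y : En n => Real.cos ‖y‖) ∧ ContDiff ℝ ∞ (fun y : En n => Real.sinc ‖y‖)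

/-- SPE (medium). From SCS: the exponential map of the sphere. For a unit vector `x` and a linear
isometry `J` of `R^n` onto `x^⊥` put `E y = cos ‖y‖ x + sinc ‖y‖ J y`. Then `E` is smooth, `‖E y‖ = 1`,
it is injective on the open ball of radius `π` with image the unit sphere minus `-x`
(`⟨E y, x⟩ = cos ‖y‖` determines `‖y‖ ∈ [0,π)`), and its derivative is injective at every point of
the ball: at `y = 0` it is `J`; at `y ≠ 0`, for `v` parallel to `y` use
`E (t ŷ) = cos t x + sin t J ŷ`, `|derivative| = 1`; for `v ⟂ y` the derivative is `sinc ‖y‖ J v ≠ 0`,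
orthogonal to the previous one. -/
def SPE_stmt : Prop :=
  ∀ (n : ℕ) (x : En (n + 1)) (J : En n →ₗᵢ[ℝ] En (n + 1)), ‖x‖ = 1 → (∀ v, inner ℝ x (J v) = 0) →
    ContDiff ℝ ∞ (fun y : En n => Real.cos ‖y‖ • x + Real.sinc ‖y‖ • J y) ∧
    (∀ y : En n, ‖Real.cos ‖y‖ • x + Real.sinc ‖y‖ • J y‖ = 1) ∧
    InjOn (fun y : En n => Real.cos ‖y‖ • x + Real.sinc ‖y‖ • J y) (Metric.ball 0 Real.pi) ∧
    (∀ p : En (n + 1), ‖p‖ = 1 → p ≠ -x → ∃ y ∈ Metric.ball (0 : En n) Real.pi,
      Real.cos ‖y‖ • x + Real.sinc ‖y‖ • J y = p) ∧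
    (∀ y ∈ Metric.ball (0 : En n) Real.pi, Function.Injective
      (fderiv ℝ (fun y : En n => Real.cos ‖y‖ • x + Real.sinc ‖y‖ • J y) y))

/-- SPN (medium-long). From SPE: the normal chart of the sphere. For `x ∈ S^n` there is a linear
isometry `J` of `R^n` onto `x^⊥` (dimension `n`), and `E` of SPE, as a map to `S^n`, is smooth
(`ContMDiff.codRestrict_sphere`), injective on the ball with bijective derivatives (injective and equal
dimensions), so it is a diffeomorphism of the ball onto an open set (inverse function theorem in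
charts: e.g. compose with the stereographic projection from `-x`, which is a chart of the sphere,
`stereographic'`; `ContDiffAt.toOpenPartialHomeomorph`, or `OpenPartialHomeomorph` of an injective
open continuous map), and its inverse is a chart `χ` of the maximal atlas
(`mem_maximalAtlas` via smoothness of both transition maps;
`IsManifold.mem_maximalAtlas...`/`isLocalDiffeomorph`). -/
def SPN_stmt : Prop :=
  ∀ (n : ℕ) (x : Sn n), ∃ (χ : OpenPartialHomeomorph (Sn n) (En n)) (J : En n →ₗᵢ[ℝ] En (n + 1)),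
    χ ∈ IsManifold.maximalAtlas (𝓡 n) ∞ (Sn n) ∧ χ.target = Metric.ball (0 : En n) Real.pi ∧
    x ∈ χ.source ∧ χ x = 0 ∧ (∀ v, inner ℝ (x : En (n + 1)) (J v) = 0) ∧
    ∀ y ∈ Metric.ball (0 : En n) Real.pi,
      ((χ.symm y : Sn n) : En (n + 1)) = Real.cos ‖y‖ • (x : En (n + 1)) + Real.sinc ‖y‖ • J y

/-- SPL (medium). From SPF: great circles are geodesics. Let `γ` be smooth on the open set `I` with
`X(t) = γ t ∈ R^{n+1}` satisfying `X'' = -κ X` on `I`. In a chart `e` let `f = coe ∘ e.symm`,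
`x(t) = e (γ t)`, so `X = f ∘ x` near `t`. `coef(x)(x', w) = ⟨X', Df(x) w⟩`, with derivative
`⟨X'', Df(x) w⟩ + ⟨X', D²f(x)(x', w)⟩`; the first term is `-κ ⟨f(x), Df(x) w⟩ = 0` (`‖f‖ = 1`). The
right-hand side of the geodesic equation is `(1/2) D_w ⟨Df(y)x', Df(y)x'⟩ = ⟨D²f(x)(w,x'), Df(x)x'⟩`,
the same (symmetry of `D²f`). -/
def SPL_stmt : Prop :=
  ∀ (n : ℕ) (g : RMetric n (Sn n)), IsRound g → ∀ (γ : ℝ → Sn n) (I : Set ℝ) (κ : ℝ)
    (X' : ℝ → En (n + 1)), IsOpen I →
    ContMDiffOn 𝓘(ℝ, ℝ) (𝓡 n) ∞ γ I →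
    (∀ t ∈ I, HasDerivAt (fun s => (γ s : En (n + 1))) (X' t) t ∧
      HasDerivAt X' (-(κ • (γ t : En (n + 1)))) t) →
    IsGeodesicOn g γ I

/-- SPI (medium). From SPF, SPN, SPL: the injectivity radius of `S^n` is at least `π`. With `χ, J` of
SPN: `coef g χ 0 v w = ⟨J v, J w⟩ = ⟨v, w⟩` (SPF; the derivative at `0` of
`cos ‖y‖ x + sinc ‖y‖ J y` is `J`). For `v ∈ R^n`, `t ‖v‖ < π`: `γ(t) = χ.symm (t v)` is
`cos (t‖v‖) x + (sin(t ‖v‖)/‖v‖) J v` (`v ≠ 0`), with `X'' = -‖v‖² X`; smooth (`χ.symm` is smooth on its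
target). SPL. -/
def SPI_stmt : Prop :=
  ∀ (n : ℕ) (g : RMetric n (Sn n)), IsRound g → ∀ x : Sn n, HasInjAt g x Real.pi

/-- CNE (medium-long). Volume of a cone over a piece of the sphere. `f` is `C^1` on the open set `O`,
injective on the Borel set `B ⊆ O`, `‖f‖ = 1`. The map `C(t,y) = t f(y)` on `(0,1) × B` is injective,
with derivative `(τ, v) ↦ τ f(y) + t Df(y) v`; since `f(y) ⟂ Df(y) v` its Gram determinant is
`t^{2n} det(Df^T Df)`, i.e. the absolute determinant is `t^n sqrt (det Gram)` (identify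
`R × R^n` with `R^{n+1}` by a volume preserving linear isometry, e.g. `Fin.consEquiv`-like maps, or use
polar coordinates). Change of variables and `∫_0^1 t^n dt = 1/(n+1)`. -/
def CNE_stmt : Prop :=
  ∀ (n : ℕ) (f : En n → En (n + 1)) (O B : Set (En n)), IsOpen O → MeasurableSet B → B ⊆ O →
    ContDiffOn ℝ 1 f O → (∀ y ∈ O, ‖f y‖ = 1) → InjOn f B →
    volume {p : En (n + 1) | ∃ t ∈ Ioo (0 : ℝ) 1, ∃ y ∈ B, p = t • f y} =
      ENNReal.ofReal (1 / (n + 1)) * ∫⁻ y in B, ENNReal.ofReal (Real.sqrt (Matrix.det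
        (Matrix.of fun i j : Fin n => inner ℝ (fderiv ℝ f y (EuclideanSpace.single i 1))
          (fderiv ℝ f y (EuclideanSpace.single j 1)))))

/-- SVK (short). `sphereVol n = (n+1) kap (n+1)` (`EuclideanSpace.volume_ball`,
`Γ(z+1) = z Γ(z)`). -/
def SVK_stmt : Prop := ∀ n : ℕ, sphereVol n = (n + 1) * kap (n + 1)

/-- SPV (medium). From SPF, CNE, SVK: the volume of `S^n` is at most `sphereVol n`. For a family
`e i, S i` as in `gvol`: `B i = e i '' S i`, `f i = coe ∘ (e i).symm` (injective on `(e i).target`,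
`f i '' B i = S i`), `dens g (e i) = sqrt (det Gram)` (SPF). The cones over the disjoint sets
`S i` are disjoint subsets of the unit ball (`t p = t' p'`, `‖p‖ = ‖p'‖ = 1`, gives `t = t'`, `p = p'`),
and measurable (images of Borel sets under injective continuous maps, or use only the outer measure:
sum of volumes of disjoint measurable cones). So
`Σ ∫ dens ≤ (n+1) vol(unit ball) = sphereVol n`. -/
def SPV_stmt : Prop :=
  ∀ (n : ℕ) (g : RMetric n (Sn n)), IsRound g → ∀ A : Set (Sn n),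
    gvol g A ≤ ENNReal.ofReal (sphereVol n)

/-- UPB (short-medium). From SPG, SPI, SPV: the upper bound (known): `M = S^n`, any `m`, `r = π ≤ Inj`.
(`S^n` is compact, Hausdorff, and connected for `n ≥ 1`: `isConnected_sphere`; nonempty.) -/
def UPB_stmt : Prop :=
  ∀ n : ℕ, 1 ≤ n → cstar n ≤ ENNReal.ofReal (sphereVol n / Real.pi ^ n)

/-- LRT (short-medium). From CST, UPB, RAT: the ratio to the round sphere. `(1-ε)^n κ ≤ c_n^* ≤ κ` for
`n ≥ n0(ε)`, `κ = sphereVol n/π^n > 0`; take `n`-th roots. -/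
def LRT_stmt : Prop :=
  Tendsto (fun n : ℕ => ((cstar n).toReal / (sphereVol n / Real.pi ^ n)) ^ ((1 : ℝ) / n))
    atTop (𝓝 1)

/-- STI (medium). From nothing: `sqrt n (sphereVol n)^{1/n} → sqrt (2π e)`, i.e.
`(Γ((n+1)/2))^{1/n} ~ sqrt (n/(2e))` (the factors `2`, `π^{1/2}` do not matter). Proof: for
`m = ⌊(n+1)/2⌋`, `Γ` is increasing on `[2,∞)`, so `(m-1)! = Γ(m) ≤ Γ((n+1)/2) ≤ Γ(m+1) = m!` for
`m ≥ 2`, and `(m!)^{1/m}/m → 1/e` (Stirling in Mathlib, or `(m/e)^m ≤ m! ≤ m (m/e)^m e`). -/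
def STI_stmt : Prop :=
  Tendsto (fun n : ℕ => Real.sqrt n * (sphereVol n) ^ ((1 : ℝ) / n)) atTop
    (𝓝 (Real.sqrt (2 * Real.pi * Real.exp 1)))

/-- LIM (short-medium). From LRT, STI, RAT: the limit `sqrt n (c_n^*)^{1/n} → sqrt (2e/π)`:
`(c_n^*)^{1/n} = (ratio)^{1/n} (sphereVol n)^{1/n}/π`, and `sqrt(2πe)/π = sqrt(2e/π)`. -/
def LIM_stmt : Prop :=
  Tendsto (fun n : ℕ => Real.sqrt n * ((cstar n).toReal) ^ ((1 : ℝ) / n)) atTop
    (𝓝 (Real.sqrt (2 * Real.exp 1 / Real.pi)))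

end Pool.Agent.CRO
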