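import Pool.Agent.helper58.CRO.SpecD

open scoped Manifold ContDiff Topology ENNReal
open MeasureTheory Set Bundle

noncomputable section

namespace Pool.Agent.CRO

universe u

variable {n : ℕ} {M : Type u} [TopologicalSpace M] [ChartedSpace (En n) M]

/-- velocity of the radial path -/
theorem BAL_vel (χ : OpenPartialHomeomorph M (En n))
    (hmem : χ ∈ IsManifold.maximalAtlas (𝓡 n) ∞ M) (y : En n) (t : ℝ) (ht : t • y ∈ χ.target) :
    mfderiv 𝓘(ℝ, ℝ) (𝓡 n) (fun s : ℝ => χ.symm (s • y)) t (1 : ℝ) =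
      mfderiv 𝓘(ℝ, En n) (𝓡 n) χ.symm (t • y) y := by
  have h1 : MDifferentiableAt 𝓘(ℝ, En n) (𝓡 n) χ.symm (t • y) :=
    (contMDiffAt_symm_of_mem_maximalAtlas hmem ht).mdifferentiableAt (by simp)
  have h2 : HasDerivAt (fun s : ℝ => s • y) ((1 : ℝ) • y) t := (hasDerivAt_id t).smul_const y
  rw [one_smul] at h2
  have h3 : HasMFDerivAt 𝓘(ℝ, ℝ) 𝓘(ℝ, En n) (fun s : ℝ => s • y) t
      (ContinuousLinearMap.toSpanSingleton ℝ y) := h2.hasFDerivAt.hasMFDerivAt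
  have h4 := (h1.hasMFDerivAt.comp t h3).mfderiv
  have h5 : (fun s : ℝ => χ.symm (s • y)) = χ.symm ∘ (fun s : ℝ => s • y) := rfl
  rw [h5, h4]
  show (mfderiv 𝓘(ℝ, En n) (𝓡 n) χ.symm (t • y)) ((1 : ℝ) • y) = _
  rw [one_smul]

theorem BAL (h1 : GAU_stmt.{u}) : BAL_stmt.{u} := by
  intro n M _ _ _ g χ x r hr hχ ρ y hyρ hρr
  have hG := (h1 n M g χ x r hr hχ).1
  obtain ⟨hmem, htar, hxs, hx0, hin, hgeo⟩ := hχ
  have hyr : ‖y‖ < r := lt_of_lt_of_le hyρ hρr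
  have htt : ∀ t : ℝ, t ∈ Icc (0 : ℝ) 1 → |t| * ‖y‖ < r := by
    intro t ht
    rw [abs_of_nonneg ht.1]
    calc t * ‖y‖ ≤ 1 * ‖y‖ := mul_le_mul_of_nonneg_right ht.2 (norm_nonneg y)
      _ = ‖y‖ := one_mul _
      _ < r := hyr
  have htar' : ∀ t : ℝ, t ∈ Icc (0 : ℝ) 1 → t • y ∈ χ.target := by
    intro t ht
    rw [htar]
    simp only [Metric.mem_ball, dist_zero_right, norm_smul, Real.norm_eq_abs]
    exact htt t ht
  show gdist g x (χ.symm y) < ENNReal.ofReal ρ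
  letI : Bundle.RiemannianBundle (fun x : M => TangentSpace (𝓡 n) x) := ⟨g.toRiemannianMetric⟩
  have hdef : gdist g x (χ.symm y) = Manifold.riemannianEDist (𝓡 n) x (χ.symm y) := rfl
  rw [hdef]
  have hsm : ContMDiffOn 𝓘(ℝ, ℝ) (𝓡 n) 1 (fun s : ℝ => χ.symm (s • y)) (Icc 0 1) := by
    intro t ht
    have a1 : ContMDiffAt 𝓘(ℝ, En n) (𝓡 n) 1 χ.symm (t • y) :=
      (contMDiffAt_symm_of_mem_maximalAtlas hmem (htar' t ht)).of_le (by simp)
    have a2 : ContMDiffAt 𝓘(ℝ, ℝ) 𝓘(ℝ, En n) 1 (fun s : ℝ => s • y) t := by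
      apply ContDiffAt.contMDiffAt
      fun_prop
    exact (a1.comp t a2).contMDiffWithinAt
  have hle := Manifold.riemannianEDist_le_pathELength (I := 𝓡 n) (x := x) (y := χ.symm y) hsm
    (by simp only [zero_smul]; rw [← hx0]; exact χ.left_inv hxs) (by simp only [one_smul])
    zero_le_one
  refine lt_of_le_of_lt hle ?_
  rw [Manifold.pathELength_eq_lintegral_mfderiv_Ioo]
  have hnorm : ∀ t ∈ Ioo (0 : ℝ) 1,
      ‖mfderiv 𝓘(ℝ, ℝ) (𝓡 n) (fun s : ℝ => χ.symm (s • y)) t (1 : ℝ)‖ₑ = ENNReal.ofReal ‖y‖ := by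
    intro t ht
    have htI : t ∈ Icc (0 : ℝ) 1 := ⟨ht.1.le, ht.2.le⟩
    rw [BAL_vel χ hmem y t (htar' t htI)]
    rw [← ofReal_norm]
    congr 1
    have hc := hG y t (htt t htI)
    have hn : ‖(mfderiv 𝓘(ℝ, En n) (𝓡 n) χ.symm (t • y) y : TangentSpace (𝓡 n) (χ.symm (t • y)))‖ ^ 2
        = coef g χ (t • y) y y := by
      rw [← real_inner_self_eq_norm_sq]
      rfl
    rw [hc] at hn
    exact (pow_left_inj₀ (norm_nonneg _) (norm_nonneg _) two_ne_zero).1 hn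
  refine lt_of_le_of_lt (le_of_eq (setLIntegral_congr_fun measurableSet_Ioo hnorm)) ?_
  simp only [lintegral_const, MeasurableSet.univ, Measure.restrict_apply, univ_inter,
    Real.volume_Ioo, sub_zero, ENNReal.ofReal_one, mul_one]
  exact (ENNReal.ofReal_lt_ofReal_iff (lt_of_le_of_lt (norm_nonneg y) hyρ)).2 hyρ

end Pool.Agent.CRO
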