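import Mathlib

/-!
# Croke's small ball constant: definitions (MP_5bf3c3_gt)

The objects of the problem, as used in the final statements. `M` is a manifold modelled on a
normed space `E`; the final statements use `E = EuclideanSpace ℝ (Fin n)`.
-/

open scoped Manifold ContDiff Topology ENNReal
open MeasureTheory Set Bundle

noncomputable section

namespace Pool.Agent.CROF

section General

variable {E : Type*} [NormedAddCommGroup E] [NormedSpace ℝ E] {M : Type*} [TopologicalSpace M]
  [ChartedSpace E M]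

/-- Smooth Riemannian metrics on the manifold `M` (Mathlib's notion). -/
abbrev RMetric (E : Type*) [NormedAddCommGroup E] [NormedSpace ℝ E] (M : Type*)
    [TopologicalSpace M] [ChartedSpace E M] [IsManifold 𝓘(ℝ, E) ∞ M] : Type _ :=
  Bundle.ContMDiffRiemannianMetric 𝓘(ℝ, E) ∞ E (fun x : M => TangentSpace 𝓘(ℝ, E) x)

variable [IsManifold 𝓘(ℝ, E) ∞ M]

/-- The Riemannian distance of `(M, g)` (Mathlib's `riemannianEDist`: the infimum of the lengths of
`C^1` paths). -/
def gdist (g : RMetric E M) (x y : M) : ℝ≥0∞ :=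
  letI : Bundle.RiemannianBundle (fun x : M => TangentSpace 𝓘(ℝ, E) x) := ⟨g.toRiemannianMetric⟩
  Manifold.riemannianEDist 𝓘(ℝ, E) x y

/-- The open metric ball of radius `r` centred at `m`. -/
def gball (g : RMetric E M) (m : M) (r : ℝ) : Set M := {x | gdist g m x < ENNReal.ofReal r}

/-- The inner product `g_x(v, w)` of two tangent vectors at `x`. -/
def gin (g : RMetric E M) (x : M) (v w : TangentSpace 𝓘(ℝ, E) x) : ℝ := g.inner x v w

omit [IsManifold 𝓘(ℝ, E) ∞ M] in
/-- The tangent vector of `M` at `e.symm y` whose coordinates in the chart `e` are `v`: the image of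
`v` under the derivative of `e.symm` at `y`. -/
def tvec (e : OpenPartialHomeomorph M E) (y v : E) : TangentSpace 𝓘(ℝ, E) (e.symm y) :=
  mfderiv 𝓘(ℝ, E) 𝓘(ℝ, E) e.symm y v

/-- The metric `g` written in the chart `e`: the bilinear form `g_e(y)(v, w)` at the point
`y` of `e.target`. -/
def coef (g : RMetric E M) (e : OpenPartialHomeomorph M E) (y v w : E) : ℝ :=
  gin g (e.symm y) (tvec e y v) (tvec e y w)

/-- `γ` is a geodesic of `g` on the (open) set of times `I`: it is smooth and satisfies the
geodesic equation `d/dt (g_ij(x) x'^i w^j) = (1/2) (∂_w g_ij)(x) x'^i x'^j` in every chart of the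
maximal smooth atlas. -/
def IsGeodesicOn (g : RMetric E M) (γ : ℝ → M) (I : Set ℝ) : Prop :=
  ContMDiffOn 𝓘(ℝ, ℝ) 𝓘(ℝ, E) ∞ γ I ∧
  ∀ e ∈ IsManifold.maximalAtlas 𝓘(ℝ, E) ∞ M, ∀ t ∈ I, γ t ∈ e.source → ∀ w : E,
    HasDerivAt (fun s => coef g e (e (γ s)) (deriv (fun u => e (γ u)) s) w)
      ((1 / 2) * fderiv ℝ (fun y => coef g e y (deriv (fun u => e (γ u)) t)
        (deriv (fun u => e (γ u)) t)) (e (γ t)) w) t

end General

section Inner

variable {E : Type*} [NormedAddCommGroup E] [InnerProductSpace ℝ E] {M : Type*}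
  [TopologicalSpace M] [ChartedSpace E M] [IsManifold 𝓘(ℝ, E) ∞ M]

/-- The injectivity radius of `(M, g)` at `x` is at least `r`: there are normal coordinates
centred at `x` on the whole ball of radius `r`, i.e. a smooth chart `χ` around `x` with
`χ x = 0`, with image the Euclidean ball of radius `r`, in which `g` is the Euclidean inner
product at the origin and the straight lines `t ↦ t v` are geodesics. In other words the
exponential map at `x` is a diffeomorphism of the ball of radius `r` of the tangent space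
onto an open subset of `M` (its inverse is `χ`). -/
def HasInjAt (g : RMetric E M) (x : M) (r : ℝ) : Prop :=
  ∃ χ ∈ IsManifold.maximalAtlas 𝓘(ℝ, E) ∞ M, χ.target = Metric.ball (0 : E) r ∧
    x ∈ χ.source ∧ χ x = 0 ∧ (∀ v w : E, coef g χ 0 v w = inner ℝ v w) ∧
    ∀ v : E, IsGeodesicOn g (fun t => χ.symm (t • v)) {t : ℝ | |t| * ‖v‖ < r}

/-- The injectivity radius of `(M, g)`: the supremum of all `r > 0` such that the injectivity
radius at every point is at least `r`. -/
def injRad (g : RMetric E M) : ℝ≥0∞ :=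
  ⨆ (r : ℝ) (_ : 0 < r ∧ ∀ x, HasInjAt g x r), ENNReal.ofReal r

end Inner

/-- Euclidean `n`-space. -/
abbrev En (n : ℕ) := EuclideanSpace ℝ (Fin n)

section Vol

variable {n : ℕ} {M : Type*} [TopologicalSpace M] [ChartedSpace (En n) M]
  [IsManifold 𝓘(ℝ, En n) ∞ M]

/-- The Riemannian density `sqrt (det g_ij)` in the chart `e`. -/
def dens (g : RMetric (En n) M) (e : OpenPartialHomeomorph M (En n)) (y : En n) : ℝ :=
  Real.sqrt (Matrix.det (Matrix.of fun i j : Fin n =>
    coef g e y (EuclideanSpace.single i 1) (EuclideanSpace.single j 1)))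

/-- The Riemannian volume of a subset `A` of `M`: the supremum, over all finite families of
pairwise disjoint Borel sets `S i ⊆ A`, each contained in the domain of a smooth chart `e i`, of
the sum of the integrals of the Riemannian density over the images `e i (S i)`. -/
def gvol (g : RMetric (En n) M) (A : Set M) : ℝ≥0∞ :=
  ⨆ (k : ℕ) (e : Fin k → OpenPartialHomeomorph M (En n)) (S : Fin k → Set M)
    (_ : (∀ i, e i ∈ IsManifold.maximalAtlas 𝓘(ℝ, En n) ∞ M) ∧
      (∀ i, MeasurableSet (e i '' S i)) ∧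
      (∀ i, S i ⊆ A ∩ (e i).source) ∧ Pairwise (Function.onFun Disjoint S)),
    ∑ i, ∫⁻ y in e i '' S i, ENNReal.ofReal (dens g (e i) y)

end Vol

/-- The volume of the unit round sphere `S^n`: `2 π^((n+1)/2) / Γ((n+1)/2)`. -/
def sphereVol (n : ℕ) : ℝ :=
  2 * Real.pi ^ (((n : ℝ) + 1) / 2) / Real.Gamma (((n : ℝ) + 1) / 2)

/-- The volume of the unit ball of Euclidean `n`-space. -/
def ballVol (n : ℕ) : ℝ := (volume (Metric.ball (0 : En n) 1)).toReal

/-- The optimal constant `c_n^*` of the problem: the infimum of `Vol B(m,r) / r^n` over all compact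
connected smooth Riemannian `n`-manifolds `(M, g)`, all `m ∈ M` and all `0 < r ≤ Inj(M, g)`. -/
def cstar (n : ℕ) : ℝ≥0∞ :=
  sInf {c : ℝ≥0∞ | ∃ (M : Type) (_ : TopologicalSpace M) (_ : T2Space M) (_ : CompactSpace M)
    (_ : ConnectedSpace M) (_ : ChartedSpace (En n) M) (_ : IsManifold 𝓘(ℝ, En n) ∞ M)
    (g : RMetric (En n) M) (m : M) (r : ℝ), 0 < r ∧ ENNReal.ofReal r ≤ injRad g ∧
      c = gvol g (gball g m r) / ENNReal.ofReal (r ^ n)}

end Pool.Agent.CROF
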