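import Pool.Agent.helper58.CRO.Main4
import Pool.Agent.helper58.CRO.Defs2

/-!
# MP_5bf3c3_gt: the final theorems over the definitions of Defs2
-/

open scoped Manifold ContDiff Topology ENNReal
open MeasureTheory Set Bundle Filter

noncomputable section

namespace Pool.Agent.CROF

universe u

section

variable {n : ℕ} {M : Type u} [TopologicalSpace M] [ChartedSpace (En n) M] [IsManifold 𝓘(ℝ, En n) ∞ M]

theorem br_gball (g : RMetric (En n) M) (m : M) (r : ℝ) : gball g m r = CRO.gball g m r := rfl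

theorem br_coef (g : RMetric (En n) M) (e : OpenPartialHomeomorph M (En n)) (y v w : En n) :
    coef g e y v w = CRO.coef g e y v w := rfl

theorem br_geo (g : RMetric (En n) M) (γ : ℝ → M) (I : Set ℝ) :
    IsGeodesicOn g γ I = CRO.IsGeodesicOn g γ I := rfl

theorem br_inj (g : RMetric (En n) M) (x : M) (r : ℝ) : HasInjAt g x r = CRO.HasInjAt g x r := rfl

theorem br_injRad (g : RMetric (En n) M) : injRad g = CRO.injRad g := rfl

theorem br_dens (g : RMetric (En n) M) (e : OpenPartialHomeomorph M (En n)) (y : En n) :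
    dens g e y = CRO.dens g e y := rfl

theorem br_gvol (g : RMetric (En n) M) (A : Set M) : gvol g A = CRO.gvol g A := rfl

end

theorem br_cstar (n : ℕ) : cstar n = CRO.cstar n := rfl

theorem br_sphereVol (n : ℕ) : sphereVol n = CRO.sphereVol n := rfl

theorem br_FNL (ε : ℝ) (hε : 0 < ε) (hε1 : ε < 1) : ∃ n0 : ℕ, ∀ n ≥ n0, ∀ (M : Type u)
    [TopologicalSpace M] [T2Space M] [CompactSpace M] [ConnectedSpace M] [ChartedSpace (En n) M]
    [IsManifold 𝓘(ℝ, En n) ∞ M] (g : RMetric (En n) M) (m : M) (r : ℝ), 0 < r →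
      ENNReal.ofReal (2 * r) ≤ injRad g →
        ENNReal.ofReal ((1 - ε) ^ n * sphereVol n * (2 * r / Real.pi) ^ n) ≤
          gvol g (gball g m r) :=
  CRO.M3_FNL.{u} ε hε hε1

theorem br_LRT : Tendsto (fun n : ℕ =>
    ((cstar n).toReal / (sphereVol n / Real.pi ^ n)) ^ ((1 : ℝ) / n)) atTop (𝓝 1) :=
  CRO.M3_LRT

theorem br_LIM : Tendsto (fun n : ℕ => Real.sqrt n * ((cstar n).toReal) ^ ((1 : ℝ) / n)) atTop
    (𝓝 (Real.sqrt (2 * Real.exp 1 / Real.pi))) :=
  CRO.M3_LIM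

theorem br_EX3 (n : ℕ) (hn : 1 ≤ n) (M : Type u) [TopologicalSpace M] [T2Space M]
    [CompactSpace M] [ConnectedSpace M] [ChartedSpace (En n) M] [IsManifold 𝓘(ℝ, En n) ∞ M]
    (g : RMetric (En n) M) (m : M) (r : ℝ) (hr : 0 < r) (hi : ENNReal.ofReal r ≤ injRad g) :
      ENNReal.ofReal (ballVol n * (5 * r / (6 * Real.pi)) ^ n) ≤ gvol g (gball g m r) :=
  CRO.M4_EX3.{u} n hn M g m r hr hi

theorem br_EX4 (n : ℕ) (hn : 1 ≤ n) :
    ENNReal.ofReal (ballVol n * (5 / (6 * Real.pi)) ^ n) ≤ cstar n :=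
  CRO.M4_EX4 n hn

end Pool.Agent.CROF
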