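import Pool.Agent.helper58.CRO.Main5
import Pool.Agent.helper58.CRO.Bridge

/-!
# MP_5bf3c3_gt: Theorem 4 over the definitions of Defs2
-/

open scoped Manifold ContDiff Topology ENNReal
open MeasureTheory Set Bundle Filter

noncomputable section

namespace Pool.Agent.CROF

universe u

theorem br_GF2 (n : ℕ) (hn : 2 ≤ n) (M : Type u) [TopologicalSpace M] [T2Space M]
    [CompactSpace M] [ConnectedSpace M] [ChartedSpace (En n) M] [IsManifold 𝓘(ℝ, En n) ∞ M]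
    (g : RMetric (En n) M) (m : M) (r : ℝ) (hr : 0 < r) (hi : ENNReal.ofReal (2 * r) ≤ injRad g) :
      ENNReal.ofReal (((n : ℝ) + 2) / (n + 3) * (sphereVol n / 2 * (2 * r / Real.pi) ^ n)) ≤
        gvol g (gball g m r) :=
  CRO.M5_GF2.{u} n hn M g m r hr hi

theorem br_GF3 (M : Type u) [TopologicalSpace M] [T2Space M]
    [CompactSpace M] [ConnectedSpace M] [ChartedSpace (En 3) M] [IsManifold 𝓘(ℝ, En 3) ∞ M]
    (g : RMetric (En 3) M) (m : M) (r : ℝ) (hr : 0 < r) (hi : ENNReal.ofReal (2 * r) ≤ injRad g) :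
      ENNReal.ofReal (9 / 10 * (sphereVol 3 / 2 * (2 * r / Real.pi) ^ 3)) ≤
        gvol g (gball g m r) :=
  CRO.M5_GF3.{u} M g m r hr hi

theorem br_GC2 (n : ℕ) (hn : 2 ≤ n) :
    ENNReal.ofReal (((n : ℝ) + 2) / (n + 3) * (sphereVol n / Real.pi ^ n)) ≤ cstar n :=
  CRO.M5_GC2 n hn

theorem br_GC3 : ENNReal.ofReal (9 / 10 * (sphereVol 3 / Real.pi ^ 3)) ≤ cstar 3 :=
  CRO.M5_GC3

theorem br_UPB (n : ℕ) (hn : 1 ≤ n) : cstar n ≤ ENNReal.ofReal (sphereVol n / Real.pi ^ n) :=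
  CRO.M2_UPB n hn

theorem br_GLI : Tendsto (fun n : ℕ => (cstar n).toReal / (sphereVol n / Real.pi ^ n)) atTop (𝓝 1) :=
  CRO.M5_GLI

end Pool.Agent.CROF
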