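import Pool.Agent.helper58.CRO.Main6
import Pool.Agent.helper58.CRO.Bridge2

/-!
# MP_5bf3c3_gt: Theorem 5 over the definitions of Defs2
-/

open scoped Manifold ContDiff Topology ENNReal
open MeasureTheory Set Bundle Filter

noncomputable section

namespace Pool.Agent.CROF

universe u

theorem br_KGN (M : Type u) [TopologicalSpace M] [T2Space M]
    [CompactSpace M] [ConnectedSpace M] [ChartedSpace (En 2) M] [IsManifold 𝓘(ℝ, En 2) ∞ M]
    (g : RMetric (En 2) M) (m : M) (r : ℝ) (hr : 0 < r) (hi : ENNReal.ofReal (2 * r) ≤ injRad g) :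
      ENNReal.ofReal (8 / Real.pi * r ^ 2) ≤ gvol g (gball g m r) :=
  CRO.M6_KGN.{u} M g m r hr hi

theorem br_KG1 (M : Type u) [TopologicalSpace M] [T2Space M]
    [CompactSpace M] [ConnectedSpace M] [ChartedSpace (En 2) M] [IsManifold 𝓘(ℝ, En 2) ∞ M]
    (g : RMetric (En 2) M) (m : M) (r : ℝ) (hr : 0 < r) (hi : ENNReal.ofReal r ≤ injRad g) :
      ENNReal.ofReal (4 / Real.pi * r ^ 2) ≤ gvol g (gball g m r) :=
  CRO.M6_KG1.{u} M g m r hr hi

theorem br_KCS : cstar 2 = ENNReal.ofReal (4 / Real.pi) := CRO.M6_KCS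

end Pool.Agent.CROF
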