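import Pool.Agent.helper58.CRO.Defs2

/-!
# Croke's small ball constant: the unit round sphere (MP_5bf3c3_gt)
-/

open scoped Manifold ContDiff Topology ENNReal
open MeasureTheory Set Bundle

noncomputable section

namespace Pool.Agent.CROF

/-- The derivative at `x` of a map `f` from the manifold `M` to the normed space `F`, applied to the
tangent vector `v`. -/
def dmap {E : Type*} [NormedAddCommGroup E] [NormedSpace ℝ E] {F : Type*} [NormedAddCommGroup F]
    [NormedSpace ℝ F] {M : Type*} [TopologicalSpace M] [ChartedSpace E M] (f : M → F) (x : M)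
    (v : TangentSpace 𝓘(ℝ, E) x) : F :=
  mfderiv 𝓘(ℝ, E) 𝓘(ℝ, F) f x v

/-- The unit sphere `S^n` in `R^{n+1}`, with Mathlib's smooth structure. -/
abbrev Sn (n : ℕ) := Metric.sphere (0 : En (n + 1)) 1

/-- The inclusion `S^n → R^{n+1}`. -/
def incl (n : ℕ) (y : Sn n) : En (n + 1) := y.1

/-- `g` is the round metric of `S^n`: `g_x(v, w)` is the inner product in `R^{n+1}` of the images
of `v` and `w` under the derivative of the inclusion. -/
def IsRound {n : ℕ} (g : RMetric (En n) (Sn n)) : Prop :=
  ∀ (x : Sn n) (v w : TangentSpace 𝓘(ℝ, En n) x),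
    gin g x v w = inner ℝ (dmap (incl n) x v) (dmap (incl n) x w)

/-- The volume of the unit round sphere `S^n` and of its balls of radius `π` is `sphereVol n`, and its
injectivity radius is at least `π`. -/
def RoundSphereFacts (n : ℕ) : Prop :=
  ∃ g : RMetric (En n) (Sn n), IsRound g ∧ ENNReal.ofReal Real.pi ≤ injRad g ∧
    gvol g univ = ENNReal.ofReal (sphereVol n) ∧
    ∀ m : Sn n, gvol g (gball g m Real.pi) = ENNReal.ofReal (sphereVol n)

end Pool.Agent.CROF
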