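import Pool.Agent.helper58.CRO.Main7
import Pool.Agent.helper58.CRO.Defs3

/-!
# MP_5bf3c3_gt: Theorem 6 over the definitions of Defs2 and Defs3
-/

open scoped Manifold ContDiff Topology ENNReal
open MeasureTheory Set Bundle Filter

noncomputable section

namespace Pool.Agent.CROF

universe u

theorem b4_LGN (n : ℕ) (hn : 2 ≤ n) (M : Type u) [TopologicalSpace M] [T2Space M]
    [CompactSpace M] [ConnectedSpace M] [ChartedSpace (En n) M] [IsManifold 𝓘(ℝ, En n) ∞ M]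
    (g : RMetric (En n) M) (m : M) (r : ℝ) (hr : 0 < r) (hi : ENNReal.ofReal (2 * r) ≤ injRad g) :
      ENNReal.ofReal (sphereVol n / 2 * (2 * r / Real.pi) ^ n) ≤ gvol g (gball g m r) :=
  CRO.M7_LGN.{u} n hn M g m r hr hi

theorem b4_LG1 (n : ℕ) (hn : 2 ≤ n) (M : Type u) [TopologicalSpace M] [T2Space M]
    [CompactSpace M] [ConnectedSpace M] [ChartedSpace (En n) M] [IsManifold 𝓘(ℝ, En n) ∞ M]
    (g : RMetric (En n) M) (m : M) (r : ℝ) (hr : 0 < r) (hi : ENNReal.ofReal r ≤ injRad g) :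
      ENNReal.ofReal (sphereVol n * (r / Real.pi) ^ n) ≤ gvol g (gball g m r) :=
  CRO.M7_LG1.{u} n hn M g m r hr hi

theorem b4_LCS (n : ℕ) (hn : 2 ≤ n) : cstar n = ENNReal.ofReal (sphereVol n / Real.pi ^ n) :=
  CRO.M7_LCS n hn

theorem b4_LRV (n : ℕ) (hn : 2 ≤ n) (g : RMetric (En n) (Sn n)) (hg : IsRound g) :
    ENNReal.ofReal Real.pi ≤ injRad g ∧ gvol g univ = ENNReal.ofReal (sphereVol n) ∧
      ∀ m : Sn n, gvol g (gball g m Real.pi) = ENNReal.ofReal (sphereVol n) :=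
  CRO.M7_LRV n hn g hg

theorem b4_SPG (n : ℕ) : ∃ g : RMetric (En n) (Sn n), IsRound g := CRO.SPG n

end Pool.Agent.CROF
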