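import Pool.Agent.helper58.CRO.SpecD

open scoped Manifold ContDiff Topology ENNReal
open MeasureTheory Set Bundle

noncomputable section

namespace Pool.Agent.CRO

universe u

variable {n : ℕ} {M : Type u} [TopologicalSpace M] [ChartedSpace (En n) M] [IsManifold (𝓡 n) ∞ M]

theorem COE_sec (e : OpenPartialHomeomorph M (En n))
    (he : e ∈ IsManifold.maximalAtlas (𝓡 n) ∞ M) (v : En n) (y : En n) (hy : y ∈ e.target) :
    ContMDiffAt 𝓘(ℝ, En n) (𝓡 n).tangent ∞
      (fun m : En n => (⟨e.symm m, mfderiv 𝓘(ℝ, En n) (𝓡 n) e.symm m v⟩ :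
        TangentBundle (𝓡 n) M)) y := by
  have hs : ContMDiffOn 𝓘(ℝ, En n) (𝓡 n) ∞ e.symm e.target :=
    contMDiffOn_symm_of_mem_maximalAtlas he
  have hT := hs.contMDiffOn_tangentMapWithin (m := ∞) (by simp) e.open_target.uniqueMDiffOn
  have hsec : ContMDiffAt 𝓘(ℝ, En n) 𝓘(ℝ, En n).tangent ∞
      (fun m : En n => (⟨m, v⟩ : TangentBundle 𝓘(ℝ, En n) (En n))) y := by
    have := (contMDiffAt_vectorSpace_iff_contDiffAt (V := fun _ : En n => (v : En n))
      (x := y) (n := ∞) (𝕜 := ℝ)).2 contDiffAt_const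
    exact this
  have hcomp := (hT.contMDiffAt (x := (⟨y, v⟩ : TangentBundle 𝓘(ℝ, En n) (En n)))
    (by
      apply IsOpen.mem_nhds
      · exact e.open_target.preimage (FiberBundle.continuous_proj _ _)
      · exact hy)).comp y hsec
  refine hcomp.congr_of_eventuallyEq ?_
  filter_upwards [e.open_target.mem_nhds hy] with m hm
  simp only [Function.comp, tangentMapWithin]
  rw [mfderivWithin_of_isOpen e.open_target hm]

theorem COE : COE_stmt.{u} := by
  intro n M _ _ _ g e he v w y hy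
  apply ContDiffAt.contDiffWithinAt
  rw [← contMDiffAt_iff_contDiffAt]
  have hv := COE_sec e he v y hy
  have hw := COE_sec e he w y hy
  have hb : ContMDiffAt 𝓘(ℝ, En n) (𝓡 n) ∞ e.symm y :=
    contMDiffAt_symm_of_mem_maximalAtlas he hy
  have key : ContMDiffAt 𝓘(ℝ, En n) ((𝓡 n).prod 𝓘(ℝ)) ∞
      (fun m : En n => TotalSpace.mk' ℝ (E := Bundle.Trivial M ℝ) (e.symm m)
        (g.inner (e.symm m) (mfderiv 𝓘(ℝ, En n) (𝓡 n) e.symm m v)
          (mfderiv 𝓘(ℝ, En n) (𝓡 n) e.symm m w))) y := by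
    apply ContMDiffAt.clm_bundle_apply₂ (F₁ := En n) (F₂ := En n)
    · exact (g.contMDiff.contMDiffAt).comp y hb
    · exact hv
    · exact hw
  simp only [contMDiffAt_totalSpace] at key
  exact key.2

end Pool.Agent.CRO
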