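import Mathlib

/-!
# Croke's small ball constant: definitions (MP_5bf3c3_gt)

Paper proof: Pool/Agent/helper58/CRO/PROOF.md
-/

open scoped Manifold ContDiff Topology ENNReal
open MeasureTheory Set Bundle

noncomputable section

namespace Pool.Agent.CRO

/-! ## Part 1: the objects of the problem -/

/-- Euclidean `n`-space. -/
abbrev En (n : ℕ) := EuclideanSpace ℝ (Fin n)

section Manifold

variable {n : ℕ} {M : Type*} [TopologicalSpace M] [ChartedSpace (En n) M] [IsManifold (𝓡 n) ∞ M]

variable (n M) in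
/-- Smooth Riemannian metrics on the `n`-manifold `M` (Mathlib's notion). -/
abbrev RMetric := Bundle.ContMDiffRiemannianMetric (𝓡 n) ∞ (En n)
  (fun x : M => TangentSpace (𝓡 n) x)

/-- The Riemannian distance of `(M, g)` (Mathlib's `riemannianEDist`: the infimum of the lengths of
`C^1` paths). -/
def gdist (g : RMetric n M) (x y : M) : ℝ≥0∞ :=
  letI : Bundle.RiemannianBundle (fun x : M => TangentSpace (𝓡 n) x) := ⟨g.toRiemannianMetric⟩
  Manifold.riemannianEDist (𝓡 n) x y

/-- The metric ball of radius `r` centred at `m`. -/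
def gball (g : RMetric n M) (m : M) (r : ℝ) : Set M := {x | gdist g m x < ENNReal.ofReal r}

/-- The metric `g` written in the chart `e`: the bilinear form `g_e(y)(v, w)` at the point
`y` of `e.target`. -/
def coef (g : RMetric n M) (e : OpenPartialHomeomorph M (En n)) (y v w : En n) : ℝ :=
  g.inner (e.symm y) (mfderiv 𝓘(ℝ, En n) (𝓡 n) e.symm y v)
    (mfderiv 𝓘(ℝ, En n) (𝓡 n) e.symm y w)

/-- `γ` is a geodesic of `g` on the (open) set of times `I`: it is smooth and satisfies the
geodesic equation `d/dt (g_ij(x) x'^i w^j) = (1/2) (∂_w g_ij)(x) x'^i x'^j` in every chart of the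
maximal smooth atlas. -/
def IsGeodesicOn (g : RMetric n M) (γ : ℝ → M) (I : Set ℝ) : Prop :=
  ContMDiffOn 𝓘(ℝ, ℝ) (𝓡 n) ∞ γ I ∧
  ∀ e ∈ IsManifold.maximalAtlas (𝓡 n) ∞ M, ∀ t ∈ I, γ t ∈ e.source → ∀ w : En n,
    HasDerivAt (fun s => coef g e (e (γ s)) (deriv (fun u => e (γ u)) s) w)
      ((1 / 2) * fderiv ℝ (fun y => coef g e y (deriv (fun u => e (γ u)) t)
        (deriv (fun u => e (γ u)) t)) (e (γ t)) w) t

/-- The injectivity radius of `(M, g)` at `x` is at least `r`: there are normal coordinates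
centred at `x` on the whole ball of radius `r`, i.e. a smooth chart `χ` around `x` with
`χ x = 0`, with image the Euclidean ball of radius `r`, in which `g` is the Euclidean inner
product at the origin and the straight lines `t ↦ t v` are geodesics. In other words the
exponential map at `x` is a diffeomorphism of the ball of radius `r` of the tangent space
onto an open subset of `M` (its inverse is `χ`). -/
def HasInjAt (g : RMetric n M) (x : M) (r : ℝ) : Prop :=
  ∃ χ ∈ IsManifold.maximalAtlas (𝓡 n) ∞ M, χ.target = Metric.ball (0 : En n) r ∧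
    x ∈ χ.source ∧ χ x = 0 ∧ (∀ v w : En n, coef g χ 0 v w = inner ℝ v w) ∧
    ∀ v : En n, IsGeodesicOn g (fun t => χ.symm (t • v)) {t : ℝ | |t| * ‖v‖ < r}

/-- The injectivity radius of `(M, g)`: the supremum of all `r > 0` such that the injectivity
radius at every point is at least `r`. -/
def injRad (g : RMetric n M) : ℝ≥0∞ :=
  ⨆ (r : ℝ) (_ : 0 < r ∧ ∀ x, HasInjAt g x r), ENNReal.ofReal r

/-- The Riemannian density `sqrt (det g_ij)` in the chart `e`. -/
def dens (g : RMetric n M) (e : OpenPartialHomeomorph M (En n)) (y : En n) : ℝ :=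
  Real.sqrt (Matrix.det (Matrix.of fun i j : Fin n =>
    coef g e y (EuclideanSpace.single i 1) (EuclideanSpace.single j 1)))

/-- The Riemannian volume of a subset `A` of `M`: the supremum, over all finite families of
pairwise disjoint Borel sets `S i ⊆ A`, each contained in the domain of a smooth chart `e i`, of
the sum of the integrals of the Riemannian density over the images `e i (S i)`. -/
def gvol (g : RMetric n M) (A : Set M) : ℝ≥0∞ :=
  ⨆ (k : ℕ) (e : Fin k → OpenPartialHomeomorph M (En n)) (S : Fin k → Set M)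
    (_ : (∀ i, e i ∈ IsManifold.maximalAtlas (𝓡 n) ∞ M) ∧ (∀ i, MeasurableSet (e i '' S i)) ∧
      (∀ i, S i ⊆ A ∩ (e i).source) ∧ Pairwise (Function.onFun Disjoint S)),
    ∑ i, ∫⁻ y in e i '' S i, ENNReal.ofReal (dens g (e i) y)

end Manifold

/-- The volume of the unit round sphere `S^n`: `2 π^((n+1)/2) / Γ((n+1)/2)`. -/
def sphereVol (n : ℕ) : ℝ :=
  2 * Real.pi ^ (((n : ℝ) + 1) / 2) / Real.Gamma (((n : ℝ) + 1) / 2)

/-- The optimal constant `c_n^*` of the problem: the infimum of `Vol B(m,r) / r^n` over all compact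
connected smooth Riemannian `n`-manifolds `(M, g)`, all `m ∈ M` and all `0 < r ≤ Inj(M, g)`. -/
def cstar (n : ℕ) : ℝ≥0∞ :=
  sInf {c : ℝ≥0∞ | ∃ (M : Type) (_ : TopologicalSpace M) (_ : T2Space M) (_ : CompactSpace M)
    (_ : ConnectedSpace M) (_ : ChartedSpace (En n) M) (_ : IsManifold (𝓡 n) ∞ M)
    (g : RMetric n M) (m : M) (r : ℝ), 0 < r ∧ ENNReal.ofReal r ≤ injRad g ∧
      c = gvol g (gball g m r) / ENNReal.ofReal (r ^ n)}

end Pool.Agent.CRO
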