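import Pool.Agent.helper58.CRO.SpecD

open scoped Manifold ContDiff Topology ENNReal
open MeasureTheory Set Bundle

noncomputable section

namespace Pool.Agent.CRO

universe u

/-- a function with zero derivative on `{t | |t| * c < r}` is constant there -/
theorem GAU_const (f : ℝ → ℝ) (c r : ℝ) (hc : 0 ≤ c)
    (h : ∀ t : ℝ, |t| * c < r → HasDerivAt f 0 t) (t : ℝ) (ht : |t| * c < r) : f t = f 0 := by
  have hseg : ∀ s ∈ Set.uIcc (0 : ℝ) t, |s| * c < r := by
    intro s hs
    have h1 : |s| ≤ |t| := by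
      rcases le_total 0 t with h0 | h0
      · rw [Set.uIcc_of_le h0] at hs
        rw [abs_of_nonneg hs.1, abs_of_nonneg h0]; exact hs.2
      · rw [Set.uIcc_of_ge h0] at hs
        rw [abs_of_nonpos hs.2, abs_of_nonpos h0]; linarith [hs.1]
    exact lt_of_le_of_lt (mul_le_mul_of_nonneg_right h1 hc) ht
  have hconv : Convex ℝ (Set.uIcc (0 : ℝ) t) := convex_uIcc 0 t
  have key := hconv.norm_image_sub_le_of_norm_hasDerivWithin_le (f := f) (f' := fun _ => 0) (C := 0)
    (fun s hs => (h s (hseg s hs)).hasDerivWithinAt) (fun s _ => by simp)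
    (Set.left_mem_uIcc) (Set.right_mem_uIcc)
  rw [zero_mul] at key
  have := norm_le_zero_iff.mp key
  linarith

theorem GAU (h1 : COE_stmt.{u}) (h2 : CBL_stmt.{u}) : GAU_stmt.{u} := by
  intro n M _ _ _ g χ x r hr hχ
  obtain ⟨hmem, htar, hxs, hx0, hin, hgeo⟩ := hχ
  set c : En n → En n → En n → ℝ := fun y v w => coef g χ y v w with hc
  have hball : ∀ y : En n, ‖y‖ < r → y ∈ χ.target := by
    intro y hy; rw [htar]; simpa using hy
  have hsym : ∀ y : En n, ‖y‖ < r → ∀ v w, c y v w = c y w v := fun y hy =>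
    (h2 n M g χ hmem y (hball y hy)).1
  have hadd : ∀ y : En n, ‖y‖ < r → ∀ v v' w, c y (v + v') w = c y v w + c y v' w := fun y hy =>
    (h2 n M g χ hmem y (hball y hy)).2.1
  have hsmul : ∀ y : En n, ‖y‖ < r → ∀ (a : ℝ) v w, c y (a • v) w = a * c y v w := fun y hy =>
    (h2 n M g χ hmem y (hball y hy)).2.2.1
  have hdiff : ∀ y : En n, ‖y‖ < r → ∀ v w, DifferentiableAt ℝ (fun y => c y v w) y := by
    intro y hy v w
    have hcd := h1 n M g χ hmem v w
    have hnh : χ.target ∈ 𝓝 y := χ.open_target.mem_nhds (hball y hy)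
    exact (hcd.contDiffAt hnh).differentiableAt (by simp)
  -- norm of t • v
  have hnt : ∀ (t : ℝ) (v : En n), |t| * ‖v‖ < r → ‖t • v‖ < r := by
    intro t v h; rw [norm_smul]; simpa using h
  -- the set of times is open
  have hopen : ∀ v : En n, IsOpen {t : ℝ | |t| * ‖v‖ < r} := by
    intro v
    exact isOpen_lt ((continuous_abs).mul continuous_const) continuous_const
  -- (E1)
  have E1 : ∀ (v : En n) (t : ℝ), |t| * ‖v‖ < r → ∀ w : En n,
      HasDerivAt (fun s : ℝ => c (s • v) v w)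
        ((1 / 2) * fderiv ℝ (fun y => c y v v) (t • v) w) t := by
    intro v t ht w
    have hI := hopen v
    have hev : ∀ᶠ s in 𝓝 t, |s| * ‖v‖ < r := hI.mem_nhds ht
    have hr1 : ∀ s : ℝ, |s| * ‖v‖ < r → χ (χ.symm (s • v)) = s • v := by
      intro s hs
      exact χ.right_inv (hball _ (hnt s v hs))
    have hd1 : ∀ s : ℝ, |s| * ‖v‖ < r → deriv (fun u => χ (χ.symm (u • v))) s = v := by
      intro s hs
      have hev2 : (fun u : ℝ => χ (χ.symm (u • v))) =ᶠ[𝓝 s] fun u => u • v := by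
        filter_upwards [hI.mem_nhds hs] with u hu using hr1 u hu
      rw [hev2.deriv_eq]
      have : HasDerivAt (fun u : ℝ => u • v) ((1 : ℝ) • v) s := (hasDerivAt_id s).smul_const v
      rw [this.deriv, one_smul]
    have hg := (hgeo v).2 χ hmem t ht (χ.map_target (hball _ (hnt t v ht))) w
    simp only [hd1 t ht, hr1 t ht] at hg
    refine hg.congr_of_eventuallyEq ?_
    filter_upwards [hev] with s hs
    simp only [hr1 s hs, hd1 s hs, hc]
  -- chain rule
  have CH : ∀ (v : En n) (t : ℝ), |t| * ‖v‖ < r → ∀ a b : En n,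
      HasDerivAt (fun s : ℝ => c (s • v) a b) (fderiv ℝ (fun y => c y a b) (t • v) v) t := by
    intro v t ht a b
    have h3 := (hdiff (t • v) (hnt t v ht) a b).hasFDerivAt
    have h4 : HasDerivAt (fun u : ℝ => u • v) ((1 : ℝ) • v) t := (hasDerivAt_id t).smul_const v
    rw [one_smul] at h4
    exact h3.comp_hasDerivAt t h4
  -- (E2)
  have E2 : ∀ (v : En n) (t : ℝ), |t| * ‖v‖ < r → c (t • v) v v = ‖v‖ ^ 2 := by
    intro v t ht
    have hz : ∀ s : ℝ, |s| * ‖v‖ < r → HasDerivAt (fun s : ℝ => c (s • v) v v) 0 s := by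
      intro s hs
      have a1 := E1 v s hs v
      have a2 := CH v s hs v v
      have a3 := a1.unique a2
      have a4 : fderiv ℝ (fun y => c y v v) (s • v) v = 0 := by linarith
      rw [a4] at a2; exact a2
    have := GAU_const _ ‖v‖ r (norm_nonneg v) hz t ht
    rw [this]
    simp only [zero_smul]
    rw [hc]; simp only []
    rw [hin, real_inner_self_eq_norm_sq]
  refine ⟨E2, ?_⟩
  -- (E3)
  have E3 : ∀ (v w : En n) (t : ℝ), |t| * ‖v‖ < r →
      fderiv ℝ (fun y => c y v v) (t • v) (t • w) + 2 * c (t • v) v w = 2 * inner ℝ v w := by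
    intro v w t ht
    have hcont : Continuous fun ε : ℝ => |t| * ‖v + ε • w‖ := by fun_prop
    have hev : ∀ᶠ ε in 𝓝 (0 : ℝ), |t| * ‖v + ε • w‖ < r := by
      apply (isOpen_lt hcont continuous_const).mem_nhds
      simpa using ht
    -- expansion
    have hline : HasDerivAt (fun ε : ℝ => t • (v + ε • w)) (t • w) 0 := by
      have h5 : HasDerivAt (fun ε : ℝ => ε • w) ((1 : ℝ) • w) 0 := (hasDerivAt_id (0:ℝ)).smul_const w
      rw [one_smul] at h5
      exact (h5.const_add v).const_smul t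
    have hd : ∀ a b : En n, HasDerivAt (fun ε : ℝ => c (t • (v + ε • w)) a b)
        (fderiv ℝ (fun y => c y a b) (t • v) (t • w)) 0 := by
      intro a b
      have h3 := (hdiff (t • v) (hnt t v ht) a b).hasFDerivAt
      have h3' : HasFDerivAt (fun y => c y a b) (fderiv ℝ (fun y => c y a b) (t • v))
          (t • (v + (0 : ℝ) • w)) := by simpa using h3
      exact h3'.comp_hasDerivAt (0 : ℝ) hline
    have hL : HasDerivAt (fun ε : ℝ => c (t • (v + ε • w)) v v +
        2 * (ε * c (t • (v + ε • w)) v w) + ε ^ 2 * c (t • (v + ε • w)) w w)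
        (fderiv ℝ (fun y => c y v v) (t • v) (t • w) + 2 * c (t • v) v w) 0 := by
      have b1 := hd v v
      have b2 := ((hasDerivAt_id (0 : ℝ)).mul (hd v w)).const_mul 2
      have b3 := ((hasDerivAt_pow 2 (0 : ℝ))).mul (hd w w)
      have b4 := (b1.add b2).add b3
      refine (b4.congr_deriv ?_)
      simp
    have hR : HasDerivAt (fun ε : ℝ => ‖v + ε • w‖ ^ 2) (2 * inner ℝ v w) 0 := by
      have hexp : (fun ε : ℝ => ‖v + ε • w‖ ^ 2) =
          fun ε : ℝ => ‖v‖ ^ 2 + 2 * (ε * inner ℝ v w) + ε ^ 2 * ‖w‖ ^ 2 := by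
        funext ε
        rw [norm_add_sq_real, inner_smul_right, norm_smul, mul_pow]
        simp [sq_abs]
      rw [hexp]
      have c1 : HasDerivAt (fun ε : ℝ => ε * inner ℝ v w) (1 * inner ℝ v w) 0 :=
        (hasDerivAt_id (0 : ℝ)).mul_const _
      have c2 := ((hasDerivAt_const (0 : ℝ) (‖v‖ ^ 2)).add (c1.const_mul 2)).add
        ((hasDerivAt_pow 2 (0 : ℝ)).mul_const (‖w‖ ^ 2))
      refine c2.congr_deriv ?_
      simp
    have heq : (fun ε : ℝ => c (t • (v + ε • w)) v v +
        2 * (ε * c (t • (v + ε • w)) v w) + ε ^ 2 * c (t • (v + ε • w)) w w) =ᶠ[𝓝 0]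
        fun ε : ℝ => ‖v + ε • w‖ ^ 2 := by
      filter_upwards [hev] with ε hε
      have hy := hnt t (v + ε • w) hε
      rw [← E2 (v + ε • w) t hε]
      rw [hadd _ hy, hsym _ hy v (v + ε • w), hsym _ hy (ε • w) (v + ε • w), hadd _ hy, hadd _ hy,
        hsmul _ hy, hsym _ hy v (ε • w), hsmul _ hy, hsmul _ hy, hsym _ hy w v,
        hsym _ hy w (ε • w), hsmul _ hy]
      ring
    exact (hL.congr_of_eventuallyEq heq.symm).unique hR
  intro y w hy
  have hy1 : ∀ t : ℝ, |t| * ‖y‖ < r → HasDerivAt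
      (fun s : ℝ => s * c (s • y) y w - s * inner ℝ y w) 0 t := by
    intro t ht
    have d1 := E1 y t ht w
    have d2 := ((hasDerivAt_id t).mul d1).sub ((hasDerivAt_id t).mul_const (inner ℝ y w))
    refine d2.congr_deriv ?_
    have e3 := E3 y w t ht
    rw [map_smul, smul_eq_mul] at e3
    simp only [id, one_mul]
    linarith
  have h1r : |(1 : ℝ)| * ‖y‖ < r := by simpa using hy
  have hfin := GAU_const _ ‖y‖ r (norm_nonneg y) hy1 1 h1r
  simp only [one_smul, one_mul, zero_mul, sub_zero] at hfin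
  have : c y y w = inner ℝ y w := by linarith
  exact this

end Pool.Agent.CRO
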