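import Pool.Agent.helper58.CRO.SpecK

/-!
# Row KEX: the exponential map in both directions of time
-/

open scoped Manifold ContDiff Topology ENNReal
open MeasureTheory Set

noncomputable section

namespace Pool.Agent.CRO

theorem KEX (h1 : IWN_stmt) (h2 : NRG_stmt) (h3 : HVA_stmt) (h4 : KRV_stmt) : KEX_stmt := by
  intro n r0 𝒢 L R e r1 H Φ hS x hx
  have hRr := hS.Rr
  have hr10 := hS.fl.r1lt
  obtain ⟨Ex, D, -, hinj, -, hmain⟩ := hS.ex x (by linarith)
  refine ⟨Ex, D, hinj, ?_⟩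
  -- nonnegative times
  have hpos : ∀ p : En n, ((x, p) : PS n) ∈ SL 𝒢 e R → ∀ u, 0 ≤ u → Stay Φ R (x, p) u →
      u • p ∈ D ∧ (Φ u (x, p)).1 = Ex (u • p) := by
    intro p hp u hu0 hu
    obtain ⟨α, β, hα, hβ, hst, -, hlen, -, -, hin⟩ := h1 n r0 𝒢 L R e r1 H Φ hS (x, p) hp
    have hub : u ∈ Ioo α β := (hst u).1 hu
    have huL : u < L := by linarith [hub.2]
    have hn2 : nrm2 𝒢 (x, p) < 1 := by
      have h := (Real.sqrt_lt' (by norm_num : (0 : ℝ) < 1)).1
        (show Real.sqrt (nrm2 𝒢 (x, p)) < 1 from hp.2.2)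
      simpa using h
    have hz0 : Φ 0 (x, p) = (x, p) := hS.fl.zero _
    have key := hmain (fun t => Φ t (x, p)) u hu0 huL (by
        show (Φ 0 (x, p)).1 = x
        rw [hz0]) (by
        show nrm2 𝒢 (Φ 0 (x, p)) < 1
        rw [hz0]
        exact hn2) (by
        intro t ht
        have htu : t ∈ uIcc 0 u := by
          rw [uIcc_of_le hu0]
          exact ht
        have hR : ‖(Φ t (x, p)).1‖ < R := hu t htu
        have htαβ : t ∈ Icc α β := ⟨by linarith [ht.1], by linarith [ht.2, hub.2]⟩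
        refine ⟨by linarith, ?_⟩
        show HasDerivAt (fun t => Φ t (x, p)) (hvf (ham 𝒢) (Φ t (x, p))) t
        have hv := (h3 n r0 r1 𝒢 H Φ hS.fl (Φ t (x, p)) (by linarith)
          (by rw [(hin t htαβ).2]; linarith)).2.1
        rw [← hv]
        exact hS.fl.ode (x, p) t)
    have e1 : (Φ 0 (x, p)).2 = p := by rw [hz0]
    simp only [e1] at key
    exact key
  intro p hp u hu
  rcases le_total 0 u with h0 | h0
  · exact hpos p hp u h0 hu
  · obtain ⟨hm, hs, he⟩ := h4 n r0 𝒢 L R e r1 H Φ hS (x, p) hp u hu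
    have h5 := hpos (-p) hm (-u) (by linarith) hs
    have h6 : (-u) • (-p) = u • p := by
      rw [neg_smul_neg]
    have h7 : (Φ (-u) (x, -p)).1 = (Φ u (x, p)).1 := by
      have : Φ (-u) (x, -p) = ((Φ u (x, p)).1, -(Φ u (x, p)).2) := he
      rw [this]
    rw [h6, h7] at h5
    exact h5

end Pool.Agent.CRO
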