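import Pool.Agent.helper58.CRO.SpecK

open scoped Manifold ContDiff Topology ENNReal
open MeasureTheory Set Bundle

noncomputable section

namespace Pool.Agent.CRO

universe u

theorem KG1 (h1 : KGN_stmt.{u}) (h2 : GDD_stmt.{u}) : KG1_stmt.{u} := by
  intro M _ _ _ _ _ _ g m r hr hi
  have hpi := Real.pi_pos
  have h := h2 2 (by norm_num) M g (8 / Real.pi) (by positivity)
    (fun m s hs hs2 => h1 M g m s hs hs2) m r hr hi
  have e : 2 * (8 / Real.pi) * (r / 2) ^ 2 = 4 / Real.pi * r ^ 2 := by
    field_simp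
    ring
  rw [e] at h
  exact h

end Pool.Agent.CRO
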