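import Pool.Agent.helper58.CRO.SpecK

/-!
# Row KIN: two segments cross at most once
-/

open scoped Manifold ContDiff Topology ENNReal
open MeasureTheory Set

noncomputable section

namespace Pool.Agent.CRO

theorem KIN_crs (v w : En 2) (c : ℝ) (A : En 2 →L[ℝ] En 2) (h : w = c • v) :
    crs (A v) (A w) = 0 := by
  subst h
  unfold crs
  rw [map_smul]
  simp only [PiLp.smul_apply, smul_eq_mul]
  rw [show (A v) 0 * (c * (A v) 1) - (A v) 1 * (c * (A v) 0) = 0 by ring, abs_zero]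

theorem KIN (h1 : KEX_stmt) (h2 : INV_stmt) : KIN_stmt := by
  intro r0 𝒢 L R e r1 H Φ hS z hz s1 s2 t1 t2 p1 p2 hs1 hs2 hw1 hw2 ht1 ht2 hcrs heq
  have hepos := hS.epos
  obtain ⟨ha1, hspa, hinva, -, -⟩ := h2 2 r0 𝒢 L R e r1 H Φ hS z hz s1 hs1
  -- the point `a = Φ s1 z`
  set a : PS 2 := Φ s1 z with ha
  have haa : a = (a.1, a.2) := rfl
  obtain ⟨Ex, D, hinj, hE⟩ := h1 2 r0 𝒢 L R e r1 H Φ hS a.1 ha1.1
  -- along the orbit of z
  have hstA : Stay Φ R a (s2 - s1) := by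
    rw [hinva]
    simpa using hs2
  have hA := hE a.2 (by rw [← haa]; exact ha1) (s2 - s1) (by rw [← haa]; exact hstA)
  rw [← haa] at hA
  have hΦA : Φ (s2 - s1) a = Φ s2 z := by
    rw [ha, ← hS.fl.add]
    congr 1
    ring
  rw [hΦA] at hA
  -- along the orbit of w1
  set w1 : PS 2 := (a.1, p1) with hw1d
  set w2 : PS 2 := ((Φ s2 z).1, p2) with hw2d
  obtain ⟨hz1, -, hinv1, -, -⟩ := h2 2 r0 𝒢 L R e r1 H Φ hS w1 hw1 t1 ht1
  obtain ⟨hz2, -, hinv2, -, -⟩ := h2 2 r0 𝒢 L R e r1 H Φ hS w2 hw2 t2 ht2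
  have hst2 : Stay Φ R (Φ t2 w2) (-t2) := by
    rw [hinv2]
    intro s hs
    have : s = 0 := by simpa using hs
    subst this
    rw [hS.fl.zero]
    exact hw2.1
  have hst1 : Stay Φ R w1 (t1 - t2) := by
    rw [← heq, hinv1] at hst2
    simpa [sub_eq_add_neg] using hst2
  have hB := hE p1 hw1 (t1 - t2) hst1
  have hΦB : Φ (t1 - t2) w1 = w2 := by
    have e1 : Φ (-t2) (Φ t1 w1) = Φ (-t2) (Φ t2 w2) := by rw [heq]
    rw [← hS.fl.add, ← hS.fl.add] at e1
    rw [show -t2 + t2 = 0 by ring, hS.fl.zero] at e1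
    rw [← e1]
    congr 1
    ring
  have hB2 : (w2.1 : En 2) = Ex ((t1 - t2) • p1) := by
    rw [← hB.2, ← hΦB]
  have hTT : (s2 - s1) • a.2 = (t1 - t2) • p1 := by
    refine hinj hA.1 hB.1 ?_
    rw [← hA.2, ← hB2]
  have ha0 : a.2 ≠ 0 := by
    intro h0
    have h5 := ha1.2.1
    have h6 : sp 𝒢 a = 0 := by
      unfold sp nrm2
      rw [h0]
      simp
    rw [h6] at h5
    linarith
  have hp0 : p1 ≠ 0 := by
    intro h0
    have h5 := hw1.2.1
    have h6 : sp 𝒢 w1 = 0 := by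
      unfold sp nrm2
      show Real.sqrt (inner ℝ (𝒢.G a.1 p1) p1) = 0
      rw [h0]
      simp
    rw [h6] at h5
    linarith
  have hT' : t1 - t2 = 0 := by
    by_contra hne
    apply hcrs
    refine KIN_crs a.2 p1 ((t1 - t2)⁻¹ * (s2 - s1)) _ ?_
    rw [mul_smul, hTT, smul_smul, inv_mul_cancel₀ hne, one_smul]
  have hT : s2 - s1 = 0 := by
    rw [hT', zero_smul] at hTT
    rcases smul_eq_zero.1 hTT with h | h
    · exact h
    · exact absurd h ha0
  have hs : s1 = s2 := by linarith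
  have ht : t1 = t2 := by linarith
  refine ⟨hs, ?_, ht⟩
  rw [hT', hS.fl.zero] at hΦB
  have := congrArg Prod.snd hΦB
  exact this

end Pool.Agent.CRO
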