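import Pool.Agent.helper58.CRO.SpecK

/-!
# Row KL3: the local inequality in terms of the flux
-/

open scoped Manifold ContDiff Topology ENNReal
open MeasureTheory Set

noncomputable section

namespace Pool.Agent.CRO

/-- `∫_0^π (|cos| - cos a)_+ = 2 (sin a - a cos a)` for `0 ≤ a ≤ π/2` -/
theorem KL3_pos (a : ℝ) (ha0 : 0 ≤ a) (ha : a ≤ Real.pi / 2) :
    ∫ u in (0 : ℝ)..Real.pi, max (|Real.cos u| - Real.cos a) 0 =
      2 * (Real.sin a - a * Real.cos a) := by
  have hpi := Real.pi_pos
  have hc : Continuous fun u : ℝ => max (|Real.cos u| - Real.cos a) 0 := by fun_prop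
  rw [← intervalIntegral.integral_add_adjacent_intervals (b := a)
    (hc.intervalIntegrable _ _) (hc.intervalIntegrable _ _),
    ← intervalIntegral.integral_add_adjacent_intervals (a := a) (b := Real.pi - a)
    (hc.intervalIntegrable _ _) (hc.intervalIntegrable _ _)]
  have e1 : ∫ u in (0 : ℝ)..a, max (|Real.cos u| - Real.cos a) 0 =
      ∫ u in (0 : ℝ)..a, (Real.cos u - Real.cos a) := by
    apply intervalIntegral.integral_congr
    intro u hu
    rw [uIcc_of_le ha0] at hu
    have h1 : Real.cos a ≤ Real.cos u := Real.cos_le_cos_of_nonneg_of_le_pi hu.1 (by linarith) hu.2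
    have h2 : 0 ≤ Real.cos a := Real.cos_nonneg_of_mem_Icc ⟨by linarith, ha⟩
    show max (|Real.cos u| - Real.cos a) 0 = Real.cos u - Real.cos a
    rw [abs_of_nonneg (h2.trans h1), max_eq_left (by linarith)]
  have e2 : ∫ u in a..(Real.pi - a), max (|Real.cos u| - Real.cos a) 0 = 0 := by
    rw [intervalIntegral.integral_congr (g := fun _ => 0)]
    · simp
    · intro u hu
      rw [uIcc_of_le (by linarith)] at hu
      show max (|Real.cos u| - Real.cos a) 0 = 0
      apply max_eq_right
      have h1 : Real.cos u ≤ Real.cos a := Real.cos_le_cos_of_nonneg_of_le_pi ha0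
        (by linarith [hu.2]) hu.1
      have h2 : -Real.cos a ≤ Real.cos u := by
        rw [← Real.cos_pi_sub]
        exact Real.cos_le_cos_of_nonneg_of_le_pi (by linarith [hu.1]) (by linarith) hu.2
      have h3 : |Real.cos u| ≤ Real.cos a := abs_le.2 ⟨h2, h1⟩
      linarith
  have e3 : ∫ u in (Real.pi - a)..Real.pi, max (|Real.cos u| - Real.cos a) 0 =
      ∫ u in (Real.pi - a)..Real.pi, (-Real.cos u - Real.cos a) := by
    apply intervalIntegral.integral_congr
    intro u hu
    rw [uIcc_of_le (by linarith)] at hu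
    show max (|Real.cos u| - Real.cos a) 0 = -Real.cos u - Real.cos a
    have h2 : 0 ≤ Real.cos a := Real.cos_nonneg_of_mem_Icc ⟨by linarith, ha⟩
    have h1 : Real.cos u ≤ -Real.cos a := by
      rw [← Real.cos_pi_sub]
      exact Real.cos_le_cos_of_nonneg_of_le_pi (by linarith) hu.2 hu.1
    rw [abs_of_nonpos (by linarith), max_eq_left (by linarith)]
  have f1 : ∫ u in (0 : ℝ)..a, (Real.cos u - Real.cos a) = Real.sin a - a * Real.cos a := by
    rw [intervalIntegral.integral_sub (Real.continuous_cos.intervalIntegrable _ _)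
      (continuous_const.intervalIntegrable _ _), integral_cos, intervalIntegral.integral_const]
    simp
  have f3 : ∫ u in (Real.pi - a)..Real.pi, (-Real.cos u - Real.cos a) =
      Real.sin a - a * Real.cos a := by
    have hn : Continuous fun u : ℝ => -Real.cos u := by fun_prop
    rw [intervalIntegral.integral_sub (hn.intervalIntegrable _ _)
      (continuous_const.intervalIntegrable _ _), intervalIntegral.integral_neg, integral_cos,
      intervalIntegral.integral_const]
    simp
  rw [e1, e2, e3, f1, f3]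
  ring

theorem KL3 (h1 : KL2_stmt) (h2 : KF1_stmt) : KL3_stmt := by
  intro κ hκ hb
  have hpi := Real.pi_pos
  obtain ⟨-, hmono, -, -, -, hsin, -⟩ := h2
  -- integrability
  have hint : ∀ φ : ℝ → ℝ, Measurable φ → (∀ u, |φ u| ≤ 1) →
      IntervalIntegrable φ volume 0 Real.pi := by
    intro φ hφ hφ1
    rw [intervalIntegrable_iff_integrableOn_Ioc_of_le hpi.le]
    refine Measure.integrableOn_of_bounded (M := 1) (by simp) hφ.aestronglyMeasurable ?_
    filter_upwards with u
    rw [Real.norm_eq_abs]
    exact hφ1 u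
  have hκi : IntervalIntegrable κ volume 0 Real.pi := hint κ hκ fun u => by
    rw [abs_of_nonneg (hb u).1]
    exact (hb u).2
  have hκci : IntervalIntegrable (fun u => κ u * |Real.cos u|) volume 0 Real.pi := by
    refine hint _ (hκ.mul (by fun_prop)) fun u => ?_
    rw [abs_mul, abs_abs, abs_of_nonneg (hb u).1]
    exact mul_le_one₀ (hb u).2 (abs_nonneg _) (Real.abs_cos_le_one u)
  set b : ℝ := ∫ u in (0 : ℝ)..Real.pi, κ u with hbd
  have hb0 : 0 ≤ b := intervalIntegral.integral_nonneg hpi.le fun u _ => (hb u).1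
  have hbpi : b ≤ Real.pi := by
    have h3 : b ≤ ∫ u in (0 : ℝ)..Real.pi, (1 : ℝ) :=
      intervalIntegral.integral_mono_on hpi.le hκi (continuous_const.intervalIntegrable _ _)
        fun u _ => (hb u).2
    simpa using h3
  have h0 : 0 ≤ ∫ u in (0 : ℝ)..Real.pi, κ u * |Real.cos u| :=
    intervalIntegral.integral_nonneg hpi.le fun u _ => mul_nonneg (hb u).1 (abs_nonneg _)
  have hle : ∫ u in (0 : ℝ)..Real.pi, κ u * |Real.cos u| ≤ 2 * Real.sin (b / 2) := by
    have hc : Continuous fun u : ℝ => max (|Real.cos u| - Real.cos (b / 2)) 0 := by fun_prop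
    have h3 : ∫ u in (0 : ℝ)..Real.pi, κ u * |Real.cos u| ≤
        ∫ u in (0 : ℝ)..Real.pi, (max (|Real.cos u| - Real.cos (b / 2)) 0 +
          Real.cos (b / 2) * κ u) := by
      refine intervalIntegral.integral_mono_on hpi.le hκci
        ((hc.intervalIntegrable _ _).add (hκi.const_mul _)) fun u _ => ?_
      have h4 := le_max_left (|Real.cos u| - Real.cos (b / 2)) 0
      have h5 := le_max_right (|Real.cos u| - Real.cos (b / 2)) 0
      have h6 := (hb u).1
      have h7 := (hb u).2
      have h8 : κ u * (|Real.cos u| - Real.cos (b / 2)) ≤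
          κ u * max (|Real.cos u| - Real.cos (b / 2)) 0 := mul_le_mul_of_nonneg_left h4 h6
      have h9 : κ u * max (|Real.cos u| - Real.cos (b / 2)) 0 ≤
          1 * max (|Real.cos u| - Real.cos (b / 2)) 0 := mul_le_mul_of_nonneg_right h7 h5
      linarith
    rw [intervalIntegral.integral_add (hc.intervalIntegrable _ _) (hκi.const_mul _),
      intervalIntegral.integral_const_mul, KL3_pos (b / 2) (by linarith) (by linarith),
      ← hbd] at h3
    linarith
  have hs0 : 0 ≤ Real.sin (b / 2) := Real.sin_nonneg_of_nonneg_of_le_pi (by linarith) (by linarith)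
  have hs1 : Real.sin (b / 2) ≤ 1 := Real.sin_le_one _
  refine ⟨by linarith, by linarith, ?_⟩
  have h3 := h1 κ hκ hb
  refine le_trans ?_ h3
  rw [← hbd]
  have h4 : fl ((∫ u in (0 : ℝ)..Real.pi, κ u * |Real.cos u|) / 2) ≤ fl (Real.sin (b / 2)) :=
    hmono ⟨by linarith, by linarith⟩ ⟨hs0, hs1⟩ (by linarith)
  rw [hsin (b / 2) ⟨by linarith, by linarith⟩] at h4
  have h5 : Real.sin b = 2 * Real.sin (b / 2) * Real.cos (b / 2) := by
    rw [← Real.sin_two_mul]
    congr 1
    ring
  rw [h5]
  linarith

end Pool.Agent.CRO
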