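import Pool.Agent.helper58.CRO.SpecK

/-!
# Row KT1: linear algebra in the plane
-/

open scoped Manifold ContDiff Topology ENNReal
open MeasureTheory Set

noncomputable section

namespace Pool.Agent.CRO

theorem KT1_inner (v w : En 2) : inner ℝ v w = v 0 * w 0 + v 1 * w 1 := by
  rw [PiLp.inner_apply, Fin.sum_univ_two]
  simp only [RCLike.inner_apply, conj_trivial]
  ring

/-- determinant of an endomorphism of the plane in the standard basis -/
theorem KT1_det (A : En 2 →L[ℝ] En 2) : A.det =
    (A (EuclideanSpace.single 0 1)) 0 * (A (EuclideanSpace.single 1 1)) 1 -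
      (A (EuclideanSpace.single 1 1)) 0 * (A (EuclideanSpace.single 0 1)) 1 := by
  unfold ContinuousLinearMap.det
  rw [← LinearMap.det_toMatrix (EuclideanSpace.basisFun (Fin 2) ℝ).toBasis, Matrix.det_fin_two]
  simp only [LinearMap.toMatrix_apply, OrthonormalBasis.coe_toBasis,
    OrthonormalBasis.coe_toBasis_repr_apply, EuclideanSpace.basisFun_repr,
    EuclideanSpace.basisFun_apply, ContinuousLinearMap.coe_coe]

theorem KT1_dec (A : En 2 →L[ℝ] En 2) (p : En 2) : A p =
    p 0 • A (EuclideanSpace.single 0 1) + p 1 • A (EuclideanSpace.single 1 1) := by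
  have : p = p 0 • (EuclideanSpace.single 0 1 : En 2) + p 1 • (EuclideanSpace.single 1 1 : En 2) := by
    ext i
    fin_cases i <;> simp
  conv_lhs => rw [this]
  rw [map_add, map_smul, map_smul]

theorem KT1 : KT1_stmt := by
  intro r0 𝒢 x hx0 hxr
  obtain ⟨hsym, hpos⟩ := 𝒢.pos x hxr
  have hgx : 𝒢.G x x = x := 𝒢.gauss x hxr
  -- matrix entries
  set a : ℝ := (𝒢.G x (EuclideanSpace.single 0 1)) 0 with ha
  set b : ℝ := (𝒢.G x (EuclideanSpace.single 0 1)) 1 with hb
  set b' : ℝ := (𝒢.G x (EuclideanSpace.single 1 1)) 0 with hb'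
  set d : ℝ := (𝒢.G x (EuclideanSpace.single 1 1)) 1 with hd
  have hbb : b' = b := by
    have h := hsym (EuclideanSpace.single 0 1) (EuclideanSpace.single 1 1)
    rw [KT1_inner, KT1_inner] at h
    simp at h
    rw [hb, hb', h]
  have hG0 : ∀ p : En 2, (𝒢.G x p) 0 = a * p 0 + b * p 1 := by
    intro p
    rw [KT1_dec]
    simp only [PiLp.add_apply, PiLp.smul_apply, smul_eq_mul]
    rw [← ha, ← hb', hbb]
    ring
  have hG1 : ∀ p : En 2, (𝒢.G x p) 1 = b * p 0 + d * p 1 := by
    intro p
    rw [KT1_dec]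
    simp only [PiLp.add_apply, PiLp.smul_apply, smul_eq_mul]
    rw [← hb, ← hd]
    ring
  have hdet : (𝒢.G x).det = a * d - b * b := by
    rw [KT1_det, ← ha, ← hb, ← hb', ← hd, hbb]
  have hnx : ‖x‖ ^ 2 = x 0 ^ 2 + x 1 ^ 2 := by
    rw [← real_inner_self_eq_norm_sq, KT1_inner]
    ring
  have hn : ‖x‖ ≠ 0 := hx0.ne'
  have e0 : a * x 0 + b * x 1 = x 0 := by rw [← hG0, hgx]
  have e1 : b * x 0 + d * x 1 = x 1 := by rw [← hG1, hgx]
  set N : ℝ := ‖x‖ with hN
  -- the unit vector
  let y : En 2 := !₂[-(x 1) / N, x 0 / N]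
  have hy0 : y 0 = -(x 1) / N := rfl
  have hy1 : y 1 = x 0 / N := rfl
  have hyn : ‖y‖ = 1 := by
    have h : ‖y‖ ^ 2 = 1 := by
      rw [← real_inner_self_eq_norm_sq, KT1_inner, hy0, hy1]
      field_simp
      rw [hnx]
      ring
    have h2 := norm_nonneg y
    nlinarith
  have hxy : inner ℝ x y = 0 := by
    rw [KT1_inner, hy0, hy1]
    field_simp
    ring
  -- G y = D y
  have key : ∀ i, (𝒢.G x y) i = (𝒢.G x).det * y i := by
    have hx2 : x 0 ^ 2 + x 1 ^ 2 ≠ 0 := by
      rw [← hnx]
      positivity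
    have f0 : (a - 1) * x 0 = -(b * x 1) := by linarith
    have f1 : (d - 1) * x 1 = -(b * x 0) := by linarith
    -- a = 1 - b x1/x0 ..., use a polynomial identity
    have g0 : -(a * x 1) + b * x 0 = -((a * d - b * b) * x 1) := by
      have : (x 0 ^ 2 + x 1 ^ 2) * (-(a * x 1) + b * x 0 + (a * d - b * b) * x 1) = 0 := by
        have h1 : d * x 1 = x 1 - b * x 0 := by linarith
        have h2 : a * x 0 = x 0 - b * x 1 := by linarith
        have h3 : -(a * x 1) + b * x 0 + (a * d - b * b) * x 1 =
            -(a * x 1) + b * x 0 + a * (x 1 - b * x 0) - b * b * x 1 := by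
          rw [← h1]
          ring
        have h4 : -(a * x 1) + b * x 0 + a * (x 1 - b * x 0) - b * b * x 1 =
            b * (x 0 - a * x 0 - b * x 1) := by ring
        rw [h3, h4, h2]
        ring
      rcases mul_eq_zero.1 this with h | h
      · exact absurd h hx2
      · linarith
    have g1 : -(b * x 1) + d * x 0 = (a * d - b * b) * x 0 := by
      have h2 : a * x 0 = x 0 - b * x 1 := by linarith
      have h1 : d * x 1 = x 1 - b * x 0 := by linarith
      have h3 : (a * d - b * b) * x 0 = d * (a * x 0) - b * b * x 0 := by ring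
      rw [h3, h2]
      have h4 : d * (x 0 - b * x 1) - b * b * x 0 = d * x 0 - b * (d * x 1) - b * b * x 0 := by ring
      rw [h4, h1]
      ring
    intro i
    fin_cases i
    · show (𝒢.G x y) 0 = (𝒢.G x).det * y 0
      rw [hG0, hdet, hy0, hy1]
      field_simp
      linarith
    · show (𝒢.G x y) 1 = (𝒢.G x).det * y 1
      rw [hG1, hdet, hy0, hy1]
      field_simp
      linarith
  have hGy : 𝒢.G x y = (𝒢.G x).det • y := by
    ext i
    rw [key i]
    rfl
  have hyne : y ≠ 0 := by
    intro h
    rw [h, norm_zero] at hyn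
    exact one_ne_zero hyn.symm
  have hD : 0 < (𝒢.G x).det := by
    have h := hpos y hyne
    rw [hGy, inner_smul_left, real_inner_self_eq_norm_sq, hyn] at h
    simpa using h
  refine ⟨hD, y, hyn, hxy, ?_, ?_⟩
  · intro p
    -- decompose p
    have hdec : p = (inner ℝ x p / N ^ 2) • x + (inner ℝ y p) • y := by
      ext i
      fin_cases i
      · show p 0 = (inner ℝ x p / N ^ 2) * x 0 + (inner ℝ y p) * y 0
        rw [KT1_inner, KT1_inner, hy0, hy1]
        field_simp
        rw [hnx]
        ring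
      · show p 1 = (inner ℝ x p / N ^ 2) * x 1 + (inner ℝ y p) * y 1
        rw [KT1_inner, KT1_inner, hy0, hy1]
        field_simp
        rw [hnx]
        ring
    have hGp : 𝒢.G x p = (inner ℝ x p / N ^ 2) • x + (inner ℝ y p * (𝒢.G x).det) • y := by
      conv_lhs => rw [hdec]
      rw [map_add, map_smul, map_smul, hgx, hGy, smul_smul]
    show inner ℝ (𝒢.G x p) p = _
    rw [hGp, inner_add_left, inner_smul_left, inner_smul_left]
    simp only [conj_trivial]
    field_simp
  · intro p p'
    have hdec : ∀ p : En 2, 𝒢.G x p = (inner ℝ x p / N ^ 2) • x + (inner ℝ y p * (𝒢.G x).det) • y := by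
      intro p
      have hdec : p = (inner ℝ x p / N ^ 2) • x + (inner ℝ y p) • y := by
        ext i
        fin_cases i
        · show p 0 = (inner ℝ x p / N ^ 2) * x 0 + (inner ℝ y p) * y 0
          rw [KT1_inner, KT1_inner, hy0, hy1]
          field_simp
          rw [hnx]
          ring
        · show p 1 = (inner ℝ x p / N ^ 2) * x 1 + (inner ℝ y p) * y 1
          rw [KT1_inner, KT1_inner, hy0, hy1]
          field_simp
          rw [hnx]
          ring
      conv_lhs => rw [hdec]
      rw [map_add, map_smul, map_smul, hgx, hGy, smul_smul]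
    have hc : ∀ (α β α' β' : ℝ), crs (α • x + β • y) (α' • x + β' • y) =
        N * |α * β' - β * α'| := by
      intro α β α' β'
      unfold crs
      simp only [PiLp.add_apply, PiLp.smul_apply, smul_eq_mul]
      rw [hy0, hy1]
      have : (α * x 0 + β * (-(x 1) / N)) * (α' * x 1 + β' * (x 0 / N)) -
          (α * x 1 + β * (x 0 / N)) * (α' * x 0 + β' * (-(x 1) / N)) = N * (α * β' - β * α') := by
        field_simp
        rw [show N ^ 3 = N * N ^ 2 by ring, hnx]
        ring
      rw [this, abs_mul, abs_of_pos hx0]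
    rw [hdec p, hdec p', hc]
    have h3 : inner ℝ x p / N ^ 2 * (inner ℝ y p' * (𝒢.G x).det) -
        inner ℝ y p * (𝒢.G x).det * (inner ℝ x p' / N ^ 2) =
        (𝒢.G x).det / N * (inner ℝ x p / N * inner ℝ y p' - inner ℝ y p * (inner ℝ x p' / N)) := by
      field_simp
    rw [h3, abs_mul, abs_of_pos (div_pos hD hx0)]
    field_simp

end Pool.Agent.CRO
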