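import Pool.Agent.helper58.CRO.KT1

/-!
# Row KT2: polar coordinates in the fibre
-/

open scoped Manifold ContDiff Topology ENNReal
open MeasureTheory Set

noncomputable section

namespace Pool.Agent.CRO

/-- change of variables for the plane with two orthogonal vectors -/
theorem KT2_lin (x y : En 2) (N c : ℝ) (hN : 0 < N) (hc : 0 < c) (hx : ‖x‖ = N) (hy : ‖y‖ = 1)
    (hxy : inner ℝ x y = 0) (g : En 2 → ℝ≥0∞) (hg : Measurable g) :
    ∫⁻ p, g p = ENNReal.ofReal c⁻¹ *
      ∫⁻ q : ℝ × ℝ, g ((q.1 / N) • x + (q.2 / c) • y) := by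
  have hNe : N ≠ 0 := hN.ne'
  have hce : c ≠ 0 := hc.ne'
  -- the linear map
  let P0 : En 2 →L[ℝ] ℝ := EuclideanSpace.proj (0 : Fin 2)
  let P1 : En 2 →L[ℝ] ℝ := EuclideanSpace.proj (1 : Fin 2)
  let Lc : En 2 →L[ℝ] En 2 := P0.smulRight ((1 / N) • x) + P1.smulRight ((1 / c) • y)
  have hL : ∀ q : En 2, Lc q = (q 0 / N) • x + (q 1 / c) • y := by
    intro q
    show (q 0) • ((1 / N) • x) + (q 1) • ((1 / c) • y) = _
    rw [smul_smul, smul_smul]
    simp only [mul_one_div]
  have hnx : N ^ 2 = x 0 ^ 2 + x 1 ^ 2 := by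
    rw [← hx, ← real_inner_self_eq_norm_sq, KT1_inner]
    ring
  have hny : 1 = y 0 ^ 2 + y 1 ^ 2 := by
    have : ‖y‖ ^ 2 = 1 := by rw [hy]; norm_num
    rw [← this, ← real_inner_self_eq_norm_sq, KT1_inner]
    ring
  have hxy' : x 0 * y 0 + x 1 * y 1 = 0 := by rw [← KT1_inner, hxy]
  have hdet : |Lc.det| = c⁻¹ := by
    rw [KT1_det]
    simp only [hL]
    simp only [PiLp.add_apply, PiLp.smul_apply, smul_eq_mul, PiLp.single_apply]
    have e : (1 / N * x 0 + 0 / c * y 0) * (0 / N * x 1 + 1 / c * y 1) -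
        (0 / N * x 0 + 1 / c * y 0) * (1 / N * x 1 + 0 / c * y 1) =
        c⁻¹ * ((x 0 * y 1 - y 0 * x 1) / N) := by
      field_simp
      ring
    have e2 : |(x 0 * y 1 - y 0 * x 1) / N| = 1 := by
      have h : ((x 0 * y 1 - y 0 * x 1) / N) ^ 2 = 1 := by
        rw [div_pow, div_eq_one_iff_eq (by positivity), hnx]
        have h3 : (x 0 * y 1 - y 0 * x 1) ^ 2 =
            (x 0 ^ 2 + x 1 ^ 2) * (y 0 ^ 2 + y 1 ^ 2) - (x 0 * y 0 + x 1 * y 1) ^ 2 := by ring
        rw [h3, hxy', ← hny]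
        ring
      rw [← sq_abs] at h
      have h4 := abs_nonneg ((x 0 * y 1 - y 0 * x 1) / N)
      nlinarith
    simp only [Fin.isValue, zero_ne_one, one_ne_zero, if_false, if_true] at *
    first
      | rw [e, abs_mul, e2, abs_of_pos (inv_pos.2 hc), mul_one]
      | (simp at e ⊢; rw [e, abs_mul, e2, abs_of_pos (inv_pos.2 hc), mul_one])
  have hdet0 : LinearMap.det (Lc : En 2 →ₗ[ℝ] En 2) ≠ 0 := by
    intro h
    have : |Lc.det| = 0 := by
      show |LinearMap.det (Lc : En 2 →ₗ[ℝ] En 2)| = 0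
      rw [h, abs_zero]
    rw [hdet] at this
    exact (inv_pos.2 hc).ne' this
  have hmap := MeasureTheory.Measure.map_linearMap_addHaar_eq_smul_addHaar
    (volume : Measure (En 2)) hdet0
  have h1 : ∫⁻ q, g (Lc q) = ENNReal.ofReal c * ∫⁻ p, g p := by
    have h2 : ∫⁻ q, g (Lc q) = ∫⁻ p, g p ∂(Measure.map (Lc : En 2 →ₗ[ℝ] En 2) volume) :=
      (lintegral_map hg Lc.continuous.measurable).symm
    rw [h2, hmap, lintegral_smul_measure]
    have h3 : |(LinearMap.det (Lc : En 2 →ₗ[ℝ] En 2))⁻¹| = c := by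
      rw [abs_inv]
      have : |LinearMap.det (Lc : En 2 →ₗ[ℝ] En 2)| = c⁻¹ := hdet
      rw [this, inv_inv]
    rw [h3]
    rfl
  -- to the product
  have h4 : ∫⁻ q, g (Lc q) = ∫⁻ q : ℝ × ℝ, g ((q.1 / N) • x + (q.2 / c) • y) := by
    have m1 := (EuclideanSpace.volume_preserving_symm_measurableEquiv_toLp (Fin 2))
    have m2 := MeasureTheory.volume_preserving_finTwoArrow ℝ
    have m3 := m2.comp m1
    have h5 : ∀ q : En 2, g (Lc q) = (fun q : ℝ × ℝ => g ((q.1 / N) • x + (q.2 / c) • y))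
        ((MeasurableEquiv.finTwoArrow ∘ (MeasurableEquiv.toLp 2 (Fin 2 → ℝ)).symm) q) := by
      intro q
      rw [hL]
      rfl
    simp only [h5]
    have hm : Measurable (fun q : ℝ × ℝ => g ((q.1 / N) • x + (q.2 / c) • y)) := by
      refine hg.comp ?_
      fun_prop
    exact m3.lintegral_comp (f := fun q : ℝ × ℝ => g ((q.1 / N) • x + (q.2 / c) • y)) hm
  rw [← h4, h1, ← mul_assoc, ← ENNReal.ofReal_mul (inv_pos.2 hc).le, inv_mul_cancel₀ hce,
    ENNReal.ofReal_one, one_mul]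

theorem KT2 (h1 : KT1_stmt) : KT2_stmt := by
  intro r0 𝒢 x y e hx0 hxr he0 he1 hy hxy hq hD F hF
  set N : ℝ := ‖x‖ with hN
  set D : ℝ := (𝒢.G x).det with hDd
  set c : ℝ := Real.sqrt D with hc
  have hc0 : 0 < c := Real.sqrt_pos.2 hD
  have hcc : c ^ 2 = D := Real.sq_sqrt hD.le
  -- measurability of the fibre
  have hcont : Continuous fun p : En 2 => sp 𝒢 (x, p) := by
    unfold sp nrm2
    exact ((𝒢.G x).continuous.inner continuous_id).sqrt
  have hmeas : MeasurableSet (Fb 𝒢 e x) :=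
    ((isOpen_lt continuous_const hcont).inter (isOpen_lt hcont continuous_const)).measurableSet
  rw [← lintegral_indicator hmeas, KT2_lin x y N c hx0 hc0 rfl hy hxy _ (hF.indicator hmeas)]
  congr 1
  -- the value of sp at the point with coordinates (a,b)
  have hsp : ∀ a b : ℝ, sp 𝒢 (x, (a / N) • x + (b / c) • y) = Real.sqrt (a ^ 2 + b ^ 2) := by
    intro a b
    unfold sp
    rw [hq]
    have i1 : inner ℝ x ((a / N) • x + (b / c) • y) = a * N := by
      rw [inner_add_right, inner_smul_right, inner_smul_right, hxy, real_inner_self_eq_norm_sq]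
      have hN0 : N ≠ 0 := hx0.ne'
      rw [← hN]
      field_simp
      ring
    have i2 : inner ℝ y ((a / N) • x + (b / c) • y) = b / c := by
      rw [inner_add_right, inner_smul_right, inner_smul_right, real_inner_comm, hxy,
        real_inner_self_eq_norm_sq, hy]
      ring
    rw [i1, i2]
    congr 1
    have hN0 : N ≠ 0 := hx0.ne'
    have hc0' : c ≠ 0 := hc0.ne'
    rw [← hcc]
    field_simp
  rw [← lintegral_comp_polarCoord_symm]
  have htar : polarCoord.target = Ioi (0 : ℝ) ×ˢ Ioo (-Real.pi) Real.pi := rfl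
  rw [htar]
  have hmeas2 : Measurable fun q : ℝ × ℝ => ENNReal.ofReal q.1 •
      (Fb 𝒢 e x).indicator F (((polarCoord.symm q).1 / N) • x + ((polarCoord.symm q).2 / c) • y) := by
    have hpm : Measurable fun q : ℝ × ℝ => polarCoord.symm q :=
      continuous_polarCoord_symm.measurable
    simp only [smul_eq_mul]
    refine (measurable_fst.ennreal_ofReal).mul ?_
    refine (hF.indicator hmeas).comp ?_
    have m1 : Measurable fun q : ℝ × ℝ => (polarCoord.symm q).1 / N := (hpm.fst).div_const _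
    have m2 : Measurable fun q : ℝ × ℝ => (polarCoord.symm q).2 / c := (hpm.snd).div_const _
    exact (m1.smul_const x).add (m2.smul_const y)
  rw [Measure.volume_eq_prod, ← Measure.prod_restrict, lintegral_prod _ hmeas2.aemeasurable]
  -- inner functions
  have hval : ∀ s ∈ Ioi (0 : ℝ), ∀ ψ : ℝ,
      ENNReal.ofReal s • (Fb 𝒢 e x).indicator F
        (((polarCoord.symm (s, ψ)).1 / N) • x + ((polarCoord.symm (s, ψ)).2 / c) • y) =
      (Ioo e 1).indicator (fun s => ENNReal.ofReal s *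
        F ((s * Real.cos ψ / N) • x + (s * Real.sin ψ / c) • y)) s := by
    intro s hs ψ
    have e1 : polarCoord.symm (s, ψ) = (s * Real.cos ψ, s * Real.sin ψ) := rfl
    rw [e1]
    have hs0 : (0 : ℝ) < s := hs
    have e2 : sp 𝒢 (x, (s * Real.cos ψ / N) • x + (s * Real.sin ψ / c) • y) = s := by
      rw [hsp]
      have : (s * Real.cos ψ) ^ 2 + (s * Real.sin ψ) ^ 2 = s ^ 2 := by
        have := Real.sin_sq_add_cos_sq ψ
        nlinarith
      rw [this, Real.sqrt_sq hs0.le]
    by_cases hm : s ∈ Ioo e 1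
    · rw [indicator_of_mem hm, indicator_of_mem]
      · rfl
      · show e < sp 𝒢 (x, (s * Real.cos ψ / N) • x + (s * Real.sin ψ / c) • y) ∧
          sp 𝒢 (x, (s * Real.cos ψ / N) • x + (s * Real.sin ψ / c) • y) < 1
        rw [e2]
        exact hm
    · rw [indicator_of_notMem hm, indicator_of_notMem]
      · simp
      · intro h
        apply hm
        have h' : e < sp 𝒢 (x, (s * Real.cos ψ / N) • x + (s * Real.sin ψ / c) • y) ∧
          sp 𝒢 (x, (s * Real.cos ψ / N) • x + (s * Real.sin ψ / c) • y) < 1 := h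
        rw [e2] at h'
        exact h'
  have hstep : ∫⁻ s in Ioi (0 : ℝ), ∫⁻ ψ in Ioo (-Real.pi) Real.pi,
      ENNReal.ofReal s • (Fb 𝒢 e x).indicator F
        (((polarCoord.symm (s, ψ)).1 / N) • x + ((polarCoord.symm (s, ψ)).2 / c) • y) =
      ∫⁻ s in Ioi (0 : ℝ), (Ioo e 1).indicator (fun s => ∫⁻ ψ in Ioo (-Real.pi) Real.pi,
        ENNReal.ofReal s * F ((s * Real.cos ψ / N) • x + (s * Real.sin ψ / c) • y)) s := by
    refine setLIntegral_congr_fun measurableSet_Ioi fun s hs => ?_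
    show ∫⁻ ψ in Ioo (-Real.pi) Real.pi, ENNReal.ofReal s • (Fb 𝒢 e x).indicator F
        (((polarCoord.symm (s, ψ)).1 / N) • x + ((polarCoord.symm (s, ψ)).2 / c) • y) = _
    simp only [hval s hs]
    by_cases hm : s ∈ Ioo e 1
    · simp only [indicator_of_mem hm]
    · simp only [indicator_of_notMem hm]
      simp
  refine hstep.trans ?_
  rw [lintegral_indicator measurableSet_Ioo, Measure.restrict_restrict measurableSet_Ioo]
  have hsub : Ioo e 1 ∩ Ioi (0 : ℝ) = Ioo e 1 := by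
    ext s
    constructor
    · exact fun h => h.1
    · exact fun h => ⟨h, lt_trans he0 h.1⟩
  rw [hsub]

end Pool.Agent.CRO
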