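import Pool.Agent.helper58.CRO.SpecL

/-! # row cro:LCS -/

open scoped Manifold ContDiff Topology ENNReal
open MeasureTheory Set Bundle

noncomputable section

namespace Pool.Agent.CRO

theorem LCS (h1 : LG1_stmt.{0}) (h2 : UPB_stmt) : LCS_stmt := by
  intro n hn
  refine le_antisymm (h2 n (by omega)) ?_
  unfold cstar
  refine le_sInf ?_
  rintro c ⟨M, i1, i2, i3, i4, i5, i6, g, m, r, hr, hinj, rfl⟩
  have h := h1 n hn M g m r hr hinj
  have hrn : 0 < r ^ n := pow_pos hr n
  have e : sphereVol n * (r / Real.pi) ^ n = sphereVol n / Real.pi ^ n * r ^ n := by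
    rw [div_pow]
    ring
  rw [e] at h
  rw [ENNReal.le_div_iff_mul_le (Or.inl (ENNReal.ofReal_pos.2 hrn).ne')
    (Or.inl ENNReal.ofReal_ne_top), ← ENNReal.ofReal_mul' hrn.le]
  exact h

end Pool.Agent.CRO
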