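import Pool.Agent.helper58.CRO.SpecL

/-! # row cro:LG1 -/

open scoped Manifold ContDiff Topology ENNReal
open MeasureTheory Set Bundle

noncomputable section

namespace Pool.Agent.CRO

universe u

theorem LG1_pos (n : ℕ) : 0 < sphereVol n := by
  unfold sphereVol
  have h : 0 < Real.Gamma (((n : ℝ) + 1) / 2) := Real.Gamma_pos_of_pos (by positivity)
  have := Real.pi_pos
  positivity

theorem LG1 (h1 : LGN_stmt.{u}) (h2 : GDD_stmt.{u}) : LG1_stmt.{u} := by
  intro n hn M _ _ _ _ _ _ g m r hr hi
  have hpi := Real.pi_pos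
  have hs := LG1_pos n
  have hc0 : 0 ≤ sphereVol n / 2 * (2 / Real.pi) ^ n := by positivity
  have key := h2 n (by omega) M g (sphereVol n / 2 * (2 / Real.pi) ^ n) hc0 (by
    intro m' s hs' hi'
    have := h1 n hn M g m' s hs' hi'
    have e : sphereVol n / 2 * (2 / Real.pi) ^ n * s ^ n =
        sphereVol n / 2 * (2 * s / Real.pi) ^ n := by
      rw [mul_assoc, ← mul_pow]
      congr 2
      ring
    rw [e]
    exact this) m r hr hi
  have e2 : 2 * (sphereVol n / 2 * (2 / Real.pi) ^ n) * (r / 2) ^ n =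
      sphereVol n * (r / Real.pi) ^ n := by
    rw [div_pow, div_pow, div_pow]
    have h2n : (2 : ℝ) ^ n ≠ 0 := by positivity
    have hpn : Real.pi ^ n ≠ 0 := by positivity
    field_simp
  rw [e2] at key
  exact key

end Pool.Agent.CRO
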