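import Pool.Agent.helper58.CRO.SpecL
import Pool.Agent.helper73.CRO.IGE

/-! # row cro:LGE -/

open scoped Manifold ContDiff Topology ENNReal
open MeasureTheory Set

noncomputable section

namespace Pool.Agent.CRO

theorem LGE_pt (h7 : IWN_stmt) {n : ℕ} {r0 : ℝ} {𝒢 : NChart n r0} {L R e r1 : ℝ}
    {H : PS n → ℝ} {Φ : ℝ → PS n → PS n} (hS : Std 𝒢 L R e r1 H Φ) (z : PS n)
    (hz : z ∈ SL 𝒢 e R) : 1 ≤ ENNReal.ofReal (2 * R) * IGE_g 𝒢 Φ R (fun _ => 1) z := by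
  obtain ⟨α, β, hα, hβ, hstay, hlen, -, -, -, -⟩ := h7 n r0 𝒢 L R e r1 H Φ hS z hz
  have hset : {u | Stay Φ R z u} = Ioo α β := by
    ext u
    exact hstay u
  have hT : TT Φ R (fun _ => (1 : ℝ)) z = ENNReal.ofReal (β - α) := by
    unfold TT
    rw [hset]
    simp
  have hsp : 0 < sp 𝒢 z := hS.epos.trans hz.2.1
  have hba : 0 < β - α := by linarith
  unfold IGE_g
  rw [hT, ← ENNReal.ofReal_inv_of_pos hba, ← ENNReal.ofReal_mul (by positivity),
    ← ENNReal.ofReal_mul (by linarith [hS.Rpos])]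
  rw [ENNReal.one_le_ofReal]
  have h1 : 2 * R * (1 / sp 𝒢 z * (β - α)⁻¹) = 2 * R / (sp 𝒢 z * (β - α)) := by
    field_simp
  rw [h1, le_div_iff₀ (mul_pos hsp hba), one_mul]
  exact hlen

theorem LGE_sum (h4 : ICP_stmt) (h6 : IME_stmt) (h7 : IWN_stmt) {n : ℕ} {r0 : ℝ}
    {𝒢 : NChart n r0} {L R e r1 : ℝ} {H : PS n → ℝ} {Φ : ℝ → PS n → PS n}
    (hS : Std 𝒢 L R e r1 H Φ) (N k : ℕ) (hN : 1 ≤ N)
    (hfin : IGE_M 𝒢 Φ e R (fun _ => 1) N k ≠ ⊤) :
    ∑ j ∈ Finset.Icc 1 N, IGE_P 𝒢 Φ e R N k j ≤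
      2 * R * (IGE_M 𝒢 Φ e R (fun _ => 1) N k).toReal := by
  classical
  have hRr : R < r0 := hS.Rr.trans hS.fl.r1lt
  have hN0 : (0 : ℝ) < N := by
    have : 0 < N := hN
    exact_mod_cast this
  have hh : 0 < R / N := div_pos hS.Rpos hN0
  have hNh : (N : ℝ) * (R / N) = R := by field_simp
  have hjR : ∀ j ∈ Finset.Icc 1 N, (j : ℝ) * (R / N) ≤ R := by
    intro j hj
    calc (j : ℝ) * (R / N) ≤ N * (R / N) := by
          apply mul_le_mul_of_nonneg_right _ hh.le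
          exact_mod_cast (Finset.mem_Icc.1 hj).2
      _ = R := hNh
  obtain ⟨-, hSLo, -, -, hHit, -, -⟩ := h6 n r0 𝒢 L R e _ H Φ hS
  have hSLfin := IGE_SLfin h4 𝒢 e R hS.n2 hS.epos hS.elt hS.Rpos hRr
  set A : Set (PS n) := SL 𝒢 e R ∩ Hit Φ R (k * (R / N)) with hA
  have hAm : MeasurableSet A := hSLo.measurableSet.inter (hHit _).measurableSet
  have hAfin : volume A ≠ ⊤ := ne_top_of_le_ne_top hSLfin (measure_mono inter_subset_left)
  have h1 : ∑ j ∈ Finset.Icc 1 N, IGE_P 𝒢 Φ e R N k j =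
      (∑ j ∈ Finset.Icc 1 N, volume (A ∩ IGE_Sh n R N j)).toReal := by
    rw [ENNReal.toReal_sum]
    · rfl
    · intro j _
      exact ne_top_of_le_ne_top hAfin (measure_mono inter_subset_left)
  have hd : Set.PairwiseDisjoint (↑(Finset.Icc 1 N)) (fun j => A ∩ IGE_Sh n R N j) := by
    intro i hi j hj hij
    rw [Function.onFun, Set.disjoint_left]
    rintro z ⟨-, hzi⟩ ⟨-, hzj⟩
    have hx' : ‖z.1‖ < N * (R / N) := by rw [hNh]; exact hzi.2.trans_le (hjR i hi)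
    have a1 := (IGE_J_iff (R / N) hh N ‖z.1‖ (norm_nonneg _) hx' i hi).1 hzi
    have a2 := (IGE_J_iff (R / N) hh N ‖z.1‖ (norm_nonneg _) hx' j hj).1 hzj
    exact hij (a1.symm.trans a2)
  have h2 : ∑ j ∈ Finset.Icc 1 N, volume (A ∩ IGE_Sh n R N j) ≤ volume A := by
    rw [← measure_biUnion_finset hd (fun j _ => hAm.inter (IGE_Sh_meas n R N j))]
    refine measure_mono ?_
    intro z hz
    simp only [mem_iUnion] at hz
    obtain ⟨j, -, hz⟩ := hz
    exact hz.1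
  have h3 : volume A ≤ ENNReal.ofReal (2 * R) * IGE_M 𝒢 Φ e R (fun _ => 1) N k := by
    unfold IGE_M
    rw [← lintegral_const_mul' _ _ ENNReal.ofReal_ne_top]
    calc volume A = ∫⁻ _ in A, 1 := by rw [setLIntegral_one]
      _ ≤ _ := setLIntegral_mono' hAm fun z hz => LGE_pt h7 hS z hz.1
  have h4' : (ENNReal.ofReal (2 * R) * IGE_M 𝒢 Φ e R (fun _ => 1) N k).toReal =
      2 * R * (IGE_M 𝒢 Φ e R (fun _ => 1) N k).toReal := by
    rw [ENNReal.toReal_mul, ENNReal.toReal_ofReal (by linarith [hS.Rpos])]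
  rw [h1, ← h4']
  exact ENNReal.toReal_mono (ENNReal.mul_ne_top ENNReal.ofReal_ne_top hfin) (h2.trans h3)

theorem LGE (h1 : GFL_stmt) (h3 : IBT_stmt) (h4 : ICP_stmt) (h6 : IME_stmt) (h7 : IWN_stmt) :
    LGE_stmt := by
  classical
  intro n r0 𝒢 L R hn hex hln hR hRr hRL N hN
  have hL : 0 < L := by linarith
  have hn1 : 1 ≤ n := by omega
  obtain ⟨e, he0, he1, heL⟩ : ∃ e : ℝ, 0 < e ∧ e < 1 ∧ 2 * R < e * L := by
    have hq : 2 * R / L < 1 := by rw [div_lt_one hL]; exact hRL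
    have hq0 : 0 < 2 * R / L := by positivity
    refine ⟨(1 + 2 * R / L) / 2, by linarith, by linarith, ?_⟩
    have h9 : 2 * R / L < (1 + 2 * R / L) / 2 := by linarith
    exact (div_lt_iff₀ hL).1 h9
  obtain ⟨H, Φ, hΦ⟩ := h1 n r0 ((R + r0) / 2) 𝒢 (by linarith) (by linarith)
  have hS : Std 𝒢 L R e ((R + r0) / 2) H Φ :=
    ⟨hn, hΦ, hex, hln, hR, by linarith, he0, he1, heL⟩
  have hN0 : (0 : ℝ) < N := by
    have : 0 < N := hN
    exact_mod_cast this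
  have hh : 0 < R / N := div_pos hR hN0
  have hen : 0 < 1 - e ^ n := by
    have := pow_lt_one₀ he0.le he1 (show n ≠ 0 by omega)
    linarith
  have hΘm : Measurable (fun _ : En n => (1 : ℝ)) := measurable_const
  have hΘb : ∀ x : En n, (1 : ℝ) ≤ (fun _ : En n => (1 : ℝ)) x ∧ (fun _ : En n => (1 : ℝ)) x ≤ 1 :=
    fun _ => ⟨le_rfl, le_rfl⟩
  have hHit0 : Hit Φ R (((0 : ℕ) : ℝ) * (R / N)) = ∅ := by
    rw [eq_empty_iff_forall_notMem]
    rintro z ⟨u, -, hu⟩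
    rw [Nat.cast_zero, zero_mul] at hu
    exact absurd hu (not_lt.2 (norm_nonneg _))
  have hHitm : ∀ k : ℕ, Hit Φ R ((k : ℝ) * (R / N)) ⊆ Hit Φ R (((k + 1 : ℕ) : ℝ) * (R / N)) := by
    rintro k z ⟨u, hu1, hu2⟩
    refine ⟨u, hu1, hu2.trans_le ?_⟩
    apply mul_le_mul_of_nonneg_right _ hh.le
    push_cast
    linarith
  have hMfin : ∀ k, k < N → IGE_M 𝒢 Φ e R (fun _ => 1) N k ≠ ⊤ := by
    intro k hk
    rcases Nat.eq_zero_or_pos k with rfl | hk0
    · unfold IGE_M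
      rw [hHit0, inter_empty]
      simp
    · exact (IGE_thr h3 h4 hS _ hΘm 1 1 one_pos hΘb N k N hk0 hk le_rfl).1
  have hMmono : ∀ k, k + 1 < N → (IGE_M 𝒢 Φ e R (fun _ => 1) N k).toReal ≤
      (IGE_M 𝒢 Φ e R (fun _ => 1) N (k + 1)).toReal := by
    intro k hk
    apply ENNReal.toReal_mono (hMfin _ hk)
    exact lintegral_mono_set (inter_subset_inter_right _ (hHitm k))
  have hM0 : (IGE_M 𝒢 Φ e R (fun _ => 1) N 0).toReal = 0 := by
    unfold IGE_M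
    rw [hHit0, inter_empty]
    simp
  have hkn1 := IGE_kap_pos (n - 1)
  have hnn : (0 : ℝ) < n := by
    have : 0 < n := by omega
    exact_mod_cast this
  refine ⟨fun k => n * (IGE_M 𝒢 Φ e R (fun _ => 1) N k).toReal / ((1 - e ^ n) * kap (n - 1)),
    fun k j => IGE_P 𝒢 Φ e R N k j / (1 - e ^ n), ?_, ?_, ?_, ?_, ?_⟩
  · simp only [hM0, mul_zero, zero_div]
  · intro k hk
    simp only
    apply div_le_div_of_nonneg_right _ (mul_pos hen hkn1).le
    exact mul_le_mul_of_nonneg_left (hMmono k hk) hnn.le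
  · intro k j hk hkj hjN c hc
    have h := (IGE_thr h3 h4 hS _ hΘm 1 1 one_pos hΘb N k j hk hkj hjN).2 c hc.1 hc.2
    simp only
    have e1 : 2 * kap (n - 1) * (R / N * (n * (IGE_M 𝒢 Φ e R (fun _ => 1) N k).toReal /
        ((1 - e ^ n) * kap (n - 1))) / n - BTc n c * vv 𝒢 R N j) =
        (2 * (R / N * (IGE_M 𝒢 Φ e R (fun _ => 1) N k).toReal) -
          2 * ((1 - e ^ n) * (kap (n - 1) * BTc n c * vv 𝒢 R N j))) / (1 - e ^ n) := by
      field_simp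
    rw [e1, ← mul_div_assoc]
    apply div_le_div_of_nonneg_right _ hen.le
    linarith
  · intro k j hj hjk hkN
    simp only
    rw [IGE_P_full h4 hS N k j hj (by omega) hjk]
    field_simp
  · intro k hk hkN
    simp only
    have h := LGE_sum h4 h6 h7 hS N k hN (hMfin k hkN)
    rw [← Finset.sum_div]
    have e1 : 2 * R * kap (n - 1) * (n * (IGE_M 𝒢 Φ e R (fun _ => 1) N k).toReal /
        ((1 - e ^ n) * kap (n - 1))) / n =
        2 * R * (IGE_M 𝒢 Φ e R (fun _ => 1) N k).toReal / (1 - e ^ n) := by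
      field_simp
    rw [e1]
    exact div_le_div_of_nonneg_right h hen.le

end Pool.Agent.CRO
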