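import Pool.Agent.helper58.CRO.SpecL

/-! # row cro:LIS -/

open scoped Manifold ContDiff Topology ENNReal
open MeasureTheory Set

noncomputable section

namespace Pool.Agent.CRO

lemma LIS_pos {ε : ℝ} (hε : 0 < ε) (s : ℝ) : 0 < Df ε s :=
  Real.sqrt_pos.2 (by positivity)

lemma LIS_sq {ε : ℝ} (s : ℝ) : Df ε s ^ 2 = ε ^ 2 + s ^ 2 :=
  Real.sq_sqrt (by positivity)

lemma LIS_sqrt {ε : ℝ} (hε : 0 < ε) (s : ℝ) : Real.sqrt (1 + (s / ε) ^ 2) = Df ε s / ε := by
  rw [show 1 + (s / ε) ^ 2 = (Df ε s / ε) ^ 2 by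
    rw [div_pow, div_pow, LIS_sq]
    field_simp]
  exact Real.sqrt_sq (div_nonneg (LIS_pos hε s).le hε.le)

lemma LIS_sin {ε : ℝ} (hε : 0 < ε) (s : ℝ) : Real.sin (Real.arctan (s / ε)) = s / Df ε s := by
  rw [Real.sin_arctan, LIS_sqrt hε]
  field_simp

lemma LIS_cos {ε : ℝ} (hε : 0 < ε) (s : ℝ) : Real.cos (Real.arctan (s / ε)) = ε / Df ε s := by
  rw [Real.cos_arctan, LIS_sqrt hε]
  field_simp

lemma LIS_int {n : ℕ} (hn : 2 ≤ n) {ε S : ℝ} (hε : 0 < ε) :
    ∫ s in (0 : ℝ)..S, s ^ (n - 2) / Df ε s ^ n = 1 / ε * FPc n (Real.arctan (S / ε)) := by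
  have hcs : Continuous (fun t : ℝ => Real.sin t ^ (n - 2)) := by fun_prop
  have hDc : Continuous (Df ε) := by
    unfold Df
    fun_prop
  have hder : ∀ s ∈ uIcc (0 : ℝ) S, HasDerivAt (fun s => 1 / ε * FPc n (Real.arctan (s / ε)))
      (s ^ (n - 2) / Df ε s ^ n) s := by
    intro s _
    have h1 : HasDerivAt (FPc n) (Real.sin (Real.arctan (s / ε)) ^ (n - 2))
        (Real.arctan (s / ε)) :=
      intervalIntegral.integral_hasDerivAt_right (hcs.intervalIntegrable _ _)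
        hcs.aestronglyMeasurable.stronglyMeasurableAtFilter hcs.continuousAt
    have h2 : HasDerivAt (fun s : ℝ => Real.arctan (s / ε)) (1 / (1 + (s / ε) ^ 2) * (1 / ε)) s :=
      ((hasDerivAt_id s).div_const ε).arctan
    have h3 := (h1.comp s h2).const_mul (1 / ε)
    have e : 1 / ε * (Real.sin (Real.arctan (s / ε)) ^ (n - 2) *
        (1 / (1 + (s / ε) ^ 2) * (1 / ε))) = s ^ (n - 2) / Df ε s ^ n := by
      rw [LIS_sin hε, div_pow]
      have hD := LIS_pos hε s
      have hDn : Df ε s ^ n = Df ε s ^ (n - 2) * Df ε s ^ 2 := by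
        rw [← pow_add]
        congr 1
        omega
      have h4 : 1 + (s / ε) ^ 2 = Df ε s ^ 2 / ε ^ 2 := by
        rw [LIS_sq]
        field_simp
      rw [h4, hDn]
      field_simp
    rw [e] at h3
    exact h3
  rw [intervalIntegral.integral_eq_sub_of_hasDerivAt hder]
  · have h0 : FPc n (Real.arctan (0 / ε)) = 0 := by
      unfold FPc
      rw [zero_div, Real.arctan_zero, intervalIntegral.integral_same]
    rw [h0, mul_zero, sub_zero]
  · apply Continuous.intervalIntegrable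
    apply Continuous.div (by fun_prop) (hDc.pow n)
    intro x
    exact (pow_pos (LIS_pos hε _) n).ne'

lemma LIS_tail {n : ℕ} (hn : 2 ≤ n) {ε S : ℝ} (hε : 0 < ε) (hS : 0 < S) :
    FPc n (Real.arctan (S / ε)) + (S / Df ε S) ^ (n - 2) * (ε / Df ε S) ≤ cW n := by
  have hcs : Continuous (fun t : ℝ => Real.sin t ^ (n - 2)) := by fun_prop
  obtain ⟨θ, hθ⟩ : ∃ θ, θ = Real.arctan (S / ε) := ⟨_, rfl⟩
  have h0 : 0 < θ := by
    rw [hθ]
    exact Real.arctan_pos.2 (by positivity)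
  have h1 : θ < Real.pi / 2 := by
    rw [hθ]
    exact Real.arctan_lt_pi_div_two _
  rw [← LIS_sin hε, ← LIS_cos hε, ← hθ]
  have hsp : 0 ≤ Real.sin θ := Real.sin_nonneg_of_nonneg_of_le_pi h0.le (by linarith [Real.pi_pos])
  have h2 : Real.sin θ ^ (n - 2) * (Real.pi / 2 - θ) ≤
      ∫ t in θ..(Real.pi / 2), Real.sin t ^ (n - 2) := by
    have h3 : ∫ _t in θ..(Real.pi / 2), Real.sin θ ^ (n - 2) =
        Real.sin θ ^ (n - 2) * (Real.pi / 2 - θ) := by
      rw [intervalIntegral.integral_const, smul_eq_mul]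
      ring
    rw [← h3]
    apply intervalIntegral.integral_mono_on h1.le (by simp) (hcs.intervalIntegrable _ _)
    intro t ht
    apply pow_le_pow_left₀ hsp
    exact Real.strictMonoOn_sin.monotoneOn ⟨by linarith [Real.pi_pos], h1.le⟩
      ⟨by linarith [Real.pi_pos, ht.1], ht.2⟩ ht.1
  have h4 : Real.cos θ ≤ Real.pi / 2 - θ := by
    rw [← Real.sin_pi_div_two_sub]
    exact Real.sin_le (by linarith)
  have h5 : FPc n θ + ∫ t in θ..(Real.pi / 2), Real.sin t ^ (n - 2) = cW n := by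
    unfold FPc cW
    exact intervalIntegral.integral_add_adjacent_intervals (hcs.intervalIntegrable _ _)
      (hcs.intervalIntegrable _ _)
  have h6 : Real.sin θ ^ (n - 2) * Real.cos θ ≤ Real.sin θ ^ (n - 2) * (Real.pi / 2 - θ) :=
    mul_le_mul_of_nonneg_left h4 (pow_nonneg hsp _)
  linarith

theorem LIS : LIS_stmt := by
  intro n hn ε S hε hS
  have hDc : Continuous (Df ε) := by
    unfold Df
    fun_prop
  have hD := LIS_pos hε S
  have hn1 : (0 : ℝ) < (n : ℝ) - 1 := by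
    have : (2 : ℝ) ≤ n := by exact_mod_cast hn
    linarith
  have hc1 : Continuous (fun s : ℝ => s ^ (n - 2) / Df ε s ^ n) := by
    apply Continuous.div (by fun_prop) (hDc.pow n)
    intro x
    exact (pow_pos (LIS_pos hε _) n).ne'
  have hc2 : Continuous (fun s : ℝ => 1 / Df ε S ^ n * s ^ (n - 2)) := by fun_prop
  have e1 : ∫ s in (0 : ℝ)..S, s ^ (n - 2) * (1 / Df ε s ^ n - 1 / Df ε S ^ n) =
      (∫ s in (0 : ℝ)..S, s ^ (n - 2) / Df ε s ^ n) -
        ∫ s in (0 : ℝ)..S, 1 / Df ε S ^ n * s ^ (n - 2) := by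
    rw [← intervalIntegral.integral_sub (hc1.intervalIntegrable _ _) (hc2.intervalIntegrable _ _)]
    apply intervalIntegral.integral_congr
    intro s _
    show s ^ (n - 2) * (1 / Df ε s ^ n - 1 / Df ε S ^ n) =
      s ^ (n - 2) / Df ε s ^ n - 1 / Df ε S ^ n * s ^ (n - 2)
    ring
  have e2 : ∫ s in (0 : ℝ)..S, 1 / Df ε S ^ n * s ^ (n - 2) =
      1 / ((n : ℝ) - 1) * (S ^ (n - 1) / Df ε S ^ n) := by
    rw [intervalIntegral.integral_const_mul, integral_pow]
    have h1 : ((n - 2 : ℕ) : ℝ) + 1 = (n : ℝ) - 1 := by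
      rw [Nat.cast_sub hn]
      push_cast
      ring
    rw [h1, show n - 2 + 1 = n - 1 by omega, zero_pow (by omega), sub_zero]
    ring
  rw [e1, e2, LIS_int hn hε]
  have ht := LIS_tail hn hε hS
  have h2 : S ^ (n - 1) / Df ε S ^ n ≤ 1 / ε * ((S / Df ε S) ^ (n - 2) * (ε / Df ε S)) := by
    have hSD : S ≤ Df ε S := by
      unfold Df
      apply Real.le_sqrt_of_sq_le
      nlinarith [sq_nonneg ε]
    have h3 : 1 / ε * ((S / Df ε S) ^ (n - 2) * (ε / Df ε S)) =
        (S / Df ε S) ^ (n - 2) * (1 / Df ε S) := by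
      field_simp
    have h4 : S ^ (n - 1) / Df ε S ^ n = (S / Df ε S) ^ (n - 2) * (1 / Df ε S) *
        (S / Df ε S) := by
      have h5 : S ^ (n - 1) = S ^ (n - 2) * S := by
        rw [← pow_succ]
        congr 1
        omega
      have h6 : Df ε S ^ n = Df ε S ^ (n - 2) * Df ε S * Df ε S := by
        rw [← pow_succ, ← pow_succ]
        congr 1
        omega
      rw [h5, h6, div_pow]
      field_simp
    rw [h3, h4]
    apply mul_le_of_le_one_right
    · positivity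
    · rw [div_le_one hD]
      exact hSD
  have h7 : 1 / ε * FPc n (Real.arctan (S / ε)) ≤ cW n / ε - S ^ (n - 1) / Df ε S ^ n := by
    have h8 := mul_le_mul_of_nonneg_left ht (one_div_pos.2 hε).le
    rw [mul_add] at h8
    have h9 : 1 / ε * cW n = cW n / ε := by ring
    rw [h9] at h8
    linarith
  have h10 : (n : ℝ) / ((n : ℝ) - 1) * (S ^ (n - 1) / Df ε S ^ n) =
      S ^ (n - 1) / Df ε S ^ n + 1 / ((n : ℝ) - 1) * (S ^ (n - 1) / Df ε S ^ n) := by
    field_simp
    ring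
  rw [h10]
  linarith

end Pool.Agent.CRO
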