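import Pool.Agent.helper58.CRO.SpecL

/-! # the round sphere: injectivity radius, volume of the balls of radius π -/

open scoped Manifold ContDiff Topology ENNReal
open MeasureTheory Set Bundle Filter

noncomputable section

namespace Pool.Agent.CRO

universe u

theorem LRV_mono {n : ℕ} {M : Type u} [TopologicalSpace M] [ChartedSpace (En n) M]
    [IsManifold (𝓡 n) ∞ M] (g : RMetric n M) {A B : Set M} (h : A ⊆ B) : gvol g A ≤ gvol g B := by
  unfold gvol
  refine iSup_mono fun k => iSup_mono fun e => iSup_mono fun S => iSup_mono' fun hc => ?_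
  exact ⟨⟨hc.1, hc.2.1, fun i => (hc.2.2.1 i).trans (inter_subset_inter_left _ h), hc.2.2.2⟩,
    le_rfl⟩

theorem LRV (h1 : SPI_stmt) (h2 : SPV_stmt) (h3 : LG1_stmt.{0}) :
    ∀ n : ℕ, 2 ≤ n → ∀ g : RMetric n (Sn n), IsRound g → ENNReal.ofReal Real.pi ≤ injRad g ∧
      gvol g univ = ENNReal.ofReal (sphereVol n) ∧
      ∀ m : Sn n, gvol g (gball g m Real.pi) = ENNReal.ofReal (sphereVol n) := by
  intro n hn g hg
  have hπ := Real.pi_pos
  have hconn : IsConnected (Metric.sphere (0 : En (n + 1)) 1) := by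
    refine isConnected_sphere ?_ 0 zero_le_one
    rw [← Module.finrank_eq_rank, finrank_euclideanSpace, Fintype.card_fin]
    exact_mod_cast (by omega : 1 < n + 1)
  haveI hcs : ConnectedSpace (Sn n) := isConnected_iff_connectedSpace.1 hconn
  obtain ⟨m0⟩ : Nonempty (Sn n) := hcs.toNonempty
  have hinj : ENNReal.ofReal Real.pi ≤ injRad g := by
    unfold injRad
    exact le_iSup₂_of_le Real.pi ⟨hπ, h1 n g hg⟩ le_rfl
  have hlow : ∀ m : Sn n, ENNReal.ofReal (sphereVol n) ≤ gvol g (gball g m Real.pi) := by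
    intro m
    have h := h3 n hn (Sn n) g m Real.pi hπ hinj
    rw [div_self hπ.ne', one_pow, mul_one] at h
    exact h
  refine ⟨hinj, le_antisymm (h2 n g hg _) ((hlow m0).trans (LRV_mono g (subset_univ _))),
    fun m => le_antisymm (h2 n g hg _) (hlow m)⟩

end Pool.Agent.CRO
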