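import Pool.Agent.helper58.CRO.SpecL

/-! # row cro:LTF -/

open scoped Manifold ContDiff Topology ENNReal
open MeasureTheory Set

noncomputable section

namespace Pool.Agent.CRO

theorem LTF (h1 : JF2_stmt) : LTF_stmt := by
  intro n hn ε l hε hl
  obtain ⟨Ω, hΩd⟩ : ∃ Ω, Ω = Df ε l := ⟨_, rfl⟩
  have hΩ2 : Ω ^ 2 = ε ^ 2 + l ^ 2 := by
    rw [hΩd]
    exact Real.sq_sqrt (by positivity)
  have hΩ0 : 0 < Ω := by
    rw [hΩd]
    exact Real.sqrt_pos.2 (by positivity)
  obtain ⟨α, hαd⟩ : ∃ α, α = Real.arctan (l / ε) := ⟨_, rfl⟩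
  have hα0 : 0 < α := by
    rw [hαd]
    exact Real.arctan_pos.2 (by positivity)
  have hα1 : α < Real.pi / 2 := by
    rw [hαd]
    exact Real.arctan_lt_pi_div_two _
  have hs : Real.sqrt (1 + (l / ε) ^ 2) = Ω / ε := by
    rw [show 1 + (l / ε) ^ 2 = (Ω / ε) ^ 2 by
      rw [div_pow, div_pow, hΩ2]
      field_simp]
    exact Real.sqrt_sq (by positivity)
  have hc : Ω * Real.cos α = ε := by
    rw [hαd, Real.cos_arctan, hs]
    field_simp
  have hsn : Ω * Real.sin α = l := by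
    rw [hαd, Real.sin_arctan, hs]
    field_simp
  have key := h1 n hn Ω α Ω hΩ0 hα0 hα1 hΩ0
  have hW : ∀ φ : ℝ, Wf Ω α (Ω * Real.sin φ) = Df ε (l * Real.sin φ) := by
    intro φ
    unfold Wf Df
    congr 1
    rw [← hc, ← hsn]
    ring
  have hW1 : Wf Ω α Ω = Df ε l := by
    unfold Wf Df
    congr 1
    rw [← hc, ← hsn]
    ring
  have ht : cW n * tr1 n α (Ω / Ω) = cW n := by
    unfold tr1
    rw [div_self hΩ0.ne', one_pow, sub_self, Real.sqrt_zero, mul_zero, Real.arccos_zero]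
    have e : FPc n (Real.pi / 2) = cW n := rfl
    rw [e]
    by_cases h0 : cW n = 0
    · rw [h0, zero_mul]
    · rw [div_self h0, mul_one]
  rw [ht, hc, hW1] at key
  rw [← key]
  apply intervalIntegral.integral_congr_ae
  have h2 : ∀ᵐ φ : ℝ ∂volume, φ ≠ Real.pi / 2 := by
    rw [ae_iff]
    simp
  filter_upwards [h2] with φ h3 h4
  rw [uIoc_of_le (by positivity)] at h4
  have h5 : Real.sin φ < 1 := by
    have := Real.strictMonoOn_sin (a := φ) (b := Real.pi / 2)
      ⟨by linarith [Real.pi_pos, h4.1], h4.2⟩ ⟨by linarith [Real.pi_pos], le_rfl⟩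
      (lt_of_le_of_ne h4.2 h3)
    rwa [Real.sin_pi_div_two] at this
  rw [if_pos (by nlinarith), hW]

end Pool.Agent.CRO
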