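import Pool.Agent.helper58.CRO.SpecL

/-! # row cro:LVS -/

open scoped Manifold ContDiff Topology ENNReal
open MeasureTheory Set

noncomputable section

namespace Pool.Agent.CRO

lemma LVS_Df_pos {ε : ℝ} (hε : 0 < ε) (s : ℝ) : 0 < Df ε s :=
  Real.sqrt_pos.2 (by positivity)

lemma LVS_Df_mono (ε : ℝ) {s s' : ℝ} (h0 : 0 ≤ s) (h : s ≤ s') : Df ε s ≤ Df ε s' := by
  unfold Df
  apply Real.sqrt_le_sqrt
  have : s ^ 2 ≤ s' ^ 2 := pow_le_pow_left₀ h0 h 2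
  linarith

lemma LVS_Df_cont (ε : ℝ) : Continuous (Df ε) := by
  unfold Df
  fun_prop

lemma LVS_Df_zero {ε : ℝ} (hε : 0 < ε) : Df ε 0 = ε := by
  unfold Df
  rw [show ε ^ 2 + 0 ^ 2 = ε ^ 2 by ring]
  exact Real.sqrt_sq hε.le

lemma LVS_exp {n : ℕ} (hn : 2 ≤ n) : (1 : ℝ) / ((n : ℝ) - 1) = (((n - 1 : ℕ) : ℝ))⁻¹ := by
  rw [Nat.cast_sub (by omega : 1 ≤ n), one_div, Nat.cast_one]

lemma LVS_exp_pos {n : ℕ} (hn : 2 ≤ n) : (0 : ℝ) < (1 : ℝ) / ((n : ℝ) - 1) := by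
  have : (2 : ℝ) ≤ n := by exact_mod_cast hn
  apply div_pos one_pos
  linarith

/-- The test function without truncation. -/
def LVS_g0 (n : ℕ) (ε S om y : ℝ) : ℝ :=
  1 / Df ε ((max y 0 / om) ^ ((1 : ℝ) / ((n : ℝ) - 1))) ^ n - 1 / Df ε S ^ n

/-- The test function. -/
def LVS_g (n : ℕ) (ε S om y : ℝ) : ℝ := max (LVS_g0 n ε S om y) 0

lemma LVS_g0_at {n : ℕ} (hn : 2 ≤ n) {ε S om x : ℝ} (hom : 0 < om) (hx : 0 ≤ x) :
    LVS_g0 n ε S om (om * x ^ (n - 1)) = 1 / Df ε x ^ n - 1 / Df ε S ^ n := by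
  unfold LVS_g0
  rw [max_eq_left (mul_nonneg hom.le (pow_nonneg hx _)), mul_div_cancel_left₀ _ hom.ne',
    LVS_exp hn, Real.pow_rpow_inv_natCast hx (by omega)]

lemma LVS_g0_cont {n : ℕ} (hn : 2 ≤ n) {ε S om : ℝ} (hε : 0 < ε) :
    Continuous (LVS_g0 n ε S om) := by
  unfold LVS_g0
  apply Continuous.sub _ continuous_const
  apply Continuous.div continuous_const
  · apply Continuous.pow
    apply (LVS_Df_cont ε).comp
    apply Continuous.rpow_const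
    · fun_prop
    · intro x
      right
      exact (LVS_exp_pos hn).le
  · intro x
    exact (pow_pos (LVS_Df_pos hε _) n).ne'

lemma LVS_g0_anti {n : ℕ} (hn : 2 ≤ n) {ε S om : ℝ} (hε : 0 < ε) (hom : 0 < om) :
    Antitone (LVS_g0 n ε S om) := by
  intro s s' h
  unfold LVS_g0
  apply sub_le_sub_right
  apply one_div_le_one_div_of_le (pow_pos (LVS_Df_pos hε _) n)
  apply pow_le_pow_left₀ (LVS_Df_pos hε _).le
  apply LVS_Df_mono
  · exact Real.rpow_nonneg (div_nonneg (le_max_right _ _) hom.le) _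
  · apply Real.rpow_le_rpow (div_nonneg (le_max_right _ _) hom.le)
    · exact div_le_div_of_nonneg_right (max_le_max h le_rfl) hom.le
    · exact (LVS_exp_pos hn).le

lemma LVS_g_anti {n : ℕ} (hn : 2 ≤ n) {ε S om : ℝ} (hε : 0 < ε) (hom : 0 < om) :
    Antitone (LVS_g n ε S om) := fun _ _ h => max_le_max (LVS_g0_anti hn hε hom h) le_rfl

lemma LVS_g_cont {n : ℕ} (hn : 2 ≤ n) {ε S om : ℝ} (hε : 0 < ε) :
    Continuous (LVS_g n ε S om) := (LVS_g0_cont hn hε).max continuous_const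

lemma LVS_g_ind {n : ℕ} (hn : 2 ≤ n) {ε S om : ℝ} (hε : 0 < ε) (hS : 0 < S) (hom : 0 < om) :
    LVS_g n ε S om = (Iio (om * S ^ (n - 1))).indicator (LVS_g0 n ε S om) := by
  have h0 : LVS_g0 n ε S om (om * S ^ (n - 1)) = 0 := by
    rw [LVS_g0_at hn hom hS.le, sub_self]
  funext y
  unfold LVS_g
  by_cases h : y < om * S ^ (n - 1)
  · rw [indicator_of_mem (show y ∈ Iio (om * S ^ (n - 1)) from h)]
    apply max_eq_left
    rw [← h0]
    exact LVS_g0_anti hn hε hom h.le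
  · rw [indicator_of_notMem (show y ∉ Iio (om * S ^ (n - 1)) from h)]
    apply max_eq_right
    rw [← h0]
    exact LVS_g0_anti hn hε hom (not_lt.1 h)

lemma LVS_g_int {n : ℕ} (hn : 2 ≤ n) {ε S om : ℝ} (hε : 0 < ε) (hS : 0 < S) (hom : 0 < om) :
    IntegrableOn (LVS_g n ε S om) (Ioi 0) := by
  rw [LVS_g_ind hn hε hS hom, IntegrableOn, integrable_indicator_iff measurableSet_Iio,
    IntegrableOn, Measure.restrict_restrict measurableSet_Iio]
  have h1 : IntegrableOn (LVS_g0 n ε S om) (Icc 0 (om * S ^ (n - 1))) :=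
    (LVS_g0_cont hn hε).continuousOn.integrableOn_Icc
  exact h1.mono_set (fun s hs => ⟨le_of_lt hs.2, le_of_lt hs.1⟩)

lemma LVS_g_val {n : ℕ} (hn : 2 ≤ n) {ε S om : ℝ} (hε : 0 < ε) (hS : 0 < S) (hom : 0 < om) :
    ∫ y in Ioi (0 : ℝ), LVS_g n ε S om y =
      om * ((n : ℝ) - 1) * ∫ s in (0 : ℝ)..S, s ^ (n - 2) * (1 / Df ε s ^ n - 1 / Df ε S ^ n) := by
  have hb : 0 ≤ om * S ^ (n - 1) := mul_nonneg hom.le (pow_nonneg hS.le _)
  have e1 : ∫ s in Ioi (0 : ℝ), LVS_g n ε S om s =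
      ∫ s in (0 : ℝ)..(om * S ^ (n - 1)), LVS_g0 n ε S om s := by
    rw [LVS_g_ind hn hε hS hom,
      setIntegral_indicator measurableSet_Iio, intervalIntegral.integral_of_le hb,
      integral_Ioc_eq_integral_Ioo]
    rfl
  have hder : ∀ x ∈ uIcc (0 : ℝ) S, HasDerivAt (fun x : ℝ => om * x ^ (n - 1))
      (om * (((n : ℝ) - 1) * x ^ (n - 2))) x := by
    intro x _
    have h := (hasDerivAt_pow (n - 1) x).const_mul om
    rw [Nat.cast_sub (by omega : 1 ≤ n), Nat.cast_one, show n - 1 - 1 = n - 2 by omega] at h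
    exact h
  have hcd : ContinuousOn (fun x : ℝ => om * (((n : ℝ) - 1) * x ^ (n - 2))) (uIcc 0 S) := by
    apply Continuous.continuousOn
    fun_prop
  have e2 := intervalIntegral.integral_comp_mul_deriv' (a := 0) (b := S)
    (f := fun x : ℝ => om * x ^ (n - 1)) (f' := fun x : ℝ => om * (((n : ℝ) - 1) * x ^ (n - 2)))
    (g := LVS_g0 n ε S om) hder hcd (LVS_g0_cont hn hε).continuousOn
  have e3 : om * (0 : ℝ) ^ (n - 1) = 0 := by rw [zero_pow (by omega), mul_zero]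
  have e4 : ∫ s in (0 : ℝ)..(om * S ^ (n - 1)), LVS_g0 n ε S om s =
      ∫ x in (0 : ℝ)..S, om * ((n : ℝ) - 1) *
        (x ^ (n - 2) * (1 / Df ε x ^ n - 1 / Df ε S ^ n)) := by
    have e5 : (∫ x in (0 : ℝ)..S, (LVS_g0 n ε S om ∘
        fun x : ℝ => om * x ^ (n - 1)) x * (om * (((n : ℝ) - 1) * x ^ (n - 2)))) =
        ∫ s in (0 : ℝ)..(om * S ^ (n - 1)), LVS_g0 n ε S om s := by
      rw [e2]
      simp only [e3]
    rw [← e5]
    apply intervalIntegral.integral_congr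
    intro x hx
    rw [uIcc_of_le hS.le] at hx
    show LVS_g0 n ε S om (om * x ^ (n - 1)) * (om * (((n : ℝ) - 1) * x ^ (n - 2))) = _
    rw [LVS_g0_at hn hom hx.1]
    ring
  rw [e1, e4, intervalIntegral.integral_const_mul]

lemma LVS_phi (h2 : LTF_stmt) {n : ℕ} (hn : 2 ≤ n) {ε S om l : ℝ} (hε : 0 < ε)
    (hom : 0 < om) (hl : 0 < l) :
    cW n * (1 / (ε * Df ε l ^ (n - 1)) - 1 / Df ε S ^ n) ≤ ∫ φ in (0 : ℝ)..(Real.pi / 2),
      LVS_g n ε S om (om * l ^ (n - 1) * Real.sin φ ^ (n - 1)) * Real.sin φ ^ (n - 2) := by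
  have hc1 : Continuous (fun φ : ℝ => Real.sin φ ^ (n - 2) / Df ε (l * Real.sin φ) ^ n) := by
    apply Continuous.div (by fun_prop)
    · apply Continuous.pow
      apply (LVS_Df_cont ε).comp
      fun_prop
    · intro x
      exact (pow_pos (LVS_Df_pos hε _) n).ne'
  have hc2 : Continuous (fun φ : ℝ => 1 / Df ε S ^ n * Real.sin φ ^ (n - 2)) := by fun_prop
  have e1 : cW n * (1 / (ε * Df ε l ^ (n - 1)) - 1 / Df ε S ^ n) =
      ∫ φ in (0 : ℝ)..(Real.pi / 2), (Real.sin φ ^ (n - 2) / Df ε (l * Real.sin φ) ^ n -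
        1 / Df ε S ^ n * Real.sin φ ^ (n - 2)) := by
    rw [intervalIntegral.integral_sub (hc1.intervalIntegrable _ _) (hc2.intervalIntegrable _ _),
      h2 n hn ε l hε hl, intervalIntegral.integral_const_mul]
    have : ∫ φ in (0 : ℝ)..(Real.pi / 2), Real.sin φ ^ (n - 2) = cW n := rfl
    rw [this]
    ring
  rw [e1]
  apply intervalIntegral.integral_mono_on (by positivity)
    ((hc1.sub hc2).intervalIntegrable _ _)
  · apply Continuous.intervalIntegrable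
    apply Continuous.mul _ (by fun_prop)
    apply (LVS_g_cont hn hε).comp
    fun_prop
  · intro φ hφ
    have hs : 0 ≤ Real.sin φ :=
      Real.sin_nonneg_of_nonneg_of_le_pi hφ.1 (by linarith [hφ.2, Real.pi_pos])
    have hls : 0 ≤ l * Real.sin φ := mul_nonneg hl.le hs
    show Real.sin φ ^ (n - 2) / Df ε (l * Real.sin φ) ^ n -
      1 / Df ε S ^ n * Real.sin φ ^ (n - 2) ≤ _
    rw [show om * l ^ (n - 1) * Real.sin φ ^ (n - 1) = om * (l * Real.sin φ) ^ (n - 1) by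
      rw [mul_pow]; ring]
    have h3 : LVS_g0 n ε S om (om * (l * Real.sin φ) ^ (n - 1)) ≤
        LVS_g n ε S om (om * (l * Real.sin φ) ^ (n - 1)) := le_max_left _ _
    rw [LVS_g0_at hn hom hls] at h3
    have h4 := mul_le_mul_of_nonneg_right h3 (pow_nonneg hs (n - 2))
    refine le_trans (le_of_eq ?_) h4
    ring

theorem LVS (h1 : LVI_stmt) (h2 : LTF_stmt) (h3 : LIS_stmt) (h4 : JNU_stmt) (h5 : JVL_stmt) :
    LVS_stmt := by
  intro n r0 𝒢 L R hn hE hL hR hRr hRL N ε S mx hN hε hS hmx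
  obtain ⟨hX0, hcW, hk, hk1, hXc, hkk, -⟩ := h4 n hn
  obtain ⟨⟨c, C, hc, -, hvl⟩, -⟩ := h5 n r0 𝒢 R hn hR hRr
  have hn0 : (0 : ℝ) < n := by
    have : (2 : ℝ) ≤ n := by exact_mod_cast hn
    linarith
  have hn1 : (0 : ℝ) < (n : ℝ) - 1 := by
    have : (2 : ℝ) ≤ n := by exact_mod_cast hn
    linarith
  have hN0 : (0 : ℝ) < N := by exact_mod_cast hN
  have hh : 0 < R / N := div_pos hR hN0
  have hvv : ∀ j ∈ Finset.Icc 1 N, 0 < vv 𝒢 R N j := by
    intro j hj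
    refine lt_of_lt_of_le ?_ (hvl N j hN hj).1
    have hj0 : (0 : ℝ) < j := by exact_mod_cast (Finset.mem_Icc.1 hj).1
    positivity
  obtain ⟨om, homd⟩ : ∃ om, om = n * kap n := ⟨_, rfl⟩
  have hom : 0 < om := by rw [homd]; positivity
  have hlj : ∀ j ∈ Finset.Icc 1 N, 0 < lj 𝒢 R N j ∧
      vv 𝒢 R N j = R / N * om * lj 𝒢 R N j ^ (n - 1) := by
    intro j hj
    have hq : 0 < vv 𝒢 R N j / (R / N * (n * kap n)) := by
      have := hvv j hj
      positivity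
    refine ⟨Real.rpow_pos_of_pos hq _, ?_⟩
    unfold lj
    rw [LVS_exp hn, Real.rpow_inv_natCast_pow hq.le (by omega), homd]
    field_simp
  have key := h1 n r0 𝒢 L R hn hE hL hR hRr hRL N (LVS_g n ε S om) mx hN
    (LVS_g_anti hn hε hom) (fun s => le_max_right _ _) (LVS_g_int hn hε hS hom) hmx
  rw [LVS_g_val hn hε hS hom] at key
  have hmx0 : 0 ≤ mx := le_trans (hvv 1 (Finset.mem_Icc.2 ⟨le_rfl, hN⟩)).le
    (hmx 1 (Finset.mem_Icc.2 ⟨le_rfl, hN⟩))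
  have hg0 : LVS_g n ε S om 0 ≤ 1 / ε ^ n := by
    have h6 := LVS_g0_at hn (ε := ε) (S := S) hom (le_refl (0 : ℝ))
    rw [zero_pow (by omega), mul_zero, LVS_Df_zero hε] at h6
    unfold LVS_g
    rw [h6]
    apply max_le
    · have : 0 < 1 / Df ε S ^ n := one_div_pos.2 (pow_pos (LVS_Df_pos hε S) n)
      linarith
    · positivity
  have hlis := h3 n hn ε S hε hS
  obtain ⟨I, hI⟩ : ∃ I, I = ∫ s in (0 : ℝ)..S, s ^ (n - 2) * (1 / Df ε s ^ n - 1 / Df ε S ^ n) :=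
    ⟨_, rfl⟩
  rw [← hI] at key hlis
  obtain ⟨S1, hS1⟩ : ∃ S1, S1 = ∑ j ∈ Finset.Icc 1 N, R / N * (lj 𝒢 R N j ^ (n - 1) *
      (1 / (ε * Df ε (lj 𝒢 R N j) ^ (n - 1)) - 1 / Df ε S ^ n)) := ⟨_, rfl⟩
  have k1 : om * (cW n * S1) ≤ ∑ j ∈ Finset.Icc 1 N, vv 𝒢 R N j *
      ∫ φ in (0 : ℝ)..(Real.pi / 2),
        LVS_g n ε S om (vv 𝒢 R N j / (R / N) * Real.sin φ ^ (n - 1)) * Real.sin φ ^ (n - 2) := by
    rw [hS1, Finset.mul_sum, Finset.mul_sum]
    apply Finset.sum_le_sum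
    intro j hj
    obtain ⟨hl, hv⟩ := hlj j hj
    rw [show vv 𝒢 R N j / (R / N) = om * lj 𝒢 R N j ^ (n - 1) by
      rw [hv]; field_simp]
    have h6 := mul_le_mul_of_nonneg_left (LVS_phi h2 hn (S := S) hε hom hl) (hvv j hj).le
    refine le_trans (le_of_eq ?_) h6
    rw [hv]
    ring
  show cW n * ∑ j ∈ Finset.Icc 1 N, R / N * (lj 𝒢 R N j ^ (n - 1) *
      (1 / (ε * Df ε (lj 𝒢 R N j) ^ (n - 1)) - 1 / Df ε S ^ n)) ≤
    R * (cW n / ε - (n : ℝ) / ((n : ℝ) - 1) * (S ^ (n - 1) / Df ε S ^ n)) +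
      cW n * mx / (n * kap n * ε ^ n)
  rw [← hS1, ← homd]
  have k2 := mul_le_mul_of_nonneg_left k1 hn1.le
  have k3 : ((n : ℝ) - 1) * cW n * mx * LVS_g n ε S om 0 ≤
      ((n : ℝ) - 1) * cW n * mx * (1 / ε ^ n) :=
    mul_le_mul_of_nonneg_left hg0 (by positivity)
  have k4 : R * (om * ((n : ℝ) - 1) * I) ≤ R * (om * ((n : ℝ) - 1) *
      (cW n / ε - (n : ℝ) / ((n : ℝ) - 1) * (S ^ (n - 1) / Df ε S ^ n))) := by
    gcongr
  have k5 : ((n : ℝ) - 1) * om * (cW n * S1) ≤ ((n : ℝ) - 1) * om *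
      (R * (cW n / ε - (n : ℝ) / ((n : ℝ) - 1) * (S ^ (n - 1) / Df ε S ^ n)) +
        cW n * mx / (om * ε ^ n)) := by
    have e : ((n : ℝ) - 1) * om * (R * (cW n / ε - (n : ℝ) / ((n : ℝ) - 1) *
        (S ^ (n - 1) / Df ε S ^ n)) + cW n * mx / (om * ε ^ n)) =
        R * (om * ((n : ℝ) - 1) * (cW n / ε - (n : ℝ) / ((n : ℝ) - 1) *
          (S ^ (n - 1) / Df ε S ^ n))) + ((n : ℝ) - 1) * cW n * mx * (1 / ε ^ n) := by
      have : ((n : ℝ) - 1) * om * (cW n * mx / (om * ε ^ n)) =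
          ((n : ℝ) - 1) * cW n * mx * (1 / ε ^ n) := by
        field_simp
      rw [mul_add, this]
      ring
    rw [e]
    linarith
  exact le_of_mul_le_mul_left k5 (by positivity)

end Pool.Agent.CRO
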