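import Pool.Agent.helper16.CRO.CFL
import Pool.Agent.helper16.CRO.FLX
import Pool.Agent.helper16.CRO.LIN
import Pool.Agent.helper16.CRO.DIF
import Pool.Agent.helper16.CRO.DCT
import Pool.Agent.helper16.CRO.LGC
import Pool.Agent.helper16.CRO.LGV
import Pool.Agent.helper16.CRO.LGG
import Pool.Agent.helper16.CRO.LGF
import Pool.Agent.helper16.CRO.HFL
import Pool.Agent.helper66.CRO.HVC
import Pool.Agent.helper63.CRO.SMP
import Pool.Agent.helper32.CRO.HES
import Pool.Agent.helper36.CRO.DT1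
import Pool.Agent.helper11.CRO.MPR
import Pool.Agent.helper84.CRO.CUT
import Pool.Agent.helper79.CRO.GFL
import Pool.Agent.helper50.CRO.HVA
import Pool.Agent.helper87.CRO.NRG
import Pool.Agent.helper36.CRO.DNM
import Pool.Agent.helper10.CRO.SPD
import Pool.Agent.helper6.CRO.REV
import Pool.Agent.helper79.CRO.ELL
import Pool.Agent.helper79.CRO.VOL
import Pool.Agent.helper79.CRO.BAD
import Pool.Agent.helper79.CRO.VVP
import Pool.Agent.helper66.CRO.INJ
import Pool.Agent.helper50.CRO.NDG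
import Pool.Agent.helper93.CRO.BKD
import Pool.Agent.helper6.CRO.PAI
import Pool.Agent.helper2.CRO.LEV
import Pool.Agent.helper64.CRO.APB
import Pool.Agent.helper52.CRO.AVG
import Pool.Agent.helper8.CRO.HIT
import Pool.Agent.helper82.CRO.TYP
import Pool.Agent.helper16.CRO.KZW
import Pool.Agent.helper95.CRO.SIG
import Pool.Agent.helper46.CRO.MNK
import Pool.Agent.helper54.CRO.MKT
import Pool.Agent.helper89.CRO.RED

/-!
# MP_5bf3c3_gt: assembly of the flow part (blocks A and B)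
-/

open scoped Manifold ContDiff Topology ENNReal
open MeasureTheory Set Bundle Filter

noncomputable section

namespace Pool.Agent.CRO

theorem M1_MNK : MNK_stmt := MNK MKT

theorem M1_CFL : CFL_stmt := CFL FLX LIN DIF DCT

theorem M1_SMP : SMP_stmt := SMP HES

theorem M1_HFL : HFL_stmt := HFL M1_CFL HVC M1_SMP DT1 MPR

theorem M1_LGC : LGC_stmt := LGC LGF (LGV LGG)

theorem M1_KZW : KZW_stmt := KZW M1_LGC

theorem M1_GFL : GFL_stmt := GFL CUT M1_HFL

theorem M1_DNM : DNM_stmt := DNM HVA NRG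

theorem M1_SPD : SPD_stmt := SPD NRG M1_DNM

theorem M1_REV : REV_stmt := REV HVA M1_SPD

theorem M1_VOL : VOL_stmt := VOL ELL

theorem M1_BAD : BAD_stmt := BAD ELL

theorem M1_INJ : INJ_stmt := INJ HVA NRG

theorem M1_NDG : NDG_stmt := NDG HVA NRG

theorem M1_PAI : PAI_stmt := PAI M1_INJ NRG DT1 BKD

theorem M1_LEV (h : KZP_stmt) : LEV_stmt := LEV h M1_KZW SIG M1_NDG M1_PAI NRG HVA

theorem M1_APB (h : KZP_stmt) : APB_stmt := APB M1_GFL M1_SPD M1_VOL VVP (M1_LEV h)

theorem M1_TYP : TYP_stmt := TYP M1_BAD M1_VOL AVG HIT M1_SPD M1_DNM M1_REV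

end Pool.Agent.CRO
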