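import Pool.Agent.helper58.CRO.SpecE

open scoped Manifold ContDiff Topology ENNReal
open MeasureTheory Set Bundle Filter

noncomputable section

namespace Pool.Agent.CRO

theorem SPE_sincmul (t : ℝ) : Real.sinc t * t = Real.sin t := by
  rcases eq_or_ne t 0 with h | h
  · simp [h]
  · rw [Real.sinc_of_ne_zero h]; field_simp

theorem SPE_sincpos (t : ℝ) (h0 : 0 ≤ t) (h1 : t < Real.pi) : 0 < Real.sinc t := by
  rcases eq_or_ne t 0 with h | h
  · simp [h]
  · rw [Real.sinc_of_ne_zero h]
    have : 0 < t := lt_of_le_of_ne h0 (Ne.symm h)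
    exact div_pos (Real.sin_pos_of_pos_of_lt_pi this h1) this

theorem SPE_inner {n : ℕ} (x : En (n + 1)) (J : En n →ₗᵢ[ℝ] En (n + 1)) (hx : ‖x‖ = 1)
    (hJ : ∀ v, inner ℝ x (J v) = 0) (a b : ℝ) (y : En n) :
    inner ℝ x (a • x + b • J y) = a := by
  rw [inner_add_right, inner_smul_right, inner_smul_right, hJ, real_inner_self_eq_norm_sq, hx]
  simp

theorem SPE_norm {n : ℕ} (x : En (n + 1)) (J : En n →ₗᵢ[ℝ] En (n + 1)) (hx : ‖x‖ = 1)
    (hJ : ∀ v, inner ℝ x (J v) = 0) (a b : ℝ) (y : En n) :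
    ‖a • x + b • J y‖ ^ 2 = a ^ 2 + (b * ‖y‖) ^ 2 := by
  rw [norm_add_sq_real, inner_smul_left, inner_smul_right, hJ, norm_smul, norm_smul, hx,
    LinearIsometry.norm_map]
  simp only [Real.norm_eq_abs, mul_one, mul_zero, add_zero, sq_abs, mul_pow]

/-- independence of `x` and the range of `J` -/
theorem SPE_indep {n : ℕ} (x : En (n + 1)) (J : En n →ₗᵢ[ℝ] En (n + 1)) (hx : ‖x‖ = 1)
    (hJ : ∀ v, inner ℝ x (J v) = 0) (a : ℝ) (z : En n) (h : a • x + J z = 0) : a = 0 ∧ z = 0 := by
  have h1 : inner ℝ x (a • x + J z) = a := by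
    rw [inner_add_right, inner_smul_right, hJ, real_inner_self_eq_norm_sq, hx]; simp
  rw [h, inner_zero_right] at h1
  have h2 : J z = 0 := by rw [← h1] at h; simpa using h
  refine ⟨h1.symm, ?_⟩
  have h3 : ‖z‖ = 0 := by rw [← J.norm_map, h2, norm_zero]
  exact norm_eq_zero.1 h3

theorem SPE_range {n : ℕ} (x : En (n + 1)) (J : En n →ₗᵢ[ℝ] En (n + 1)) (hx : ‖x‖ = 1)
    (hJ : ∀ v, inner ℝ x (J v) = 0) (q : En (n + 1)) (hq : inner ℝ x q = 0) : ∃ v, J v = q := by
  have hx0 : x ≠ 0 := by intro h; rw [h, norm_zero] at hx; exact zero_ne_one hx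
  have hle : LinearMap.range J.toLinearMap ≤ (ℝ ∙ x)ᗮ := by
    rintro _ ⟨v, rfl⟩
    rw [Submodule.mem_orthogonal_singleton_iff_inner_right]
    exact hJ v
  haveI : Fact (Module.finrank ℝ (En (n + 1)) = n + 1) := ⟨finrank_euclideanSpace_fin⟩
  have hd1 : Module.finrank ℝ (LinearMap.range J.toLinearMap) = n := by
    rw [LinearMap.finrank_range_of_inj J.injective, finrank_euclideanSpace_fin]
  have hd2 : Module.finrank ℝ ((ℝ ∙ x)ᗮ : Submodule ℝ (En (n + 1))) = n :=
    Submodule.finrank_orthogonal_span_singleton hx0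
  have heq : LinearMap.range J.toLinearMap = (ℝ ∙ x)ᗮ :=
    Submodule.eq_of_le_of_finrank_eq hle (by rw [hd1, hd2])
  have hmem : q ∈ (ℝ ∙ x)ᗮ := by
    rw [Submodule.mem_orthogonal_singleton_iff_inner_right]; exact hq
  rw [← heq] at hmem
  obtain ⟨v, hv⟩ := hmem
  exact ⟨v, hv⟩

theorem SPE (h1 : SCS_stmt) : SPE_stmt := by
  intro n x J hx hJ
  obtain ⟨hcos, hsinc⟩ := h1 n
  have hsm : ContDiff ℝ ∞ (fun y : En n => Real.cos ‖y‖ • x + Real.sinc ‖y‖ • J y) := by
    apply ContDiff.add
    · exact hcos.smul contDiff_const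
    · exact hsinc.smul J.contDiff
  refine ⟨hsm, ?_, ?_, ?_, ?_⟩
  · intro y
    have h := SPE_norm x J hx hJ (Real.cos ‖y‖) (Real.sinc ‖y‖) y
    rw [SPE_sincmul, Real.cos_sq_add_sin_sq] at h
    have h0 : 0 ≤ ‖Real.cos ‖y‖ • x + Real.sinc ‖y‖ • J y‖ := norm_nonneg _
    nlinarith
  · intro y hy z hz hyz
    simp only [Metric.mem_ball, dist_zero_right] at hy hz
    simp only at hyz
    have e1 := SPE_inner x J hx hJ (Real.cos ‖y‖) (Real.sinc ‖y‖) y
    have e2 := SPE_inner x J hx hJ (Real.cos ‖z‖) (Real.sinc ‖z‖) z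
    rw [hyz, e2] at e1
    have hnn : ‖y‖ = ‖z‖ :=
      Real.injOn_cos ⟨norm_nonneg y, hy.le⟩ ⟨norm_nonneg z, hz.le⟩ e1.symm
    rw [hnn] at hyz
    have h3 : Real.sinc ‖z‖ • J y = Real.sinc ‖z‖ • J z := add_left_cancel hyz
    have h4 : J y = J z := smul_right_injective _ (SPE_sincpos _ (norm_nonneg z) hz).ne' h3
    exact J.injective h4
  · intro p hp hpx
    set t := Real.arccos (inner ℝ x p) with ht
    have hlb : -1 ≤ inner ℝ x p := by
      have := abs_real_inner_le_norm x p
      rw [hx, hp, one_mul] at this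
      exact (abs_le.1 this).1
    have hub : inner ℝ x p ≤ 1 := by
      have := abs_real_inner_le_norm x p
      rw [hx, hp, one_mul] at this
      exact (abs_le.1 this).2
    have hcost : Real.cos t = inner ℝ x p := Real.cos_arccos hlb hub
    have ht0 : 0 ≤ t := Real.arccos_nonneg _
    have htpi : t < Real.pi := by
      refine lt_of_le_of_ne (Real.arccos_le_pi _) ?_
      intro h
      rw [Real.arccos_eq_pi] at h
      have h5 : inner ℝ x p = -1 := le_antisymm h hlb
      apply hpx
      have h6 : ‖p + x‖ ^ 2 = 0 := by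
        rw [norm_add_sq_real, hp, hx, real_inner_comm, h5]; norm_num
      have h7 : p + x = 0 := norm_eq_zero.1 (by nlinarith [norm_nonneg (p + x)])
      exact eq_neg_of_add_eq_zero_left h7
    have hq : inner ℝ x (p - Real.cos t • x) = 0 := by
      rw [inner_sub_right, inner_smul_right, real_inner_self_eq_norm_sq, hx, hcost]; ring
    obtain ⟨v, hv⟩ := SPE_range x J hx hJ _ hq
    have hvn : ‖v‖ ^ 2 = Real.sin t ^ 2 := by
      rw [← J.norm_map, hv, norm_sub_sq_real, inner_smul_right, real_inner_comm, norm_smul, hx, hp,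
        Real.sin_sq, ← hcost]
      simp only [Real.norm_eq_abs, mul_one, sq_abs]
      ring
    have hsint : 0 ≤ Real.sin t := Real.sin_nonneg_of_nonneg_of_le_pi ht0 htpi.le
    have hvn' : ‖v‖ = Real.sin t := (pow_left_inj₀ (norm_nonneg _) hsint two_ne_zero).1 hvn
    rcases eq_or_ne t 0 with h0 | h0
    · refine ⟨0, by simpa using Real.pi_pos, ?_⟩
      rw [h0, Real.sin_zero] at hvn'
      have hv0 : v = 0 := norm_eq_zero.1 hvn'
      rw [hv0, map_zero, h0, Real.cos_zero, one_smul] at hv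
      have : p = x := (sub_eq_zero.1 hv.symm)
      simp [this]
    · have hst : 0 < Real.sin t :=
        Real.sin_pos_of_pos_of_lt_pi (lt_of_le_of_ne ht0 (Ne.symm h0)) htpi
      have hny : ‖(t / Real.sin t) • v‖ = t := by
        rw [norm_smul, hvn', Real.norm_eq_abs, abs_of_nonneg (div_nonneg ht0 hst.le)]
        field_simp
      refine ⟨(t / Real.sin t) • v, by simp only [Metric.mem_ball, dist_zero_right, hny]; exact htpi,
        ?_⟩
      rw [hny, map_smul, hv, smul_smul, Real.sinc_of_ne_zero h0]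
      have : Real.sin t / t * (t / Real.sin t) = 1 := by field_simp
      rw [this, one_smul]
      abel
  · intro y hy
    simp only [Metric.mem_ball, dist_zero_right] at hy
    rw [injective_iff_map_eq_zero]
    intro v hv
    have hc : HasFDerivAt (fun y : En n => Real.cos ‖y‖) (fderiv ℝ (fun y : En n => Real.cos ‖y‖) y) y :=
      ((hcos.differentiable (by simp)) y).hasFDerivAt
    have hs : HasFDerivAt (fun y : En n => Real.sinc ‖y‖) (fderiv ℝ (fun y : En n => Real.sinc ‖y‖) y)
        y := ((hsinc.differentiable (by simp)) y).hasFDerivAt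
    have hJ' : HasFDerivAt (fun y : En n => J y) (J.toContinuousLinearMap) y :=
      J.toContinuousLinearMap.hasFDerivAt
    have hD := ((hc.smul_const x).add (hs.smul hJ')).fderiv
    have hD' : fderiv ℝ (fun y : En n => Real.cos ‖y‖ • x + Real.sinc ‖y‖ • J y) y v =
        (fderiv ℝ (fun y : En n => Real.cos ‖y‖) y v) • x +
          J ((fderiv ℝ (fun y : En n => Real.sinc ‖y‖) y v) • y + Real.sinc ‖y‖ • v) := by
      have h5 : fderiv ℝ (fun y : En n => Real.cos ‖y‖ • x + Real.sinc ‖y‖ • J y) y v = _ :=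
        congrArg (fun L : En n →L[ℝ] En (n + 1) => L v) hD
      rw [h5]
      simp only [ContinuousLinearMap.add_apply, ContinuousLinearMap.smulRight_apply,
        ContinuousLinearMap.smul_apply, LinearIsometry.coe_toContinuousLinearMap, map_add, map_smul]
      abel
    rw [hD'] at hv
    obtain ⟨ha, hb⟩ := SPE_indep x J hx hJ _ _ hv
    rcases eq_or_ne y 0 with h0 | h0
    · rw [h0] at hb
      simpa using hb
    · have hsp := SPE_sincpos ‖y‖ (norm_nonneg y) hy
      set b := fderiv ℝ (fun y : En n => Real.sinc ‖y‖) y v with hbdef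
      have hv1 : v = (-(b / Real.sinc ‖y‖)) • y := by
        have h6 : Real.sinc ‖y‖ • v = -(b • y) := eq_neg_of_add_eq_zero_right hb
        have h7 : v = (Real.sinc ‖y‖)⁻¹ • (Real.sinc ‖y‖ • v) := by
          rw [smul_smul, inv_mul_cancel₀ hsp.ne', one_smul]
        rw [h7, h6, smul_neg, smul_smul, neg_smul]
        congr 2
        rw [div_eq_inv_mul]
      have hay : fderiv ℝ (fun y : En n => Real.cos ‖y‖) y y = -(Real.sin ‖y‖ * ‖y‖) := by
        have hline : HasDerivAt (fun s : ℝ => y + s • y) y 0 := by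
          have h5 : HasDerivAt (fun ε : ℝ => ε • y) ((1 : ℝ) • y) 0 :=
            (hasDerivAt_id (0:ℝ)).smul_const y
          rw [one_smul] at h5
          exact h5.const_add y
        have hc' : HasFDerivAt (fun y : En n => Real.cos ‖y‖)
            (fderiv ℝ (fun y : En n => Real.cos ‖y‖) y) (y + (0 : ℝ) • y) := by simpa using hc
        have h8 := hc'.comp_hasDerivAt (0 : ℝ) hline
        have h9 : HasDerivAt (fun s : ℝ => Real.cos ((1 + s) * ‖y‖))
            (-Real.sin ((1 + 0) * ‖y‖) * (1 * ‖y‖)) 0 := by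
          have h10 : HasDerivAt (fun s : ℝ => (1 + s) * ‖y‖) (1 * ‖y‖) 0 :=
            ((hasDerivAt_id (0:ℝ)).const_add 1).mul_const _
          exact h10.cos
        have h11 : (fun s : ℝ => Real.cos ((1 + s) * ‖y‖)) =ᶠ[𝓝 0]
            (fun y : En n => Real.cos ‖y‖) ∘ (fun s : ℝ => y + s • y) := by
          have : ∀ᶠ s : ℝ in 𝓝 0, -1 < s := lt_mem_nhds (by norm_num)
          filter_upwards [this] with s hs
          simp only [Function.comp]
          have : y + s • y = (1 + s) • y := by rw [add_smul, one_smul]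
          rw [this, norm_smul, Real.norm_eq_abs, abs_of_pos (by linarith)]
        have h12 := (h9.congr_of_eventuallyEq h11.symm).unique h8
        rw [← h12]
        ring_nf
      rw [hv1, map_smul, smul_eq_mul, hay] at ha
      have hsin : 0 < Real.sin ‖y‖ :=
        Real.sin_pos_of_pos_of_lt_pi (norm_pos_iff.2 h0) hy
      have hne : -(Real.sin ‖y‖ * ‖y‖) ≠ 0 := neg_ne_zero.2 (mul_pos hsin (norm_pos_iff.2 h0)).ne'
      have hz : -(b / Real.sinc ‖y‖) = 0 := (mul_eq_zero.1 ha).resolve_right hne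
      rw [hv1, hz, zero_smul]

end Pool.Agent.CRO
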