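import Pool.Agent.helper58.CRO.SpecE

open scoped Manifold ContDiff Topology ENNReal
open MeasureTheory Set Bundle Filter

noncomputable section

namespace Pool.Agent.CRO

theorem SPF : SPF_stmt := by
  intro n g hg e he
  haveI : Fact (Module.finrank ℝ (En (n + 1)) = n + 1) := ⟨finrank_euclideanSpace_fin⟩
  have hs : ContMDiffOn 𝓘(ℝ, En n) (𝓡 n) ∞ e.symm e.target :=
    contMDiffOn_symm_of_mem_maximalAtlas he
  have hcoe : ContMDiff (𝓡 n) 𝓘(ℝ, En (n + 1)) ∞ (fun y : Sn n => (y : En (n + 1))) :=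
    contMDiff_coe_sphere
  have hcomp : ContMDiffOn 𝓘(ℝ, En n) 𝓘(ℝ, En (n + 1)) ∞
      (fun y : En n => ((e.symm y : Sn n) : En (n + 1))) e.target :=
    hcoe.comp_contMDiffOn hs
  refine ⟨contMDiffOn_iff_contDiffOn.1 hcomp, ?_⟩
  intro y hy v w
  have h1 : MDifferentiableAt 𝓘(ℝ, En n) (𝓡 n) e.symm y :=
    (contMDiffAt_symm_of_mem_maximalAtlas he hy).mdifferentiableAt (by simp)
  have h2 : MDifferentiableAt (𝓡 n) 𝓘(ℝ, En (n + 1)) (fun y : Sn n => (y : En (n + 1)))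
      (e.symm y) := hcoe.mdifferentiableAt (by simp)
  have h3 := (h2.hasMFDerivAt.comp y h1.hasMFDerivAt).mfderiv
  have h4 : fderiv ℝ (fun y : En n => ((e.symm y : Sn n) : En (n + 1))) y =
      (mfderiv (𝓡 n) 𝓘(ℝ, En (n + 1)) (fun y : Sn n => (y : En (n + 1))) (e.symm y)).comp
        (mfderiv 𝓘(ℝ, En n) (𝓡 n) e.symm y) := by
    rw [← mfderiv_eq_fderiv]
    exact h3
  rw [h4]
  exact hg (e.symm y) (mfderiv 𝓘(ℝ, En n) (𝓡 n) e.symm y v) (mfderiv 𝓘(ℝ, En n) (𝓡 n) e.symm y w)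

end Pool.Agent.CRO
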