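import Pool.Agent.helper58.CRO.COE
import Pool.Agent.helper58.CRO.GAU
import Pool.Agent.helper58.CRO.BAL
import Pool.Agent.helper58.CRO.SPF
import Pool.Agent.helper58.CRO.SPE
import Pool.Agent.helper8.CRO.CBL
import Pool.Agent.helper84.CRO.GOP
import Pool.Agent.helper85.CRO.TRN
import Pool.Agent.helper45.CRO.CMP
import Pool.Agent.helper82.CRO.NCH
import Pool.Agent.helper24.CRO.ORB
import Pool.Agent.helper54.CRO.EXM
import Pool.Agent.helper49.CRO.VOA
import Pool.Agent.helper39.CRO.SCS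
import Pool.Agent.helper6.CRO.SPN
import Pool.Agent.helper89.CRO.SPL
import Pool.Agent.helper68.CRO.SPI
import Pool.Agent.helper41.CRO.CNE
import Pool.Agent.helper34.CRO.SVK
import Pool.Agent.helper31.CRO.SPV
import Pool.Agent.helper31.CRO.SPG
import Pool.Agent.helper16.CRO.UPB

/-!
# MP_5bf3c3_gt: assembly of the Riemannian part (blocks D and E)
-/

open scoped Manifold ContDiff Topology ENNReal
open MeasureTheory Set Bundle Filter

noncomputable section

namespace Pool.Agent.CRO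

universe u

theorem M2_GOP : GOP_stmt.{u} := GOP CBL

theorem M2_GAU : GAU_stmt.{u} := GAU COE CBL

theorem M2_NCH : NCH_stmt.{u} := NCH COE M2_GOP M2_GAU

theorem M2_ORB : ORB_stmt.{u} := ORB COE M2_GOP

theorem M2_EXM : EXM_stmt.{u} := EXM COE M2_GOP TRN CMP M2_ORB

theorem M2_BAL : BAL_stmt.{u} := BAL M2_GAU

theorem M2_VOA : VOA_stmt.{u} := VOA COE M2_GOP M2_BAL

theorem M2_SPE : SPE_stmt := SPE SCS

theorem M2_SPN : SPN_stmt := SPN M2_SPE

theorem M2_SPI : SPI_stmt := SPI SPF M2_SPN (SPL SPF)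

theorem M2_SPV : SPV_stmt := SPV SPF CNE SVK

theorem M2_UPB : UPB_stmt := UPB SPG M2_SPI M2_SPV

end Pool.Agent.CRO
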