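import Pool.Agent.helper58.CRO.Main1
import Pool.Agent.helper58.CRO.Main2
import Pool.Agent.helper72.CRO.KZP
import Pool.Agent.helper64.CRO.FI1
import Pool.Agent.helper16.CRO.FI2
import Pool.Agent.helper16.CRO.FIN
import Pool.Agent.helper16.CRO.STF
import Pool.Agent.helper34.CRO.SWP
import Pool.Agent.helper92.CRO.RAT
import Pool.Agent.helper45.CRO.NUM
import Pool.Agent.helper13.CRO.CORE
import Pool.Agent.helper52.CRO.FNL
import Pool.Agent.helper16.CRO.CST
import Pool.Agent.helper16.CRO.LRT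
import Pool.Agent.helper31.CRO.STI
import Pool.Agent.helper16.CRO.LIM

/-!
# MP_5bf3c3_gt: assembly of Theorem 1
-/

open scoped Manifold ContDiff Topology ENNReal
open MeasureTheory Set Bundle Filter

noncomputable section

namespace Pool.Agent.CRO

universe u

theorem M3_KZP : KZP_stmt := KZP RED M1_MNK HES

theorem M3_LEV : LEV_stmt := M1_LEV M3_KZP

theorem M3_APB : APB_stmt := M1_APB M3_KZP

theorem M3_FIN : FIN_stmt := FIN FI1 FI2

theorem M3_SWP : SWP_stmt := SWP STF

theorem M3_NUM : NUM_stmt := NUM RAT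

theorem M3_CORE : CORE_stmt :=
  CORE M3_FIN M3_SWP RAT M3_NUM M1_GFL M1_SPD M1_VOL VVP M3_APB M1_TYP M3_LEV

theorem M3_FNL : FNL_stmt.{u} := FNL M3_CORE M2_NCH M2_EXM M2_VOA

theorem M3_CST : CST_stmt := CST M3_FNL

theorem M3_LRT : LRT_stmt := LRT M3_CST M2_UPB RAT

theorem M3_LIM : LIM_stmt := LIM M3_LRT STI RAT

end Pool.Agent.CRO
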