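import Pool.Agent.helper58.CRO.Main3
import Pool.Agent.helper41.CRO.VVC
import Pool.Agent.helper16.CRO.INQ
import Pool.Agent.helper63.CRO.RIC
import Pool.Agent.helper39.CRO.EX2
import Pool.Agent.helper22.CRO.EX3
import Pool.Agent.helper36.CRO.EX4

/-!
# MP_5bf3c3_gt: assembly of Theorem 2
-/

open scoped Manifold ContDiff Topology ENNReal
open MeasureTheory Set Bundle Filter

noncomputable section

namespace Pool.Agent.CRO

universe u

theorem M4_INQ : INQ_stmt := INQ M1_GFL M1_SPD M1_VOL VVP VVC M3_LEV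

theorem M4_EX2 : EX2_stmt := EX2 VVC VVP M4_INQ RIC

theorem M4_EX3 : EX3_stmt.{u} := EX3 M4_EX2 M2_NCH M2_EXM M2_VOA

theorem M4_EX4 : EX4_stmt := EX4 M4_EX3

end Pool.Agent.CRO
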