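import Pool.Agent.helper58.CRO.Main4
import Pool.Agent.helper31.CRO.HMA
import Pool.Agent.helper49.CRO.HMQ
import Pool.Agent.helper76.CRO.HSC
import Pool.Agent.helper75.CRO.HKQ
import Pool.Agent.helper99.CRO.HKE
import Pool.Agent.helper89.CRO.HKL
import Pool.Agent.helper2.CRO.HKJ
import Pool.Agent.helper99.CRO.HK0
import Pool.Agent.helper99.CRO.HK1
import Pool.Agent.helper76.CRO.HK2
import Pool.Agent.helper22.CRO.IWN
import Pool.Agent.helper77.CRO.INV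
import Pool.Agent.helper40.CRO.IME
import Pool.Agent.helper67.CRO.IMT
import Pool.Agent.helper73.CRO.IPR
import Pool.Agent.helper73.CRO.IPK
import Pool.Agent.helper73.CRO.IPI
import Pool.Agent.helper77.CRO.IFX
import Pool.Agent.helper46.CRO.ISL
import Pool.Agent.helper72.CRO.ISV
import Pool.Agent.helper39.CRO.ISE
import Pool.Agent.helper68.CRO.ICP
import Pool.Agent.helper22.CRO.IBT
import Pool.Agent.helper73.CRO.IGE
import Pool.Agent.helper67.CRO.JNU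
import Pool.Agent.helper67.CRO.JMF
import Pool.Agent.helper25.CRO.JCB
import Pool.Agent.helper49.CRO.JON
import Pool.Agent.helper17.CRO.JGG
import Pool.Agent.helper18.CRO.JF1
import Pool.Agent.helper31.CRO.JF2
import Pool.Agent.helper2.CRO.JSP
import Pool.Agent.helper8.CRO.JLI
import Pool.Agent.helper25.CRO.JB1
import Pool.Agent.helper31.CRO.JB2
import Pool.Agent.helper25.CRO.JYH
import Pool.Agent.helper45.CRO.JMX
import Pool.Agent.helper35.CRO.JVL
import Pool.Agent.helper68.CRO.JML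
import Pool.Agent.helper46.CRO.JOM
import Pool.Agent.helper90.CRO.JCH
import Pool.Agent.helper35.CRO.JP2
import Pool.Agent.helper17.CRO.JLN
import Pool.Agent.helper25.CRO.JL3
import Pool.Agent.helper35.CRO.GDB
import Pool.Agent.helper90.CRO.GDP
import Pool.Agent.helper40.CRO.GDE
import Pool.Agent.helper10.CRO.GDL
import Pool.Agent.helper40.CRO.GTR
import Pool.Agent.helper82.CRO.GHL
import Pool.Agent.helper45.CRO.GFN
import Pool.Agent.helper68.CRO.GF2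
import Pool.Agent.helper45.CRO.GF3
import Pool.Agent.helper48.CRO.GVD
import Pool.Agent.helper9.CRO.GDJ
import Pool.Agent.helper77.CRO.GDD
import Pool.Agent.helper41.CRO.GC2
import Pool.Agent.helper46.CRO.GC3
import Pool.Agent.helper39.CRO.GLI

/-!
# MP_5bf3c3_gt: assembly of Theorem 4
-/

open scoped Manifold ContDiff Topology ENNReal
open MeasureTheory Set Bundle Filter

noncomputable section

namespace Pool.Agent.CRO

universe u

theorem M5_HMQ : HMQ_stmt := HMQ HMA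

theorem M5_HSC : HSC_stmt := HSC HVA NRG

theorem M5_HKQ : HKQ_stmt := HKQ RED HES M1_NDG HVA NRG M5_HSC M5_HMQ

theorem M5_HKL : HKL_stmt := HKL HKE

theorem M5_HK0 : HK0_stmt := HK0 M5_HKL HKJ

theorem M5_HK1 : HK1_stmt := HK1 M5_HK0

theorem M5_HK2 : HK2_stmt := HK2 M5_HK1

theorem M5_IWN : IWN_stmt := IWN HVA NRG

theorem M5_INV : INV_stmt := INV M5_IWN

theorem M5_IME : IME_stmt := IME M5_IWN

theorem M5_IMT : IMT_stmt := IMT M5_INV M5_IME

theorem M5_IPR : IPR_stmt := IPR M5_IWN M5_IME NRG HVA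

theorem M5_IPK : IPK_stmt := IPK M5_IWN M5_INV M5_HKQ M5_HK2

theorem M5_IPI : IPI_stmt := IPI M5_IPR M5_IPK M5_IMT M5_INV M5_IME M5_IWN

theorem M5_IFX : IFX_stmt := IFX M5_IWN M5_INV M5_IME M5_IMT M1_DNM

theorem M5_ISV : ISV_stmt := ISV ISL

theorem M5_ISE : ISE_stmt := ISE M5_ISV

theorem M5_ICP : ICP_stmt := ICP M5_ISE

theorem M5_IBT : IBT_stmt := IBT M5_IFX M5_ICP M5_IME

theorem M5_IGE : IGE_stmt := IGE M1_GFL M5_IPI M5_IBT M5_ICP M5_INV M5_IME M5_IWN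

theorem M5_JNU : JNU_stmt := JNU M5_ISV RAT

theorem M5_JON : JON_stmt := JON JMF JCB M5_JNU

theorem M5_JGG : JGG_stmt := JGG M5_IGE M5_JON M5_JNU VVP JVL

theorem M5_JSP : JSP_stmt := JSP M5_JGG JF1 JF2 M5_JNU JVL

theorem M5_JLI : JLI_stmt := JLI M5_JSP M5_JNU JVL

theorem M5_JB2 : JB2_stmt := JB2 JB1

theorem M5_JMX : JMX_stmt := JMX M5_JLI JB1 M5_JB2 M5_JNU JYH JVL

theorem M5_JML : JML_stmt := JML M5_JMX JVL M5_JNU JYH

theorem M5_JOM : JOM_stmt := JOM M5_JML JVL JYH M5_JNU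

theorem M5_JCH : JCH_stmt := JCH M5_JOM M5_JNU

theorem M5_JLN : JLN_stmt := JLN JYH JP2 M5_JNU

theorem M5_JL3 : JL3_stmt := JL3 JYH

theorem M5_GDB : GDB_stmt.{u} := GDB M2_GAU CBL

theorem M5_GDP : GDP_stmt.{u} := GDP M5_GDB

theorem M5_GDE : GDE_stmt.{u} := GDE M5_GDP

theorem M5_GDL : GDL_stmt.{u} := GDL COE M2_GOP TRN CMP M2_ORB M5_GDE

theorem M5_GHL : GHL_stmt.{u} := GHL M5_GDL GTR M2_BAL

theorem M5_GFN : GFN_stmt.{u} := GFN M5_JCH M5_JNU M5_JLN M2_NCH M2_EXM M5_GHL M2_VOA VVP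

theorem M5_GF2 : GF2_stmt.{u} := GF2 M5_GFN M5_JLN M5_JNU RAT

theorem M5_GF3 : GF3_stmt.{u} := GF3 M5_GFN M5_JL3 M5_JLN M5_JNU RAT

theorem M5_GDJ : GDJ_stmt.{u} := GDJ M2_ORB M2_GAU M2_GOP M2_NCH M5_GDL GTR M2_BAL

theorem M5_GDD : GDD_stmt.{u} := GDD M5_GDJ GVD

theorem M5_GC2 : GC2_stmt := GC2 M5_GF2 M5_GDD RAT

theorem M5_GC3 : GC3_stmt := GC3 M5_GF3 M5_GDD RAT

theorem M5_GLI : GLI_stmt := GLI M5_GC2 M2_UPB RAT

end Pool.Agent.CRO
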