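import Pool.Agent.helper58.CRO.Main5
import Pool.Agent.helper90.CRO.KF1
import Pool.Agent.helper90.CRO.KF2
import Pool.Agent.helper90.CRO.KL1
import Pool.Agent.helper53.CRO.KL2
import Pool.Agent.helper58.CRO.KL3
import Pool.Agent.helper58.CRO.KT1
import Pool.Agent.helper58.CRO.KT2
import Pool.Agent.helper32.CRO.KLX
import Pool.Agent.helper53.CRO.KFF
import Pool.Agent.helper17.CRO.KSH
import Pool.Agent.helper53.CRO.KJD
import Pool.Agent.helper53.CRO.KRV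
import Pool.Agent.helper58.CRO.KEX
import Pool.Agent.helper58.CRO.KIN
import Pool.Agent.helper53.CRO.KDE
import Pool.Agent.helper99.CRO.KC1
import Pool.Agent.helper29.CRO.KC2
import Pool.Agent.helper58.CRO.KFX
import Pool.Agent.helper53.CRO.KMB
import Pool.Agent.helper13.CRO.KLV
import Pool.Agent.helper52.CRO.KFI
import Pool.Agent.helper53.CRO.KGN
import Pool.Agent.helper58.CRO.KG1
import Pool.Agent.helper97.CRO.KCS

/-!
# MP_5bf3c3_gt: assembly of Theorem 5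
-/

open scoped Manifold ContDiff Topology ENNReal
open MeasureTheory Set Bundle Filter

noncomputable section

namespace Pool.Agent.CRO

universe u

theorem M6_KF2 : KF2_stmt := KF2 KF1

theorem M6_KL2 : KL2_stmt := KL2 KL1

theorem M6_KL3 : KL3_stmt := KL3 M6_KL2 KF1

theorem M6_KT2 : KT2_stmt := KT2 KT1

theorem M6_KLX : KLX_stmt := KLX M6_KL3 KT1 M6_KT2

theorem M6_KFF : KFF_stmt := KFF KT1 M6_KT2

theorem M6_KSH : KSH_stmt := KSH M6_KLX KF1

theorem M6_KRV : KRV_stmt := KRV HVA NRG M5_IWN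

theorem M6_KEX : KEX_stmt := KEX M5_IWN NRG HVA M6_KRV

theorem M6_KIN : KIN_stmt := KIN M6_KEX M5_INV

theorem M6_KDE : KDE_stmt := KDE KJD HVA DT1 NRG

theorem M6_KC1 : KC1_stmt := KC1 M6_KIN M6_KDE M5_IWN M5_INV M5_IME

theorem M6_KC2 : KC2_stmt := KC2 M6_KC1 M5_IMT M5_INV M5_IME M5_IWN

theorem M6_KFX : KFX_stmt := KFX M5_IWN M5_INV M5_IME M5_IMT M1_DNM

theorem M6_KMB : KMB_stmt := KMB M6_KC2 M6_KFX M6_KFF M5_IWN M5_INV M5_IME M5_ICP VVP

theorem M6_KLV : KLV_stmt := KLV M1_GFL M6_KC2 M6_KFX M6_KSH M6_KFF M6_KMB KF1 VVP JVL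

theorem M6_KFI : KFI_stmt := KFI M6_KLV KF1 M6_KF2 JVL

theorem M6_KGN : KGN_stmt.{u} := KGN M6_KFI M2_NCH M2_EXM M5_GHL M2_VOA

theorem M6_KG1 : KG1_stmt.{u} := KG1 M6_KGN M5_GDD

theorem M6_KCS : KCS_stmt := KCS M6_KG1 M2_UPB

end Pool.Agent.CRO
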