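import Pool.Agent.helper58.CRO.Main1
import Pool.Agent.helper58.CRO.Main2
import Pool.Agent.helper22.CRO.IWN
import Pool.Agent.helper77.CRO.INV
import Pool.Agent.helper40.CRO.IME
import Pool.Agent.helper67.CRO.IMT
import Pool.Agent.helper77.CRO.IFX
import Pool.Agent.helper46.CRO.ISL
import Pool.Agent.helper72.CRO.ISV
import Pool.Agent.helper39.CRO.ISE
import Pool.Agent.helper68.CRO.ICP
import Pool.Agent.helper22.CRO.IBT
import Pool.Agent.helper67.CRO.JNU
import Pool.Agent.helper67.CRO.JMF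
import Pool.Agent.helper25.CRO.JCB
import Pool.Agent.helper49.CRO.JON
import Pool.Agent.helper31.CRO.JF2
import Pool.Agent.helper35.CRO.JVL
import Pool.Agent.helper35.CRO.GDB
import Pool.Agent.helper90.CRO.GDP
import Pool.Agent.helper40.CRO.GDE
import Pool.Agent.helper10.CRO.GDL
import Pool.Agent.helper40.CRO.GTR
import Pool.Agent.helper82.CRO.GHL
import Pool.Agent.helper48.CRO.GVD
import Pool.Agent.helper9.CRO.GDJ
import Pool.Agent.helper77.CRO.GDD
import Pool.Agent.helper92.CRO.RAT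
import Pool.Agent.helper58.CRO.LGE
import Pool.Agent.helper17.CRO.LVI
import Pool.Agent.helper58.CRO.LTF
import Pool.Agent.helper58.CRO.LIS
import Pool.Agent.helper58.CRO.LVS
import Pool.Agent.helper92.CRO.LQI
import Pool.Agent.helper8.CRO.LSH
import Pool.Agent.helper32.CRO.LSM
import Pool.Agent.helper99.CRO.LFI
import Pool.Agent.helper82.CRO.LGN
import Pool.Agent.helper58.CRO.LG1
import Pool.Agent.helper58.CRO.LCS
import Pool.Agent.helper58.CRO.LRV

/-!
# MP_5bf3c3_gt: assembly of Theorem 6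
-/

open scoped Manifold ContDiff Topology ENNReal
open MeasureTheory Set Bundle Filter

noncomputable section

namespace Pool.Agent.CRO

universe u

theorem M7_IWN : IWN_stmt := IWN HVA NRG

theorem M7_INV : INV_stmt := INV M7_IWN

theorem M7_IME : IME_stmt := IME M7_IWN

theorem M7_IMT : IMT_stmt := IMT M7_INV M7_IME

theorem M7_IFX : IFX_stmt := IFX M7_IWN M7_INV M7_IME M7_IMT M1_DNM

theorem M7_ISV : ISV_stmt := ISV ISL

theorem M7_ICP : ICP_stmt := ICP (ISE M7_ISV)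

theorem M7_IBT : IBT_stmt := IBT M7_IFX M7_ICP M7_IME

theorem M7_JNU : JNU_stmt := JNU M7_ISV RAT

theorem M7_JON : JON_stmt := JON JMF JCB M7_JNU

theorem M7_LGE : LGE_stmt := LGE M1_GFL M7_IBT M7_ICP M7_IME M7_IWN

theorem M7_LVI : LVI_stmt := LVI M7_LGE M7_JON M7_JNU JVL

theorem M7_LTF : LTF_stmt := LTF JF2

theorem M7_LVS : LVS_stmt := LVS M7_LVI M7_LTF LIS M7_JNU JVL

theorem M7_LSM : LSM_stmt := LSM LQI LSH

theorem M7_LFI : LFI_stmt := LFI M7_LVS M7_LSM JVL M7_JNU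

theorem M7_GDB : GDB_stmt.{u} := GDB M2_GAU CBL

theorem M7_GDP : GDP_stmt.{u} := GDP M7_GDB

theorem M7_GDE : GDE_stmt.{u} := GDE M7_GDP

theorem M7_GDL : GDL_stmt.{u} := GDL COE M2_GOP TRN CMP M2_ORB M7_GDE

theorem M7_GHL : GHL_stmt.{u} := GHL M7_GDL GTR M2_BAL

theorem M7_GDJ : GDJ_stmt.{u} := GDJ M2_ORB M2_GAU M2_GOP M2_NCH M7_GDL GTR M2_BAL

theorem M7_GDD : GDD_stmt.{u} := GDD M7_GDJ GVD

theorem M7_LGN : LGN_stmt.{u} := LGN M7_LFI M7_JNU M2_NCH M2_EXM M7_GHL M2_VOA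

theorem M7_LG1 : LG1_stmt.{u} := LG1 M7_LGN M7_GDD

theorem M7_LCS : LCS_stmt := LCS M7_LG1 M2_UPB

theorem M7_LRV : ∀ n : ℕ, 2 ≤ n → ∀ g : RMetric n (Sn n), IsRound g →
    ENNReal.ofReal Real.pi ≤ injRad g ∧ gvol g univ = ENNReal.ofReal (sphereVol n) ∧
      ∀ m : Sn n, gvol g (gball g m Real.pi) = ENNReal.ofReal (sphereVol n) :=
  LRV M2_SPI M2_SPV M7_LG1

end Pool.Agent.CRO
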