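import Pool.Agent.helper58.CRO.SpecA

/-!
# MP_5bf3c3_gt, block B: the geodesic flow in one normal chart, counting, typical geodesics

Paper proof: Pool/Agent/helper58/CRO/PROOF.md (sections 0, 2, 3, 4).
Every `XX_stmt` is one row `cro:XX`; its complete proof is in its docstring.
-/

open scoped Manifold ContDiff Topology ENNReal
open MeasureTheory Set

noncomputable section

namespace Pool.Agent.CRO

/-- A Riemannian metric in normal coordinates on the ball of radius `r0`, given by its cometric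
(inverse matrix) `G`. `gauss` is the Gauss lemma. -/
structure NChart (n : ℕ) (r0 : ℝ) where
  G : En n → (En n →L[ℝ] En n)
  smooth : ContDiffOn ℝ ∞ G (Metric.ball 0 r0)
  pos : ∀ x, ‖x‖ < r0 → PosDefOp (G x)
  gauss : ∀ x, ‖x‖ < r0 → G x x = x
  zero : G 0 = ContinuousLinearMap.id ℝ (En n)

variable {n : ℕ} {r0 : ℝ}

/-- The squared norm of the covector `z.2` at the point `z.1`. -/
def nrm2 (𝒢 : NChart n r0) (z : PS n) : ℝ := inner ℝ (𝒢.G z.1 z.2) z.2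

/-- The Hamiltonian of the geodesic flow. -/
def ham (𝒢 : NChart n r0) (z : PS n) : ℝ := nrm2 𝒢 z / 2

/-- The Riemannian volume of the ball of radius `ρ`. -/
def VV (𝒢 : NChart n r0) (ρ : ℝ) : ℝ :=
  ∫ x in Metric.ball (0 : En n) ρ, (Real.sqrt (𝒢.G x).det)⁻¹

/-- The unit ball bundle over the ball of radius `ρ`. -/
def ZZ (𝒢 : NChart n r0) (ρ : ℝ) : Set (PS n) := {z | ‖z.1‖ < ρ ∧ nrm2 𝒢 z < 1}

/-- The volume of the Euclidean unit ball. -/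
def kap (n : ℕ) : ℝ := (volume (Metric.ball (0 : En n) 1)).toReal

/-- `Φ` is a complete Hamiltonian flow which is the geodesic flow of `𝒢` over the ball of radius
`r1` (for covectors of squared norm `< 2`). -/
structure IsGFlow (𝒢 : NChart n r0) (r1 : ℝ) (H : PS n → ℝ) (Φ : ℝ → PS n → PS n) : Prop
    extends IsHFlow H Φ where
  r1pos : 0 < r1
  r1lt : r1 < r0
  smoothH : ContDiff ℝ ∞ H
  cptH : HasCompactSupport H
  eqH : ∀ z : PS n, ‖z.1‖ < r1 → nrm2 𝒢 z < 2 → H z = ham 𝒢 z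

/-- The exponential maps of `𝒢` are injective local diffeomorphisms up to length `L`: for every `x`
there are an open set `D` and a map `Ex`, injective on `D` with invertible derivative at every
point of `D`, such that every solution `c` of Hamilton's equations starting at `(x, p)`, `|p| < 1`,
which stays in the chart on `[0,T]`, `T < L`, satisfies `T p ∈ D` and `(c T).1 = Ex (T p)`. -/
def HasExp (𝒢 : NChart n r0) (L : ℝ) : Prop :=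
  ∀ x : En n, ‖x‖ < r0 → ∃ (Ex : En n → En n) (D : Set (En n)), IsOpen D ∧ InjOn Ex D ∧
    (∀ q ∈ D, ∃ A : En n ≃L[ℝ] En n, HasFDerivAt Ex (A : En n →L[ℝ] En n) q) ∧
    ∀ (c : ℝ → PS n) (T : ℝ), 0 ≤ T → T < L → (c 0).1 = x → nrm2 𝒢 (c 0) < 1 →
      (∀ t ∈ Icc 0 T, ‖(c t).1‖ < r0 ∧ HasDerivAt c (hvf (ham 𝒢) (c t)) t) →
      T • (c 0).2 ∈ D ∧ (c T).1 = Ex (T • (c 0).2)

/-- CUT (short-medium). A smooth compactly supported `H` equal to `ham` on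
`{‖x‖ < r1, nrm2 < 2}`. Proof: `K = {‖x‖ ≤ r1, nrm2 ≤ 2}` is compact (on `‖x‖ ≤ r1` the positive
definite continuous `G x` is bounded below by some `c0 > 0`, so `‖p‖² ≤ 2/c0`; `nrm2` is continuous
on the open set `Ω = ball 0 r0 × E`) and contained in `Ω`. Take a smooth `f` with compact support in `Ω`
and `f = 1` on `K` (`exists_contDiff_tsupport_subset`/`exists_smooth...`, Urysohn) and `H = f * ham`
(extended by zero, smooth since `ham` is smooth on `Ω`). -/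
def CUT_stmt : Prop :=
  ∀ (n : ℕ) (r0 r1 : ℝ) (𝒢 : NChart n r0), 0 < r1 → r1 < r0 →
    ∃ H : PS n → ℝ, ContDiff ℝ ∞ H ∧ HasCompactSupport H ∧
      ∀ z : PS n, ‖z.1‖ < r1 → nrm2 𝒢 z < 2 → H z = ham 𝒢 z

/-- GFL (short). From CUT and HFL: existence of the flow. -/
def GFL_stmt : Prop :=
  ∀ (n : ℕ) (r0 r1 : ℝ) (𝒢 : NChart n r0), 0 < r1 → r1 < r0 →
    ∃ (H : PS n → ℝ) (Φ : ℝ → PS n → PS n), IsGFlow 𝒢 r1 H Φ

/-- HVA (short-medium). Formulas on the region. The region `{‖x‖ < r1, nrm2 < 2}` is open and `H = ham`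
there, so the derivatives of `H` and `ham` agree at its points; `∂ham/∂p = G x p`
(`G x` symmetric), `∂²ham/∂p² = G x`. -/
def HVA_stmt : Prop :=
  ∀ (n : ℕ) (r0 r1 : ℝ) (𝒢 : NChart n r0) (H : PS n → ℝ) (Φ : ℝ → PS n → PS n),
    IsGFlow 𝒢 r1 H Φ → ∀ z : PS n, ‖z.1‖ < r1 → nrm2 𝒢 z < 2 →
      (hvf H z).1 = 𝒢.G z.1 z.2 ∧ hvf H z = hvf (ham 𝒢) z ∧ Hpp H z = 𝒢.G z.1

/-- NRG (short-medium). Energy. `H (Φ s z)` is constant (its derivative is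
`⟨∂xH, ∂pH⟩ - ⟨∂pH, ∂xH⟩ = 0`). `f(s) = nrm2 (Φ s z)` is continuous on the interval, and whenever
`f(s) < 2` we have `f(s) = 2 H(Φ s z) = 2 H(z) = f(0) < 1`. By the intermediate value theorem `f`
never reaches `3/2`, so `f < 2` and `f = f(0)` on the whole interval. -/
def NRG_stmt : Prop :=
  ∀ (n : ℕ) (r0 r1 : ℝ) (𝒢 : NChart n r0) (H : PS n → ℝ) (Φ : ℝ → PS n → PS n),
    IsGFlow 𝒢 r1 H Φ → ∀ (z : PS n) (u : ℝ), nrm2 𝒢 z < 1 →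
      (∀ s ∈ uIcc 0 u, ‖(Φ s z).1‖ < r1) → nrm2 𝒢 (Φ u z) = nrm2 𝒢 z

/-- DNM (short-medium). From HVA, NRG: derivative of the distance to the centre along an orbit.
`d‖x‖/ds = ⟨x, x'⟩/‖x‖ = ⟨x, G x p⟩/‖x‖ = ⟨G x x, p⟩/‖x‖ = ⟨x, p⟩/‖x‖` (Gauss), and
`|⟨x̂,p⟩| = |⟨G x̂, p⟩| ≤ sqrt(⟨G x̂, x̂⟩ ⟨G p, p⟩) = sqrt(nrm2) < 1` (Cauchy-Schwarz for the form `G`,
`x̂ = x/‖x‖`, `G x̂ = x̂`). -/
def DNM_stmt : Prop :=
  ∀ (n : ℕ) (r0 r1 : ℝ) (𝒢 : NChart n r0) (H : PS n → ℝ) (Φ : ℝ → PS n → PS n),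
    IsGFlow 𝒢 r1 H Φ → ∀ (z : PS n) (u : ℝ), nrm2 𝒢 z < 1 →
      (∀ s ∈ uIcc 0 u, ‖(Φ s z).1‖ < r1) → (Φ u z).1 ≠ 0 →
      HasDerivAt (fun s => ‖(Φ s z).1‖)
        (inner ℝ (Φ u z).1 (Φ u z).2 / ‖(Φ u z).1‖) u ∧
      |inner ℝ (Φ u z).1 (Φ u z).2 / ‖(Φ u z).1‖| < 1

/-- SPD (medium). From DNM, NRG: finite speed. If `‖z.1‖ < ρ`, `nrm2 z < 1` and `ρ + |u| ≤ r1` then
`‖(Φ u z).1‖ < ρ + |u|` and the energy is conserved. Proof (u ≥ 0; the case `u < 0` is the same):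
suppose `f(s) = ‖(Φ s z).1‖` reaches `ρ + s` at some `s ≤ u`, take the first such `s > 0`
(so `f < ρ + s ≤ r1` before, and `f(s) = ρ + s`; if `s = u` and `ρ + u = r1` use the same argument on
`[0, s)` and a limit). Let `s1 ∈ [0,s)` be the last zero of `f` before `s` or `0` if there is none: on
`(s1, s)` the function `f` is differentiable with derivative `< 1` (DNM), hence
`f(s) ≤ f(s1) + (s - s1) < ρ + s`: contradiction (`f(s1) < ρ` or `f(s1) = 0`). -/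
def SPD_stmt : Prop :=
  ∀ (n : ℕ) (r0 r1 : ℝ) (𝒢 : NChart n r0) (H : PS n → ℝ) (Φ : ℝ → PS n → PS n),
    IsGFlow 𝒢 r1 H Φ → ∀ (z : PS n) (ρ u : ℝ), z ∈ ZZ 𝒢 ρ → ρ + |u| ≤ r1 →
      ‖(Φ u z).1‖ < ρ + |u| ∧ nrm2 𝒢 (Φ u z) = nrm2 𝒢 z

/-- REV (medium). From SPD, HVA: reversibility. For `u ≥ 0` (the case `u < 0` follows by
applying it to the reversed point, or in the same way): with `ι(x,p) = (x,-p)`, the curves
`c₁(s) = Φ (-s) z` and `c₂(s) = ι (Φ s (ι z))` satisfy `c' = - hvf H (c)` on `[0,u]` with the same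
initial value `z`; for `c₂` one uses that on the region `H (ι z) = H z` (as `ham` is even in `p` and the
region is symmetric and open), so `hvf H (ι y) = (-(hvf H y).1, (hvf H y).2)`, and SPD for `ι z`.
`hvf H` is globally Lipschitz (smooth with compact support), so `c₁ = c₂`. -/
def REV_stmt : Prop :=
  ∀ (n : ℕ) (r0 r1 : ℝ) (𝒢 : NChart n r0) (H : PS n → ℝ) (Φ : ℝ → PS n → PS n),
    IsGFlow 𝒢 r1 H Φ → ∀ (z : PS n) (ρ u : ℝ), z ∈ ZZ 𝒢 ρ → ρ + |u| ≤ r1 →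
      Φ (-u) z = ((Φ u (z.1, -z.2)).1, -(Φ u (z.1, -z.2)).2)

/-- ELL (short-medium). Volume of an ellipsoid. `A = S²` with `S` positive definite symmetric
(or any `S` with `⟨A p, p⟩ = ‖S p‖²`), `det S = sqrt (det A)`; the set is the preimage of the ball of
radius `r` under `p ↦ S (p - q)`. -/
def ELL_stmt : Prop :=
  ∀ (n : ℕ) (A : En n →L[ℝ] En n) (q : En n) (r : ℝ), PosDefOp A → 0 ≤ r → 1 ≤ n →
    volume {p : En n | inner ℝ (A (p - q)) (p - q) < r ^ 2} =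
      ENNReal.ofReal (r ^ n * kap n / Real.sqrt A.det)

/-- VOL (short-medium). From ELL (`q = 0`, `r = 1`) and Tonelli for `volume` on `En n × En n`. -/
def VOL_stmt : Prop :=
  ∀ (n : ℕ) (r0 : ℝ) (𝒢 : NChart n r0) (ρ : ℝ), 1 ≤ n → ρ < r0 →
    MeasurableSet (ZZ 𝒢 ρ) ∧ volume (ZZ 𝒢 ρ) = ENNReal.ofReal (kap n * VV 𝒢 ρ)

/-- BAD (medium). From ELL: the cap estimate. For `x ≠ 0`, `x̂ = x/‖x‖` (so `G x̂ = x̂`), a covector `p`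
with `⟨G p, p⟩ < 1` and `⟨x̂, p⟩ ≥ c` satisfies `⟨G (p - c x̂), p - c x̂⟩ = ⟨G p,p⟩ - 2c⟨x̂,p⟩ + c² < 1 - c²`,
so the slice over `x` is contained in an ellipsoid of volume `(1-c²)^{n/2} kap / sqrt (det G x)`.
Tonelli; the single point `x = 0` is negligible. -/
def BAD_stmt : Prop :=
  ∀ (n : ℕ) (r0 : ℝ) (𝒢 : NChart n r0) (ρ c : ℝ), 1 ≤ n → ρ < r0 → 0 ≤ c → c ≤ 1 →
    MeasurableSet {z : PS n | z ∈ ZZ 𝒢 ρ ∧ c * ‖z.1‖ ≤ inner ℝ z.1 z.2} ∧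
    volume {z : PS n | z ∈ ZZ 𝒢 ρ ∧ c * ‖z.1‖ ≤ inner ℝ z.1 z.2} ≤
      ENNReal.ofReal (Real.sqrt (1 - c ^ 2) ^ n * (kap n * VV 𝒢 ρ))

/-- VVP (short-medium). Elementary properties of `VV`: `(det G)^{-1/2}` is continuous and positive on
`‖x‖ < r0`, bounded on closed balls of radius `ρ < r0`; it is `1` at `x = 0`, hence `≥ 1/2` near `0`,
and the volume of the ball of radius `ρ` is `kap ρ^n`. -/
def VVP_stmt : Prop :=
  ∀ (n : ℕ) (r0 : ℝ) (𝒢 : NChart n r0), 1 ≤ n → 0 < r0 →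
    (∀ ρ, 0 < ρ → ρ < r0 → 0 < VV 𝒢 ρ) ∧
    (∀ ρ ρ', ρ ≤ ρ' → ρ' < r0 → VV 𝒢 ρ ≤ VV 𝒢 ρ') ∧
    ∃ ρ1, 0 < ρ1 ∧ ρ1 < r0 ∧ ∀ ρ, 0 < ρ → ρ ≤ ρ1 → kap n / 2 * ρ ^ n ≤ VV 𝒢 ρ

/-- INJ (short-medium). From HVA, NRG: two orbits from the same point with the same end point are
equal. By NRG both orbits have `nrm2 < 1` on `[0,t]`, so they satisfy Hamilton's equations for `ham`
(HVA) inside the chart; `HasExp` at `x = z.1` gives `t p, t p' ∈ D` with the same image. -/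
def INJ_stmt : Prop :=
  ∀ (n : ℕ) (r0 r1 L : ℝ) (𝒢 : NChart n r0) (H : PS n → ℝ) (Φ : ℝ → PS n → PS n),
    IsGFlow 𝒢 r1 H Φ → HasExp 𝒢 L → ∀ (z z' : PS n) (t : ℝ), 0 < t → t < L →
      nrm2 𝒢 z < 1 → nrm2 𝒢 z' < 1 → z.1 = z'.1 →
      (∀ s ∈ Icc 0 t, ‖(Φ s z).1‖ < r1) → (∀ s ∈ Icc 0 t, ‖(Φ s z').1‖ < r1) →
      (Φ t z).1 = (Φ t z').1 → z = z'

/-- NDG (medium). From HVA, NRG: no conjugate points. For `p'` near `p = z.2` the orbit of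
`(z.1, p')` stays in the ball of radius `r1` on `[0,t]` (joint continuity of the flow, `[0,t]` compact)
and `nrm2 < 1`, so `(Φ t (z.1,p')).1 = Ex (t p')` by `HasExp`; differentiate at `p`:
`BB Φ t z = t • D Ex (t p)` is invertible. -/
def NDG_stmt : Prop :=
  ∀ (n : ℕ) (r0 r1 L : ℝ) (𝒢 : NChart n r0) (H : PS n → ℝ) (Φ : ℝ → PS n → PS n),
    IsGFlow 𝒢 r1 H Φ → HasExp 𝒢 L → ∀ (z : PS n) (t : ℝ), 0 < t → t < L →
      nrm2 𝒢 z < 1 → (∀ s ∈ Icc 0 t, ‖(Φ s z).1‖ < r1) → (BB Φ t z).det ≠ 0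

/-- BKD (short). Determinant of a block triangular map: `(ξ, η) ↦ (ξ, (K (ξ, η)).1)`. -/
def BKD_stmt : Prop :=
  ∀ (n : ℕ) (K : PS n →L[ℝ] PS n),
    ((ContinuousLinearMap.fst ℝ (En n) (En n)).prod
        ((ContinuousLinearMap.fst ℝ (En n) (En n)).comp K)).det =
      ((ContinuousLinearMap.fst ℝ (En n) (En n)).comp
        (K.comp (ContinuousLinearMap.inr ℝ (En n) (En n)))).det

/-- PAI (medium-long). From INJ, NRG, DT1, BKD: counting pairs, (2.1). The map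
`Ψ(z) = ((Φ s z).1, (Φ t z).1)` is injective on `A`: if `Ψ z = Ψ z'` then `y = Φ s z`, `y' = Φ s z'` have
the same base point, `nrm2 < 1` (NRG), their orbits stay in the ball of radius `r1` on `[0,t-s]`
(`Φ r y = Φ (r+s) z`), and `(Φ (t-s) y).1 = (Φ (t-s) y').1`; INJ gives `y = y'`, so `z = z'`. Its
derivative is `(fst, fst ∘ D Φ_{t-s}(y)) ∘ D Φ_s(z)`, of absolute determinant
`|det BB Φ (t-s) (Φ s z)|` (BKD, DT1 with `symp_eq`). Change of variables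
(`lintegral_image_eq_lintegral_abs_det_fderiv_mul`) for the function
`f(x,y) = 1/(sqrt(det G x) sqrt(det G y))` and `Ψ(A) ⊆ ball ρ1 × ball ρ2`, Tonelli.
(`sqrt (a b) = sqrt a sqrt b`.) -/
def PAI_stmt : Prop :=
  ∀ (n : ℕ) (r0 r1 L : ℝ) (𝒢 : NChart n r0) (H : PS n → ℝ) (Φ : ℝ → PS n → PS n),
    1 ≤ n → IsGFlow 𝒢 r1 H Φ → HasExp 𝒢 L → ∀ (A : Set (PS n)) (a s t ρ1 ρ2 : ℝ),
      MeasurableSet A → -a ≤ s → s < t → t ≤ a → t - s < L →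
      (∀ z ∈ A, nrm2 𝒢 z < 1 ∧ ∀ u ∈ Icc (-a) a, ‖(Φ u z).1‖ < r1) →
      (∀ z ∈ A, ‖(Φ s z).1‖ < ρ1 ∧ ‖(Φ t z).1‖ < ρ2) → ρ1 < r0 → ρ2 < r0 →
      ∫⁻ z in A, ENNReal.ofReal (|(BB Φ (t - s) (Φ s z)).det| /
        Real.sqrt ((𝒢.G (Φ s z).1).det * (𝒢.G (Φ t z).1).det)) ≤
        ENNReal.ofReal (VV 𝒢 ρ1 * VV 𝒢 ρ2)

/-- LEV (medium-long). From KZP, KZW, SIG, NDG, PAI, NRG, HVA: the level inequality. For `z ∈ A`: by NRG
`nrm2 (Φ u z) < 1` for `u ∈ [-a-k,a]`, so `Hpp H (Φ u z) = G (Φ u z).1` is positive definite (HVA) and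
`BB Φ (u+a+k) (Φ (-a-k) z)` is invertible for `u ∈ [-a,a]` (NDG for `Φ (-a-k) z`, time
`u+a+k ≤ 2a+k < L`). KZP gives `ψ`, and KZW with `σ` of SIG (the half masses agree by evenness):
`(T/2) (T/π)^n ≤ ∫_{-a}^0 w(u) E_z(u, σ u) (sqrt (w u) sqrt (w (σ u)))^n du`,
`E_z(s,t) = |det BB Φ (t-s) (Φ s z)| / sqrt (det G det G)` (use `(E^{1/n})^n = E` and monotonicity).
Integrate over `A` (Tonelli, everything is nonnegative; `(u,z) ↦ E_z(u, σ u)` is continuous on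
the relevant set, hence measurable) and use PAI for every `u` with `ρ1 = rb u`, `ρ2 = rb (σ u)`:
`(T/2)(T/π)^n vol A ≤ ∫_{-a}^0 w(u) VV(rb u) VV(rb (σ u)) (sqrt w sqrt w)^n ≤ (T/2) K²`. -/
def LEV_stmt : Prop :=
  ∀ (n : ℕ) (r0 r1 L : ℝ) (𝒢 : NChart n r0) (H : PS n → ℝ) (Φ : ℝ → PS n → PS n),
    1 ≤ n → IsGFlow 𝒢 r1 H Φ → HasExp 𝒢 L →
    ∀ (A : Set (PS n)) (a k K : ℝ) (w rb : ℝ → ℝ), MeasurableSet A → 0 < a → 0 < k →
      2 * a + k < L →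
      (∀ z ∈ A, nrm2 𝒢 z < 1 ∧ ∀ u ∈ Icc (-a - k) a, ‖(Φ u z).1‖ < r1) →
      (∀ u ∈ Icc (-a) a, rb u < r0 ∧ ∀ z ∈ A, ‖(Φ u z).1‖ < rb u) →
      Continuous w → (∀ u, 0 < w u) → (∀ u, w (-u) = w u) →
      (∀ u ∈ Icc (-a) a, Real.sqrt (w u) ^ n * VV 𝒢 (rb u) ≤ K) →
      ENNReal.ofReal (((∫ r in (-a)..a, w r) / Real.pi) ^ n) * volume A ≤ ENNReal.ofReal (K ^ 2)

/-- APB (medium). From GFL, SPD, VOL, VVP, LEV: the a priori bound (2.2). Step 1: for `0 < ρ < r0`,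
`ρ < L`: `kap VV(ρ/2) (ρ/π)^n ≤ VV(ρ)²`. Choose `k > 0` with `ρ + k < min r0 L`, the flow with
`r1 = ρ + k`, `A = ZZ (ρ/2)`, `a = ρ/2`, `w = 1`, `rb = ρ`, `K = VV ρ` in LEV (SPD:
`‖(Φ u z).1‖ < ρ/2 + |u|`). Step 2: `q(ρ) = VV(ρ)/ρ^n`, `K' = kap/(2π)^n`: `K' q(ρ/2) ≤ q(ρ)²`. If
`q(ρ) < K'` then `q(ρ/2) ≤ q(ρ)²/K' ≤ q(ρ)`, and inductively `q(ρ/2^i) ≤ q(ρ) < K'`; but
`q(ρ/2^i) ≥ kap/2` for large `i` (VVP) and `K' < kap/2` as `(2π)^n > 2`. -/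
def APB_stmt : Prop :=
  ∀ (n : ℕ) (r0 L : ℝ) (𝒢 : NChart n r0), 1 ≤ n → HasExp 𝒢 L →
    ∀ ρ, 0 < ρ → ρ < r0 → ρ < L → kap n * (ρ / (2 * Real.pi)) ^ n ≤ VV 𝒢 ρ

/-- AVG (short-medium). Time averages and Markov's inequality. `A' = {z ∈ A : time(z) ≤ b}`,
`time(z) = volume {u ∈ [0,U] : Φ u z ∈ β}` (measurable in `z`, Tonelli); `b vol {z ∈ A : time(z) > b} ≤
∫_A time = ∫_0^U vol (A ∩ Φ_u^{-1} β) du ≤ U vol β`. -/
def AVG_stmt : Prop :=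
  ∀ (n : ℕ) (Φ : ℝ → PS n → PS n), (Continuous fun q : ℝ × PS n => Φ q.1 q.2) →
    (∀ t, MeasurePreserving (Φ t) (volume : Measure (PS n)) (volume : Measure (PS n))) →
    ∀ (A β : Set (PS n)) (U b : ℝ), MeasurableSet A → MeasurableSet β → 0 ≤ U → 0 < b →
      ∃ A' ⊆ A, MeasurableSet A' ∧
        ENNReal.ofReal b * volume (A \ A') ≤ ENNReal.ofReal U * volume β ∧
        ∀ z ∈ A', volume {u ∈ Icc 0 U | Φ u z ∈ β} ≤ ENNReal.ofReal b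

/-- HIT (medium). Climbing takes time. `D` starts below `kh`; whenever `D > 0` it is differentiable with
`|D'| ≤ 1`; outside the bad set `β` (of measure `≤ b`), `D' ≤ c_j` while `0 < D < jh`. Proof: let
`k < j ≤ N` and suppose `D u ≥ jh` with `u < θ_j - b/√d`. For `k < i ≤ j` let `u_i` be the first time
`≤ u` with `D = ih` and `v_i < u_i` the last time before `u_i` with `D = (i-1)h` (exists as
`D 0 < kh ≤ (i-1)h`). On `[v_i,u_i]` we have `(i-1)h ≤ D ≤ ih`, `D > 0` (`k ≥ 1`), so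
`h = ∫_{v_i}^{u_i} D' ≤ c_i (u_i - v_i) + b_i`, where `b_i = |β ∩ [v_i,u_i]|`
(`D' ≤ c_i` outside `β` for `D < ih`, true on `[v_i,u_i)`; on `β` use `D' ≤ 1`). So
`u_i - v_i ≥ (h - b_i)/c_i ≥ h/c_i - b_i/√d`. The intervals are disjoint (`u_{i} ≤ v_{i+1}`),
`Σ b_i ≤ b`, hence `u ≥ u_j ≥ Σ (u_i - v_i) ≥ θ_j - b/√d`. -/
def HIT_stmt : Prop :=
  ∀ (N k : ℕ) (h U b d : ℝ) (c : ℕ → ℝ) (D D' : ℝ → ℝ) (β : Set ℝ),
    0 < h → 1 ≤ k → 0 < d → 0 ≤ b → (∀ j, k < j → j ≤ N → Real.sqrt d ≤ c j ∧ c j ≤ 1) →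
    MeasurableSet β → volume β ≤ ENNReal.ofReal b → ContinuousOn D (Icc 0 U) → D 0 < k * h →
    (∀ u ∈ Ioo 0 U, 0 < D u → HasDerivAt D (D' u) u ∧ |D' u| ≤ 1) →
    (∀ u ∈ Ioo 0 U, u ∉ β → ∀ j, k < j → j ≤ N → 0 < D u → D u < j * h → D' u ≤ c j) →
    ∀ j, k < j → j ≤ N → ∀ u ∈ Icc 0 U,
      u < (∑ i ∈ Finset.Ioc k j, h / c i) - b / Real.sqrt d → D u < j * h

/-- TYP (medium). From BAD, VOL, AVG, HIT, SPD, DNM, REV: typical geodesics. Let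
`s = (1-d) lam k`, `c_j = sqrt(1 - (s/lam j)²) ≥ sqrt(1-(1-d)²) ≥ √d` for `j > k` (as `lam j ≥ lam k`).
`Bad_j = {z ∈ ZZ (jh) : c_j ‖z.1‖ ≤ ⟨z.1,z.2⟩}`, `k < j ≤ N`, has volume
`≤ (s/lam j)^n kap om (lam j)^n = (1-d)^n kap om (lam k)^n = (1-d)^n vol ZZ(kh)`. AVG with `A = ZZ(kh)`,
`β = ∪ Bad_j`: `A1` with `vol(A \ A1) ≤ U N (1-d)^n vol A / b ≤ vol A / 8`. Let `ι(x,p) = (x,-p)`
(preserves volume and `A`), `A' = A1 ∩ ι A1`, `vol(A \ A') ≤ vol A / 4`. For `z ∈ A1` and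
`0 ≤ u ≤ U` apply HIT to `D(u) = ‖(Φ u z).1‖` (SPD: the orbit stays in the ball of radius `r1`, as
`kh + U ≤ r1`), `D'(u) = ⟨x,p⟩/‖x‖` (DNM) and `β_z = {u ∈ [0,U] : Φ u z ∈ β}`: for `u ∉ β_z` with
`0 < ‖x‖ < jh` (and `nrm2 < 1`) we have `⟨x,p⟩ < c_j ‖x‖`. For negative times use REV:
`‖(Φ (-u) z).1‖ = ‖(Φ u (ι z)).1‖` and `ι z ∈ A1`. -/
def TYP_stmt : Prop :=
  ∀ (n : ℕ) (r0 r1 : ℝ) (𝒢 : NChart n r0) (H : PS n → ℝ) (Φ : ℝ → PS n → PS n),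
    1 ≤ n → IsGFlow 𝒢 r1 H Φ →
    ∀ (N k : ℕ) (h U b d om : ℝ) (lam : ℕ → ℝ), 1 ≤ k → k < N → 0 < h → (N : ℝ) * h < r0 →
      0 ≤ U → (k : ℝ) * h + U ≤ r1 → 0 < b → 0 < d → d < 1 → 0 < om →
      (∀ j, 1 ≤ j → j ≤ N → 0 < lam j ∧ VV 𝒢 (j * h) = om * lam j ^ n) →
      (∀ j, k ≤ j → j ≤ N → lam k ≤ lam j) →
      8 * N * U * (1 - d) ^ n ≤ b →
      ∃ A' ⊆ ZZ 𝒢 (k * h), MeasurableSet A' ∧
        volume (ZZ 𝒢 (k * h)) ≤ ENNReal.ofReal (4 / 3) * volume A' ∧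
        ∀ z ∈ A', ∀ j, k < j → j ≤ N → ∀ u : ℝ, |u| ≤ U →
          |u| < (∑ i ∈ Finset.Ioc k j, h / Real.sqrt (1 - ((1 - d) * lam k / lam i) ^ 2)) -
            b / Real.sqrt d → ‖(Φ u z).1‖ < j * h

end Pool.Agent.CRO
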