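import Pool.Agent.helper58.CRO.SpecB

/-!
# MP_5bf3c3_gt, block C: the finite lemma, the choice of the window, the core theorem

Paper proof: Pool/Agent/helper58/CRO/PROOF.md (sections 4, 5).
Every `XX_stmt` is one row `cro:XX`; its complete proof is in its docstring.
-/

open scoped Manifold ContDiff Topology ENNReal
open MeasureTheory Set

noncomputable section

namespace Pool.Agent.CRO

/-- `W_k = h Σ_{k < j ≤ N} sqrt(1 - (s_k/lam_j)²)`, `s_k = (1-d) lam_k`. -/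
def WW (N : ℕ) (h d : ℝ) (lam : ℕ → ℝ) (k : ℕ) : ℝ :=
  ∑ j ∈ Finset.Ioc k N, h * Real.sqrt (1 - ((1 - d) * lam k / lam j) ^ 2)

/-- `Φ_k = h Σ_{k < j ≤ N} s_k / (lam_j² sqrt(1 - (s_k/lam_j)²))`. -/
def PH (N : ℕ) (h d : ℝ) (lam : ℕ → ℝ) (k : ℕ) : ℝ :=
  ∑ j ∈ Finset.Ioc k N,
    h * ((1 - d) * lam k) / (lam j ^ 2 * Real.sqrt (1 - ((1 - d) * lam k / lam j) ^ 2))

/-- FI1 (short-medium). The difference inequality. The term `j = k+1` of `W_k` is the first term on the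
right. For `j > k+1` put `x = (1-d) lam k / lam j ≤ y = (1-d) lam (k+1) / lam j ≤ 1-d < 1`; by
concavity of `sqrt(1-x²)`: `sqrt(1-x²) ≤ sqrt(1-y²) + (y-x) y / sqrt(1-y²)` (square:
equivalent to `(1-xy)² ≥ (1-x²)(1-y²)`), and `h (y-x) y/sqrt(1-y²)` is `(1-d)(lam (k+1) - lam k)`
times the `j`-term of `Φ_{k+1}`. -/
def FI1_stmt : Prop :=
  ∀ (N k : ℕ) (h d : ℝ) (lam : ℕ → ℝ), 0 ≤ h → 0 < d → d < 1 → k < N → 0 ≤ lam k →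
    lam k ≤ lam (k + 1) → (∀ j, k + 1 ≤ j → j ≤ N → 0 < lam j ∧ lam (k + 1) ≤ lam j) →
    WW N h d lam k - WW N h d lam (k + 1) ≤
      h * Real.sqrt (1 - ((1 - d) * lam k / lam (k + 1)) ^ 2) +
        (1 - d) * (lam (k + 1) - lam k) * PH N h d lam (k + 1)

/-- FI2 (medium). The error terms. `k = 0`: the term is `R/N`. For `k ≥ 1`, `r = lam k/lam (k+1) ∈ (0,1]`:
`1 - (1-d)² r² = (1-r²) + (2d-d²) r² ≤ (1-r²) + 2d`, so the root is `≤ sqrt(1-r²) + sqrt(2d)`;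
Cauchy-Schwarz and `1 - r² ≤ -2 log r`: `Σ_{k=1}^{N-1} sqrt(1-r_k²) ≤ sqrt(N · 2 log(lam N/lam 1))
≤ sqrt(2 N log(8N))`. The sum is `≤ R (1/N + sqrt(2d) + sqrt(2 log(8N)/N)) ≤ (ε/4) R` for
`d = ε²/288` (`sqrt(2d) = ε/12`) and `N` large. -/
def FI2_stmt : Prop :=
  ∀ ε : ℝ, 0 < ε → ε < 1 → ∃ (d : ℝ) (N : ℕ), 0 < d ∧ d < 1 ∧ 2 ≤ N ∧
    ∀ (R : ℝ) (lam : ℕ → ℝ), 0 < R → lam 0 = 0 → (∀ j, j < N → lam j ≤ lam (j + 1)) →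
      R / (4 * Real.pi * N) ≤ lam 1 → lam N ≤ 2 * R / Real.pi →
      ∑ k ∈ Finset.range N, R / N * Real.sqrt (1 - ((1 - d) * lam k / lam (k + 1)) ^ 2) ≤
        ε / 4 * R

/-- FIN (medium). From FI1, FI2: the level exists. `d, N` of FI2. `Q_k = W_k + (π/2)(1+ε/2) s_k` with
`s_k = (1-d) lam k`, `h = R/N`. `Q_0 = W_0 = R` (`s_0 = 0`, `N` terms `h`), `W_N = 0`,
`Q_N ≤ (1+ε/2)(1-ε) R < R (1 - ε/2)`. Let `k3` be the largest `k ≤ N` with `Q_k ≥ R` (`k3 < N`).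
Suppose `Φ_k ≤ (π/2)(1+ε/2)` for all `k3 < k < N`; also `Φ_N = 0`. Then FI1 gives for `k3 ≤ k < N`:
`Q_{k+1} - Q_k ≥ -e_k`, `e_k` the first term in FI1. So `Q_N ≥ R - Σ e_k ≥ R - (ε/4) R`,
a contradiction. So there is `k` with `k3 < k < N`, `Φ_k > (π/2)(1+ε/2)`, and `Q_k < R`. -/
def FIN_stmt : Prop :=
  ∀ ε : ℝ, 0 < ε → ε < 1 → ∃ (d : ℝ) (N : ℕ), 0 < d ∧ d < 1 ∧ 2 ≤ N ∧
    ∀ (R : ℝ) (lam : ℕ → ℝ), 0 < R → lam 0 = 0 → (∀ j, j < N → lam j ≤ lam (j + 1)) →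
      R / (4 * Real.pi * N) ≤ lam 1 → lam N < (1 - ε) * (2 * R / Real.pi) →
      ∃ k, 1 ≤ k ∧ k < N ∧
        WW N (R / N) d lam k + Real.pi / 2 * (1 + ε / 2) * ((1 - d) * lam k) < R ∧
        Real.pi / 2 * (1 + ε / 2) < PH N (R / N) d lam k

/-- STF (short-medium). The step function with value `v j` on `[θ_{j-1}, θ_j)`,
`θ_j = Σ_{k < i ≤ j} t i` (extended by `v (k+1)` to the left of `0` and by `v N` to the right of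
`θ_N`). -/
def STF_stmt : Prop :=
  ∀ (N k : ℕ) (t v : ℕ → ℝ), k < N → (∀ j, k < j → j ≤ N → 0 < t j ∧ 0 < v j) →
    (∀ j, k < j → j < N → v (j + 1) ≤ v j) →
    ∃ g : ℝ → ℝ, Antitone g ∧ (∀ r, v N ≤ g r ∧ g r ≤ v (k + 1)) ∧
      (∀ r, 0 ≤ r → r < ∑ i ∈ Finset.Ioc k N, t i →
        ∃ j, k < j ∧ j ≤ N ∧ r < ∑ i ∈ Finset.Ioc k j, t i ∧ g r = v j) ∧
      ∫ r in (0 : ℝ)..(∑ i ∈ Finset.Ioc k N, t i), g r = ∑ i ∈ Finset.Ioc k N, t i * v i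

/-- SWP (medium). From STF: the window. `h = R/N`, `s = (1-d) lam k`, `x_j = s/lam j ≤ 1-d`,
`c_j = sqrt(1-x_j²) > 0`, `t_j = h/c_j ≥ h`, `v_j = s/lam j²`, `g` of STF, `θ_N = Σ t_j`, `η = εR/(100N)`.
`∫_0^{θ_N} g = Σ t_j v_j = Φ_k`, `0 ≤ s g ≤ 1` and `∫_0^{θ_N} (1 - s g) = Σ t_j c_j² = W_k`
(`1 - s v_j = c_j²`). Let `a0 = min(θ_N, R)`. Claim `∫_0^{a0} g ≥ (π/2)(1+ε/2)`: if `a0 = θ_N` this is
`Φ_k`; if `a0 = R ≤ θ_N` then `R - s ∫_0^R g = ∫_0^R (1 - s g) ≤ W_k`, so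
`s ∫_0^R g ≥ R - W_k > s (π/2)(1+ε/2)`. Put `a = a0 - 2η` (`a0 ≥ h > 2η`) and
`w(u) = η⁻¹ ∫_{|u|+η}^{|u|+2η} g`: continuous, positive, even. For `|u| ≤ a`: `|u| + η < θ_N`, let `j` be
given by STF for `r = |u|+η`; `g antitone` gives `w u ≤ g(|u|+η) = v_j ≤ lam k/lam j²`, and
`|u| + η < θ_j`. `∫_0^a w = η⁻¹ ∫_η^{2η} (∫_r^{a+r} g) dr ≥ ∫_{2η}^{a+η} g ≥ ∫_0^{a0} g - 3η sup g` and
`sup g ≤ v_{k+1} ≤ 1/lam k ≤ 4πN/R`, `3η · 4πN/R = 0.12 π ε ≤ (π/2)(ε/4)`. -/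
def SWP_stmt : Prop :=
  ∀ (ε d R : ℝ) (N k : ℕ) (lam : ℕ → ℝ), 0 < ε → ε < 1 → 0 < d → d < 1 → 0 < R → 1 ≤ k → k < N →
    R / (4 * Real.pi * N) ≤ lam k → (∀ j, k ≤ j → j < N → lam j ≤ lam (j + 1)) →
    WW N (R / N) d lam k + Real.pi / 2 * (1 + ε / 2) * ((1 - d) * lam k) < R →
    Real.pi / 2 * (1 + ε / 2) < PH N (R / N) d lam k →
    ∃ (a : ℝ) (w : ℝ → ℝ), 0 < a ∧ a + 2 * (ε * R / (100 * N)) ≤ R ∧ Continuous w ∧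
      (∀ u, 0 < w u) ∧ (∀ u, w (-u) = w u) ∧
      Real.pi / 2 * (1 + ε / 4) ≤ ∫ u in (0 : ℝ)..a, w u ∧
      ∀ u, |u| ≤ a → ∃ j, k < j ∧ j ≤ N ∧
        |u| < (∑ i ∈ Finset.Ioc k j, R / N / Real.sqrt (1 - ((1 - d) * lam k / lam i) ^ 2)) -
          ε * R / (100 * N) ∧
        w u ≤ lam k / lam j ^ 2

/-- RAT (short-medium). `kap n = π^{n/2}/Γ(n/2+1)` (`EuclideanSpace.volume_ball`), so
`sphereVol n / kap n = 2 √π Γ(n/2+1)/Γ((n+1)/2) ≤ 2 √π sqrt((n+1)/2) ≤ 4 (n+1)` by log-convexity of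
`Γ`: `Γ(x+1/2) ≤ sqrt(Γ(x) Γ(x+1)) = sqrt x Γ(x)`, `x = (n+1)/2`. -/
def RAT_stmt : Prop :=
  ∀ n : ℕ, 0 < kap n ∧ 0 < sphereVol n ∧ sphereVol n ≤ 4 * (n + 1) * kap n

/-- NUM (short). From RAT: `n` large. (Exponentials beat polynomials.) -/
def NUM_stmt : Prop :=
  ∀ (ε d : ℝ) (N : ℕ), 0 < ε → ε < 1 → 0 < d → d < 1 → ∃ n0 : ℕ, ∀ n ≥ n0, 1 ≤ n ∧
    800 * (N : ℝ) ^ 2 * (1 - d) ^ n ≤ ε * Real.sqrt d ∧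
    4 / 3 * sphereVol n < (1 + ε / 4) ^ n * kap n ∧ sphereVol n ≤ 2 ^ n * kap n

/-- CORE (medium-long, bookkeeping). From FIN, SWP, RAT, NUM, GFL, SPD, VOL, VVP, APB, TYP, LEV: the core
theorem. Proof. `ε` given; `d, N` of FIN; `n0` of NUM. Let `n ≥ n0`, `om = sphereVol n`, and suppose
`VV R < (1-ε)^n om (2R/π)^n`. `h = R/N`, `lam j = (VV (jh)/om)^{1/n}`: `lam 0 = 0`, `VV (jh) = om lam_j^n`,
nondecreasing for `j ≤ N` (VVP, `jh ≤ R < r0`), positive for `j ≥ 1`, `lam N < (1-ε) 2R/π`. APB with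
`ρ = h`: `lam 1 ≥ (kap/om)^{1/n} h/(2π) ≥ h/(4π) = R/(4πN)` (`om ≤ 2^n kap`). FIN gives `k`, SWP gives
`a, w`. `η = εR/(100N)`, `b = η √d`, `κ = η`, `r1 = 2R - h` (`0 < r1 < r0`), GFL gives `H, Φ`. TYP with
`U = a` (`kh + a ≤ (R-h) + (R-2η) ≤ r1`, `8 N a (1-d)^n ≤ 8NR(1-d)^n ≤ b` by NUM) gives `A'`. LEV with
`L = 2R`, `A = A'`, `k := κ` (`2a + κ < 2R`), `rb u = j(u) h` (`j(u)` from SWP for `|u| ≤ a`; `jh ≤ R < r0`;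
TYP with `b/√d = η` gives `‖(Φ u z).1‖ < j(u) h`), `K = om √(lam k)^n`:
`√(w u)^n VV(j h) ≤ (√(lam k)/lam j)^n om lam_j^n = K`; the orbits stay in the ball of radius `r1` for
`u ∈ [-a-κ,a]` by SPD (`z ∈ ZZ (kh)`, `kh + |u| ≤ (R-h) + R - 2η + η ≤ r1`). Result:
`(T/π)^n vol A' ≤ om² lam_k^n`, `T = 2 ∫_0^a w ≥ π(1+ε/4)`, and
`kap om lam_k^n = vol ZZ(kh) ≤ (4/3) vol A'`. So `(1+ε/4)^n kap ≤ (4/3) om`, contradicting NUM. -/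
def CORE_stmt : Prop :=
  ∀ ε : ℝ, 0 < ε → ε < 1 → ∃ n0 : ℕ, ∀ n ≥ n0, ∀ (r0 R : ℝ) (𝒢 : NChart n r0),
    0 < R → 2 * R ≤ r0 → HasExp 𝒢 (2 * R) →
    (1 - ε) ^ n * sphereVol n * (2 * R / Real.pi) ^ n ≤ VV 𝒢 R

end Pool.Agent.CRO
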