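import Pool.Agent.helper58.CRO.SpecC

/-!
# MP_5bf3c3_gt, block D: from the compact Riemannian manifold to one normal chart

`n`-manifolds `M` with a smooth Riemannian metric `g` (Mathlib's `ContMDiffRiemannianMetric`).
Every `XX_stmt` is one row `cro:XX`; its complete proof is in its docstring.
All statements are universe polymorphic in `M : Type u` (write `theorem XX : XX_stmt.{u}` with
`universe u`).
-/

open scoped Manifold ContDiff Topology ENNReal
open MeasureTheory Set Bundle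

noncomputable section

namespace Pool.Agent.CRO

universe u

/-- The matrix of `g` in the chart `e` at the point `y`. -/
def gmat {n : ℕ} {M : Type u} [TopologicalSpace M] [ChartedSpace (En n) M]
    [IsManifold (𝓡 n) ∞ M] (g : RMetric n M) (e : OpenPartialHomeomorph M (En n)) (y : En n) :
    Matrix (Fin n) (Fin n) ℝ :=
  Matrix.of fun i j : Fin n =>
    coef g e y (EuclideanSpace.single i 1) (EuclideanSpace.single j 1)

/-- The operator of `g` in the chart `e`: `⟪gop v, w⟫ = coef g e y v w`. -/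
def gop {n : ℕ} {M : Type u} [TopologicalSpace M] [ChartedSpace (En n) M]
    [IsManifold (𝓡 n) ∞ M] (g : RMetric n M) (e : OpenPartialHomeomorph M (En n)) (y : En n) :
    En n →L[ℝ] En n := Matrix.toEuclideanCLM (𝕜 := ℝ) (gmat g e y)

/-- `χ` is a normal chart of radius `r` centred at `x` (see `HasInjAt`). -/
def IsNormalAt {n : ℕ} {M : Type u} [TopologicalSpace M] [ChartedSpace (En n) M]
    [IsManifold (𝓡 n) ∞ M] (g : RMetric n M) (χ : OpenPartialHomeomorph M (En n)) (x : M)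
    (r : ℝ) : Prop :=
  χ ∈ IsManifold.maximalAtlas (𝓡 n) ∞ M ∧ χ.target = Metric.ball (0 : En n) r ∧
    x ∈ χ.source ∧ χ x = 0 ∧ (∀ v w : En n, coef g χ 0 v w = inner ℝ v w) ∧
    ∀ v : En n, IsGeodesicOn g (fun t => χ.symm (t • v)) {t : ℝ | |t| * ‖v‖ < r}

/-- The normal chart `𝒢` (a `NChart`) represents `g` in the chart `χ`. -/
def Repr {n : ℕ} {M : Type u} [TopologicalSpace M] [ChartedSpace (En n) M]
    [IsManifold (𝓡 n) ∞ M] (g : RMetric n M) (χ : OpenPartialHomeomorph M (En n)) {r : ℝ}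
    (𝒢 : NChart n r) : Prop :=
  ∀ y : En n, ‖y‖ < r → 𝒢.G y = Matrix.toEuclideanCLM (𝕜 := ℝ) (gmat g χ y)⁻¹

/-- COE (medium). The coefficients of `g` in a smooth chart are smooth. Proof: locally near
`y ∈ e.target` the map `e.symm` is smooth, the vector fields `y ↦ mfderiv e.symm y v` along it are
smooth maps into the tangent bundle (`ContMDiffOn.contMDiffOn_tangentMapWithin` or
`contMDiffOn_symm_of_mem_maximalAtlas` + tangent map), and `b ↦ g.inner b` is smooth
(`g.contMDiff`); combine with `ContMDiffAt.clm_bundle_apply₂` (as in Mathlib's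
`ContMDiffWithinAt.inner_bundle`, which can be used directly for the instance
`⟨g.toRiemannianMetric⟩`), and `contMDiffOn_iff_contDiffOn`. -/
def COE_stmt : Prop :=
  ∀ (n : ℕ) (M : Type u) [TopologicalSpace M] [ChartedSpace (En n) M] [IsManifold (𝓡 n) ∞ M]
    (g : RMetric n M), ∀ e ∈ IsManifold.maximalAtlas (𝓡 n) ∞ M, ∀ v w : En n,
      ContDiffOn ℝ ∞ (fun y => coef g e y v w) e.target

/-- CBL (short-medium). `coef g e y` is a symmetric positive definite bilinear form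
(for positivity: `mfderiv e.symm y` is injective at `y ∈ e.target`, since `e ∘ e.symm = id` near
`y` and both maps are smooth there). -/
def CBL_stmt : Prop :=
  ∀ (n : ℕ) (M : Type u) [TopologicalSpace M] [ChartedSpace (En n) M] [IsManifold (𝓡 n) ∞ M]
    (g : RMetric n M), ∀ e ∈ IsManifold.maximalAtlas (𝓡 n) ∞ M, ∀ y ∈ e.target,
      (∀ v w, coef g e y v w = coef g e y w v) ∧
      (∀ v v' w, coef g e y (v + v') w = coef g e y v w + coef g e y v' w) ∧
      (∀ (c : ℝ) v w, coef g e y (c • v) w = c * coef g e y v w) ∧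
      (∀ v, v ≠ 0 → 0 < coef g e y v v)

/-- GOP (short). From CBL: `gop` represents `coef`; it is positive definite. (Expand in the standard
basis.) -/
def GOP_stmt : Prop :=
  ∀ (n : ℕ) (M : Type u) [TopologicalSpace M] [ChartedSpace (En n) M] [IsManifold (𝓡 n) ∞ M]
    (g : RMetric n M), ∀ e ∈ IsManifold.maximalAtlas (𝓡 n) ∞ M, ∀ y ∈ e.target,
      (∀ v w, inner ℝ (gop g e y v) w = coef g e y v w) ∧ PosDefOp (gop g e y) ∧
      0 < (gmat g e y).det ∧
      (∀ v, Matrix.toEuclideanCLM (𝕜 := ℝ) (gmat g e y)⁻¹ (gop g e y v) = v) ∧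
      (∀ v, gop g e y (Matrix.toEuclideanCLM (𝕜 := ℝ) (gmat g e y)⁻¹ v) = v)

/-- TRN (short-medium). Transition maps between charts of the maximal atlas: smooth, with
invertible derivative (the inverse is the derivative of the other transition map). -/
def TRN_stmt : Prop :=
  ∀ (n : ℕ) (M : Type u) [TopologicalSpace M] [ChartedSpace (En n) M] [IsManifold (𝓡 n) ∞ M],
    ∀ e ∈ IsManifold.maximalAtlas (𝓡 n) ∞ M, ∀ e' ∈ IsManifold.maximalAtlas (𝓡 n) ∞ M,
      ∀ x ∈ e.source ∩ e'.source,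
        ContDiffAt ℝ ∞ (fun y => e' (e.symm y)) (e x) ∧
        ∃ A : En n ≃L[ℝ] En n,
          HasFDerivAt (fun y => e' (e.symm y)) (A : En n →L[ℝ] En n) (e x) ∧
          HasFDerivAt (fun y => e (e'.symm y)) (A.symm : En n →L[ℝ] En n) (e' x)

/-- CMP (short-medium). Change of charts for the coefficients of `g` (chain rule for `mfderiv`:
`e.symm = e'.symm ∘ (e' ∘ e.symm)` near `e x`). -/
def CMP_stmt : Prop :=
  ∀ (n : ℕ) (M : Type u) [TopologicalSpace M] [ChartedSpace (En n) M] [IsManifold (𝓡 n) ∞ M]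
    (g : RMetric n M), ∀ e ∈ IsManifold.maximalAtlas (𝓡 n) ∞ M,
      ∀ e' ∈ IsManifold.maximalAtlas (𝓡 n) ∞ M, ∀ x ∈ e.source ∩ e'.source, ∀ v w : En n,
        coef g e (e x) v w = coef g e' (e' x) (fderiv ℝ (fun y => e' (e.symm y)) (e x) v)
          (fderiv ℝ (fun y => e' (e.symm y)) (e x) w)

/-- GAU (medium). From COE, CBL: the Gauss lemma in a normal chart. Proof. Fix `v` and `t` with
`|t| ‖v‖ < r`. For the geodesic `γ(t) = χ.symm (t v)` we have `χ (γ s) = s v` near `t`, so its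
coordinate velocity is `v`. The geodesic equation in the chart `χ` is (E1)
`d/ds coef (s v) v w = (1/2) D_y[coef y v v](s v) w`. With `w = v` the right-hand side is
`(1/2) d/ds coef (s v) v v`, so `coef (s v) v v` is constant, `= coef 0 v v = ‖v‖²` (E2; the set of
`s` is an interval around `0`). Apply (E2) to `v + ε w` at the same `t` (small `ε`) and differentiate at
`ε = 0`: (E3) `D_y[coef y v v](t v)(t w) + 2 coef (t v) v w = 2 ⟨v, w⟩`. With `F(t) = coef (t v) v w`,
(E1), (E3): `t F'(t) = ⟨v,w⟩ - F(t)`, i.e. `(t F)' = ⟨v,w⟩`, so `t F(t) = t ⟨v,w⟩`. Take `t = 1`,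
`v = y`. -/
def GAU_stmt : Prop :=
  ∀ (n : ℕ) (M : Type u) [TopologicalSpace M] [ChartedSpace (En n) M] [IsManifold (𝓡 n) ∞ M]
    (g : RMetric n M) (χ : OpenPartialHomeomorph M (En n)) (x : M) (r : ℝ), 0 < r →
    IsNormalAt g χ x r →
      (∀ (v : En n) (t : ℝ), |t| * ‖v‖ < r → coef g χ (t • v) v v = ‖v‖ ^ 2) ∧
      (∀ y w : En n, ‖y‖ < r → coef g χ y y w = inner ℝ y w)

/-- NCH (short-medium). From COE, GOP, GAU: the `NChart` of a normal chart. `G y` is the inverse matrix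
(for `‖y‖ < r`; any value outside), smooth since matrix inversion is smooth; `gop y y = y` (GAU) gives
`G y y = y`; `gmat 0 = 1`. -/
def NCH_stmt : Prop :=
  ∀ (n : ℕ) (M : Type u) [TopologicalSpace M] [ChartedSpace (En n) M] [IsManifold (𝓡 n) ∞ M]
    (g : RMetric n M) (χ : OpenPartialHomeomorph M (En n)) (x : M) (r : ℝ), 0 < r →
    IsNormalAt g χ x r → ∃ 𝒢 : NChart n r, Repr g χ 𝒢

/-- ORB (medium). From COE, GOP: a geodesic, written in the chart `χ` with momentum `p = gop(x) x'`,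
solves Hamilton's equations. Here `I` is open. `x(t) = χ (γ t)` is smooth near `t`.
`x' = G(x) p`. For every `w`: `d/dt ⟨p,w⟩ = d/dt coef(x)(x',w) = (1/2) D_y[coef y x' x'](x) w` (geodesic
equation), and `-∂_x ham (x,p) w = -(1/2) ⟨(D G w) p, p⟩ = (1/2) ⟨(D gop w) G p, G p⟩ =
(1/2) D_y[coef y x' x'](x) w` since `D G w = - G (D gop w) G`. -/
def ORB_stmt : Prop :=
  ∀ (n : ℕ) (M : Type u) [TopologicalSpace M] [ChartedSpace (En n) M] [IsManifold (𝓡 n) ∞ M]
    (g : RMetric n M) (χ : OpenPartialHomeomorph M (En n)) (r : ℝ) (𝒢 : NChart n r) (γ : ℝ → M)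
    (I : Set ℝ), χ ∈ IsManifold.maximalAtlas (𝓡 n) ∞ M → χ.target = Metric.ball (0 : En n) r →
      Repr g χ 𝒢 → IsOpen I → IsGeodesicOn g γ I → ∀ t ∈ I, γ t ∈ χ.source →
        HasDerivAt (fun s => ((χ (γ s), gop g χ (χ (γ s)) (deriv (fun u => χ (γ u)) s)) : PS n))
          (hvf (ham 𝒢) (χ (γ t), gop g χ (χ (γ t)) (deriv (fun u => χ (γ u)) t))) t

/-- EXM (medium-long). From COE, GOP, TRN, CMP, ORB: `HasExp` in the normal chart. Let `‖x‖ < r`,
`z = χ.symm x`, `ψ` a normal chart of radius `r2 ≥ L` at `z` (hypothesis), `A` the derivative of `ψ ∘ χ.symm` at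
`x` (TRN), `Λ q = A (G x q)`: a linear isomorphism with
`‖Λ q‖² = coef ψ 0 (Λq)(Λq) = coef χ x (Gq)(Gq) = ⟨q, G q⟩` (CMP). Put `Ex q = χ (ψ.symm (Λ q))` and
`D = {q : ‖Λ q‖ < r2, ψ.symm (Λ q) ∈ χ.source}` (open). `Ex` is injective on `D`, and its derivative is
invertible there (TRN). Let `c` be an orbit on `[0,T]` with `c 0 = (x,p)`, `nrm2 < 1`, `T < L ≤ r2`,
`v = Λ p`, `‖v‖ < 1`, `γ(t) = ψ.symm (t v)`: a geodesic on `{|t| ‖v‖ < r2}`, a neighbourhood of
`[0,T]`; `c2(t) = (χ (γ t), gop (χ γ t) (χ ∘ γ)'(t))`; `c2(0) = (x,p)` (`(χ∘γ)'(0) = A⁻¹ v = G x p`). Let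
`S = {t ∈ [0,T] : ∀ s ∈ [0,t], γ s ∈ χ.source and c s = c2 s}`, `0 ∈ S`. `S` is closed under limits: for
`s < t*`, `γ s = χ.symm ((c s).1)`, and as `s → t*` the right-hand side tends to `χ.symm ((c t*).1)`
(`(c t*).1` is in the target), so `γ t* = χ.symm ((c t*).1) ∈ χ.source` (`M` is Hausdorff) and
`c t* = c2 t*`. `S` is open in `[0,T]`: near `t*` both `c` and `c2` (ORB) solve Hamilton's equations with
the smooth vector field `hvf (ham 𝒢)` on `ball 0 r × E`: uniqueness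
(`ODE_solution_unique_of_eventually`, locally Lipschitz). So `T ∈ S`: `(c T).1 = χ (γ T) = Ex (T p)` and
`T p ∈ D`. -/
def EXM_stmt : Prop :=
  ∀ (n : ℕ) (M : Type u) [TopologicalSpace M] [T2Space M] [ChartedSpace (En n) M]
    [IsManifold (𝓡 n) ∞ M]
    (g : RMetric n M) (χ : OpenPartialHomeomorph M (En n)) (r r2 L : ℝ) (𝒢 : NChart n r),
    χ ∈ IsManifold.maximalAtlas (𝓡 n) ∞ M → χ.target = Metric.ball (0 : En n) r →
      Repr g χ 𝒢 → L ≤ r2 → (∀ x, HasInjAt g x r2) → HasExp 𝒢 L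

/-- BAL (medium). From GAU: the radial path `t ↦ χ.symm (t y)`, `t ∈ [0,1]`, has length
`∫_0^1 sqrt (coef (t y) y y) dt = ‖y‖ < ρ` (`Manifold.riemannianEDist_le_pathELength`; the norm
of the tangent space at a point is the one given by `g.inner`). -/
def BAL_stmt : Prop :=
  ∀ (n : ℕ) (M : Type u) [TopologicalSpace M] [ChartedSpace (En n) M] [IsManifold (𝓡 n) ∞ M]
    (g : RMetric n M) (χ : OpenPartialHomeomorph M (En n)) (x : M) (r : ℝ), 0 < r →
    IsNormalAt g χ x r → ∀ (ρ : ℝ) (y : En n), ‖y‖ < ρ → ρ ≤ r → χ.symm y ∈ gball g x ρ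

/-- VOA (short-medium). From COE, GOP, BAL: the volume of the ball is at least `VV 𝒢 ρ` (one chart piece
`S = χ.symm '' ball 0 ρ`; `dens = sqrt (det gmat) = (sqrt (det G))⁻¹`, continuous and bounded on
`ball 0 ρ`, `ρ < r`). -/
def VOA_stmt : Prop :=
  ∀ (n : ℕ) (M : Type u) [TopologicalSpace M] [ChartedSpace (En n) M] [IsManifold (𝓡 n) ∞ M]
    (g : RMetric n M) (χ : OpenPartialHomeomorph M (En n)) (x : M) (r : ℝ) (𝒢 : NChart n r), 0 < r →
    IsNormalAt g χ x r → Repr g χ 𝒢 → ∀ ρ, 0 < ρ → ρ < r →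
      ENNReal.ofReal (VV 𝒢 ρ) ≤ gvol g (gball g x ρ)

/-- FNL (short-medium). From CORE, NCH, EXM, VOA: the theorem. `n0` of CORE. For `0 < r' < r`:
`2 r' < 2 r ≤ injRad g`, so there is `r2 > 2 r'` with `HasInjAt g x r2` for all `x`; take the normal
chart at `m` of radius `r2`, its `NChart` (NCH), `HasExp 𝒢 (2r')` (EXM with `L = 2r' ≤ r2`), CORE with
`R = r'`, `r0 = r2`, and VOA: `(1-ε)^n sphereVol (2r'/π)^n ≤ gvol (gball m r') ≤ gvol (gball m r)`
(monotone). Let `r' → r`. -/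
def FNL_stmt : Prop :=
  ∀ ε : ℝ, 0 < ε → ε < 1 → ∃ n0 : ℕ, ∀ n ≥ n0, ∀ (M : Type u) [TopologicalSpace M] [T2Space M]
    [CompactSpace M] [ConnectedSpace M] [ChartedSpace (En n) M] [IsManifold (𝓡 n) ∞ M]
    (g : RMetric n M) (m : M) (r : ℝ), 0 < r → ENNReal.ofReal (2 * r) ≤ injRad g →
      ENNReal.ofReal ((1 - ε) ^ n * sphereVol n * (2 * r / Real.pi) ^ n) ≤ gvol g (gball g m r)

/-- CST (short-medium). From FNL (universe 0): lower bound for `c_n^*`. For `r ≤ Inj` apply FNL to `r/2`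
and `gball m (r/2) ⊆ gball m r`. -/
def CST_stmt : Prop :=
  ∀ ε : ℝ, 0 < ε → ε < 1 → ∃ n0 : ℕ, ∀ n ≥ n0,
    ENNReal.ofReal ((1 - ε) ^ n * (sphereVol n / Real.pi ^ n)) ≤ cstar n

end Pool.Agent.CRO
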