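import Pool.Agent.helper58.CRO.SpecD

/-!
# MP_5bf3c3_gt, block F: an explicit bound for every `n`

THEOREM 2. For every `n ≥ 1`, every compact `(M^n, g)`, every `m` and every `0 < r ≤ Inj(M,g)`:
`Vol B(m,r) ≥ kap_n (5r/(6π))^n`, i.e. `c_n^* ≥ vol(B^n) (5/(6π))^n` (better than Croke's constant
with the doubling trick, `ω_{n-1}^n/(n^n ω_n^{n-1})`, for all `n ≥ 5`).
Every `XX_stmt` is one row `cro:XX`; its complete proof is in its docstring.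
-/

open scoped Manifold ContDiff Topology ENNReal
open MeasureTheory Set Bundle Filter

noncomputable section

namespace Pool.Agent.CRO

universe u

/-- VVC (short-medium). `VV` is continuous on `(0, r0)`: the integrand is bounded on the ball of radius
`r1 < r0` and spheres have measure zero (or: `|VV ρ - VV ρ'| ≤ C · vol(annulus) = C kap |ρ^n - ρ'^n|`). -/
def VVC_stmt : Prop :=
  ∀ (n : ℕ) (r0 : ℝ) (𝒢 : NChart n r0), 1 ≤ n → ContinuousOn (fun ρ => VV 𝒢 ρ) (Ioo 0 r0)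

/-- INQ (medium). From GFL, SPD, VOL, VVP, VVC, LEV. Choose `k > 0` with `2a + k < L` and
`c + a + k < r0`; the flow with `r1 = c + a + k` (GFL); `A = ZZ c`; `rb u = c + |u|` (SPD: strict
inequality); `w(u) = (VV (c + min |u| a))^{-2/n}`, continuous, positive, even; `K = 1`:
`√(w u)^n VV (c+|u|) = 1` for `|u| ≤ a`. LEV: `((2 ∫_c^{c+a} VV^{-2/n})/π)^n kap VV(c) ≤ 1`; take
`n`-th roots. -/
def INQ_stmt : Prop :=
  ∀ (n : ℕ) (r0 L : ℝ) (𝒢 : NChart n r0), 1 ≤ n → HasExp 𝒢 L →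
    ∀ c a : ℝ, 0 < c → 0 < a → c + a < r0 → 2 * a < L →
      ∫ ρ in c..(c + a), (VV 𝒢 ρ) ^ (-(2 : ℝ) / n) ≤
        Real.pi / 2 * (kap n * VV 𝒢 c) ^ (-(1 : ℝ) / n)

/-- RIC (medium). A Riccati comparison. Normalise: `r = 2`, `B = 1` (replace `P(x)` by
`(r/(2B)) P(x r/2)`). Suppose `β = P(2) > 6/5`; `P ≥ β` on `(0,2]`. For `x ∈ (0,1]` let
`Q(x) = ∫_x^1 P²`, `y(x) = Q(x) + β² x`. Since `∫_1^{1+x} P² ≥ β² x`, the hypothesis gives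
`P(x) ≥ ∫_x^{x+1} P² ≥ y(x)`, so `y' = β² - P² ≤ β² - y²`, `y(1) = β² > β`. `y` stays `> β` on `(0,1]`
(going down from `1`: `y' < 0` as long as `y > β`). Let `h(x) = (1/(2β)) log((y+β)/(y-β)) > 0`:
`h' = -y'/(y²-β²) ≥ 1`. Hence `h(1) ≥ h(x) + 1 - x ≥ 1 - x` for all `x > 0`, so `h(1) ≥ 1`:
`log((β+1)/(β-1)) ≥ 2β`. But for `β ≥ 6/5` the left side is `≤ log 11 < 12/5 ≤ 2β`
(`e^{12/5} > 11`). -/
def RIC_stmt : Prop :=
  ∀ (P : ℝ → ℝ) (r B : ℝ), 0 < r → 0 < B → ContinuousOn P (Ioc 0 r) → AntitoneOn P (Ioc 0 r) →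
    (∀ x ∈ Ioc 0 r, 0 < P x) →
    (∀ c, 0 < c → c ≤ r / 2 → ∫ x in c..(c + r / 2), P x ^ 2 ≤ B * P c) →
    P r ≤ 12 * B / (5 * r)

/-- EX2 (short-medium). From VVC, VVP, INQ, RIC: `P = VV^{-1/n}` on `(0, ρ]`, `r = ρ`, `a = ρ/2`,
`B = (π/2) kap^{-1/n}`: `P(ρ) ≤ (6π/(5ρ)) kap^{-1/n}`. -/
def EX2_stmt : Prop :=
  ∀ (n : ℕ) (r0 L : ℝ) (𝒢 : NChart n r0), 1 ≤ n → HasExp 𝒢 L →
    ∀ ρ, 0 < ρ → ρ < r0 → ρ < L → kap n * (5 * ρ / (6 * Real.pi)) ^ n ≤ VV 𝒢 ρ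

/-- EX3 (short-medium). From EX2, NCH, EXM, VOA: as in FNL. For `0 < r' < r ≤ Inj` there is
`r2 > r'` with `HasInjAt g x r2` for all `x`; normal chart at `m` of radius `r2`, EXM with `L = r2`, EX2
with `ρ = r' < r2`; then `r' → r`. -/
def EX3_stmt : Prop :=
  ∀ (n : ℕ), 1 ≤ n → ∀ (M : Type u) [TopologicalSpace M] [T2Space M]
    [CompactSpace M] [ConnectedSpace M] [ChartedSpace (En n) M] [IsManifold (𝓡 n) ∞ M]
    (g : RMetric n M) (m : M) (r : ℝ), 0 < r → ENNReal.ofReal r ≤ injRad g →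
      ENNReal.ofReal (kap n * (5 * r / (6 * Real.pi)) ^ n) ≤ gvol g (gball g m r)

/-- EX4 (short). From EX3 (universe 0). -/
def EX4_stmt : Prop :=
  ∀ n : ℕ, 1 ≤ n → ENNReal.ofReal (kap n * (5 / (6 * Real.pi)) ^ n) ≤ cstar n

end Pool.Agent.CRO
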