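import Pool.Agent.helper58.CRO.SpecJ
import Pool.Agent.helper58.CRO.SpecF

/-!
# MP_5bf3c3_gt, Theorem 4, block G: from the manifold to one normal chart, the final theorem

Paper proof: Pool/Agent/helper58/CRO/PROOF4.md.
Every `XX_stmt` is one row `cro:XX`; its complete proof is in its docstring.
All statements are universe polymorphic in `M : Type u` (write `theorem XX : XX_stmt.{u}` with
`universe u`).
-/

open scoped Manifold ContDiff Topology ENNReal
open MeasureTheory Set Bundle Filter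

noncomputable section

namespace Pool.Agent.CRO

universe u

/-- GDB (short). From GAU, CBL: in a normal chart, `|⟨y, w⟩| ≤ ‖y‖ sqrt(coef y w w)`. (Cauchy-Schwarz for the
form `coef g χ y`, with `coef y y w = ⟨y, w⟩` and `coef y y y = ‖y‖²`.) -/
def GDB_stmt : Prop :=
  ∀ (n : ℕ) (M : Type u) [TopologicalSpace M] [ChartedSpace (En n) M] [IsManifold (𝓡 n) ∞ M]
    (g : RMetric n M) (χ : OpenPartialHomeomorph M (En n)) (x : M) (r : ℝ), 0 < r →
    IsNormalAt g χ x r → ∀ y w : En n, ‖y‖ < r →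
      |inner ℝ y w| ≤ ‖y‖ * Real.sqrt (coef g χ y w w)

/-- GDP (medium). From GDB: a `C^1` path `γ` on `[a,b]` which stays in the domain of the normal chart `χ` has
length at least `‖χ (γ b)‖ - ‖χ (γ a)‖`. Proof: let `c = χ ∘ γ` (`C^1` on a neighbourhood of `[a,b]`, as `χ.source` is
open). The speed of `γ` is `sqrt(coef g χ (c t) (c' t) (c' t))` (`γ = χ.symm ∘ c` near `t`, chain rule; the norm of the
tangent space is the one given by `g.inner`, see BAL.lean of helper58 for the same identification). For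
`δ > 0` the function `f(t) = sqrt(‖c t‖² + δ²)` is `C^1` with `f' = ⟨c, c'⟩/f ≤ ‖c‖ sqrt(coef)/f ≤ sqrt(coef)` (GDB),
so `f b - f a ≤ ∫ sqrt(coef) = length`; let `δ → 0`. -/
def GDP_stmt : Prop :=
  ∀ (n : ℕ) (M : Type u) [TopologicalSpace M] [ChartedSpace (En n) M] [IsManifold (𝓡 n) ∞ M]
    (g : RMetric n M) (χ : OpenPartialHomeomorph M (En n)) (x : M) (r : ℝ), 0 < r →
    IsNormalAt g χ x r → ∀ (γ : ℝ → M) (a b : ℝ), a ≤ b → ContMDiff 𝓘(ℝ, ℝ) (𝓡 n) 1 γ →
      (∀ t ∈ Icc a b, γ t ∈ χ.source) →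
      letI : Bundle.RiemannianBundle (fun x : M => TangentSpace (𝓡 n) x) := ⟨g.toRiemannianMetric⟩
      ENNReal.ofReal (‖χ (γ b)‖ - ‖χ (γ a)‖) ≤ Manifold.pathELength (𝓡 n) γ a b

/-- GDE (medium). From GDP: distances from the centre of a normal chart: `d(x, χ.symm q) ≥ ‖q‖`. Proof: if not, there
is a `C^1` path `γ` on `[0,1]` from `x` to `χ.symm q` of length `< ‖q‖` (`Manifold.exists_lt_of_riemannianEDist_lt`).
If `γ` stays in `χ.source`, GDP gives length `≥ ‖q‖ - 0`. Otherwise let `‖q‖ < ρ < r`,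
`K = χ.symm '' closedBall 0 ρ`: compact, so closed (`M` is Hausdorff), contained in the source; `U = χ.symm '' ball 0 ρ`
is open. Let `t1` be the infimum of the times with `γ t ∉ U` (a closed nonempty set not containing `0`): `γ t ∈ U` for
`t < t1`, so `γ t1 ∈ K \ U`, i.e. `γ t ∈ χ.source` on `[0,t1]` and `‖χ (γ t1)‖ = ρ`: length `≥ ρ > ‖q‖`. -/
def GDE_stmt : Prop :=
  ∀ (n : ℕ) (M : Type u) [TopologicalSpace M] [T2Space M] [ChartedSpace (En n) M]
    [IsManifold (𝓡 n) ∞ M]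
    (g : RMetric n M) (χ : OpenPartialHomeomorph M (En n)) (x : M) (r : ℝ), 0 < r →
    IsNormalAt g χ x r → ∀ q : En n, ‖q‖ < r → ENNReal.ofReal ‖q‖ ≤ gdist g x (χ.symm q)

/-- GDL (medium). From COE, GOP, TRN, CMP, ORB, GDE: an orbit of length `< r2` is minimising. The proof of EXM
(Pool/Agent/helper54/CRO/EXM.lean: copy it, with `v = Λ p`, `‖v‖² = nrm2 (c 0)`, `γ(t) = ψ.symm (t v)`, `ψ` a normal chart of
radius `r2` at `z = χ.symm (c 0).1`) shows `(c T).1 = χ (γ T)`, `γ T ∈ χ.source`, so `χ.symm (c T).1 = ψ.symm (T v)`.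
GDE for `ψ` at `q = T v`, `‖q‖ = T sp (c 0) < r2`. -/
def GDL_stmt : Prop :=
  ∀ (n : ℕ) (M : Type u) [TopologicalSpace M] [T2Space M] [ChartedSpace (En n) M]
    [IsManifold (𝓡 n) ∞ M]
    (g : RMetric n M) (χ : OpenPartialHomeomorph M (En n)) (r r2 : ℝ) (𝒢 : NChart n r),
    χ ∈ IsManifold.maximalAtlas (𝓡 n) ∞ M → χ.target = Metric.ball (0 : En n) r →
      Repr g χ 𝒢 → (∀ x, HasInjAt g x r2) → ∀ (c : ℝ → PS n) (T : ℝ), 0 ≤ T → T < r2 →
      nrm2 𝒢 (c 0) < 1 → (∀ t ∈ Icc 0 T, ‖(c t).1‖ < r ∧ HasDerivAt c (hvf (ham 𝒢) (c t)) t) →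
        ENNReal.ofReal (sp 𝒢 (c 0) * T) ≤ gdist g (χ.symm (c 0).1) (χ.symm (c T).1)

/-- GTR (short). The distance is symmetric and satisfies the triangle inequality
(`Manifold.riemannianEDist_comm`, `Manifold.riemannianEDist_triangle`). -/
def GTR_stmt : Prop :=
  ∀ (n : ℕ) (M : Type u) [TopologicalSpace M] [ChartedSpace (En n) M] [IsManifold (𝓡 n) ∞ M]
    (g : RMetric n M) (x y z : M), gdist g x y = gdist g y x ∧
      gdist g x z ≤ gdist g x y + gdist g y z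

/-- GHL (short-medium). From GDL, GTR, BAL: `HasLen` in the normal chart. With `z1 = χ.symm (c 0).1`,
`z2 = χ.symm (c T).1`: BAL gives `gdist m z1, gdist m z2 < ofReal ρ`, so `gdist z1 z2 < ofReal (2ρ)` (GTR), and GDL. -/
def GHL_stmt : Prop :=
  ∀ (n : ℕ) (M : Type u) [TopologicalSpace M] [T2Space M] [ChartedSpace (En n) M]
    [IsManifold (𝓡 n) ∞ M]
    (g : RMetric n M) (χ : OpenPartialHomeomorph M (En n)) (m : M) (r r2 L : ℝ) (𝒢 : NChart n r),
    0 < r → IsNormalAt g χ m r → Repr g χ 𝒢 → L ≤ r2 → (∀ x, HasInjAt g x r2) → HasLen 𝒢 L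

/-- GFN (short-medium). From JCH, JNU, JLN (only `0 < ll n`), NCH, EXM, GHL, VOA, VVP: the bound for `r ≤ Inj/2`. As in FNL
(`Pool/Agent/<seat>/CRO/FNL.lean`): for `0 < r' < r` there is `r2 > 2 r'` with `HasInjAt g x r2` for all `x`; the normal
chart at `m` of radius `r2`, its `NChart` (NCH), `HasExp 𝒢 r2` (EXM), `HasLen 𝒢 r2` (GHL), JCH with `R = r'`,
`L = r2`, `r0 = r2`, and VOA. `kap n (2R/π)^{n-1} R/((n-1) ll) = (cW/(n ll)) (sphereVol n/2) (2R/π)^n` by JNU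
(`sphereVol n = 2 X0 n kap n`, `X0 cW = π/(2(n-1))`). Let `r' → r`. -/
def GFN_stmt : Prop :=
  ∀ n : ℕ, 2 ≤ n → ∀ (M : Type u) [TopologicalSpace M] [T2Space M]
    [CompactSpace M] [ConnectedSpace M] [ChartedSpace (En n) M] [IsManifold (𝓡 n) ∞ M]
    (g : RMetric n M) (m : M) (r : ℝ), 0 < r → ENNReal.ofReal (2 * r) ≤ injRad g →
      ENNReal.ofReal (cW n / (n * ll n) * (sphereVol n / 2 * (2 * r / Real.pi) ^ n)) ≤
        gvol g (gball g m r)

/-- GF2 (short). From GFN, JLN, JNU, RAT: the explicit factor `(n+2)/(n+3)`: `cW/(n ll) ≥ (n+2)/(n+3)`. -/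
def GF2_stmt : Prop :=
  ∀ n : ℕ, 2 ≤ n → ∀ (M : Type u) [TopologicalSpace M] [T2Space M]
    [CompactSpace M] [ConnectedSpace M] [ChartedSpace (En n) M] [IsManifold (𝓡 n) ∞ M]
    (g : RMetric n M) (m : M) (r : ℝ), 0 < r → ENNReal.ofReal (2 * r) ≤ injRad g →
      ENNReal.ofReal (((n : ℝ) + 2) / (n + 3) * (sphereVol n / 2 * (2 * r / Real.pi) ^ n)) ≤
        gvol g (gball g m r)

/-- GF3 (short). From GFN, JL3, JLN, JNU: the factor `9/10` for `n = 3` (`cW 3 = 1`, `ll 3 ≤ 10/27`). -/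
def GF3_stmt : Prop :=
  ∀ (M : Type u) [TopologicalSpace M] [T2Space M]
    [CompactSpace M] [ConnectedSpace M] [ChartedSpace (En 3) M] [IsManifold (𝓡 3) ∞ M]
    (g : RMetric 3 M) (m : M) (r : ℝ), 0 < r → ENNReal.ofReal (2 * r) ≤ injRad g →
      ENNReal.ofReal (9 / 10 * (sphereVol 3 / 2 * (2 * r / Real.pi) ^ 3)) ≤ gvol g (gball g m r)

/-- GVD (short-medium). Superadditivity of `gvol`: given finite families for `A` and for `B`, their union
(`Fin.append`, `Fin k ⊕ Fin l ≃ Fin (k+l)`) is a family for `C` (`A`, `B` are disjoint).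
(`ENNReal.iSup_add_iSup`-like, or `le_of_forall_lt`: `ENNReal.le_of_forall_pos_le_add`.) -/
def GVD_stmt : Prop :=
  ∀ (n : ℕ) (M : Type u) [TopologicalSpace M] [ChartedSpace (En n) M] [IsManifold (𝓡 n) ∞ M]
    (g : RMetric n M) (A B C : Set M), Disjoint A B → A ⊆ C → B ⊆ C →
      gvol g A + gvol g B ≤ gvol g C

/-- GDJ (medium). From ORB, GAU, GOP, NCH, GDL, GTR, BAL: two disjoint balls. Let `χ` be a normal chart at `m` of radius
`r2 > r'` (`HasInjAt`), `𝒢` its `NChart` (NCH), `v` a unit vector (`n ≥ 1`), `m1 = χ.symm (-(r'/2) v)`,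
`m2 = χ.symm ((r'/2) v)`. BAL: `gdist m m_i ≤ r'/2` (BAL with every `ρ > r'/2`), so both balls are in `gball m r'`. Let `0 < s < 1` with
`r'/s < r2`. `γ(t) = χ.symm ((s t) v)` is a geodesic on `{|t| s < r2}`; ORB: `c(t) = (s t v, gop(s t v)(s v)) = (s t v, s v)`
(GAU and GOP: `gop y y = y`, so `gop(t v) v = v`, also at `t = 0`, where `gmat = 1`) is an orbit; shift the time so that it
starts at `-(r'/2) v`; `nrm2 = s² < 1` (`G v = v`), `sp = s`, `T = r'/s < r2`. GDL: `gdist m1 m2 ≥ s T = r'`, so the balls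
of radius `r'/2` are disjoint. -/
def GDJ_stmt : Prop :=
  ∀ n : ℕ, 1 ≤ n → ∀ (M : Type u) [TopologicalSpace M] [T2Space M] [ChartedSpace (En n) M]
    [IsManifold (𝓡 n) ∞ M] (g : RMetric n M) (m : M) (r' r2 : ℝ), 0 < r' → r' < r2 →
      (∀ x, HasInjAt g x r2) → ∃ m1 m2 : M,
        Disjoint (gball g m1 (r' / 2)) (gball g m2 (r' / 2)) ∧
        gball g m1 (r' / 2) ⊆ gball g m r' ∧ gball g m2 (r' / 2) ⊆ gball g m r'

/-- GDD (short-medium). From GDJ, GVD: if every ball of radius `s ≤ Inj/2` has volume at least `c s^n`, then every ball of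
radius `r ≤ Inj` has volume at least `2 c (r/2)^n`. For `0 < r' < r` (`r2 > r'` as in FNL) `gball m r` contains two disjoint
balls of radius `r'/2`; let `r' → r`. -/
def GDD_stmt : Prop :=
  ∀ n : ℕ, 1 ≤ n → ∀ (M : Type u) [TopologicalSpace M] [T2Space M] [CompactSpace M]
    [ConnectedSpace M] [ChartedSpace (En n) M]
    [IsManifold (𝓡 n) ∞ M] (g : RMetric n M) (c : ℝ), 0 ≤ c →
      (∀ (m : M) (s : ℝ), 0 < s → ENNReal.ofReal (2 * s) ≤ injRad g →
        ENNReal.ofReal (c * s ^ n) ≤ gvol g (gball g m s)) →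
      ∀ (m : M) (r : ℝ), 0 < r → ENNReal.ofReal r ≤ injRad g →
        ENNReal.ofReal (2 * c * (r / 2) ^ n) ≤ gvol g (gball g m r)

/-- GC2 (short-medium). From GF2, GDD (universe 0): the lower bound for `c_n^*`. With `c s^n` the bound of GF2,
`2 c (r/2)^n = ((n+2)/(n+3)) sphereVol n (r/π)^n`. -/
def GC2_stmt : Prop :=
  ∀ n : ℕ, 2 ≤ n →
    ENNReal.ofReal (((n : ℝ) + 2) / (n + 3) * (sphereVol n / Real.pi ^ n)) ≤ cstar n

/-- GC3 (short-medium). From GF3, GDD (universe 0): `n = 3` (`sphereVol 3/π³ = 2/π`). -/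
def GC3_stmt : Prop :=
  ENNReal.ofReal (9 / 10 * (sphereVol 3 / Real.pi ^ 3)) ≤ cstar 3

/-- GLI (short). From GC2, UPB, RAT: the asymptotic formula. -/
def GLI_stmt : Prop :=
  Tendsto (fun n : ℕ => (cstar n).toReal / (sphereVol n / Real.pi ^ n)) atTop (𝓝 1)

end Pool.Agent.CRO
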