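import Pool.Agent.helper58.CRO.SpecB

/-!
# MP_5bf3c3_gt, Theorem 4, block H: the orthogonal determinant inequality and the inequality of Kazdan

THEOREM 4: `(n+2)/(n+3) · Vol(S^n)/π^n ≤ c_n^* ≤ Vol(S^n)/π^n` for all `n ≥ 2`.
Paper proof: Pool/Agent/helper58/CRO/PROOF4.md. Every `XX_stmt` is one row `cro:XX`; its complete
proof is in its docstring. Rows use other rows only as hypotheses.
-/

open scoped Manifold ContDiff Topology ENNReal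
open MeasureTheory Set

noncomputable section

namespace Pool.Agent.CRO

variable {n : ℕ} {r0 : ℝ}

/-- `∫_0^{π/2} sin^{n-1}`. -/
def X0 (n : ℕ) : ℝ := ∫ t in (0 : ℝ)..(Real.pi / 2), Real.sin t ^ (n - 1)

/-- `∫_0^{π/2} sin^{n-2}`. -/
def cW (n : ℕ) : ℝ := ∫ t in (0 : ℝ)..(Real.pi / 2), Real.sin t ^ (n - 2)

/-- The constant `c = X0/π^n` in (1.1) of PROOF4.md. -/
def cK (n : ℕ) : ℝ := X0 n / Real.pi ^ n

/-- The speed `|p|` of the orbit of `z = (x, p)`. -/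
def sp (𝒢 : NChart n r0) (z : PS n) : ℝ := Real.sqrt (nrm2 𝒢 z)

/-- The absolute Jacobian of the exponential map along the orbit of `z`, with the densities of the
end points. -/
def EE (𝒢 : NChart n r0) (Φ : ℝ → PS n → PS n) (z : PS n) (u : ℝ) : ℝ :=
  |(BB Φ u z).det| / Real.sqrt ((𝒢.G z.1).det * (𝒢.G (Φ u z).1).det)

/-! ## Linear algebra -/

/-- HMA (medium). Let `A, S` be positive definite, `A e = α f`, `S e = σ f`, `e ≠ 0`, `α, σ > 0`, and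
`Si` the inverse of `S`. Then `(n-1) ((det A/α)/(det S/σ))^{1/(n-1)} ≤ tr(S^{-1} A) - α/σ`.
Proof: let `R = S^{-1/2}` (positive definite), `T = R A R`, `u = S^{1/2} e ≠ 0`. Then
`T u = R A e = α R f = (α/σ) R S e = (α/σ) u`, `T` is symmetric positive definite,
`det T = det A/det S` and `tr T = tr(S^{-1} A)`. So `α/σ` is an eigenvalue of `T`; the other `n-1`
eigenvalues (of the restriction to `u^⊥`; take an orthonormal eigenbasis of the restriction of `T` to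
`u^⊥`, or the eigenvalues of `T` and an eigenbasis which contains `u/|u|`) are positive with product
`det T/(α/σ)` and sum `tr T - α/σ`: AM-GM. Alternative without square roots: use the inner product
`⟨S x, y⟩`, for which `S^{-1} A` is symmetric positive with eigenvector `e`. -/
def HMA_stmt : Prop :=
  ∀ (n : ℕ), 2 ≤ n → ∀ (A S Si : En n →L[ℝ] En n) (e f : En n) (α σ : ℝ), PosDefOp A → PosDefOp S →
    (∀ v, Si (S v) = v) → e ≠ 0 → 0 < α → 0 < σ → A e = α • f → S e = σ • f →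
    ((n : ℝ) - 1) * ((A.det / α) / (S.det / σ)) ^ ((1 : ℝ) / ((n : ℝ) - 1)) ≤
      LinearMap.trace ℝ (En n) ((Si.comp A : En n →L[ℝ] En n) : En n →ₗ[ℝ] En n) - α / σ

/-- HMQ (short-medium). From HMA: Minkowski's inequality for a family of positive definite operators
with `Q(r) e = q(r) f`. Proof: `S = ∫ Q` is positive definite (`s < t`) with `S e = σ f`, `σ = ∫ q > 0`. HMA
with `A = Q(r)`, `α = q(r)`; integrate over `[s,t]`: `∫ tr(S^{-1} Q(r)) dr = tr(S^{-1} S) = n`,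
`∫ q/σ = 1`, so `(n-1) ∫ ((det Q/q)/(det S/σ))^{1/(n-1)} ≤ n - 1`. -/
def HMQ_stmt : Prop :=
  ∀ (n : ℕ), 2 ≤ n → ∀ (s t : ℝ) (Q : ℝ → En n →L[ℝ] En n) (q : ℝ → ℝ) (e f : En n), s < t →
    ContinuousOn Q (Icc s t) → ContinuousOn q (Icc s t) → e ≠ 0 →
    (∀ r ∈ Icc s t, PosDefOp (Q r) ∧ 0 < q r ∧ Q r e = q r • f) →
    (∫ r in s..t, ((Q r).det / q r) ^ ((1 : ℝ) / ((n : ℝ) - 1))) ^ (n - 1) ≤
      (∫ r in s..t, Q r).det / ∫ r in s..t, q r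

/-- HSC (medium). The derivative of the flow in the direction `(0, p)`. Proof: for `λ` near `1` the curve
`c(s) = ((Φ (λ s) z).1, λ • (Φ (λ s) z).2)`, `s` between `0` and `t`, solves Hamilton's equations for `ham 𝒢`
(`ham` is quadratic in `p`: `hvf ham (x, λ p) = (λ G x p, λ² (hvf ham (x,p)).2)`); it stays in the
region `‖x‖ < r1`, `nrm2 < 2` (by continuity the orbit of `z` stays in the ball of radius `r1` on a
neighbourhood of the compact interval; its `nrm2` is `< 1`, see NRG; `λ² < 2`), so it solves the equation of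
`hvf H` (HVA), which is globally Lipschitz: `c(s) = Φ s (z.1, λ • z.2)`. At `s = t`:
`Φ t (z.1, λ • z.2) = ((Φ (λ t) z).1, λ • (Φ (λ t) z).2)`. Differentiate at `λ = 1`. -/
def HSC_stmt : Prop :=
  ∀ (n : ℕ) (r0 r1 : ℝ) (𝒢 : NChart n r0) (H : PS n → ℝ) (Φ : ℝ → PS n → PS n),
    IsGFlow 𝒢 r1 H Φ → ∀ (z : PS n) (t : ℝ), nrm2 𝒢 z < 1 →
      (∀ s ∈ uIcc 0 t, ‖(Φ s z).1‖ < r1) →
      fderiv ℝ (Φ t) z (0, z.2) = ((0 : En n), (Φ t z).2) + t • hvf H (Φ t z)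

/-- HKQ (medium-long). From RED, HES, NDG, HVA, NRG, HSC, HMQ: inequality (1.1) of PROOF.md for the
Jacobi fields orthogonal to the orbit. It is the proof of KZP with one more observation. As in KZP let
`z0 = Φ (-a-k) z`, `Y r = fderiv (Φ (r+a+k)) z0`, `F(r) = BB Φ (r+a+k) z0`, invertible for `r ∈ [-a,a]` (NDG),
`Fi` its inverse, `Q(r) = Fi(r) G(Φ r z) Fi(r)^T` (`Hpp = G`, HVA), `T = r+a+k`,
`BB Φ (t-s) (Φ s z) = F(t) (∫_s^t Q) F(s)^T` (RED, as in KZP). New: let `p0 = z0.2`, `e = G(z0.1) p0`,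
`⟨e, p0⟩ = nrm2 > 0`. (i) HSC: `F(r) p0 = (Y r (0,p0)).1 = T G(x) p`, `(x,p) = Φ r z`.
(ii) For every `ξ`: `symp (Y r (0,ξ)) (Y r (0,p0)) = symp (0,ξ) (0,p0) = 0` and
`symp (Y r (0,ξ)) (hvf H (Φ r z)) = symp (0,ξ) (hvf H z0) = -⟨ξ, e⟩` (`Y r (hvf H z0) = hvf H (Φ r z)`,
flow property; or conservation of `H`: `symp v (hvf H w) = -fderiv H w v` up to sign), so by HSC
`⟨F(r) ξ, p⟩ = T ⟨ξ, e⟩`: `F(r)^T p = T e`. Hence `Fi^T e = p/T` and `Q(r) e = Fi G p/T = p0/T²`.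
HMQ with `f = p0`, `q(r) = (r+a+k)^{-2}`, `∫_s^t q = (t-s)/((s+a+k)(t+a+k))`:
`det ∫Q ≥ (∫q) (∫ ψ^{-2})^{n-1}`, where `ψ(r) = (|det F(r)|/((r+a+k) sqrt(det G(Φ r z))))^{1/(n-1)}`
(`det Q/q = det G (r+a+k)²/(det F)² = ψ^{-2(n-1)}`). Then
`EE (Φ s z) (t-s)/(t-s) = |det F(t)| |det F(s)| det(∫Q)/(sqrt(det G det G) (t-s)) ≥
(ψ(s) ψ(t) ∫ψ^{-2})^{n-1}`. -/
def HKQ_stmt : Prop :=
  ∀ (n : ℕ) (r0 r1 L : ℝ) (𝒢 : NChart n r0) (H : PS n → ℝ) (Φ : ℝ → PS n → PS n), 2 ≤ n →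
    IsGFlow 𝒢 r1 H Φ → HasExp 𝒢 L → ∀ (z : PS n) (a k : ℝ), 0 < a → 0 < k → 2 * a + k < L →
      0 < nrm2 𝒢 z → nrm2 𝒢 z < 1 → (∀ u ∈ Icc (-a - k) a, ‖(Φ u z).1‖ < r1) →
      ∃ ψ : ℝ → ℝ, ContinuousOn ψ (Icc (-a) a) ∧ (∀ u ∈ Icc (-a) a, 0 < ψ u) ∧
        ∀ s t, -a ≤ s → s < t → t ≤ a →
          (ψ s * ψ t * ∫ r in s..t, (ψ r ^ 2)⁻¹) ^ (n - 1) ≤ EE 𝒢 Φ (Φ s z) (t - s) / (t - s)

/-! ## The inequality of Kazdan -/

/-- HKE (short-medium). The kernel identity. With `q = sin^{n-2}`, `ρ = sin^{n-1} = q sin`,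
`D(r) = ∫_0^r ∫_r^π q(t-s) sin s sin t dt ds`: `D(0) = 0` and
`D'(r) = sin r (b(r) - a(r))`, `a(r) = ∫_0^r q(r-s) sin s ds = ∫_0^r q(x) sin(r-x) dx`,
`b(r) = ∫_r^π q(t-r) sin t dt = ∫_r^π q(x) sin(x-r) dx` (substitute `x = π - (t - r)`, `q(π-x) = q(x)`), so
`b - a = ∫_0^π q(x) sin(x-r) dx = cos r ∫ρ - sin r ∫ q cos = cos r ∫ρ`
(`∫_0^π q cos = 0` by symmetry). Alternative: expand `sin(t-s)`-free, e.g. substitute `t = s + x` and compute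
the inner integral for fixed `x`. -/
def HKE_stmt : Prop :=
  ∀ n : ℕ, 2 ≤ n → ∀ r ∈ Icc 0 Real.pi,
    ∫ s in (0 : ℝ)..r, ∫ t in r..Real.pi,
        Real.sin (t - s) ^ (n - 2) * (Real.sin s * Real.sin t) =
      1 / 2 * Real.sin r ^ 2 * ∫ x in (0 : ℝ)..Real.pi, Real.sin x ^ (n - 1)

/-- HKL (medium). From HKE: the linear identity (Tonelli). First formula: the left side is
`∫ f(s) (P(π-s) + P(s)) ds`, `P(x) = ∫_0^x sin^{n-1}`, and `P(π-s) + P(s) = P(π)` by the symmetry of the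
sine. Second formula: exchange the integrals, `∫ f(r)/sin² r · 2 D(r) dr`, `D` of HKE. -/
def HKL_stmt : Prop :=
  ∀ n : ℕ, 2 ≤ n → ∀ f : ℝ → ℝ, Measurable f → (∀ r, 0 ≤ f r) →
    ∫⁻ s in Ioo 0 Real.pi, ∫⁻ t in Ioo s Real.pi,
        ENNReal.ofReal (Real.sin (t - s) ^ (n - 1) * (f s + f t)) =
      ENNReal.ofReal (∫ x in (0 : ℝ)..Real.pi, Real.sin x ^ (n - 1)) *
        ∫⁻ r in Ioo 0 Real.pi, ENNReal.ofReal (f r) ∧
    ∫⁻ s in Ioo 0 Real.pi, ∫⁻ t in Ioo s Real.pi,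
        ENNReal.ofReal (2 * Real.sin (t - s) ^ (n - 2) * (Real.sin s * Real.sin t)) *
          ∫⁻ r in Ioo s t, ENNReal.ofReal (f r / Real.sin r ^ 2) =
      ENNReal.ofReal (∫ x in (0 : ℝ)..Real.pi, Real.sin x ^ (n - 1)) *
        ∫⁻ r in Ioo 0 Real.pi, ENNReal.ofReal (f r)

/-- HKJ (short-medium). Jensen's inequality for the probability density
`p(r) = sin s sin t/(sin(t-s) sin² r)` on `[s,t]` (`∫_s^t dr/sin² r = cot s - cot t = sin(t-s)/(sin s sin t)`).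
`∫_s^t v^{-2} = (sin(t-s)/(sin s sin t)) ∫ (sin² r/v²) p(r) dr`, and by concavity of `log`
`log ∫ (sin²/v²) p ≥ ∫ log(sin²/v²) p = -2 ∫ (f - K) p`, `f = log v - log sin + K`. -/
def HKJ_stmt : Prop :=
  ∀ (s t K : ℝ) (v : ℝ → ℝ), 0 < s → s < t → t < Real.pi → ContinuousOn v (Icc s t) →
    (∀ r ∈ Icc s t, 0 < v r) →
    (Real.log (v s) - Real.log (Real.sin s) + K) + (Real.log (v t) - Real.log (Real.sin t) + K) -
        2 * (Real.sin s * Real.sin t / Real.sin (t - s)) *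
          ∫ r in s..t, (Real.log (v r) - Real.log (Real.sin r) + K) / Real.sin r ^ 2 ≤
      Real.log (v s * v t * (∫ r in s..t, (v r ^ 2)⁻¹) / Real.sin (t - s))

/-- HK0 (medium). From HKL, HKJ: the inequality of Kazdan. Let `F = log(v(s) v(t) ∫v^{-2}/sin(t-s))` and
`f = log v - log sin + K ≥ 0` on `(0,π)` (`v ≥ const > 0`, `sin ≤ 1`; extend by `0`); `f` is integrable on
`(0,π)` (`log sin` is: `intervalIntegrable_log_sin` in Mathlib). Pointwise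
`(v v ∫)^{n-1} = sin^{n-1}(t-s) e^{(n-1)F} ≥ sin^{n-1} (1 + (n-1) F)` and HKJ give
`(v v ∫)^{n-1} + (n-1) 2 sin^{n-2}(t-s) sin s sin t ∫ f/sin² ≥ sin^{n-1}(t-s) + (n-1) sin^{n-1}(t-s) (f(s)+f(t))`.
Integrate over the triangle; the two `f`-terms are equal and finite (HKL). Finally
`∫∫_{s<t} sin^{n-1}(t-s) = ∫_0^π (π-x) sin^{n-1} x dx = (π/2) ∫_0^π sin^{n-1} = π X0`. -/
def HK0_stmt : Prop :=
  ∀ n : ℕ, 2 ≤ n → ∀ v : ℝ → ℝ, ContinuousOn v (Icc 0 Real.pi) → (∀ r ∈ Icc 0 Real.pi, 0 < v r) →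
    ENNReal.ofReal (Real.pi * X0 n) ≤ ∫⁻ s in Ioo 0 Real.pi, ∫⁻ t in Ioo s Real.pi,
      ENNReal.ofReal ((v s * v t * ∫ r in s..t, (v r ^ 2)⁻¹) ^ (n - 1))

/-- HK1 (medium). From HK0: change of parameter. `τ(u) = (π/T) ∫_{-a}^u θ` is a `C^1` increasing
bijection `[-a,a] → [0,π]`, inverse `U`. Apply HK0 to `v(τ) = ψ(U τ) sqrt(π θ(U τ)/T)`:
`v(τ_s) v(τ_t) ∫ v^{-2} dτ = (π/T) sqrt(θ θ) ψ ψ ∫ ψ^{-2}` (`dτ = (π/T) θ du`), and
`dτ dτ' = (π/T)² θ θ du du'`. So the integral is `(T/π)^{n+1}` times the one of HK0. -/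
def HK1_stmt : Prop :=
  ∀ n : ℕ, 2 ≤ n → ∀ (a : ℝ) (θ ψ : ℝ → ℝ), 0 < a → Continuous θ → (∀ u, 0 < θ u) →
    ContinuousOn ψ (Icc (-a) a) → (∀ u ∈ Icc (-a) a, 0 < ψ u) →
    ENNReal.ofReal (cK n * (∫ u in (-a)..a, θ u) ^ (n + 1)) ≤
      ∫⁻ s in Ioo (-a) a, ∫⁻ t in Ioo s a,
        ENNReal.ofReal ((ψ s * ψ t * ∫ r in s..t, (ψ r ^ 2)⁻¹) ^ (n - 1) *
          Real.sqrt (θ s * θ t) ^ (n + 1))

/-- HK2 (medium). From HK1: the same for bounded measurable `θ ≥ 0`. There are continuous functions `g_i`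
with `g_i → θ` almost everywhere on `[-a,a]` (density of continuous functions in `L^1`, a subsequence
converges almost everywhere); put `θ_i = min (max g_i 0) C + 1/(i+1)`. By dominated convergence (the
integrand is bounded on the triangle: `ψ ≤ B`, `ψ ≥ b > 0`) both sides for `θ_i` converge to those for `θ`. -/
def HK2_stmt : Prop :=
  ∀ n : ℕ, 2 ≤ n → ∀ (a C : ℝ) (θ ψ : ℝ → ℝ), 0 < a → Measurable θ → (∀ u, 0 ≤ θ u ∧ θ u ≤ C) →
    ContinuousOn ψ (Icc (-a) a) → (∀ u ∈ Icc (-a) a, 0 < ψ u) →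
    ENNReal.ofReal (cK n * (∫ u in (-a)..a, θ u) ^ (n + 1)) ≤
      ∫⁻ s in Ioo (-a) a, ∫⁻ t in Ioo s a,
        ENNReal.ofReal ((ψ s * ψ t * ∫ r in s..t, (ψ r ^ 2)⁻¹) ^ (n - 1) *
          Real.sqrt (θ s * θ t) ^ (n + 1))

end Pool.Agent.CRO
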