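import Pool.Agent.helper58.CRO.SpecH

/-!
# MP_5bf3c3_gt, Theorem 4, block I: geodesic segments in the ball, pairs, flux, levels

Paper proof: Pool/Agent/helper58/CRO/PROOF4.md (sections 1, 2).
Every `XX_stmt` is one row `cro:XX`; its complete proof is in its docstring.
-/

open scoped Manifold ContDiff Topology ENNReal
open MeasureTheory Set

noncomputable section

namespace Pool.Agent.CRO

variable {n : ℕ} {r0 : ℝ}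

/-- The component of the unit covector `z.2/|z.2|` in the radial direction. -/
def rc (𝒢 : NChart n r0) (z : PS n) : ℝ := inner ℝ z.1 z.2 / (‖z.1‖ * sp 𝒢 z)

/-- The points of the ball of radius `R` with speed between `e` and `1`. -/
def SL (𝒢 : NChart n r0) (e R : ℝ) : Set (PS n) := {z | ‖z.1‖ < R ∧ e < sp 𝒢 z ∧ sp 𝒢 z < 1}

/-- The orbit of `z` stays in the ball of radius `R` between the times `0` and `u`. -/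
def Stay (Φ : ℝ → PS n → PS n) (R : ℝ) (z : PS n) (u : ℝ) : Prop :=
  ∀ s ∈ uIcc 0 u, ‖(Φ s z).1‖ < R

/-- The weighted time `∫ θ` spent by the segment of `z` in the ball of radius `R`. -/
def TT (Φ : ℝ → PS n → PS n) (R : ℝ) (θ : En n → ℝ) (z : PS n) : ℝ≥0∞ :=
  ∫⁻ u in {u | Stay Φ R z u}, ENNReal.ofReal (θ (Φ u z).1)

/-- The points whose segment in the ball of radius `R` meets the ball of radius `ρ`. -/
def Hit (Φ : ℝ → PS n → PS n) (R ρ : ℝ) : Set (PS n) := {z | ∃ u, Stay Φ R z u ∧ ‖(Φ u z).1‖ < ρ}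

/-- An orbit (of speed `< 1`) which stays in the ball of radius `ρ` on `[0,T]`, `T < L`, has length
less than `2 ρ`. -/
def HasLen (𝒢 : NChart n r0) (L : ℝ) : Prop :=
  ∀ (c : ℝ → PS n) (T ρ : ℝ), 0 ≤ T → T < L → 0 < ρ → ρ ≤ r0 → nrm2 𝒢 (c 0) < 1 →
    (∀ t ∈ Icc 0 T, ‖(c t).1‖ < ρ ∧ HasDerivAt c (hvf (ham 𝒢) (c t)) t) →
    sp 𝒢 (c 0) * T < 2 * ρ

/-- Standing assumptions. -/
structure Std (𝒢 : NChart n r0) (L R e r1 : ℝ) (H : PS n → ℝ) (Φ : ℝ → PS n → PS n) : Prop where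
  n2 : 2 ≤ n
  fl : IsGFlow 𝒢 r1 H Φ
  ex : HasExp 𝒢 L
  ln : HasLen 𝒢 L
  Rpos : 0 < R
  Rr : R < r1
  epos : 0 < e
  elt : e < 1
  RL : 2 * R < e * L

/-- `∫_c^1 (1-t²)^{(n-1)/2} dt`. -/
def MMc (n : ℕ) (c : ℝ) : ℝ := ∫ t in c..1, Real.sqrt (1 - t ^ 2) ^ (n - 1)

/-- `(1-c²)^{(n+1)/2}/n - c ∫_c^1 (1-t²)^{(n-1)/2} dt`. -/
def BTc (n : ℕ) (c : ℝ) : ℝ := Real.sqrt (1 - c ^ 2) ^ (n + 1) / n - c * MMc n c

/-- `c (1-c²)^{(n-1)/2}/n + ∫_c^1 (1-t²)^{(n-1)/2} dt`. -/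
def SSc (n : ℕ) (c : ℝ) : ℝ := c * Real.sqrt (1 - c ^ 2) ^ (n - 1) / n + MMc n c

/-- IWN (medium). Segments are bounded. Let `z ∈ SL`. `S = {u | Stay u}` is an open interval containing `0`
(continuity of the flow). If `u1 ≤ 0 ≤ u2` are in `S`, `T = u2 - u1`: the orbit of `Φ u1 z` stays in the
ball of radius `R < r1` on `[0,T]`; its `nrm2` is constant (NRG) and it solves Hamilton's equations for
`ham 𝒢` there (HVA, `nrm2 < 1`). If `T < L`, HasLen (with `ρ = R`) gives `sp z T < 2R`. If `T ≥ L`, apply the same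
to `T' ∈ (2R/e, L)`: `sp z T' < 2R < e T' < sp z T'`, impossible. So `sp z T < 2 R` always, and
`T < 2R/e < L`. Let `α = inf S`, `β = sup S`. At `β` the norm is `≤ R` by continuity and not `< R`
(otherwise `S` could be enlarged). -/
def IWN_stmt : Prop :=
  ∀ (n : ℕ) (r0 : ℝ) (𝒢 : NChart n r0) (L R e r1 : ℝ) (H : PS n → ℝ) (Φ : ℝ → PS n → PS n),
    Std 𝒢 L R e r1 H Φ → ∀ z ∈ SL 𝒢 e R, ∃ α β : ℝ, α < 0 ∧ 0 < β ∧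
      (∀ u, Stay Φ R z u ↔ u ∈ Ioo α β) ∧ sp 𝒢 z * (β - α) ≤ 2 * R ∧ β - α < L ∧
      ‖(Φ α z).1‖ = R ∧ ‖(Φ β z).1‖ = R ∧
      ∀ u ∈ Icc α β, ‖(Φ u z).1‖ ≤ R ∧ nrm2 𝒢 (Φ u z) = nrm2 𝒢 z

/-- INV (short-medium). From IWN (or directly from NRG): invariance along the segment. For `z ∈ SL` and
`Stay u`: `Stay (Φ u z) v ↔ Stay z (u + v)` (`Φ v (Φ u z) = Φ (u+v) z`; the interval between `0` and `u`, and
the interval between `u` and `u+v`, cover the one between `0` and `u+v`, and conversely), so the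
segments of `z` and `Φ u z` are translates of each other. -/
def INV_stmt : Prop :=
  ∀ (n : ℕ) (r0 : ℝ) (𝒢 : NChart n r0) (L R e r1 : ℝ) (H : PS n → ℝ) (Φ : ℝ → PS n → PS n),
    Std 𝒢 L R e r1 H Φ → ∀ z ∈ SL 𝒢 e R, ∀ u, Stay Φ R z u →
      Φ u z ∈ SL 𝒢 e R ∧ sp 𝒢 (Φ u z) = sp 𝒢 z ∧
      (∀ v, Stay Φ R (Φ u z) v ↔ Stay Φ R z (u + v)) ∧
      (∀ θ : En n → ℝ, TT Φ R θ (Φ u z) = TT Φ R θ z) ∧
      ∀ ρ, Φ u z ∈ Hit Φ R ρ ↔ z ∈ Hit Φ R ρ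

/-- IME (medium). Measurability. `{(z,u) | Stay z u}` is open (joint continuity of the flow and
compactness of `uIcc 0 u`); `SL` is open, and `sp`, `rc` restricted to `SL` are measurable (`G` is continuous
on the ball of radius `r0 > R`); `Hit` is open; `TT` is measurable for measurable `θ` (Tonelli);
`EE 𝒢 Φ z u` is measurable on `{(z,u) | z ∈ SL, Stay z u}` (`BB Φ u z` is jointly continuous, `dcont`). -/
def IME_stmt : Prop :=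
  ∀ (n : ℕ) (r0 : ℝ) (𝒢 : NChart n r0) (L R e r1 : ℝ) (H : PS n → ℝ) (Φ : ℝ → PS n → PS n),
    Std 𝒢 L R e r1 H Φ →
      IsOpen {q : PS n × ℝ | Stay Φ R q.1 q.2} ∧ IsOpen (SL 𝒢 e R) ∧
      Measurable ((SL 𝒢 e R).indicator (sp 𝒢)) ∧ Measurable ((SL 𝒢 e R).indicator (rc 𝒢)) ∧
      (∀ ρ, IsOpen (Hit Φ R ρ)) ∧ (∀ θ : En n → ℝ, Measurable θ → Measurable (TT Φ R θ)) ∧
      Measurable ({q : PS n × ℝ | q.1 ∈ SL 𝒢 e R ∧ Stay Φ R q.1 q.2}.indicator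
        (fun q : PS n × ℝ => EE 𝒢 Φ q.1 q.2))

/-- IMT (medium). From INV, IME: the mass transport formula. Both sides are
`∫ du ∫_{z : z ∈ SL, Stay z u}` (Tonelli). Substitute `z' = Φ u z` (measure preserving):
`z = Φ (-u) z'`, and `z ∈ SL, Stay z u ↔ z' ∈ SL, Stay z' (-u)` (INV). So the left side is
`∫ du ∫_{z' ∈ SL, Stay z' (-u)} h(Φ (-u) z', z') dz'`; finally `u ↦ -u`. -/
def IMT_stmt : Prop :=
  ∀ (n : ℕ) (r0 : ℝ) (𝒢 : NChart n r0) (L R e r1 : ℝ) (H : PS n → ℝ) (Φ : ℝ → PS n → PS n),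
    Std 𝒢 L R e r1 H Φ → ∀ h : PS n → PS n → ℝ≥0∞,
      Measurable ((SL 𝒢 e R ×ˢ SL 𝒢 e R).indicator (fun q : PS n × PS n => h q.1 q.2)) →
      ∫⁻ z in SL 𝒢 e R, ∫⁻ u in {u | Stay Φ R z u}, h z (Φ u z) =
        ∫⁻ z in SL 𝒢 e R, ∫⁻ u in {u | Stay Φ R z u}, h (Φ u z) z

/-- IPR (medium-long). From IWN, IME, NRG, HVA: counting pairs. Tonelli: integrate over `v > 0` last. Fix `v` and
`x = z.1`, and let `Ex, D` be given by `HasExp` at `x`. For `z = (x,p) ∈ SL` with `Stay z v` (`v < L` by IWN): the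
orbit solves Hamilton's equations for `ham 𝒢` on `[0,v]` (HVA, NRG), so `v p ∈ D` and `(Φ v z).1 = Ex (v p)`;
the same holds for `(x,p')`, `p'` near `p` (as in NDG), so `BB Φ v z = v • D Ex (v p)`,
`|det BB Φ v z| = v^n |det D Ex (v p)|`. With `q = v p`, `|p|_x = |q|_x/v` (`|q|_x = sp (x,q)`), `dp = v^{-n} dq`:
`∫ |p|^n |det BB| v^{-1} (..) dp = ∫ |q|^n v^{-n-1} |det D Ex(q)| (..) dq` over (a subset of)
`{q ∈ D : ‖Ex q‖ < R, |q| < v < |q|/e}`. Integrate over `v`: `∫_{|q|}^{|q|/e} |q|^n v^{-n-1} dv = (1-e^n)/n`.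
So the left side is at most `((1-e^n)/n) ∫_x w(x) (det G x)^{-1/2} ∫_{q ∈ D, ‖Ex q‖ < R} |det D Ex(q)| w(Ex q)
(det G(Ex q))^{-1/2}`, and by the change of variables formula (`Ex` is injective and differentiable on the
open set `D`) the inner integral is at most `∫_{y ∈ ball 0 R} w(y) (det G y)^{-1/2}`. -/
def IPR_stmt : Prop :=
  ∀ (n : ℕ) (r0 : ℝ) (𝒢 : NChart n r0) (L R e r1 : ℝ) (H : PS n → ℝ) (Φ : ℝ → PS n → PS n),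
    Std 𝒢 L R e r1 H Φ → ∀ w : En n → ℝ≥0∞, Measurable w →
      ∫⁻ z in SL 𝒢 e R, ∫⁻ v in {v | 0 < v ∧ Stay Φ R z v},
          ENNReal.ofReal (sp 𝒢 z ^ n * EE 𝒢 Φ z v / v) * w z.1 * w (Φ v z).1 ≤
        ENNReal.ofReal ((1 - e ^ n) / n) *
          (∫⁻ x in Metric.ball (0 : En n) R,
            w x * ENNReal.ofReal (Real.sqrt (𝒢.G x).det)⁻¹) ^ 2

/-- IPK (medium). From IWN, INV, HKQ, HK2: the inequality for one segment. Let `(α,β)` be the segment of `z`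
(IWN), `u0 = (α+β)/2`, `0 < ε < (β-α)/2`, `a = (β-α)/2 - ε`, `k = ε/2`, `z' = Φ u0 z`. HKQ for `z'`
(`2a + k < β - α < L`, the orbit of `z'` stays in the ball of radius `R < r1` on `[-a-k,a]`) gives `ψ`; HK2 with
`θ ∘ (Φ u z').1` (bounded measurable). So `cK T_ε^{n+1} ≤ ∫∫_{-a<s<t<a} (EE (Φ s z') (t-s)/(t-s)) sqrt(θ θ)^{n+1}`,
`T_ε = ∫_{-a}^a θ`. Enlarge the domain to the whole segment (`u = u0 + s`, `v = t - s`) and let `ε → 0`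
(monotone convergence). -/
def IPK_stmt : Prop :=
  ∀ (n : ℕ) (r0 : ℝ) (𝒢 : NChart n r0) (L R e r1 : ℝ) (H : PS n → ℝ) (Φ : ℝ → PS n → PS n),
    Std 𝒢 L R e r1 H Φ → ∀ (θ : En n → ℝ) (C : ℝ), Measurable θ → (∀ x, 0 ≤ θ x ∧ θ x ≤ C) →
      ∀ z ∈ SL 𝒢 e R, ENNReal.ofReal (cK n) * TT Φ R θ z ^ (n + 1) ≤
        ∫⁻ u in {u | Stay Φ R z u}, ∫⁻ v in {v | 0 < v ∧ Stay Φ R (Φ u z) v},
          ENNReal.ofReal (EE 𝒢 Φ (Φ u z) v / v) *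
            ENNReal.ofReal (Real.sqrt (θ (Φ u z).1) ^ (n + 1)) *
            ENNReal.ofReal (Real.sqrt (θ (Φ v (Φ u z)).1) ^ (n + 1))

/-- IPI (medium). From IPR, IPK, IMT, INV, IME, IWN: inequality (1.1) of PROOF4.md. `w = ofReal (sqrt θ ^ (n+1))`,
`F(z) = ∫_{v > 0, Stay z v} ofReal(sp^n EE/v) w(z.1) w((Φ v z).1)`. If `F(z) ≠ 0` then `0 < TT z` (`w ≠ 0` on a set
of `v` of positive measure), and `TT z < ∞` (bounded segment). IMT with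
`h(z,z') = F(z) (TT z)⁻¹ ofReal(θ z'.1)` (`0` if `TT z = 0`): the left side is `∫ F`, the right side is
`∫ θ(z.1) (TT z)⁻¹ ∫_{u} F(Φ u z) ≥ ∫ θ(z.1) (TT z)⁻¹ sp^n cK (TT z)^{n+1}` (IPK, `TT` and `sp` are constant along
the segment). IPR bounds `∫ F`. Multiply by `n`. -/
def IPI_stmt : Prop :=
  ∀ (n : ℕ) (r0 : ℝ) (𝒢 : NChart n r0) (L R e r1 : ℝ) (H : PS n → ℝ) (Φ : ℝ → PS n → PS n),
    Std 𝒢 L R e r1 H Φ → ∀ (θ : En n → ℝ) (C : ℝ), Measurable θ → (∀ x, 0 ≤ θ x ∧ θ x ≤ C) →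
      ENNReal.ofReal (n * cK n) *
          ∫⁻ z in SL 𝒢 e R, ENNReal.ofReal (sp 𝒢 z ^ n * θ z.1) * TT Φ R θ z ^ n ≤
        ENNReal.ofReal (1 - e ^ n) * (∫⁻ x in Metric.ball (0 : En n) R,
          ENNReal.ofReal (Real.sqrt (θ x) ^ (n + 1) * (Real.sqrt (𝒢.G x).det)⁻¹)) ^ 2

/-- IFX (medium). From IWN, INV, IME, IMT, DNM: the flux inequality. IMT with
`h(z,z') = 1[z ∈ Hit, ρa ≤ ‖z.1‖ < ρb] ofReal(rc z) (TT z)⁻¹ ofReal(θ z'.1)` (`0 < TT < ∞`, as `θ` is bounded below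
and above): the left side is the right side of the claim. The right side of IMT is
`∫_{z ∈ SL ∩ Hit} θ(z.1) (TT z)⁻¹ ∫_{u} 1[ρa ≤ ‖(Φ u z).1‖ < ρb] ofReal(rc (Φ u z)) du`; the inner integral is
`≥ (ρb - ρa)/sp z`: the orbit is at some time `u0` of the segment `(α,β)` in the ball of radius `ρ ≤ ρa`, and
`‖(Φ β z).1‖ = R ≥ ρb`. Let `u2` be the first time after `u0` with norm `ρb` (`u2 ≤ β`), `u1 < u2` the last time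
before `u2` with norm `ρa`; on `[u1,u2)` the norm is in `[ρa,ρb)` and its derivative is
`⟨x,p⟩/‖x‖ = sp · rc` (DNM), so `ρb - ρa = ∫_{u1}^{u2} sp rc ≤ sp ∫ rc_+`. For the second claim use the
times before `u0` (the norm is `R` at `α`) and `-rc`. -/
def IFX_stmt : Prop :=
  ∀ (n : ℕ) (r0 : ℝ) (𝒢 : NChart n r0) (L R e r1 : ℝ) (H : PS n → ℝ) (Φ : ℝ → PS n → PS n),
    Std 𝒢 L R e r1 H Φ → ∀ (θ : En n → ℝ) (c C : ℝ), Measurable θ → 0 < c →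
      (∀ x, c ≤ θ x ∧ θ x ≤ C) → ∀ ρ ρa ρb : ℝ, 0 < ρ → ρ ≤ ρa → ρa < ρb → ρb ≤ R →
      (ENNReal.ofReal (ρb - ρa) *
          ∫⁻ z in SL 𝒢 e R ∩ Hit Φ R ρ, ENNReal.ofReal (θ z.1 / sp 𝒢 z) * (TT Φ R θ z)⁻¹ ≤
        ∫⁻ z in SL 𝒢 e R ∩ Hit Φ R ρ ∩ {z | ρa ≤ ‖z.1‖ ∧ ‖z.1‖ < ρb},
          ENNReal.ofReal (rc 𝒢 z)) ∧
      (ENNReal.ofReal (ρb - ρa) *
          ∫⁻ z in SL 𝒢 e R ∩ Hit Φ R ρ, ENNReal.ofReal (θ z.1 / sp 𝒢 z) * (TT Φ R θ z)⁻¹ ≤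
        ∫⁻ z in SL 𝒢 e R ∩ Hit Φ R ρ ∩ {z | ρa ≤ ‖z.1‖ ∧ ‖z.1‖ < ρb},
          ENNReal.ofReal (-rc 𝒢 z))

/-- ISL (medium). Slicing orthogonally to a unit vector. There is a linear isometry of `R^{m+1}` which maps
the unit vector to the first basis vector, and `EuclideanSpace ℝ (Fin (m+1))` with its volume is
`ℝ × EuclideanSpace ℝ (Fin m)` (`MeasurableEquiv.piFinSuccAbove`,
`MeasureTheory.volume_preserving_piFinSuccAbove`, `EuclideanSpace.volume_preserving_measurableEquiv`). -/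
def ISL_stmt : Prop :=
  ∀ (m : ℕ) (e : En (m + 1)), ‖e‖ = 1 → ∀ F : ℝ → ℝ → ℝ≥0∞,
    Measurable (fun q : ℝ × ℝ => F q.1 q.2) →
    ∫⁻ q : En (m + 1), F (inner ℝ e q) (Real.sqrt (‖q‖ ^ 2 - (inner ℝ e q) ^ 2)) =
      ∫⁻ t : ℝ, ∫⁻ y : En m, F t ‖y‖

/-- ISV (medium). From ISL: the volume of a spherical sector, `0 < c ≤ 1`. The slice of
`{q : ‖q‖ < 1, c ‖q‖ < ⟨e,q⟩}` at height `t` is empty for `t ≤ 0`, and the ball of radius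
`min(t sqrt(1-c²)/c, sqrt(1-t²))` in `R^{n-1}` for `0 < t < 1`; the minimum is the first for `t ≤ c`. So the
volume is `kap (n-1) (∫_0^c (t sqrt(1-c²)/c)^{n-1} dt + ∫_c^1 (1-t²)^{(n-1)/2} dt)`. For the second claim:
slices of the whole ball. -/
def ISV_stmt : Prop :=
  ∀ n : ℕ, 2 ≤ n → ∀ e : En n, ‖e‖ = 1 →
    (∀ c : ℝ, 0 < c → c ≤ 1 →
      volume {q : En n | ‖q‖ < 1 ∧ c * ‖q‖ < inner ℝ e q} =
        ENNReal.ofReal (kap (n - 1) * SSc n c)) ∧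
    kap n = 2 * kap (n - 1) * MMc n 0

/-- ISE (short-medium). From ISV: the integral of `(⟨e,q⟩/‖q‖ - c)_+` over the unit ball, `0 ≤ c ≤ 1`. Layer cake:
it is `∫_c^1 vol{q : ‖q‖ < 1, t ‖q‖ < ⟨e,q⟩} dt = kap (n-1) ∫_c^1 SSc n t dt`, and `BTc' = -SSc`,
`BTc n 1 = 0`. -/
def ISE_stmt : Prop :=
  ∀ n : ℕ, 2 ≤ n → ∀ e : En n, ‖e‖ = 1 → ∀ c : ℝ, 0 ≤ c → c ≤ 1 →
    ∫⁻ q in Metric.ball (0 : En n) 1, ENNReal.ofReal (inner ℝ e q / ‖q‖ - c) =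
      ENNReal.ofReal (kap (n - 1) * BTc n c)

/-- ICP (medium). From ISE: the same in a shell. Fix `x ≠ 0` in the shell (`x = 0` is negligible),
`x̂ = x/‖x‖`, `S` the positive definite square root of `G x`: `S x̂ = x̂` (as `G x̂ = x̂`), so with `q = S p`:
`‖q‖² = ⟨G p, p⟩`, `⟨x̂, p⟩ = ⟨S⁻¹ x̂, q⟩ = ⟨x̂, q⟩`, `rc = ⟨x̂,q⟩/‖q‖`, `dp = (det G)^{-1/2} dq`
(see the proof of ELL, helper79 or others, for the square root). The integrand is homogeneous of degree `0`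
in `q`, so its integral over `e < ‖q‖ < 1` is `(1 - e^n)` times the integral over the unit ball. Tonelli
over `x`: `∫_{ρa ≤ ‖x‖ < ρb} (det G)^{-1/2} = VV ρb - VV ρa`. -/
def ICP_stmt : Prop :=
  ∀ (n : ℕ) (r0 : ℝ) (𝒢 : NChart n r0) (e ρa ρb : ℝ), 2 ≤ n → 0 < e → e < 1 → 0 ≤ ρa → ρa < ρb →
    ρb < r0 →
    volume {z : PS n | (ρa ≤ ‖z.1‖ ∧ ‖z.1‖ < ρb) ∧ e < sp 𝒢 z ∧ sp 𝒢 z < 1} =
      ENNReal.ofReal ((1 - e ^ n) * (kap n * (VV 𝒢 ρb - VV 𝒢 ρa))) ∧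
    ∀ c : ℝ, 0 ≤ c → c ≤ 1 →
      ∫⁻ z in {z : PS n | (ρa ≤ ‖z.1‖ ∧ ‖z.1‖ < ρb) ∧ e < sp 𝒢 z ∧ sp 𝒢 z < 1},
          ENNReal.ofReal (rc 𝒢 z - c) =
        ENNReal.ofReal ((1 - e ^ n) * (kap (n - 1) * BTc n c * (VV 𝒢 ρb - VV 𝒢 ρa))) ∧
      ∫⁻ z in {z : PS n | (ρa ≤ ‖z.1‖ ∧ ‖z.1‖ < ρb) ∧ e < sp 𝒢 z ∧ sp 𝒢 z < 1},
          ENNReal.ofReal (-rc 𝒢 z - c) =
        ENNReal.ofReal ((1 - e ^ n) * (kap (n - 1) * BTc n c * (VV 𝒢 ρb - VV 𝒢 ρa)))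

/-- IBT (short-medium). From IFX, ICP, IME: the bathtub inequality (2.1). Let `E` be the set
`SL ∩ Hit ∩ shell`, `E± = E ∩ {±rc > 0}`. `rc_+ ≤ c 1[rc > 0] + (rc - c)_+`, so
`∫_E rc_+ ≤ c vol(E+) + ∫_{shell} (rc - c)_+`; the same for `-rc`; add, `vol(E+) + vol(E-) ≤ vol E`. -/
def IBT_stmt : Prop :=
  ∀ (n : ℕ) (r0 : ℝ) (𝒢 : NChart n r0) (L R e r1 : ℝ) (H : PS n → ℝ) (Φ : ℝ → PS n → PS n),
    Std 𝒢 L R e r1 H Φ → ∀ (θ : En n → ℝ) (c C : ℝ), Measurable θ → 0 < c →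
      (∀ x, c ≤ θ x ∧ θ x ≤ C) → ∀ ρ ρa ρb : ℝ, 0 < ρ → ρ ≤ ρa → ρa < ρb → ρb ≤ R →
      ∀ b : ℝ, 0 ≤ b → b ≤ 1 →
      2 * (ENNReal.ofReal (ρb - ρa) *
          ∫⁻ z in SL 𝒢 e R ∩ Hit Φ R ρ, ENNReal.ofReal (θ z.1 / sp 𝒢 z) * (TT Φ R θ z)⁻¹) ≤
        ENNReal.ofReal b *
            volume (SL 𝒢 e R ∩ Hit Φ R ρ ∩ {z | ρa ≤ ‖z.1‖ ∧ ‖z.1‖ < ρb}) +
          2 * ENNReal.ofReal ((1 - e ^ n) *
            (kap (n - 1) * BTc n b * (VV 𝒢 ρb - VV 𝒢 ρa)))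

/-- The volume of the `j`-th shell (`N` shells, `1 ≤ j ≤ N`). -/
def vv (𝒢 : NChart n r0) (R : ℝ) (N j : ℕ) : ℝ :=
  VV 𝒢 (j * (R / N)) - VV 𝒢 (((j : ℝ) - 1) * (R / N))

/-- IGE (medium-long). From GFL, IPI, IBT, ICP, INV, IME, IWN: the discrete form of (1.1) with levels. Choose
`e ∈ (0,1)` with `2R < e L`, `r1 ∈ (R, r0)`, the flow (GFL). `h = R/N`, `θ(x) = θ_j` for `(j-1)h ≤ ‖x‖ < jh`
(`1 ≤ j ≤ N`; `θ_N` for `‖x‖ ≥ R`): measurable, between positive constants. `H_k = Hit R (k h)`, `H_0 = ∅`,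
`SL ⊆ H_N`. `m_k = ∫_{SL ∩ H_k} θ/(sp TT)` (finite for `1 ≤ k < N` by IBT with `b = 0`, `ρa = kh`, `ρb = (k+1)h`),
`y k = n m_k/((1-e^n) kap(n-1))`, `Lm k j = vol(SL ∩ H_k ∩ Sh_j)/(1-e^n)`. The threshold inequality is IBT divided
by `1-e^n`. For `j ≤ k`: `SL ∩ Sh_j ⊆ H_k` and `vol(SL ∩ Sh_j) = (1-e^n) kap n vv_j` (ICP). On
`C_k = SL ∩ (H_k \ H_{k-1})`, `1 ≤ k < N`, with `T = sp · TT` (real, positive): `sp^n TT^n θ = θ T^n ≥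
θ ((n+1) A_k - n B_k/T)` (the tangent property divided by `T`). Sum over `k < N` (the sets are disjoint, the rest
of `SL` contributes `≥ 0`): `∫_{SL} θ T^n ≥ (n+1) Σ_k A_k (c_k - c_{k-1}) - n Σ_k B_k (m_k - m_{k-1})`,
`c_k = ∫_{SL ∩ H_k} θ = (1-e^n) Σ_j θ_j Lm k j` (with `Lm k j = kap n vv_j` for `k ≥ j`). Abel summation in `k` for each
`j` (`A_N = 0`): `Σ_{k<N} A_k (Lm k j - Lm (k-1) j) = Σ_{1 ≤ k < j} (A_k - A_{k+1}) Lm k j + A_j kap n vv_j`. Insert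
this in IPI, where `∫ sqrt θ ^{n+1} (det G)^{-1/2} = Σ_j sqrt θ_j ^{n+1} vv_j`; divide by `1 - e^n`. -/
def IGE_stmt : Prop :=
  ∀ (n : ℕ) (r0 : ℝ) (𝒢 : NChart n r0) (L R : ℝ), 2 ≤ n → HasExp 𝒢 L → HasLen 𝒢 L → 0 < R →
    R < r0 → 2 * R < L → ∀ (N : ℕ) (θ : ℕ → ℝ), 1 ≤ N → (∀ j, 0 < θ j) →
    ∃ (y : ℕ → ℝ) (Lm : ℕ → ℕ → ℝ), y 0 = 0 ∧ (∀ k, k + 1 < N → y k ≤ y (k + 1)) ∧
      (∀ k j, 1 ≤ k → k < j → j ≤ N → ∀ c ∈ Icc (0 : ℝ) 1,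
        2 * kap (n - 1) * (R / N * y k / n - BTc n c * vv 𝒢 R N j) ≤ c * Lm k j) ∧
      ∀ A B : ℕ → ℝ, Antitone A → (∀ k, 0 ≤ A k) → A N = 0 → (∀ k, 0 ≤ B k) →
        (∀ k, 1 ≤ k → k < N → ∀ T : ℝ, 0 ≤ T → (n + 1) * T * A k - n * B k ≤ T ^ (n + 1)) →
        n * cK n * ((n + 1) * (∑ j ∈ Finset.Icc 1 N, θ j *
            ((∑ k ∈ Finset.Ico 1 j, (A k - A (k + 1)) * Lm k j) + A j * (kap n * vv 𝒢 R N j))) -
          kap (n - 1) * ∑ k ∈ Finset.Ico 1 N, B k * (y k - y (k - 1))) ≤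
        (∑ j ∈ Finset.Icc 1 N, Real.sqrt (θ j) ^ (n + 1) * vv 𝒢 R N j) ^ 2

end Pool.Agent.CRO
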