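import Pool.Agent.helper58.CRO.SpecI
import Pool.Agent.helper58.CRO.SpecC

/-!
# MP_5bf3c3_gt, Theorem 4, block J: calculus, the bound for one normal chart

Paper proof: Pool/Agent/helper58/CRO/PROOF4.md (sections 2, 3, 4).
Every `XX_stmt` is one row `cro:XX`; its complete proof is in its docstring.
-/

open scoped Manifold ContDiff Topology ENNReal
open MeasureTheory Set

noncomputable section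

namespace Pool.Agent.CRO

variable {n : ℕ} {r0 : ℝ}

/-- `∫_0^φ sin^{n-2}`. -/
def FPc (n : ℕ) (φ : ℝ) : ℝ := ∫ t in (0 : ℝ)..φ, Real.sin t ^ (n - 2)

/-- `W(s) = sqrt(Ω² cos² α + s² sin² α)`. -/
def Wf (Ω α s : ℝ) : ℝ := Real.sqrt (Ω ^ 2 * Real.cos α ^ 2 + s ^ 2 * Real.sin α ^ 2)

/-- The fraction `T(α, x)`, `x = Ω/λ`, of PROOF4.md (it is `1` for `x ≥ 1`, as `sqrt` of a negative
number is `0`). -/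
def tr1 (n : ℕ) (α x : ℝ) : ℝ := FPc n (Real.arccos (Real.cos α * Real.sqrt (1 - x ^ 2))) / cW n

/-- The function `yh` of PROOF4.md; `0` for `x ≥ 1`. -/
def yh (n : ℕ) (x : ℝ) : ℝ :=
  Real.sqrt (1 - x ^ 2) * (((n : ℝ) - 1) / n + ((n : ℝ) - 1) / (n * (n + 2)) * (1 - x ^ 2) +
    3 / (n * ((n : ℝ) + 2)) * (1 - x ^ 2) ^ 2)

/-- `l_n = ∫_0^1 x^{n-2} (1 - (1-yh)^p)`, `p = (n+1)/(n-1)`. -/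
def ll (n : ℕ) : ℝ :=
  ∫ x in (0 : ℝ)..1, x ^ (n - 2) * (1 - (1 - yh n x) ^ (((n : ℝ) + 1) / ((n : ℝ) - 1)))

/-- `λ_j = (vv_j/(h om))^{1/(n-1)}`, `om = n kap n`. -/
def lj (𝒢 : NChart n r0) (R : ℝ) (N j : ℕ) : ℝ :=
  (vv 𝒢 R N j / (R / N * (n * kap n))) ^ ((1 : ℝ) / ((n : ℝ) - 1))

/-! ## Constants -/

/-- JNU (short-medium). From ISV (`kap n = 2 kap (n-1) MMc n 0`, `MMc n 0 = ∫_0^{π/2} cos^n = ((n-1)/n) cW n`;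
`kap` and `sphereVol`: see SVK, RAT), Wallis: `X0 n cW n = ∫ sin^{n-1} ∫ sin^{n-2} = π/(2(n-1))` (induction with
`∫_0^{π/2} sin^{k+2} = ((k+1)/(k+2)) ∫_0^{π/2} sin^k`; `k = 0`: `(π/2) · 1`),
`sphereVol n = 2 X0 n (n kap n)` (`n kap n = sphereVol (n-1)`, and `∫_0^π sin^{n-1} =
sqrt π Γ(n/2)/Γ((n+1)/2)`; or by the same recursion). -/
def JNU_stmt : Prop :=
  ∀ n : ℕ, 2 ≤ n → 0 < X0 n ∧ 0 < cW n ∧ 0 < kap n ∧ 0 < kap (n - 1) ∧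
    X0 n * cW n = Real.pi / (2 * ((n : ℝ) - 1)) ∧
    kap n = 2 * kap (n - 1) * (((n : ℝ) - 1) / n * cW n) ∧
    sphereVol n = 2 * X0 n * (n * kap n)

/-- JMF (short). `MMc`, `BTc` in terms of an angle: for `0 ≤ φ ≤ π/2`,
`MMc n (cos φ) = ∫_0^φ sin^n`, and (integration by parts) `cos φ sin^{n-1} φ/n + ∫_0^φ sin^n =
((n-1)/n) ∫_0^φ sin^{n-2}`, so `sin^{n-1} φ/n - BTc n (cos φ) = cos φ ((n-1)/n) FPc n φ`. -/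
def JMF_stmt : Prop :=
  ∀ n : ℕ, 2 ≤ n → ∀ φ ∈ Icc 0 (Real.pi / 2),
    Real.sin φ ^ (n - 1) / n - BTc n (Real.cos φ) =
      Real.cos φ * (((n : ℝ) - 1) / n * FPc n φ)

/-! ## Levels: from thresholds to integrals -/

/-- JCB (short-medium). Chebyshev's integral inequality, in the form used in JON. With
`y = Y sin^{n-1} φ`, `dy = Y (n-1) sin^{n-2} φ cos φ dφ`: `∫_{y1}^{y2} g dy = ∫_{φ1}^{φ2} g(Y sin^{n-1} φ)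
Y (n-1) sin^{n-2} φ cos φ dφ`. For the measure `dm = sin^{n-2} φ cos φ dφ` on `[φ1, φ2]`, the function
`g(Y sin^{n-1} φ)` is nonincreasing and `1/cos φ` nondecreasing (`φ2 ≤ π/2`, everything is integrable in the
form `∫ g sin^{n-2} dφ`), so `m(1) ∫ g (1/cos) dm ≤ ∫ g dm ∫ (1/cos) dm`: integrate
`(g(φ) - g(φ')) (1/cos φ - 1/cos φ') ≤ 0` over pairs. Here `A (y2 - y1) = ∫_{y1}^{y2} g`, `y2 - y1 = Y(n-1) m(1)`. -/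
def JCB_stmt : Prop :=
  ∀ n : ℕ, 2 ≤ n → ∀ (Y φ1 φ2 A : ℝ) (g : ℝ → ℝ), 0 < Y → 0 ≤ φ1 → φ1 ≤ φ2 → φ2 ≤ Real.pi / 2 →
    Antitone g → (∀ y, 0 ≤ g y) →
    A * (Y * Real.sin φ2 ^ (n - 1) - Y * Real.sin φ1 ^ (n - 1)) =
      (∫ y in (Y * Real.sin φ1 ^ (n - 1))..(Y * Real.sin φ2 ^ (n - 1)), g y) →
    ∫ φ in φ1..φ2, g (Y * Real.sin φ ^ (n - 1)) * Real.sin φ ^ (n - 2) ≤
      A * (FPc n φ2 - FPc n φ1)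

/-- JON (medium). From JMF, JCB, JNU: one shell. `κ = kap (n-1)`, `K = 2 κ (n-1)/n`, `kap n = K cW n`. (1) `c = 0`
in the threshold inequality (`BTc n 0 = 1/n`): `y k ≤ Y`; let `y k = Y sin^{n-1} φ_k`, `φ_k ∈ [0, π/2]`
(nondecreasing, `φ_0 = 0`). Take `c = cos φ_k`: by JMF `Lk k ≥ K v FPc n φ_k` if `cos φ_k > 0`; if `φ_k = π/2`
(`y k = Y`) take `c = cos φ`, `φ ↑ π/2`: `c Lk k ≥ 2κv (1/n - BTc n c) ≥ 2κv(sin^{n-1} φ/n - BTc n c) = c K v FPc n φ`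
and let `φ → π/2`. (2) Since `A k - A (k+1) ≥ 0`: the left side is
`≥ K v (Σ_{1≤k<j} (A_k - A_{k+1}) FPc(φ_k) + A_j cW) = K v (Σ_{1≤k<j} A_k (FPc φ_k - FPc φ_{k-1}) +
A_j (cW - FPc φ_{j-1}))`. (3) JCB on `[φ_{k-1}, φ_k]`: `A_k (FPc φ_k - FPc φ_{k-1}) ≥ ∫ g sin^{n-2}` (if
`y k = y (k-1)` then `φ_k = φ_{k-1}` and both sides are `0`). On `[φ_{j-1}, π/2]`: `∫ g sin^{n-2} ≤ g(y_{j-1}) (cW - FPc φ_{j-1})`,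
and `(g(y_{j-1}) - A_j) (cW - FPc φ_{j-1}) ≤ (g(y_{j-1}) - A_j) cW`. -/
def JON_stmt : Prop :=
  ∀ n : ℕ, 2 ≤ n → ∀ (j : ℕ) (v Y : ℝ) (y Lk A : ℕ → ℝ) (g : ℝ → ℝ), 1 ≤ j → 0 < v → 0 < Y →
    y 0 = 0 → (∀ k, k + 1 < j → y k ≤ y (k + 1)) → Antitone g → (∀ s, 0 ≤ g s) →
    (∀ k, 1 ≤ k → k < j → ∀ c ∈ Icc (0 : ℝ) 1,
      2 * kap (n - 1) * v * (y k / (n * Y) - BTc n c) ≤ c * Lk k) →
    (∀ k, 1 ≤ k → k < j → A (k + 1) ≤ A k) →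
    (∀ k, 1 ≤ k → k < j → A k * (y k - y (k - 1)) = ∫ s in (y (k - 1))..(y k), g s) →
    0 ≤ A j → A j ≤ g (y (j - 1)) →
    2 * kap (n - 1) * (((n : ℝ) - 1) / n) * v *
        ((∫ φ in (0 : ℝ)..(Real.pi / 2), g (Y * Real.sin φ ^ (n - 1)) * Real.sin φ ^ (n - 2)) -
          cW n * (g (y (j - 1)) - A j)) ≤
      (∑ k ∈ Finset.Ico 1 j, (A k - A (k + 1)) * Lk k) + A j * (kap n * v)

/-- JGG (medium). From IGE, JON, JNU, VVP: inequality (2.2) of PROOF4.md. `g = τ^n`. For `1 ≤ k < N` let `A_k`, `B_k` be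
the averages of `τ^n`, `τ^{n+1}` on `[y_{k-1}, y_k]` (the values at `y_k` if `y_k = y_{k-1}`), `A_k = 0` for `k ≥ N`,
`A_0 = τ(0)^n`. `A` is antitone, `g(y_k) ≤ A_k ≤ g(y_{k-1})`, and averaging `(n+1) T t^n - n t^{n+1} ≤ T^{n+1}`
(AM-GM, `T, t ≥ 0`) over `t = τ(s)` gives the tangent property. JON for each `j` with `v = vv_j > 0`, `Y = v/h`
(the threshold inequality of IGE is the one of JON), times `θ_j > 0`. The errors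
`2 kap(n-1) ((n-1)/n) cW θ_j vv_j (g(y_{j-1}) - A_j) = kap n θ_j vv_j (..) ≤ kap n mx (g(y_{j-1}) - A_j)`, and
`A_j ≥ g(y_j)` for `j < N`, so they telescope: the sum is `≤ kap n mx g(0)`. Finally
`Σ B_k (y_k - y_{k-1}) = ∫_0^{y_{N-1}} τ^{n+1} ≤ ∫_0^∞ τ^{n+1}`. -/
def JGG_stmt : Prop :=
  ∀ (n : ℕ) (r0 : ℝ) (𝒢 : NChart n r0) (L R : ℝ), 2 ≤ n → HasExp 𝒢 L → HasLen 𝒢 L → 0 < R →
    R < r0 → 2 * R < L → ∀ (N : ℕ) (θ : ℕ → ℝ) (τ : ℝ → ℝ) (mx : ℝ), 1 ≤ N → (∀ j, 0 < θ j) →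
    Antitone τ → (∀ s, 0 ≤ τ s) → IntegrableOn (fun s => τ s ^ (n + 1)) (Ioi 0) →
    (∀ j ∈ Finset.Icc 1 N, θ j * vv 𝒢 R N j ≤ mx) →
      n * cK n * ((n + 1) * ((∑ j ∈ Finset.Icc 1 N, θ j * vv 𝒢 R N j *
          (2 * kap (n - 1) * (((n : ℝ) - 1) / n) * ∫ φ in (0 : ℝ)..(Real.pi / 2),
            τ (vv 𝒢 R N j / (R / N) * Real.sin φ ^ (n - 1)) ^ n * Real.sin φ ^ (n - 2))) -
            kap n * mx * τ 0 ^ n) -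
        kap (n - 1) * ∫ s in Ioi (0 : ℝ), τ s ^ (n + 1)) ≤
      (∑ j ∈ Finset.Icc 1 N, Real.sqrt (θ j) ^ (n + 1) * vv 𝒢 R N j) ^ 2

/-! ## The test functions -/

/-- JF1 (short-medium). `∫_0^Ω (n-1) s^{n-2} W(s)^{-(n+1)} ds = 1/(Ω² cos² α)`: the antiderivative is
`(s/W(s))^{n-1}/(Ω² cos² α)` (`(s/W)' = Ω² cos² α/W³`), and `W(Ω) = Ω`. -/
def JF1_stmt : Prop :=
  ∀ n : ℕ, 2 ≤ n → ∀ Ω α : ℝ, 0 < Ω → 0 < α → α < Real.pi / 2 →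
    ∫ s in (0 : ℝ)..Ω, ((n : ℝ) - 1) * s ^ (n - 2) / Wf Ω α s ^ (n + 1) =
      1 / (Ω * Real.cos α) ^ 2

/-- JF2 (medium). The substitution. For `λ > 0` let `φm = arcsin(min 1 (Ω/λ))`. With `A = Ω cos α`,
`W = Wf Ω α λ`, `D(φ) = Wf Ω α (λ sin φ) = sqrt(A² + λ² sin² α sin² φ)`, `ψ(φ) = arcsin(W sin φ/D(φ))`:
`cos ψ = A cos φ/D` (`W² sin² φ + A² cos² φ = D²`), and `ψ' = A W/D²`, so
`d/dφ FPc n (ψ(φ)) = sin^{n-2} ψ ψ' = A W^{n-1} sin^{n-2} φ/D^n` for `φ < π/2`. Hence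
`∫_0^φ sin^{n-2}/D^n = FPc n (ψ(φ))/(A W^{n-1})` (continuity at `φ = π/2`). At `φm`: if `Ω ≥ λ`, `φm = π/2`,
`ψ = π/2 = arccos 0`. If `Ω < λ`: `D = Ω` (`λ sin φ = Ω`), `sin ψ = W/λ`, `cos ψ = cos α sqrt(1-(Ω/λ)²)`
(`W² = λ² - cos² α (λ² - Ω²)`), `ψ = arccos(..)`. In both cases `FPc n ψ = cW n tr1 n α (Ω/λ)`. The integrand in
the claim vanishes for `λ sin φ ≥ Ω`, i.e. for `φ ≥ φm` (or only at `φ = π/2`). -/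
def JF2_stmt : Prop :=
  ∀ n : ℕ, 2 ≤ n → ∀ Ω α l : ℝ, 0 < Ω → 0 < α → α < Real.pi / 2 → 0 < l →
    ∫ φ in (0 : ℝ)..(Real.pi / 2), (if l * Real.sin φ < Ω then
        Real.sin φ ^ (n - 2) / Wf Ω α (l * Real.sin φ) ^ n else 0) =
      cW n * tr1 n α (Ω / l) / (Ω * Real.cos α * Wf Ω α l ^ (n - 1))

/-- JSP (medium). From JGG, JF1, JF2, JNU, VVP: (2.2) for the test functions. `om = n kap n`,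
`τ(s) = t π/Wf Ω α ((s/om)^{1/(n-1)})` for `0 ≤ s < om Ω^{n-1}`, `0` for `s ≥ om Ω^{n-1}`, `t π/(Ω cos α)` for `s < 0`:
antitone. `∫_0^∞ τ^{n+1} ds = (tπ)^{n+1} om/(Ω cos α)²` (substitution `s = om σ^{n-1}`, JF1). `θ_j = κ_j²/Wf(λ_j)²`
(`1 ≤ j ≤ N`; `1` otherwise), `vv_j/h = om λ_j^{n-1}`, so `τ(vv_j/h sin^{n-1} φ) = tπ/Wf Ω α (λ_j sin φ)` if
`λ_j sin φ < Ω` and `0` otherwise: JF2. `θ_j vv_j ≤ mx/(Ω cos α)² =: mx'` (`κ_j ≤ 1`, `Wf ≥ Ω cos α`). Insert, with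
`vv_j = h om λ_j^{n-1}`, multiply by `(Ω cos α)²/om²` and use `cK π^n = X0`, `kap (n-1)/om = X0/π`
(`om = 2(n-1) cW kap(n-1)`, `X0 cW = π/(2(n-1))`). -/
def JSP_stmt : Prop :=
  ∀ (n : ℕ) (r0 : ℝ) (𝒢 : NChart n r0) (L R : ℝ), 2 ≤ n → HasExp 𝒢 L → HasLen 𝒢 L → 0 < R →
    R < r0 → 2 * R < L → ∀ (N : ℕ) (κ : ℕ → ℝ) (Ω α t mx : ℝ), 1 ≤ N → (∀ j, 0 < κ j ∧ κ j ≤ 1) →
    0 < Ω → 0 < α → α < Real.pi / 2 → 0 < t → (∀ j ∈ Finset.Icc 1 N, vv 𝒢 R N j ≤ mx) →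
      (n + 1) * X0 n * t ^ n * (Ω * Real.cos α * ∑ j ∈ Finset.Icc 1 N, R / N *
          (lj 𝒢 R N j ^ (n - 1) * κ j ^ 2 / Wf Ω α (lj 𝒢 R N j) ^ (n + 1) *
            tr1 n α (Ω / lj 𝒢 R N j))) ≤
        (Ω * Real.cos α * ∑ j ∈ Finset.Icc 1 N, R / N *
          (lj 𝒢 R N j ^ (n - 1) * κ j ^ (n + 1) / Wf Ω α (lj 𝒢 R N j) ^ (n + 1))) ^ 2 +
        n * X0 n ^ 2 * t ^ (n + 1) +
        (n + 1) * X0 n * t ^ n * (mx / (n * kap n * (Ω * Real.cos α) ^ n))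

/-- JLI (short-medium). From JSP, JNU, VVP: the linear inequality (3.1). Let `XL`, `XX` be the two sums with their factors,
`XX > 0`. `t = (XX/X0)^{2/(n+1)}`: `n X0² t^{n+1} = n XX²`, so `XL ≤ XX²/(X0 t^n) + err`, and
`XX²/(X0 t^n) = XX^{2/(n+1)} X0^{(n-1)/(n+1)} ≤ (2 XX + (n-1) X0)/(n+1)` (weighted AM-GM,
`Real.geom_mean_le_arith_mean2_weighted`). -/
def JLI_stmt : Prop :=
  ∀ (n : ℕ) (r0 : ℝ) (𝒢 : NChart n r0) (L R : ℝ), 2 ≤ n → HasExp 𝒢 L → HasLen 𝒢 L → 0 < R →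
    R < r0 → 2 * R < L → ∀ (N : ℕ) (κ : ℕ → ℝ) (Ω α mx : ℝ), 1 ≤ N → (∀ j, 0 < κ j ∧ κ j ≤ 1) →
    0 < Ω → 0 < α → α < Real.pi / 2 → (∀ j ∈ Finset.Icc 1 N, vv 𝒢 R N j ≤ mx) →
      Ω * Real.cos α * ∑ j ∈ Finset.Icc 1 N, R / N *
          (lj 𝒢 R N j ^ (n - 1) / Wf Ω α (lj 𝒢 R N j) ^ (n + 1) *
            ((n + 1) * κ j ^ 2 * tr1 n α (Ω / lj 𝒢 R N j) - 2 * κ j ^ (n + 1))) ≤
        (n - 1) * X0 n + (n + 1) * mx / (n * kap n * (Ω * Real.cos α) ^ n)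

/-- JB1 (short). `d/dα (l sin α/W)^{n-1} = (n-1) sin^{n-2} α cos α Ω² l^{n-1}/W^{n+1}`, `W = Wf Ω α l`
(`(sin α/W)' = Ω² cos α/W³`, since `W W' = (l²-Ω²) sin α cos α`). -/
def JB1_stmt : Prop :=
  ∀ n : ℕ, 2 ≤ n → ∀ Ω l a : ℝ, 0 < Ω → 0 < l → 0 ≤ a → a ≤ Real.pi / 2 →
    ∫ α in (0 : ℝ)..a, ((n : ℝ) - 1) * Real.sin α ^ (n - 2) * Real.cos α * Ω ^ 2 * l ^ (n - 1) /
        Wf Ω α l ^ (n + 1) =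
      (l * Real.sin a / Wf Ω a l) ^ (n - 1)

/-- JB2 (medium). The mean of `1 - tr1`. If `Ω ≥ l`: `tr1 = 1`, `yh = 0`. Let `x = Ω/l < 1`,
`y = sqrt(1-x²)`, `F(α) = (l sin α/W)^{n-1} = (sin α/sqrt(1-y² cos² α))^{n-1}` (`W² = l² (1 - y² cos² α)`), `F'` is the weight
(JB1). `ψ(α) = arccos(y cos α)`, `ψ' = y sin α/sqrt(1-y² cos² α)`, `sin ψ = sqrt(1-y² cos² α)`, so
`d/dα tr1 = (y/cW) sin α (1-y² cos² α)^{(n-3)/2}`. Integration by parts (`F(0) = 0`, `tr1(π/2) = 1`):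
`∫ F' (1 - tr1) = ∫ F tr1' = (y/cW) ∫_0^{π/2} sin^n α/(1-y² cos² α) dα`. With `c = cos α`, `d = y²`:
`1/(1-d c²) ≤ 1 + d c² + d² c⁴/(1-c²)`, so the integral is `≤ ∫ sin^n + d ∫ sin^n cos² + d² ∫ sin^{n-2} cos⁴ =
cW ((n-1)/n + d (n-1)/(n(n+2)) + 3 d²/(n(n+2)))` (`∫ sin^{k+2} = ((k+1)/(k+2)) ∫ sin^k`). -/
def JB2_stmt : Prop :=
  ∀ n : ℕ, 2 ≤ n → ∀ Ω l : ℝ, 0 < Ω → 0 < l →
    ∫ α in (0 : ℝ)..(Real.pi / 2), ((n : ℝ) - 1) * Real.sin α ^ (n - 2) * Real.cos α * Ω ^ 2 *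
        l ^ (n - 1) / Wf Ω α l ^ (n + 1) * (1 - tr1 n α (Ω / l)) ≤ yh n (Ω / l)

/-- JYH (short). For `x > 0`: `0 ≤ yh n x < 1`, and `yh n x = 0` for `x ≥ 1`, `yh n x ≤ sqrt(1-x²) (1 - x²/n)`
for `0 ≤ x ≤ 1` (`d² ≤ d`, `d = 1-x²`: `(n-1)/n + d (n-1)/(n(n+2)) + 3 d²/(n(n+2)) ≤ (n-1)/n + d/n = 1 - x²/n`), and
`0 ≤ tr1 n α x ≤ 1` for `0 ≤ α ≤ π/2`, `x > 0`. -/
def JYH_stmt : Prop :=
  ∀ n : ℕ, 2 ≤ n → (∀ x : ℝ, 0 < x → 0 ≤ yh n x ∧ yh n x < 1) ∧ (∀ x : ℝ, 1 ≤ x → yh n x = 0) ∧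
    (∀ x ∈ Icc (0 : ℝ) 1, yh n x ≤ Real.sqrt (1 - x ^ 2) * (1 - x ^ 2 / n)) ∧
    ∀ α ∈ Icc (0 : ℝ) (Real.pi / 2), ∀ x : ℝ, 0 < x → 0 ≤ tr1 n α x ∧ tr1 n α x ≤ 1

/-- JMX (medium). From JLI, JB1, JB2, JNU, JYH, VVP: mixture over `α ∈ (0,a)`. `κ_j = (1 - yh n (Ω/λ_j))^{1/(n-1)} ∈ (0,1]`,
`p = (n+1)/(n-1)`. Multiply JLI by `(n-1) sin^{n-2} α ≥ 0` and integrate over `(0,a)`. Left side:
`(1/Ω) Σ_j h ∫_0^a w_α(λ_j) [(n+1) κ_j² tr1 - 2 κ_j^{n+1}] dα`, `w` the weight of JB1. The bracket is at most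
`(n+1) κ² - 2 κ^{n+1} ≤ n-1` (`κ ≤ 1`), so (JB1, JB2) `∫_0^a = ∫_0^{π/2} - ∫_a^{π/2} ≥
(n+1) κ² (1-yh) - 2 κ^{n+1} - (n-1)(1 - F(a)) = (n-1) [(1-yh)^p - (1 - F(a))]`, `F(a) = (λ sin a/Wf Ω a λ)^{n-1}`.
Right side: `≤ (n-1) cW [(n-1) X0 + (n+1) mx/(n kap n (Ω cos a)^n)]`, `(n-1) cW X0 = π/2`. Multiply by `Ω/(n-1)`. -/
def JMX_stmt : Prop :=
  ∀ (n : ℕ) (r0 : ℝ) (𝒢 : NChart n r0) (L R : ℝ), 2 ≤ n → HasExp 𝒢 L → HasLen 𝒢 L → 0 < R →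
    R < r0 → 2 * R < L → ∀ (N : ℕ) (Ω a mx : ℝ), 1 ≤ N → 0 < Ω → 0 < a → a < Real.pi / 2 →
    (∀ j ∈ Finset.Icc 1 N, vv 𝒢 R N j ≤ mx) →
      ∑ j ∈ Finset.Icc 1 N, R / N *
          ((1 - yh n (Ω / lj 𝒢 R N j)) ^ (((n : ℝ) + 1) / ((n : ℝ) - 1)) -
            (1 - (lj 𝒢 R N j * Real.sin a / Wf Ω a (lj 𝒢 R N j)) ^ (n - 1))) ≤
        Real.pi / 2 * Ω + Ω * (cW n * ((n + 1) * mx / (n * kap n * (Ω * Real.cos a) ^ n)))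

/-- JVL (short-medium). The shells. `(det G)^{-1/2}` is continuous on the closed ball of radius `R < r0`,
between positive constants `c ≤ C`, so `vv_j` is between `c kap n ((jh)^n - ((j-1)h)^n) ≥ c kap n h (jh)^{n-1}` and
`C kap n ((jh)^n - ((j-1)h)^n) ≤ C kap n n h R^{n-1} → 0`. Also `Σ vv_j = VV R` (telescoping, `VV 0 = 0`). -/
def JVL_stmt : Prop :=
  ∀ (n : ℕ) (r0 : ℝ) (𝒢 : NChart n r0) (R : ℝ), 2 ≤ n → 0 < R → R < r0 →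
    (∃ c C : ℝ, 0 < c ∧ 0 < C ∧ ∀ N j : ℕ, 1 ≤ N → j ∈ Finset.Icc 1 N →
      c * (j * (R / N)) ^ (n - 1) * (R / N) ≤ vv 𝒢 R N j ∧ vv 𝒢 R N j ≤ C * (R / N)) ∧
    ∀ N : ℕ, 1 ≤ N → ∑ j ∈ Finset.Icc 1 N, vv 𝒢 R N j = VV 𝒢 R

/-- JML (medium). From JMX, JVL: `N → ∞`. First error: `F(a) = (1 + Ω² cot² a/λ²)^{-(n-1)/2} ≥ 1 - ((n-1)/2) (Ω cot a/λ)²`,
so `0 ≤ 1 - F(a) ≤ min(1, x) ≤ x^{1/4}`, `x = ((n-1)/2) (Ω cot a/λ_j)²`: `1 - F(a) ≤ n sqrt(Ω cot a/λ_j)`; with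
`λ_j ≥ c1 jh` (JVL, `λ_j^{n-1} = vv_j/(h om)`) and `Σ_j h (jh)^{-1/2} ≤ ∫_0^R ρ^{-1/2} = 2 sqrt R`, the sum of the first errors is
at most `C' sqrt(Ωm cot a)`, `C'` independent of `N`. Choose `a` with this `≤ η/2`, then `N` with
`mx = C R/N` so small that the last term is `≤ η/2` for all `Ω ∈ [Ω0, Ωm]`. -/
def JML_stmt : Prop :=
  ∀ (n : ℕ) (r0 : ℝ) (𝒢 : NChart n r0) (L R : ℝ), 2 ≤ n → HasExp 𝒢 L → HasLen 𝒢 L → 0 < R →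
    R < r0 → 2 * R < L → ∀ Ω0 Ωm η : ℝ, 0 < Ω0 → Ω0 ≤ Ωm → 0 < η → ∃ N : ℕ, 1 ≤ N ∧
      ∀ Ω ∈ Icc Ω0 Ωm, ∑ j ∈ Finset.Icc 1 N, R / N *
          (1 - yh n (Ω / lj 𝒢 R N j)) ^ (((n : ℝ) + 1) / ((n : ℝ) - 1)) ≤
        Real.pi / 2 * Ω + η

/-- JOM (medium). From JML, JVL, JYH: mixture over `Ω`. Let `0 < Ω0 < Ωm`, `η > 0`, `N` of JML. Multiply by `Ω^{n-2}` and integrate
over `[Ω0, Ωm]`. For each `λ = λ_j > 0` (`p = (n+1)/(n-1)`):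
`∫_{Ω0}^{Ωm} Ω^{n-2} (1 - yh(Ω/λ))^p = (Ωm^{n-1} - Ω0^{n-1})/(n-1) - ∫_{Ω0}^{Ωm} Ω^{n-2} (1-(1-yh)^p)`, and the last
integral is `≤ ∫_0^λ Ω^{n-2} (1 - (1-yh(Ω/λ))^p) dΩ = λ^{n-1} l_n` (the integrand is `≥ 0`, and `0` for
`Ω ≥ λ`). `Σ_j h = R`, `Σ_j h λ_j^{n-1} = Σ vv_j/om = VV R/om`. So
`R (Ωm^{n-1} - Ω0^{n-1})/(n-1) - l_n VV R/om ≤ (π/2) Ωm^n/n + η Ωm^{n-1}/(n-1)`. Let `η, Ω0 → 0`. -/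
def JOM_stmt : Prop :=
  ∀ (n : ℕ) (r0 : ℝ) (𝒢 : NChart n r0) (L R : ℝ), 2 ≤ n → HasExp 𝒢 L → HasLen 𝒢 L → 0 < R →
    R < r0 → 2 * R < L → ∀ Ωm : ℝ, 0 < Ωm →
      R * Ωm ^ (n - 1) / ((n : ℝ) - 1) - Real.pi / 2 * Ωm ^ n / n ≤
        ll n * VV 𝒢 R / (n * kap n)

/-- JCH (short). From JOM: `Ωm = 2R/π`, i.e. (3.3): `R Ωm^{n-1} (1/(n-1) - 1/n) ≤ l_n VV R/(n kap n)`. -/
def JCH_stmt : Prop :=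
  ∀ (n : ℕ) (r0 : ℝ) (𝒢 : NChart n r0) (L R : ℝ), 2 ≤ n → HasExp 𝒢 L → HasLen 𝒢 L → 0 < R →
    R < r0 → 2 * R < L →
      kap n * (2 * R / Real.pi) ^ (n - 1) * R ≤ ((n : ℝ) - 1) * ll n * VV 𝒢 R

/-! ## The size of `l_n` -/

/-- JP2 (short-medium). For `1 < p ≤ 2`, `0 ≤ L ≤ 1`: `(1-L)^p ≥ 1 - p L + (p(p-1)/2) L²`. The difference `f` has
`f(0) = f'(0) = 0`, `f'' = p(p-1)((1-L)^{p-2} - 1) ≥ 0` on `[0,1)`; at `L = 1` by continuity. -/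
def JP2_stmt : Prop :=
  ∀ p L : ℝ, 1 < p → p ≤ 2 → 0 ≤ L → L ≤ 1 →
    1 - p * L + p * (p - 1) / 2 * L ^ 2 ≤ (1 - L) ^ p

/-- JLN (medium). From JYH, JP2: `l_n ≤ ((n+3)/(n+2)) cW n/n`. For `n ≥ 3`: `p = (n+1)/(n-1) ∈ (1,2]`,
`1 - (1-yh)^p ≤ G(yh)`, `G(L) = p L - (p/(n-1)) L²` (`p(p-1)/2 = p/(n-1)`), `G` is nondecreasing on `[0,1]`
(`G' = p(1 - 2L/(n-1)) ≥ 0`), so `≤ G(L1)`, `L1 = y(1-x²/n)`, `y = sqrt(1-x²)`. With `w = ∫_0^1 x^{n-2} y dx = cW/n`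
(`x = sin`), `∫ x^n y = w (n-1)/(n+2)`: `∫ x^{n-2} L1 = w (1 - (n-1)/(n(n+2))) = w (n²+n+1)/(n(n+2))`;
`∫ x^{n-2} L1² ≥ ∫ x^{n-2} (1-x²)(1-2x²/n) = (2/n)(1/(n²-1) + 1/(n+3)) =: I`. So
`l_n ≤ p (w (n²+n+1)/(n(n+2)) - I/(n-1))`, and this is `≤ ((n+3)/(n+2)) w` iff
`cW (5n+1)/(n(n+1)(n+2)) ≤ (2/(n-1)) (1/(n²-1) + 1/(n+3))`. `n = 3`: `cW = 1`; `n = 4`: `cW = π/4 ≤ 0.7854`;
`n = 5`: `2/3`; `n = 6`: `3π/16 ≤ 0.5891`; `7 ≤ n ≤ 9`: `cW ≤ 8/15`, `5π/32`, `16/35`; `n ≥ 10`: `cW ≤ 0.4296` and `n ≥ 11`: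
`cW ≤ 128/315 ≤ 0.4064` and the right side times `n(n+1)(n+2)/(5n+1)` is `2n(n+1)(n+2)(1 + (n+3)/(n²-1))/((n-1)(n+3)(5n+1))`,
which is `> 0.4 (1 + 1/n)` (`cW` is decreasing; for `n ≥ 12`, `cW ≤ 63π/512 ≤ 0.3866`).
`n = 2`: `p = 3`, `1 - (1-yh)³ ≤ 1 - (1-y)³` and `∫_0^1 (3y - 3y² + y³) dx = 15π/16 - 2 ≤ (5/4)(π/4)`. -/
def JLN_stmt : Prop :=
  ∀ n : ℕ, 2 ≤ n → 0 < ll n ∧ ll n ≤ ((n : ℝ) + 3) / (n + 2) * (cW n / n)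

/-- JL3 (short-medium). `n = 3`: `p = 2`, `cW 3 = 1`. `l_3 = ∫_0^1 x (2L - L²) dx`, `L = yh = y (2/3 + (2/15) y² + (1/5) y⁴)`,
`x dx = -y dy`: `l_3 = ∫_0^1 (2L - L²) y dy = 874/1575 - (1/9 + 4/135 + 8/225 + 2/375 + 1/300) < 10/27`. -/
def JL3_stmt : Prop := ll 3 ≤ 10 / 27

end Pool.Agent.CRO
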