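import Pool.Agent.helper58.CRO.SpecG

/-!
# MP_5bf3c3_gt, Theorem 5, block K: the exact constant in dimension 2

THEOREM 5: `Area B(m,r) ≥ (8/π) r²` for all compact surfaces and all `r ≤ Inj/2` (the area of the
hemisphere), so `c_2^* = 4/π`.
Paper proof: Pool/Agent/helper58/CRO/PROOF5.md. Every `XX_stmt` is one row `cro:XX`; its complete
proof is in its docstring. Rows use other rows only as hypotheses.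
-/

open scoped Manifold ContDiff Topology ENNReal
open MeasureTheory Set Bundle Filter

noncomputable section

namespace Pool.Agent.CRO

universe u

variable {r0 : ℝ}

/-- `f(X) = arcsin X - X sqrt(1 - X²)`. -/
def fl (X : ℝ) : ℝ := Real.arcsin X - X * Real.sqrt (1 - X ^ 2)

/-- `|det(v, w)|` for two vectors of the plane. -/
def crs (v w : En 2) : ℝ := |v 0 * w 1 - v 1 * w 0|

/-- `(1-e³)/3 = ∫_e^1 s² ds`. -/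
def c3 (e : ℝ) : ℝ := (1 - e ^ 3) / 3

/-- The covectors at `x` of length between `e` and `1`. -/
def Fb (𝒢 : NChart 2 r0) (e : ℝ) (x : En 2) : Set (En 2) := {p | e < sp 𝒢 (x, p) ∧ sp 𝒢 (x, p) < 1}

/-- The points over the shell `ρa ≤ ‖x‖ < ρb` of speed between `e` and `1`. -/
def Shl (𝒢 : NChart 2 r0) (e ρa ρb : ℝ) : Set (PS 2) :=
  {z | (ρa ≤ ‖z.1‖ ∧ ‖z.1‖ < ρb) ∧ e < sp 𝒢 z ∧ sp 𝒢 z < 1}

/-- `k` is measurable, with values in `[0,1]`, and constant along the segments in the ball of radius `R`. -/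
structure KInv (𝒢 : NChart 2 r0) (Φ : ℝ → PS 2 → PS 2) (e R : ℝ) (k : PS 2 → ℝ) : Prop where
  meas : Measurable k
  nn : ∀ z, 0 ≤ k z
  le1 : ∀ z, k z ≤ 1
  inv : ∀ z ∈ SL 𝒢 e R, ∀ u, Stay Φ R z u → k (Φ u z) = k z

/-- The integral of `k` over the space of segments (times `c3 e`). -/
def mmk (𝒢 : NChart 2 r0) (Φ : ℝ → PS 2 → PS 2) (e R : ℝ) (k : PS 2 → ℝ) : ℝ≥0∞ :=
  ∫⁻ z in SL 𝒢 e R, ENNReal.ofReal (k z) * (TT Φ R (fun _ => 1) z)⁻¹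

/-- `k(x,p) ∫ |det(G p, G p')| k'(x,p') dp'`. -/
def QQ (𝒢 : NChart 2 r0) (e : ℝ) (k k' : PS 2 → ℝ) (z : PS 2) : ℝ≥0∞ :=
  ENNReal.ofReal (k z) *
    ∫⁻ p' in Fb 𝒢 e z.1, ENNReal.ofReal (crs (𝒢.G z.1 z.2) (𝒢.G z.1 p') * k' (z.1, p'))

/-! ## Calculus -/

/-- KF1 (short-medium). `f' = 2X²/sqrt(1-X²)` on `(-1,1)`, increasing on `[0,1)`; `f` is continuous. For the
last bound: `f(X) ≤ (π/2) X²` on `[0,1]`: `f(sin a) = a - sin a cos a`, and `(π/2) sin² a - a + sin a cos a` vanishes at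
`0` and `π/2` and has derivative `sin 2a (π/2 - tan a)` for `a < π/2`: first `≥ 0`, then `≤ 0`. -/
def KF1_stmt : Prop :=
  ConvexOn ℝ (Icc 0 1) fl ∧ MonotoneOn fl (Icc 0 1) ∧ Continuous fl ∧ fl 0 = 0 ∧ fl 1 = Real.pi / 2 ∧
    (∀ a ∈ Icc 0 (Real.pi / 2), fl (Real.sin a) = a - Real.sin a * Real.cos a) ∧
    ∀ X ∈ Icc (0 : ℝ) 1, 0 ≤ fl X ∧ fl X ≤ Real.pi / 2 * X ^ 2

/-- KF2 (short-medium). From KF1: `Psi(z) = ∫_0^z f(min 1 x)/x² dx` (the integrand is bounded by `π/2`). On `(0,1)`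
`-arcsin x/x - sqrt(1-x²)` is an antiderivative of `(arcsin x - x sqrt(1-x²))/x²`, with limits `-2` at `0` and `-π/2` at `1`, so
`∫_0^1 = 2 - π/2`. For `z ≥ 1`: `Psi(z) = 2 - π/2 + (π/2)(1 - 1/z) = 2 - π/(2z)`. For `z < 1`:
`g(z) = Psi(z) - 2 + π/(2z)` has `g' = (f(z) - π/2)/z² ≤ 0` and `g(1) = 0`. Upper bounds: `Psi ≤ 2` and
`Psi(z) ≤ (π/2) z`. -/
def KF2_stmt : Prop :=
  ∀ z : ℝ, 0 < z → IntervalIntegrable (fun x => fl (min 1 x) / x ^ 2) volume 0 z ∧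
    2 - Real.pi / (2 * z) ≤ ∫ x in (0 : ℝ)..z, fl (min 1 x) / x ^ 2 ∧
    ∫ x in (0 : ℝ)..z, fl (min 1 x) / x ^ 2 ≤ 2 ∧
    ∫ x in (0 : ℝ)..z, fl (min 1 x) / x ^ 2 ≤ Real.pi / 2 * z

/-- KL1 (medium). The local inequality for continuous `κ`, `b = ∫_0^π κ`. If `b = π` then `κ = 1` on `[0,π]` and both
sides are `2π`. Let `c = π - b > 0`, `K(t) = ∫_0^t κ` (`C^1`). The right side is `2 ∫∫_{0<u<v<π} κ(u) κ(v) sin(v-u)`. For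
`u < v`: `D = v - u`, `d = K v - K u`: `0 ≤ d ≤ D ≤ d + c ≤ π`, so by concavity of the sine on `[0,π]` and
`sin(d+c) = sin(b-d)`: `sin D ≥ sin d + ((D-d)/c) g(d)`, `g(s) = sin(b-s) - sin s`. (i) `2 ∫∫_{u<v} κ κ sin(K v - K u) =
2 ∫_0^π κ(v) (1 - cos(K v)) dv = 2 (b - sin b)`. (ii) `∫∫_{u<v} κ κ (D-d) g(d) = 0`: let `Γ(s) = ∫_0^s g =
cos(b-s) - cos b - 1 + cos s`, `Γ(b-s) = Γ(s)`. `D - d = ∫_u^v (1-κ(w)) dw`, so (Fubini) it is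
`∫_0^π (1-κ(w)) [∫_0^w κ(u) ∫_w^π κ(v) g(K v - K u) dv du] dw`, and the bracket is `P(K w)`, `P(ξ) = ∫_0^ξ (Γ(b-x) - Γ(ξ-x)) dx`
`= ∫_0^ξ Γ(x) dx - ∫_0^ξ Γ(ξ-x) dx = 0`. -/
def KL1_stmt : Prop :=
  ∀ κ : ℝ → ℝ, Continuous κ → (∀ u, 0 ≤ κ u ∧ κ u ≤ 1) →
    2 * ((∫ u in (0 : ℝ)..Real.pi, κ u) - Real.sin (∫ u in (0 : ℝ)..Real.pi, κ u)) ≤
      ∫ u in (0 : ℝ)..Real.pi, ∫ v in (0 : ℝ)..Real.pi, κ u * κ v * |Real.sin (u - v)|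

/-- KL2 (short-medium). From KL1: the same for measurable `κ`. There are continuous `κ_i` with values in `[0,1]` and
`κ_i → κ` almost everywhere on `[0,π]` (density of continuous functions in `L^1`, truncation, a subsequence);
dominated convergence on both sides. -/
def KL2_stmt : Prop :=
  ∀ κ : ℝ → ℝ, Measurable κ → (∀ u, 0 ≤ κ u ∧ κ u ≤ 1) →
    2 * ((∫ u in (0 : ℝ)..Real.pi, κ u) - Real.sin (∫ u in (0 : ℝ)..Real.pi, κ u)) ≤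
      ∫ u in (0 : ℝ)..Real.pi, ∫ v in (0 : ℝ)..Real.pi, κ u * κ v * |Real.sin (u - v)|

/-- KL3 (short-medium). From KL2, KF1. `b = ∫_0^π κ`, `c0 = cos(b/2) ≥ 0`: `∫ κ |cos| ≤ ∫ (|cos| - c0)_+ + c0 b = 2 sin(b/2)`
(bathtub), so `X ≤ sin(b/2)`, `fl X ≤ fl (sin(b/2)) = (b - sin b)/2`. -/
def KL3_stmt : Prop :=
  ∀ κ : ℝ → ℝ, Measurable κ → (∀ u, 0 ≤ κ u ∧ κ u ≤ 1) →
    0 ≤ (∫ u in (0 : ℝ)..Real.pi, κ u * |Real.cos u|) / 2 ∧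
    (∫ u in (0 : ℝ)..Real.pi, κ u * |Real.cos u|) / 2 ≤ 1 ∧
    4 * fl ((∫ u in (0 : ℝ)..Real.pi, κ u * |Real.cos u|) / 2) ≤
      ∫ u in (0 : ℝ)..Real.pi, ∫ v in (0 : ℝ)..Real.pi, κ u * κ v * |Real.sin (u - v)|

/-! ## The fibres -/

/-- KT1 (short-medium). Linear algebra in the plane. `x̂ = x/‖x‖`, `ŷ = (-x̂ 1, x̂ 0)`; `G x̂ = x̂`, `G` symmetric positive
definite, so `G ŷ` is orthogonal to `x̂`: `G ŷ = D ŷ` with `D = det G > 0`. With `α = ⟨x̂,p⟩`, `β = ⟨ŷ,p⟩`: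
`⟨G p, p⟩ = α² + D β²`, `G p = α x̂ + D β ŷ`, `crs(G p, G p') = D |α β' - β α'|`. -/
def KT1_stmt : Prop :=
  ∀ (r0 : ℝ) (𝒢 : NChart 2 r0) (x : En 2), 0 < ‖x‖ → ‖x‖ < r0 →
    0 < (𝒢.G x).det ∧ ∃ y : En 2, ‖y‖ = 1 ∧ inner ℝ x y = 0 ∧
      (∀ p : En 2, nrm2 𝒢 (x, p) = (inner ℝ x p / ‖x‖) ^ 2 + (𝒢.G x).det * (inner ℝ y p) ^ 2) ∧
      ∀ p p' : En 2, crs (𝒢.G x p) (𝒢.G x p') =
        (𝒢.G x).det * |inner ℝ x p / ‖x‖ * inner ℝ y p' - inner ℝ y p * (inner ℝ x p' / ‖x‖)|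

/-- KT2 (medium). From KT1: polar coordinates in the fibre. The linear map `p ↦ (⟨x̂,p⟩, sqrt D ⟨y,p⟩)` maps `Fb` onto the
annulus `e² < a² + b² < 1` of `ℝ × ℝ` and has absolute determinant `sqrt D`; then polar coordinates
`(a,b) = (s cos ψ, s sin ψ)`. So if `F p = Fa(⟨x̂,p⟩, sqrt D ⟨y,p⟩)` the integral is as claimed
(`s cos ψ x̂ + (s sin ψ/sqrt D) y` is the point with coordinates `(s cos ψ, s sin ψ)`). -/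
def KT2_stmt : Prop :=
  ∀ (r0 : ℝ) (𝒢 : NChart 2 r0) (x y : En 2) (e : ℝ), 0 < ‖x‖ → ‖x‖ < r0 → 0 < e → e < 1 → ‖y‖ = 1 →
    inner ℝ x y = 0 → (∀ p : En 2, nrm2 𝒢 (x, p) = (inner ℝ x p / ‖x‖) ^ 2 + (𝒢.G x).det * (inner ℝ y p) ^ 2) →
    0 < (𝒢.G x).det → ∀ F : En 2 → ℝ≥0∞, Measurable F →
      ∫⁻ p in Fb 𝒢 e x, F p = ENNReal.ofReal (Real.sqrt (𝒢.G x).det)⁻¹ *
        ∫⁻ s in Ioo e 1, ∫⁻ ψ in Ioo (-Real.pi) Real.pi, ENNReal.ofReal s *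
          F ((s * Real.cos ψ / ‖x‖) • x + (s * Real.sin ψ / Real.sqrt (𝒢.G x).det) • y)

/-- KLX (medium). From KL3, KT1, KT2: the fibre inequality. Let `D = det G`, `κ(ψ) = ∫_e^1 k(p(s,ψ)) s² ds ∈ [0, c3]`,
`p(s,ψ)` the point of KT2, `ψ ∈ (-π,π)`, and `κ2(ψ) = (κ(ψ) + κ(ψ-π))/(2 c3) ∈ [0,1]`, `ψ ∈ (0,π)`. KT2:
`∫ k |⟨x̂,p⟩| dp = D^{-1/2} ∫_{-π}^π κ |cos| = D^{-1/2} 2 c3 ∫_0^π κ2 |cos| = D^{-1/2} 4 c3 X`, `X ∈ [0,1]`, and (KT1, KT2 twice;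
`crs = D |α β' - β α'| = sqrt D s s' |sin(ψ-ψ')|`) `∫∫ crs k k' dp dp' = D^{-1/2} ∫∫ κ κ' |sin| = D^{-1/2} (2 c3)² ∫_0^π∫_0^π κ2 κ2 |sin(u-v)|
≥ D^{-1/2} 16 c3² f(X)` (KL3). -/
def KLX_stmt : Prop :=
  ∀ (r0 : ℝ) (𝒢 : NChart 2 r0) (x : En 2) (e : ℝ), 0 < ‖x‖ → ‖x‖ < r0 → 0 < e → e < 1 →
    ∀ k : En 2 → ℝ, Measurable k → (∀ p, 0 ≤ k p ∧ k p ≤ 1) → ∃ X ∈ Icc (0 : ℝ) 1,
      ∫⁻ p in Fb 𝒢 e x, ENNReal.ofReal (k p * |inner ℝ x p| / ‖x‖) =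
        ENNReal.ofReal (4 * c3 e * X * (Real.sqrt (𝒢.G x).det)⁻¹) ∧
      ENNReal.ofReal (16 * c3 e ^ 2 * fl X * (Real.sqrt (𝒢.G x).det)⁻¹) ≤
        ∫⁻ p in Fb 𝒢 e x, ENNReal.ofReal (k p) * ∫⁻ p' in Fb 𝒢 e x,
          ENNReal.ofReal (crs (𝒢.G x p) (𝒢.G x p') * k p')

/-- KFF (short-medium). From KT1, KT2: the full fibres (`k = 1`). `∫_{Fb} |⟨x̂,p⟩| dp = D^{-1/2} c3 ∫_{-π}^π |cos| = D^{-1/2} 4 c3`;
for fixed `p` with polar coordinates `(s,ψ)`, `∫ crs(G p, G p') dp' = D^{-1/2} sqrt D s ∫∫ s'² |sin(ψ-ψ')| = 4 c3 s`,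
`s = sp(x,p)`. -/
def KFF_stmt : Prop :=
  ∀ (r0 : ℝ) (𝒢 : NChart 2 r0) (x : En 2) (e : ℝ), 0 < ‖x‖ → ‖x‖ < r0 → 0 < e → e < 1 →
    ∫⁻ p in Fb 𝒢 e x, ENNReal.ofReal (|inner ℝ x p| / ‖x‖) =
      ENNReal.ofReal (4 * c3 e * (Real.sqrt (𝒢.G x).det)⁻¹) ∧
    ∀ p : En 2, ∫⁻ p' in Fb 𝒢 e x, ENNReal.ofReal (crs (𝒢.G x p) (𝒢.G x p')) =
      ENNReal.ofReal (4 * c3 e * sp 𝒢 (x, p))

/-- KSH (medium). From KLX, KF1: one shell, `v = VV ρb - VV ρa > 0`. Tonelli over `x` (`x = 0` is negligible), with `X(x)` of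
KLX for `k(x,·)` (measurable in `x`: `X = sqrt D/(4 c3)` times an integral). The hypothesis says
`X0 ≤ v⁻¹ ∫_{shell} X(x) D^{-1/2} dx` (`∫_{shell} D^{-1/2} = v`), and the right side of the claim is
`≥ 16 c3² ∫_{shell} f(X(x)) D^{-1/2} dx ≥ 16 c3² v f(v⁻¹ ∫ X D^{-1/2}) ≥ 16 c3² v f(X0)` (Jensen, `f` convex, increasing). -/
def KSH_stmt : Prop :=
  ∀ (r0 : ℝ) (𝒢 : NChart 2 r0) (e ρa ρb : ℝ), 0 < e → e < 1 → 0 ≤ ρa → ρa < ρb → ρb < r0 →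
    ∀ k : PS 2 → ℝ, Measurable k → (∀ z, 0 ≤ k z ∧ k z ≤ 1) → ∀ X0 : ℝ, 0 ≤ X0 → X0 ≤ 1 →
      ENNReal.ofReal (4 * c3 e * (VV 𝒢 ρb - VV 𝒢 ρa) * X0) ≤
        ∫⁻ z in Shl 𝒢 e ρa ρb, ENNReal.ofReal (k z * |inner ℝ z.1 z.2| / ‖z.1‖) →
      ENNReal.ofReal (16 * c3 e ^ 2 * (VV 𝒢 ρb - VV 𝒢 ρa) * fl X0) ≤
        ∫⁻ z in Shl 𝒢 e ρa ρb, QQ 𝒢 e k k z

/-! ## Crossings -/

/-- KJD (short-medium). Joint differentiability of a `C^1` flow. `Φ (t0+τ) w = Φ t0 (Φ τ w)`; at `(0, w0)`: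
`‖Φ τ w - w - τ f(w0)‖ ≤ |τ| sup ‖f(Φ σ w) - f(w0)‖ = o(|τ|)` as `(τ,w) → (0,w0)` (mean value inequality, joint continuity);
chain rule with `D(Φ t0)(w0)`, and `D(Φ t0)(w0) f(w0) = f(Φ t0 w0)` (derivative of `Φ t0 (Φ τ w0) = Φ τ (Φ t0 w0)` at `τ = 0`). -/
def KJD_stmt : Prop :=
  ∀ (F : Type) [NormedAddCommGroup F] [NormedSpace ℝ F] [FiniteDimensional ℝ F] (f : F → F)
    (Φ : ℝ → F → F), Continuous f → IsC1Flow f Φ → ∀ (t : ℝ) (w : F),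
      HasFDerivAt (fun q : ℝ × F => Φ q.1 q.2)
        ((fderiv ℝ (Φ t) w).comp (ContinuousLinearMap.snd ℝ ℝ F) +
          (ContinuousLinearMap.fst ℝ ℝ F).smulRight (f (Φ t w))) (t, w)

/-- KRV (medium). Reversal along a segment. On the interval between `0` and `u` the curve
`c(s) = ((Φ s z).1, -(Φ s z).2)` satisfies `c' = -hvf H (c)`: the orbit is in the region `‖x‖ < R < r1`, `nrm2 < 1`
(NRG), where `H` is even in `p` (`H = ham`, HVA), so `hvf H (x,-p) = (-(hvf H (x,p)).1, (hvf H (x,p)).2)`. So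
`c(s) = Φ (-s) (z.1, -z.2)` (`hvf H` is globally Lipschitz); compare REV. -/
def KRV_stmt : Prop :=
  ∀ (n : ℕ) (r0 : ℝ) (𝒢 : NChart n r0) (L R e r1 : ℝ) (H : PS n → ℝ) (Φ : ℝ → PS n → PS n),
    Std 𝒢 L R e r1 H Φ → ∀ z ∈ SL 𝒢 e R, ∀ u, Stay Φ R z u →
      ((z.1, -z.2) : PS n) ∈ SL 𝒢 e R ∧ Stay Φ R (z.1, -z.2) (-u) ∧
      Φ (-u) (z.1, -z.2) = ((Φ u z).1, -(Φ u z).2)

/-- KEX (short-medium). From IWN, NRG, HVA, KRV: the exponential map, in both directions of time. `Ex`, `D` of `HasExp` at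
`x`. For `u ≥ 0`: `u < L` (IWN), the orbit solves Hamilton's equations for `ham 𝒢` on `[0,u]` (HVA, NRG). For `u < 0` apply
this to `(x,-p)` and time `-u` (KRV): `(-u) • (-p) = u • p`. -/
def KEX_stmt : Prop :=
  ∀ (n : ℕ) (r0 : ℝ) (𝒢 : NChart n r0) (L R e r1 : ℝ) (H : PS n → ℝ) (Φ : ℝ → PS n → PS n),
    Std 𝒢 L R e r1 H Φ → ∀ x : En n, ‖x‖ < R → ∃ (Ex : En n → En n) (D : Set (En n)), InjOn Ex D ∧
      ∀ p : En n, (x, p) ∈ SL 𝒢 e R → ∀ u, Stay Φ R (x, p) u →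
        u • p ∈ D ∧ (Φ u (x, p)).1 = Ex (u • p)

/-- KIN (medium). From KEX, INV, KT1: two segments cross at most once. Let `x_i = (Φ s_i z).1`, `P_1 = (Φ s_1 z).2`,
`w_i = (x_i, p_i)`, so `w_2 = Φ (t_1 - t_2) w_1` (and `Stay w_1 (t_1 - t_2)`, INV), `Φ s_2 z = Φ (s_2 - s_1) (x_1, P_1)`. `Ex, D` of KEX
at `x_1`, `T = s_2 - s_1`, `T' = t_1 - t_2`: `T • P_1, T' • p_1 ∈ D` and `Ex (T • P_1) = x_2 = Ex (T' • p_1)`, so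
`T • P_1 = T' • p_1`. If `T ≠ 0` or `T' ≠ 0` then (`P_1, p_1 ≠ 0` as their speeds are `> e > 0`) both are nonzero and `p_1` is a
multiple of `P_1`, so `crs(G P_1, G p_1) = 0`: contradiction. So `T = T' = 0`, `w_1 = w_2`. -/
def KIN_stmt : Prop :=
  ∀ (r0 : ℝ) (𝒢 : NChart 2 r0) (L R e r1 : ℝ) (H : PS 2 → ℝ) (Φ : ℝ → PS 2 → PS 2),
    Std 𝒢 L R e r1 H Φ → ∀ z ∈ SL 𝒢 e R, ∀ (s1 s2 t1 t2 : ℝ) (p1 p2 : En 2),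
      Stay Φ R z s1 → Stay Φ R z s2 → ((Φ s1 z).1, p1) ∈ SL 𝒢 e R → ((Φ s2 z).1, p2) ∈ SL 𝒢 e R →
      Stay Φ R ((Φ s1 z).1, p1) t1 → Stay Φ R ((Φ s2 z).1, p2) t2 →
      crs (𝒢.G (Φ s1 z).1 (Φ s1 z).2) (𝒢.G (Φ s1 z).1 p1) ≠ 0 →
      Φ t1 ((Φ s1 z).1, p1) = Φ t2 ((Φ s2 z).1, p2) → s1 = s2 ∧ p1 = p2 ∧ t1 = t2

/-- KDE (medium). From KJD, HVA, DT1: the Jacobian. The map `Θ(s,p',t) = Φ t ((Φ s z).1, p')` is differentiable: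
`D Θ (σ,π,τ) = D(Φ t)(w) (σ v, π) + τ hvf H (Φ t w) = D(Φ t)(w) ((σ v, π) + τ hvf H w)`, `w = ((Φ s z).1, p')`,
`v = (hvf H (Φ s z)).1 = G P_s`, `(hvf H w).1 = G p'` (HVA: `‖x‖ < r1`, `nrm2 < 2`; `D(Φ t)(w) (hvf H w) = hvf H (Φ t w)`).
`|det D(Φ t)| = 1` (DT1, `symp_eq`), and the map `(σ,π,τ) ↦ (σ v + τ G p', π + τ q)` has, after the identification
`(σ,π,τ) ↦ ((σ,τ),π)`, determinant `± det(v, G p')`. To have a map between spaces of the same type compose with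
the measure preserving linear equivalence `J : PS 2 → ℝ × En 2 × ℝ`, `J(a,b) = (a 0, b, a 1)`. -/
def KDE_stmt : Prop :=
  ∀ (r0 : ℝ) (𝒢 : NChart 2 r0) (L R e r1 : ℝ) (H : PS 2 → ℝ) (Φ : ℝ → PS 2 → PS 2),
    Std 𝒢 L R e r1 H Φ → ∀ z ∈ SL 𝒢 e R, ∀ (s t : ℝ) (p' : En 2), Stay Φ R z s →
      ((Φ s z).1, p') ∈ SL 𝒢 e R →
      ∃ A : PS 2 →L[ℝ] PS 2, HasFDerivAt (fun q : PS 2 => Φ (q.1 1) ((Φ (q.1 0) z).1, q.2)) A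
        (!₂[s, t], p') ∧ |A.det| = crs (𝒢.G (Φ s z).1 (Φ s z).2) (𝒢.G (Φ s z).1 p')

/-- KC1 (medium-long). From KIN, KDE, IWN, INV, IME: every segment crosses the segment of `z` at most once. Let
`Ω = {(s,p',t) : Stay z s, w = ((Φ s z).1,p') ∈ SL, Stay w t, crs ≠ 0}` (written as a subset of `PS 2` by `((s,t),p')`):
measurable; `Θ` of KDE is injective on it (KIN) with absolute determinant `crs`, and `Θ(Ω) ⊆ SL` (INV). Change of variables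
(`lintegral_image_eq_lintegral_abs_det_fderiv_mul`) with `h(z') = ofReal(k z') (TT z')⁻¹`:
`∫_Ω crs h(Θ) ≤ ∫_{SL} h`; `h(Φ t w) = ofReal(k w) (TT w)⁻¹` (INV) and `∫_{t : Stay w t} (TT w)⁻¹ = 1` (`TT` with `θ = 1` is the
volume of `{t : Stay w t}`, positive and finite by IWN). Tonelli. -/
def KC1_stmt : Prop :=
  ∀ (r0 : ℝ) (𝒢 : NChart 2 r0) (L R e r1 : ℝ) (H : PS 2 → ℝ) (Φ : ℝ → PS 2 → PS 2),
    Std 𝒢 L R e r1 H Φ → ∀ k : PS 2 → ℝ, KInv 𝒢 Φ e R k → ∀ z ∈ SL 𝒢 e R,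
      ∫⁻ s in {s | Stay Φ R z s}, ∫⁻ p' in Fb 𝒢 e (Φ s z).1,
          ENNReal.ofReal (crs (𝒢.G (Φ s z).1 (Φ s z).2) (𝒢.G (Φ s z).1 p') * k ((Φ s z).1, p')) ≤
        mmk 𝒢 Φ e R k

/-- KC2 (medium). From KC1, IMT, INV, IME, IWN: the crossing inequality. IMT with
`h(z,z') = ofReal(k z) (TT z)⁻¹ F(z')`, `F(z') = ∫_{p'} ofReal(crs .. * k'(z'.1,p'))`: the left side of IMT is
`∫_{SL} ofReal(k z) (TT z)⁻¹ ∫_s F(Φ s z) ≤ mmk k · mmk k'` (KC1), the right side is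
`∫_{SL} F(z) ∫_u ofReal(k (Φ u z)) (TT (Φ u z))⁻¹ = ∫_{SL} F(z) ofReal(k z)`. -/
def KC2_stmt : Prop :=
  ∀ (r0 : ℝ) (𝒢 : NChart 2 r0) (L R e r1 : ℝ) (H : PS 2 → ℝ) (Φ : ℝ → PS 2 → PS 2),
    Std 𝒢 L R e r1 H Φ → ∀ k k' : PS 2 → ℝ, KInv 𝒢 Φ e R k → KInv 𝒢 Φ e R k' →
      ∫⁻ z in SL 𝒢 e R, QQ 𝒢 e k k' z ≤ mmk 𝒢 Φ e R k * mmk 𝒢 Φ e R k'

/-- KFX (medium). From IWN, INV, IME, IMT, DNM: the flux inequality, as IFX (file IFX.lean of helper77: copy it) with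
`θ = 1` and the weight `k(z) sp(z)`, constant along the segments: IMT with
`h(z,z') = 1[ρa ≤ ‖z.1‖ < ρb] ofReal(k(z) (± ⟨x,p⟩/‖x‖)) (TT z)⁻¹`. On a segment with `k ≠ 0` (so it meets the ball of radius `ρ`)
`∫_u 1[..] ofReal(± ⟨x,p⟩/‖x‖ (Φ u z)) ≥ ρb - ρa` for both signs. Add the two. -/
def KFX_stmt : Prop :=
  ∀ (r0 : ℝ) (𝒢 : NChart 2 r0) (L R e r1 : ℝ) (H : PS 2 → ℝ) (Φ : ℝ → PS 2 → PS 2),
    Std 𝒢 L R e r1 H Φ → ∀ k : PS 2 → ℝ, KInv 𝒢 Φ e R k → ∀ ρ ρa ρb : ℝ, 0 < ρ → ρ ≤ ρa → ρa < ρb →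
      ρb ≤ R → (∀ z ∈ SL 𝒢 e R, z ∉ Hit Φ R ρ → k z = 0) →
      2 * (ENNReal.ofReal (ρb - ρa) * mmk 𝒢 Φ e R k) ≤
        ∫⁻ z in Shl 𝒢 e ρa ρb, ENNReal.ofReal (k z * |inner ℝ z.1 z.2| / ‖z.1‖)

/-- KMB (medium). From KC2, KFX, KFF, IWN, INV, IME: the measure of the segments which meet the ball of radius
`(N-1)h`, `h = R/N`, is at least `8(R - 2h)`. `k_j` = indicator of `Hit (j h)` (KInv: IME, INV). (i) `0 < mmk k_j < ∞` for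
`1 ≤ j ≤ N-1`: KFX on the shell `[(N-1)h, R)` and KFF bound it (`2 h mmk ≤ 4 c3 v`), and `TT < ∞`, `SL ∩ {‖x‖ < jh}` has positive
volume. (ii) KC2 with `k = k_1`, `k' = k_{N-1}` (`= 1` for `‖x‖ < (N-1)h`): by KFF the left side is at least
`∫_{‖z.1‖ < (N-1)h} ofReal(k_1) 4 c3 sp ≥ 4 c3 Σ_{1<j<N} ∫_{shell j} k_1 |⟨x,p⟩|/‖x‖ ≥ 4 c3 · 2 (N-2) h mmk k_1`
(`|⟨x,p⟩|/‖x‖ ≤ sp`, KFX with `ρ = h`). Divide by `mmk k_1`. -/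
def KMB_stmt : Prop :=
  ∀ (r0 : ℝ) (𝒢 : NChart 2 r0) (L R e r1 : ℝ) (H : PS 2 → ℝ) (Φ : ℝ → PS 2 → PS 2),
    Std 𝒢 L R e r1 H Φ → ∀ N : ℕ, 3 ≤ N →
      (∀ j : ℕ, 1 ≤ j → j < N →
        KInv 𝒢 Φ e R ((Hit Φ R (j * (R / N))).indicator (fun _ => 1)) ∧
        mmk 𝒢 Φ e R ((Hit Φ R (j * (R / N))).indicator (fun _ => 1)) ≠ ⊤) ∧
      ENNReal.ofReal (c3 e * (8 * (R - 2 * (R / N)))) ≤
        mmk 𝒢 Φ e R ((Hit Φ R (((N : ℝ) - 1) * (R / N))).indicator (fun _ => 1))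

/-- KLV (medium-long). From GFL, KC2, KFX, KSH, KFF, KMB, KF1, VVP, JVL: the level inequality. Choose `e ∈ (0,1)` with
`2R < e L`, `r1 ∈ (R,r0)`, the flow (GFL): Std. `h = R/N`, `k_j` of KMB, `k_0 = 0`, `M_j = mmk k_j/c3`: `M_0 = 0 < M ≤ M_{N-1}`,
so there are `0 ≤ j < N-1` and `t ∈ [0,1]` with `M = (1-t) M_j + t M_{j+1}`; `k = (1-t) k_j + t k_{j+1}` is KInv, `mmk k = c3 M`,
and vanishes outside `Hit ((j+1)h)`. Shells `i ≤ j` (`k = 1`): KSH with `X0 = 1` (KFF). Shells `i ≥ j+2`: KFX gives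
`2 h c3 M ≤ ∫ k |⟨x,p⟩|/‖x‖`: KSH with `X0 = min 1 (h M/(2 v_i))`. Sum over `i ≠ j+1` (disjoint subsets of `SL`), KC2:
`16 c3² Σ_{i ≠ j+1} v_i f(X_i) ≤ c3² M²`. The missing term is at most `16 mx f(1) = 8 π mx`. -/
def KLV_stmt : Prop :=
  ∀ (r0 : ℝ) (𝒢 : NChart 2 r0) (L R : ℝ), HasExp 𝒢 L → HasLen 𝒢 L → 0 < R → R < r0 → 2 * R < L →
    ∀ (N : ℕ) (M mx : ℝ), 3 ≤ N → 0 < M → M ≤ 8 * (R - 2 * (R / N)) →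
      (∀ j ∈ Finset.Icc 1 N, vv 𝒢 R N j ≤ mx) →
      16 * ∑ j ∈ Finset.Icc 1 N, vv 𝒢 R N j * fl (min 1 (R / N * M / (2 * vv 𝒢 R N j))) ≤
        M ^ 2 + 8 * Real.pi * mx

/-- KFI (medium). From KLV, KF1, KF2, JVL: the area of the ball. Let `ε > 0`, `R' = R - 2R/N`, `h = R/N`, `a_j = vv_j/h > 0`,
`mx = C h` (JVL). Divide KLV by `M²` and integrate over `M ∈ [ε, 8R']`: the right side is `≤ 8R' + 8π C h/ε`. Left side: with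
`M = 2 a_j x`: `16 vv_j ∫_ε^{8R'} f(min 1 (M/(2a_j))) dM/M² = 8 h (Psi(4R'/a_j) - Psi(ε/(2a_j)))`, and by KF2
`Psi(4R'/a_j) ≥ 2 - π a_j/(8R')`, `Psi(ε/(2a_j)) ≤ min(2, πε/(4a_j)) ≤ sqrt(πε/(2 a_j))` (`min(a,b) ≤ sqrt(ab)`). `a_j ≥ c j h` (JVL, `n = 2`),
`Σ_j h (jh)^{-1/2} ≤ 2 sqrt R`. So `16 R - π VV R/R' - 16 sqrt(πε R/(2c)) ≤ 8 R' + 8π C R/(N ε)`. Let `N → ∞`, then `ε → 0`:
`16 R - π VV R/R ≤ 8 R`. -/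
def KFI_stmt : Prop :=
  ∀ (r0 : ℝ) (𝒢 : NChart 2 r0) (L R : ℝ), HasExp 𝒢 L → HasLen 𝒢 L → 0 < R → R < r0 → 2 * R < L →
    8 / Real.pi * R ^ 2 ≤ VV 𝒢 R

/-! ## Surfaces -/

/-- KGN (short-medium). From KFI, NCH, EXM, GHL, VOA: the theorem for `r ≤ Inj/2`, as GFN (file GFN.lean of helper45: copy it). -/
def KGN_stmt : Prop :=
  ∀ (M : Type u) [TopologicalSpace M] [T2Space M] [CompactSpace M] [ConnectedSpace M]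
    [ChartedSpace (En 2) M] [IsManifold (𝓡 2) ∞ M] (g : RMetric 2 M) (m : M) (r : ℝ), 0 < r →
      ENNReal.ofReal (2 * r) ≤ injRad g →
      ENNReal.ofReal (8 / Real.pi * r ^ 2) ≤ gvol g (gball g m r)

/-- KG1 (short). From KGN, GDD: the theorem for `r ≤ Inj`. -/
def KG1_stmt : Prop :=
  ∀ (M : Type u) [TopologicalSpace M] [T2Space M] [CompactSpace M] [ConnectedSpace M]
    [ChartedSpace (En 2) M] [IsManifold (𝓡 2) ∞ M] (g : RMetric 2 M) (m : M) (r : ℝ), 0 < r →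
      ENNReal.ofReal r ≤ injRad g →
      ENNReal.ofReal (4 / Real.pi * r ^ 2) ≤ gvol g (gball g m r)

/-- KCS (short). From KG1 (universe 0), UPB: the exact value (`sphereVol 2 = 4π`:
`2 π^{3/2}/Γ(3/2)`, `Real.Gamma_three_half_eq`-like or `Γ(3/2) = sqrt π/2`). -/
def KCS_stmt : Prop := cstar 2 = ENNReal.ofReal (4 / Real.pi)

end Pool.Agent.CRO
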