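import Pool.Agent.helper58.CRO.SpecG
import Pool.Agent.helper58.CRO.SpecE

/-!
# MP_5bf3c3_gt, Theorem 6, block L: `c_n^* = Vol(S^n)/π^n` for all `n ≥ 2`

Paper proof: Pool/Agent/helper58/CRO/PROOF6.md.
Every `XX_stmt` is one row `cro:XX`; its complete proof is in its docstring.
-/

open scoped Manifold ContDiff Topology ENNReal
open MeasureTheory Set Bundle Filter

noncomputable section

namespace Pool.Agent.CRO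

universe u

variable {n : ℕ} {r0 : ℝ}

/-- `q(x) = 1 - (x/sqrt(1+x²))^{n-1}`. -/
def qf (n : ℕ) (x : ℝ) : ℝ := 1 - (x / Real.sqrt (1 + x ^ 2)) ^ (n - 1)

/-- `D(ε,s) = sqrt(ε²+s²)`. -/
def Df (ε s : ℝ) : ℝ := Real.sqrt (ε ^ 2 + s ^ 2)

/-- LGE (medium). From GFL, IBT, ICP, IME, IWN: the levels, with the bound of the length. As IGE (file IGE.lean of
helper73, import it and use its lemmas IGE_thr, IGE_P_full, IGE_M, IGE_P, IGE_TT, IGE_SLfin) with `Θ = 1`: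
`y k = n m_k/((1-e^n) kap(n-1))`, `m_k = ∫_{SL ∩ H_k} 1/(sp TT)`, `Lm k j = vol(SL ∩ H_k ∩ Sh_j)/(1-e^n)`. New: the last claim.
`Σ_j vol(SL ∩ H_k ∩ Sh_j) = vol(SL ∩ H_k)` (the shells are a partition of `SL`), and on `SL`: `sp TT = sp (β - α) ≤ 2R` (IWN), so
`vol(SL ∩ H_k) = ∫ 1 ≤ 2R ∫ 1/(sp TT) = 2R m_k`. -/
def LGE_stmt : Prop :=
  ∀ (n : ℕ) (r0 : ℝ) (𝒢 : NChart n r0) (L R : ℝ), 2 ≤ n → HasExp 𝒢 L → HasLen 𝒢 L → 0 < R →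
    R < r0 → 2 * R < L → ∀ N : ℕ, 1 ≤ N →
    ∃ (y : ℕ → ℝ) (Lm : ℕ → ℕ → ℝ), y 0 = 0 ∧ (∀ k, k + 1 < N → y k ≤ y (k + 1)) ∧
      (∀ k j, 1 ≤ k → k < j → j ≤ N → ∀ c ∈ Icc (0 : ℝ) 1,
        2 * kap (n - 1) * (R / N * y k / n - BTc n c * vv 𝒢 R N j) ≤ c * Lm k j) ∧
      (∀ k j, 1 ≤ j → j ≤ k → k < N → Lm k j = kap n * vv 𝒢 R N j) ∧
      ∀ k, 1 ≤ k → k < N → ∑ j ∈ Finset.Icc 1 N, Lm k j ≤ 2 * R * kap (n - 1) * y k / n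

/-- LVI (medium). From LGE, JON, JNU, JVL (positivity of `vv`): the level inequality (copy the proof of JGG, file JGG.lean of helper17,
without the function `B`). `A_k` = average of `g` on `[y_{k-1}, y_k]` for `1 ≤ k < N` (`g(y_k)` if `y_k = y_{k-1}`), `A_k = 0` for `k ≥ N`,
`A_0 = g 0`. `A` is antitone, `g(y_k) ≤ A_k ≤ g(y_{k-1})`. JON for each `j` (`v = vv_j > 0`, `Y = v/h`, `Lk k = Lm k j`), summed over `j`: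
the right sides are `Σ_j (Σ_{1≤k<j} (A_k - A_{k+1}) Lm k j + A_j kap n vv_j) = Σ_{k=1}^{N-1} (A_k - A_{k+1}) Σ_j Lm k j`
(`Lm k j = kap n vv_j` for `j ≤ k`, telescoping, `A_N = 0`) `≤ (2 R kap(n-1)/n) Σ_k (A_k - A_{k+1}) y_k =
(2 R kap(n-1)/n) Σ_k A_k (y_k - y_{k-1}) = (2 R kap(n-1)/n) ∫_0^{y_{N-1}} g`. The errors telescope:
`Σ_j vv_j (g(y_{j-1}) - A_j) ≤ mx g(0)`. Divide by `2 kap(n-1)/n`. -/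
def LVI_stmt : Prop :=
  ∀ (n : ℕ) (r0 : ℝ) (𝒢 : NChart n r0) (L R : ℝ), 2 ≤ n → HasExp 𝒢 L → HasLen 𝒢 L → 0 < R →
    R < r0 → 2 * R < L → ∀ (N : ℕ) (g : ℝ → ℝ) (mx : ℝ), 1 ≤ N → Antitone g → (∀ s, 0 ≤ g s) →
    IntegrableOn g (Ioi 0) → (∀ j ∈ Finset.Icc 1 N, vv 𝒢 R N j ≤ mx) →
      ((n : ℝ) - 1) * ∑ j ∈ Finset.Icc 1 N, vv 𝒢 R N j * ∫ φ in (0 : ℝ)..(Real.pi / 2),
            g (vv 𝒢 R N j / (R / N) * Real.sin φ ^ (n - 1)) * Real.sin φ ^ (n - 2) ≤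
        R * (∫ s in Ioi (0 : ℝ), g s) + ((n : ℝ) - 1) * cW n * mx * g 0

/-- LTF (short). From JF2: with `α = arctan(l/ε)`, `Ω = D(ε,l)`: `Ω cos α = ε`, `Ω sin α = l`, so
`Wf Ω α (Ω sin φ) = D(ε, l sin φ)` and `Wf Ω α Ω = Ω`; JF2 with its `l := Ω` (`Ω sin φ < Ω` except at `φ = π/2`),
`tr1 n α 1 = FPc n (π/2)/cW n = 1`. -/
def LTF_stmt : Prop :=
  ∀ n : ℕ, 2 ≤ n → ∀ ε l : ℝ, 0 < ε → 0 < l →
    ∫ φ in (0 : ℝ)..(Real.pi / 2), Real.sin φ ^ (n - 2) / Df ε (l * Real.sin φ) ^ n =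
      cW n / (ε * Df ε l ^ (n - 1))

/-- LIS (short-medium). `∫_0^∞ s^{n-2}/D(ε,s)^n ds = cW n/ε` (substitution `s = ε tan t`: `s^{n-2} D^{-n} ds =
ε^{-1} sin^{n-2} t dt`), and `∫_S^∞ s^{n-2} D^{-n} ≥ (D(ε,S)/S)^{-n} ∫_S^∞ s^{-2} = S^{n-1}/D(ε,S)^n` (`D(ε,s)/s` is decreasing). So
`∫_0^S s^{n-2} D^{-n} ≤ cW/ε - S^{n-1}/D(ε,S)^n`; and `∫_0^S s^{n-2} = S^{n-1}/(n-1)`. Alternative without improper integrals: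
`∫_0^S s^{n-2} D^{-n} = (1/ε) ∫_0^θ sin^{n-2}`, `θ = arctan(S/ε)`, and `∫_θ^{π/2} sin^{n-2} ≥ sin^{n-2} θ (π/2 - θ) ≥
sin^{n-2} θ cos θ` (`n ≥ 2`, the sine increases; `π/2 - θ ≥ sin(π/2-θ)`), `sin θ = S/D`, `cos θ = ε/D`. This gives
`≤ cW/ε - S^{n-2}/D^{n-1}`, and `S^{n-2}/D^{n-1} ≥ S^{n-1}/D^n`. -/
def LIS_stmt : Prop :=
  ∀ n : ℕ, 2 ≤ n → ∀ ε S : ℝ, 0 < ε → 0 < S →
    ∫ s in (0 : ℝ)..S, s ^ (n - 2) * (1 / Df ε s ^ n - 1 / Df ε S ^ n) ≤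
      cW n / ε - (n : ℝ) / ((n : ℝ) - 1) * (S ^ (n - 1) / Df ε S ^ n)

/-- LVS (medium). From LVI, LTF, LIS, JNU, JVL: (3) of PROOF6.md. `om = n kap n`, `h = R/N`, `vv_j = h om λ_j^{n-1}`
(`λ_j = lj`). LVI with `g(y) = max 0 (1/D(ε,s)^n - 1/D(ε,S)^n)`, `s = (max y 0/om)^{1/(n-1)}`: antitone, `≥ 0`, `g 0 ≤ ε^{-n}`, `g = 0` for
`y ≥ om S^{n-1}`, `∫_{Ioi 0} g = om ∫_0^S (n-1) s^{n-2} (1/D(ε,s)^n - 1/D(ε,S)^n) ds` (substitution `y = om s^{n-1}`).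
`vv_j/h sin^{n-1} φ = om (λ_j sin φ)^{n-1}`, so `g(..) ≥ 1/D(ε, λ_j sin φ)^n - 1/D(ε,S)^n` and (LTF) the integral over `φ` is
`≥ cW (1/(ε D(ε,λ_j)^{n-1}) - 1/D(ε,S)^n)`. Divide by `(n-1) om`. -/
def LVS_stmt : Prop :=
  ∀ (n : ℕ) (r0 : ℝ) (𝒢 : NChart n r0) (L R : ℝ), 2 ≤ n → HasExp 𝒢 L → HasLen 𝒢 L → 0 < R →
    R < r0 → 2 * R < L → ∀ (N : ℕ) (ε S mx : ℝ), 1 ≤ N → 0 < ε → 0 < S →
    (∀ j ∈ Finset.Icc 1 N, vv 𝒢 R N j ≤ mx) →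
      cW n * ∑ j ∈ Finset.Icc 1 N, R / N * (lj 𝒢 R N j ^ (n - 1) *
          (1 / (ε * Df ε (lj 𝒢 R N j) ^ (n - 1)) - 1 / Df ε S ^ n)) ≤
        R * (cW n / ε - (n : ℝ) / ((n : ℝ) - 1) * (S ^ (n - 1) / Df ε S ^ n)) +
          cW n * mx / (n * kap n * ε ^ n)

/-- LQI (short-medium). The function `q`. `x/sqrt(1+x²)` increases from `0` to `1`. `q(x) ≤ (n-1)/(2x²)`:
`(x/sqrt(1+x²))^{n-1} = (1+x^{-2})^{-(n-1)/2} ≥ 1 - ((n-1)/2) x^{-2}` (Bernoulli: `(x/sqrt(1+x²))^{n-1} ≥ 1 - (n-1)(1 - x/sqrt(1+x²))` and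
`1 - x/sqrt(1+x²) ≤ 1/(2x²)`). `∫_0^∞ q`: substitution `x = tan t`: `∫_0^{π/2} (1 - sin^{n-1} t)/cos² t dt`, with antiderivative
`(1 - sin^{n-1} t) tan t + (n-1) ∫_0^t sin^{n-1}`, i.e. `Q(x) = x q(x) + (n-1) ∫_0^{arctan x} sin^{n-1}` has `Q' = q`, `Q(0) = 0`,
`Q(∞) = (n-1) X0` (`x q(x) → 0`). (`q' x = -(n-1) sin^{n-2} t cos t dt/dx tan t`, `dt/dx = cos² t`.) -/
def LQI_stmt : Prop :=
  ∀ n : ℕ, 2 ≤ n → AntitoneOn (qf n) (Ici 0) ∧ (∀ x : ℝ, 0 ≤ x → 0 ≤ qf n x ∧ qf n x ≤ 1) ∧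
    (∀ x : ℝ, 0 < x → qf n x ≤ ((n : ℝ) - 1) / (2 * x ^ 2)) ∧
    IntegrableOn (qf n) (Ioi 0) ∧ ∫ x in Ioi (0 : ℝ), qf n x = ((n : ℝ) - 1) * X0 n

/-- LSH (short-medium). The shells (compare JVL, file JVL.lean of helper35). `vv_j = ∫_{(j-1)h ≤ ‖x‖ < jh} (det G)^{-1/2}`. The
function `(det G)^{-1/2}` is continuous on the open ball of radius `r0`, positive, `= 1` at `0`: it is `≥ c1 > 0` on the closed ball of radius `R`, and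
`≥ (1-δ)^{n-1}` on the ball of radius `ρ0`. The Euclidean volume of the shell is `kap n ((jh)^n - ((j-1)h)^n) ≥ n kap n h ((j-1)h)^{n-1}`.
So `lj^{n-1} = vv_j/(h n kap n) ≥ c1 ((j-1)h)^{n-1}`, resp. `≥ ((1-δ)(j-1)h)^{n-1}` if `jh ≤ ρ0`; take `(n-1)`-th roots. -/
def LSH_stmt : Prop :=
  ∀ (n : ℕ) (r0 : ℝ) (𝒢 : NChart n r0) (R : ℝ), 2 ≤ n → 0 < R → R < r0 →
    ∀ δ : ℝ, 0 < δ → δ < 1 → ∃ ρ0 c : ℝ, 0 < ρ0 ∧ 0 < c ∧ ∀ N j : ℕ, 1 ≤ N → j ∈ Finset.Icc 1 N →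
      c * (((j : ℝ) - 1) * (R / N)) ≤ lj 𝒢 R N j ∧
      ((j : ℝ) * (R / N) ≤ ρ0 → (1 - δ) * (((j : ℝ) - 1) * (R / N)) ≤ lj 𝒢 R N j)

/-- LSM (medium). From LQI, LSH: the sum of the errors. Choose `δ` with `(n-1) X0/(1-δ) ≤ (n-1) X0 + η/3`, `ρ0`, `c` of LSH.
`h = R/N`. `j = 1`: the term is `≤ h/ε`. `2 ≤ j`, `jh ≤ ρ0`: `q(λ_j/ε) ≤ q((1-δ)(j-1)h/ε)`, and for a nonincreasing `f ≥ 0`,
`Σ_{i ≥ 1} h f(ih) ≤ ∫_0^∞ f`, so these terms are at most `(1/ε) ∫_0^∞ q((1-δ)ρ/ε) dρ = (n-1) X0/(1-δ)`. `jh > ρ0`, `j ≥ 2`: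
`(j-1)h ≥ ρ0/2`, `q(λ_j/ε) ≤ (n-1) ε²/(2 c² (ρ0/2)²)`, sum `≤ C ε R ≤ η/3` for `ε < ε0`. Finally `h/ε ≤ η/3` for `N ≥ N0`. -/
def LSM_stmt : Prop :=
  ∀ (n : ℕ) (r0 : ℝ) (𝒢 : NChart n r0) (R : ℝ), 2 ≤ n → 0 < R → R < r0 → ∀ η : ℝ, 0 < η →
    ∃ ε0 : ℝ, 0 < ε0 ∧ ∀ ε : ℝ, 0 < ε → ε < ε0 → ∃ N0 : ℕ, ∀ N : ℕ, N0 ≤ N →
      ∑ j ∈ Finset.Icc 1 N, R / N * (qf n (lj 𝒢 R N j / ε) / ε) ≤ ((n : ℝ) - 1) * X0 n + η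

/-- LFI (medium). From LVS, LSM, JVL, JNU: the volume of the ball. `om = n kap n`, `T = 1/D(ε,S)^n`, `h = R/N`.
`λ^{n-1}/(ε D(ε,λ)^{n-1}) = (1 - q(λ/ε))/ε`, `Σ_j h = R`, `Σ_j h λ_j^{n-1} = Σ vv_j/om = VV R/om` (JVL), `mx = C h` (JVL). So LVS says
`R (n/(n-1)) S^{n-1} T ≤ cW Σ_j h q(λ_j/ε)/ε + cW T VV/om + cW C h/(om ε^n)`. LSM and `N → ∞`:
`R (n/(n-1)) S^{n-1} T ≤ cW ((n-1) X0 + η) + cW T VV/om`; `ε → 0` (`T → S^{-n}`), `η → 0`: `R (n/(n-1))/S ≤ π/2 + cW VV/(om S^n)`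
(`cW X0 = π/(2(n-1))`). With `S = 2R/π`: `cW VV/(om S^n) ≥ nπ/(2(n-1)) - π/2 = π/(2(n-1)) = cW X0`. -/
def LFI_stmt : Prop :=
  ∀ (n : ℕ) (r0 : ℝ) (𝒢 : NChart n r0) (L R : ℝ), 2 ≤ n → HasExp 𝒢 L → HasLen 𝒢 L → 0 < R →
    R < r0 → 2 * R < L → X0 n * (n * kap n) * (2 * R / Real.pi) ^ n ≤ VV 𝒢 R

/-- LGN (short). From LFI, JNU, NCH, EXM, GHL, VOA: the theorem for `r ≤ Inj/2` (copy KGN, file KGN.lean of helper53;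
`sphereVol n/2 = X0 n n kap n`, JNU). -/
def LGN_stmt : Prop :=
  ∀ n : ℕ, 2 ≤ n → ∀ (M : Type u) [TopologicalSpace M] [T2Space M]
    [CompactSpace M] [ConnectedSpace M] [ChartedSpace (En n) M] [IsManifold (𝓡 n) ∞ M]
    (g : RMetric n M) (m : M) (r : ℝ), 0 < r → ENNReal.ofReal (2 * r) ≤ injRad g →
      ENNReal.ofReal (sphereVol n / 2 * (2 * r / Real.pi) ^ n) ≤ gvol g (gball g m r)

/-- LG1 (short). From LGN, GDD: the theorem for `r ≤ Inj` (copy KG1, file KG1.lean of helper58). -/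
def LG1_stmt : Prop :=
  ∀ n : ℕ, 2 ≤ n → ∀ (M : Type u) [TopologicalSpace M] [T2Space M]
    [CompactSpace M] [ConnectedSpace M] [ChartedSpace (En n) M] [IsManifold (𝓡 n) ∞ M]
    (g : RMetric n M) (m : M) (r : ℝ), 0 < r → ENNReal.ofReal r ≤ injRad g →
      ENNReal.ofReal (sphereVol n * (r / Real.pi) ^ n) ≤ gvol g (gball g m r)

/-- LCS (short). From LG1 (universe 0), UPB: the exact value (copy KCS, file KCS.lean of helper97). -/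
def LCS_stmt : Prop :=
  ∀ n : ℕ, 2 ≤ n → cstar n = ENNReal.ofReal (sphereVol n / Real.pi ^ n)

end Pool.Agent.CRO
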